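import Pool.Agent.Lib.MP_05cdf2_gt.A.CFrame

/-! MP_05cdf2_gt, stream A (abstract cyclic step), job CKK: the sets `M ∈ KK`.

`KK_of_full`: `x0 ∈ Lam M`, frame `F` of `Lam M` (`exists_frame`, `subL_Lam`), `l` from `CSeq.exists_list`: `orb l = {c | ∃ i, c ∈ fr (F.x i)}`; this is `M`: `⊆` because
`F.x i ∈ Lam M`, `⊇` by `Full` and `Frame.fr_sub`.
`KK_sub`: `Coh M'` by `Coh.sub`; `Lam M'` is nonempty by `Full` and `M'.Nonempty`.
`KK_frame`: `KK_full`, `fr_sub`.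
`between`: `c ∈ M'`, so `c ∈ fr y'` for some `y' ∈ Lam M'` (`KK_full`). By `coh_ind` in `Lam M` (both `ind c y' = ind c p = 1`): `c ∈ fr (y' ⊔ p)` and `c ∈ fr (y' ⊓ p)`. `(y' ⊔ x) ⊓ y ∈ {x, y}`
(it is in `Lam M'`). If it is `x`: `y' ⊓ p ≤ (y' ⊔ x) ⊓ y = x ≤ p` so `c ∈ fr x` by `conv` (from `y' ⊓ p ≤ x ≤ p`). If it is `y`: `p ≤ y ≤ y' ⊔ x ≤ y' ⊔ p`, so `c ∈ fr y` by `conv`.
`between_seq`: `c ∈ fr (S.x k)`. If `k ≤ i`: `S.x k ≤ S.x i ≤ z`, `conv` gives `c ∈ fr (S.x i)`; if `i + 1 ≤ k`: `z ≤ S.x (i+1) ≤ S.x k`.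
`w_eq_of_cseq`: let `y ∈ Lam M`, `z = pt y i ∈ Lam M`; by `between_seq` `fr z ⊆ fr (x i) ∪ fr (x (i+1))`; `compl_mem` (`x i ≤ z ≤ x (i+1) ≤ t (x i)`) gives `z'` between with
`w z + w z' = w (x i) + w (x (i+1)) = 2 N` (sum of `ind` over a finset containing all the frontiers, or `w_md` with `z ⊓ z' = x i`, `z ⊔ z' = x (i+1)`); both `≥ N`, so `w z = N`.
So `w (pt y i) = N = w (pt (x 0) i)` for all `i` (`pt_self`), `tel_eq` for `w_md`.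
`orb_least`: `orb_subset`. -/

set_option autoImplicit false

namespace TorA
open Finsupp Tor
namespace HLat
variable {X C : Type} [Lattice X] [DecidableEq C] (H : HLat X C)

theorem KK_of_full {M : Set C} (hM : H.Coh M) (hne : (H.Lam M).Nonempty) (hf : H.Full M) :
    M ∈ H.KK := by
  obtain ⟨x0, hx0⟩ := hne
  have hL := H.subL_Lam hM
  obtain ⟨F, -⟩ := exists_frame hL hx0
  obtain ⟨l, hl, hlne, -, -, horb⟩ := F.toCSeq.exists_list hL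
  refine ⟨l, hl, hlne, ?_⟩
  rw [horb]
  ext c
  constructor
  · intro hc
    obtain ⟨y, hy, hcy⟩ := hf c hc
    exact F.fr_sub hL hy hcy
  · rintro ⟨i, hi⟩
    exact (F.mem i).2 c hi

theorem KK_sub {M M' : Set C} (hM : M ∈ H.KK) (h : M' ⊆ M) (hi : H.Inv M') (hne : M'.Nonempty)
    (hf : H.Full M') : M' ∈ H.KK := by
  obtain ⟨c, hc⟩ := hne
  obtain ⟨y, hy, -⟩ := hf c hc
  exact H.KK_of_full ((H.KK_coh hM).sub hi h) ⟨y, hy⟩ hf

theorem KK_nonempty {M : Set C} (hM : M ∈ H.KK) : M.Nonempty := by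
  obtain ⟨x, hx⟩ := H.KK_ne hM
  obtain ⟨c, hc⟩ := H.fr_ne x
  exact ⟨c, hx.2 c hc⟩

theorem KK_frame {M : Set C} (hM : M ∈ H.KK) (F : Frame H (H.Lam M)) {c : C} (hc : c ∈ M) :
    ∃ i, c ∈ H.fr (F.x i) := by
  obtain ⟨y, hy, hcy⟩ := H.KK_full hM c hc
  exact F.fr_sub (H.subL_Lam (H.KK_coh hM)) hy hcy

theorem between {M M' : Set C} (hM : M ∈ H.KK) (hM' : M' ∈ H.KK) (h : M' ⊆ M) {x y p : X}
    (hc : Cov (H.Lam M') x y) (hp : p ∈ H.Lam M) (h1 : x ≤ p) (h2 : p ≤ y) {c : C} (hcM : c ∈ M')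
    (hcp : c ∈ H.fr p) : c ∈ H.fr x ∨ c ∈ H.fr y := by
  have hC := H.KK_coh hM
  have hC' := H.KK_coh hM'
  obtain ⟨y', hy', hcy'⟩ := H.KK_full hM' c hcM
  have h3 := H.coh_ind hC (H.Lam_mono h hy') hp c
  rw [H.ind_eq_one.2 hcy', H.ind_eq_one.2 hcp] at h3
  have h4 := H.ind_le_one c (y' ⊔ p)
  have h5 := H.ind_le_one c (y' ⊓ p)
  have hs : c ∈ H.fr (y' ⊔ p) := H.ind_eq_one.1 (by omega)
  have hi : c ∈ H.fr (y' ⊓ p) := H.ind_eq_one.1 (by omega)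
  have hq : (y' ⊔ x) ⊓ y ∈ H.Lam M' := H.Lam_inf hC' (H.Lam_sup hC' hy' hc.1) hc.2.1
  rcases hc.2.2.2 _ hq (le_inf le_sup_right hc.2.2.1.le) inf_le_right with hq1 | hq1
  · left
    refine H.conv _ _ _ c ?_ h1 hi hcp
    rw [← hq1]
    exact le_inf (inf_le_left.trans le_sup_left) (inf_le_right.trans h2)
  · right
    refine H.conv _ _ _ c h2 ?_ hcp hs
    have h6 : y ≤ y' ⊔ x := by
      rw [← hq1]
      exact inf_le_left
    exact h6.trans (sup_le_sup_left h1 _)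

theorem between_seq {L : Set X} (S : CSeq H L) {z : X} {i : ℤ} (h1 : S.x i ≤ z) (h2 : z ≤ S.x (i + 1))
    {c : C} (hc : c ∈ H.fr z) (hS : ∃ k, c ∈ H.fr (S.x k)) :
    c ∈ H.fr (S.x i) ∨ c ∈ H.fr (S.x (i + 1)) := by
  obtain ⟨k, hk⟩ := hS
  rcases le_or_gt k i with h | h
  · exact Or.inl (H.conv _ _ _ c (S.mono h) h1 hk hc)
  · exact Or.inr (H.conv _ _ _ c h2 (S.mono (by omega : i + 1 ≤ k)) hc hk)

theorem w_eq_of_cseq {M : Set C} (hM : H.Coh M) (S : CSeq H (H.Lam M)) {N : ℕ}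
    (hw : ∀ i, H.w (S.x i) = N) (hS : ∀ c ∈ M, ∃ i, c ∈ H.fr (S.x i))
    (hge : ∀ i, ∀ z ∈ H.Lam M, S.x i ≤ z → z ≤ S.x (i + 1) → N ≤ H.w z) :
    ∀ y ∈ H.Lam M, H.w y = N := by
  intro y hy
  have hL := H.subL_Lam hM
  have key : ∀ i, H.w (S.pt y i) = N := by
    intro i
    have hz := S.pt_mem hL hy i
    have h1 := S.le_pt y i
    have h2 := S.pt_le y i
    obtain ⟨z', hz', a1, a2, a3, a4, -, -⟩ := H.compl_mem hM (S.mem i) hz (S.mem (i + 1)) h1 h2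
      (S.le_t i) fun c hc => H.between_seq S h1 h2 hc (hS c (hz.2 c hc))
    have h3 := hL.w_md (S.pt y i) hz z' hz'
    simp only [a3, a4, hw] at h3
    have h4 := hge i _ hz h1 h2
    have h5 := hge i _ hz' a1 a2
    omega
  have h1 := S.tel_eq hL hL.w_md hy (S.mem 0) fun i => by
    rw [key i, S.pt_self]
    split_ifs
    · rw [hw]
    · rw [hw]
  rw [hw] at h1
  exact_mod_cast h1

theorem HN_sub {M M' : Set C} {N : ℕ} (hM : M ∈ H.HN N) (h : M' ⊆ M) (hM' : M' ∈ H.KK) :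
    M' ∈ H.HN N := by
  exact ⟨hM', fun x hx => hM.2 x (H.Lam_mono h hx)⟩

theorem w_pos (x : X) : 1 ≤ H.w x := by
  exact Finset.card_pos.2 (H.fr_ne x)

end HLat
end TorA
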