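import Pool.Agent.Lib.MP_05cdf2_gt.A.TBi

/-! MP_05cdf2_gt, stream A, toolkit, job TRel: the two sided relation lemma (Dowker duality with acyclic fibres).

`T a b : a ∈ S, b ∈ S', Rel x y for all x ∈ a, y ∈ b`. Hypotheses: the fibres over the nonempty `a` (in `S'`) and over the nonempty
`b` (in `S`) are `Ac n`, and `S'` (the fibre over `a = []`) is `Ac n`. Conclusion: `S` is `Ac n`.
`colex`: if `X ∈ T_{p,q}`, `q < n`, `e2 X = 0`, then `X = e2 Y` with `Y ∈ T_{p,q+1}`: choose for every `a` with `T a []` a truncated contraction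
`s_a` of the fibre (`exists_pc`; fibres are closed under sublists) and let `S2` = linear extension of `(a, b) ↦ inA a (s_a b)`; then
`e2 (S2 X) + S2 (e2 X) = X` for `X ∈ T_{p,q}` (check on generators, `supp_eq`), so `Y = S2 X`.
`rowex`: the same in the first variable for `q ≥ 1` (`b ≠ []`).
`stair`: for all `p`: `X ∈ T_{p,q}`, `p + q < n`, `e1 X = 0`, `e2 X = 0` => exists `Y ∈ T_{p+1,q}`, `e1 Y = X`, `e2 Y = 0`. Induction on `p`.
 `X = e2 X'`, `X' ∈ T_{p,q+1}` (colex). If `p = 0` put `X'' = X'` (`e1 X' = 0`). If `p > 0`: `e1 X' ∈ T_{p-1,q+1}` has `e1 = 0`,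
 `e2 (e1 X') = e1 X = 0`, so by induction `e1 X' = e1 Z`, `e2 Z = 0`, `Z ∈ T_{p,q+1}`; `X'' = X' - Z`: `e2 X'' = X`, `e1 X'' = 0`.
 `rowex` (`p < n`, `q + 1 ≥ 1`): `X'' = e1 Y'`, `Y' ∈ T_{p+1,q+1}`. `Y = e2 Y'`: `e1 Y = e2 (e1 Y') = X`, `e2 Y = 0`.
`Ac_rel`: for a cycle `z` of `S` apply `stair` to `inB [] z` (`q = 0`) and project back (`e1_inB`; `Finsupp.mapDomain` with
`Prod.fst`, or injectivity of `inB []` and the fact that `T_{m+1,0}` is the image of `inB []`). -/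

set_option autoImplicit false

namespace TorA
open Finsupp Tor

variable {α β : Type}

/-- the relation on lists -/
def RT (S : Set (List α)) (S' : Set (List β)) (Rel : α → β → Prop) (a : List α) (b : List β) : Prop :=
  a ∈ S ∧ b ∈ S' ∧ ∀ x ∈ a, ∀ y ∈ b, Rel x y

/-- fibre in the second variable -/
def TRel_FB (S' : Set (List β)) (Rel : α → β → Prop) (a : List α) : Set (List β) :=
  {b | b ∈ S' ∧ ∀ x ∈ a, ∀ y ∈ b, Rel x y}

/-- fibre in the first variable -/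
def TRel_FA (S : Set (List α)) (Rel : α → β → Prop) (b : List β) : Set (List α) :=
  {a | a ∈ S ∧ ∀ x ∈ a, ∀ y ∈ b, Rel x y}

theorem TRel_FB_closed {S' : Set (List β)} (hS' : Closed S') (Rel : α → β → Prop) (a : List α) :
    Closed (TRel_FB S' Rel a) := by
  rintro b ⟨h1, h2⟩ b' hb'
  exact ⟨hS' b h1 b' hb', fun x hx y hy => h2 x hx y (hb'.subset hy)⟩

theorem TRel_FA_closed {S : Set (List α)} (hS : Closed S) (Rel : α → β → Prop) (b : List β) :
    Closed (TRel_FA S Rel b) := by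
  rintro a ⟨h1, h2⟩ a' ha'
  exact ⟨hS a h1 a' ha', fun x hx y hy => h2 x (ha'.subset hx) y hy⟩

theorem TRel_cl1 {S : Set (List α)} {S' : Set (List β)} (hS : Closed S) {Rel : α → β → Prop} :
    ∀ a b a', RT S S' Rel a b → a'.Sublist a → RT S S' Rel a' b := by
  rintro a b a' ⟨h1, h2, h3⟩ h
  exact ⟨hS a h1 a' h, h2, fun x hx y hy => h3 x (h.subset hx) y hy⟩

theorem TRel_cl2 {S : Set (List α)} {S' : Set (List β)} (hS' : Closed S') {Rel : α → β → Prop} :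
    ∀ a b b', RT S S' Rel a b → b'.Sublist b → RT S S' Rel a b' := by
  rintro a b b' ⟨h1, h2, h3⟩ h
  exact ⟨h1, hS' b h2 b' h, fun x hx y hy => h3 x hx y (h.subset hy)⟩

/-- exactness in the second variable -/
theorem TRel_colex {S : Set (List α)} {S' : Set (List β)} (hS' : Closed S') {Rel : α → β → Prop} {n : ℕ}
    (h : ∀ a ∈ S, Ac (TRel_FB S' Rel a) n) {p q : ℕ} (hq : q < n) {X : C2 α β}
    (hX : X ∈ Finsupp.supported ℤ ℤ (Ln2 (RT S S' Rel) p q)) (hX0 : e2 X = 0) :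
    ∃ Y ∈ Finsupp.supported ℤ ℤ (Ln2 (RT S S' Rel) p (q + 1)), e2 Y = X := by
  classical
  have hs : ∀ a : List α, ∃ s : Ch β →ₗ[ℤ] Ch β, a ∈ S → IsPC (TRel_FB S' Rel a) n s := by
    intro a
    by_cases ha : a ∈ S
    · obtain ⟨s, hs⟩ := exists_pc (TRel_FB_closed hS' Rel a) (h a ha)
      exact ⟨s, fun _ => hs⟩
    · exact ⟨0, fun h2 => absurd h2 ha⟩
  choose s hs using hs
  set S2 : C2 α β →ₗ[ℤ] C2 α β :=
    Finsupp.linearCombination ℤ (fun x => inA β x.1 (s x.1 (single x.2 1))) with hS2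
  have hS2s : ∀ a b, S2 (single (a, b) 1) = inA β a (s a (single b 1)) := by
    intro a b
    simp [hS2]
  have hS2i : ∀ a c, S2 (inA β a c) = inA β a (s a c) := by
    intro a c
    have h1 : S2 ∘ₗ inA β a = (inA β a) ∘ₗ (s a) := by
      apply lin_ext
      intro b
      rw [LinearMap.comp_apply, LinearMap.comp_apply, inA_single, hS2s]
    exact LinearMap.congr_fun h1 c
  refine ⟨S2 X, ?_, ?_⟩
  · refine supp_map S2 _ ?_ hX
    rintro ⟨a, b⟩ ⟨⟨ha, hb, hab⟩, hp, hq2⟩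
    rw [hS2s]
    have h1 := ((hs a ha) b ⟨hb, hab⟩ (by simp only at hq2; omega)).1
    refine map_Sup (inA β a) _ ?_ h1
    rintro b' ⟨⟨hb1, hb2⟩, hl⟩
    rw [inA_single]
    refine Finsupp.single_mem_supported ℤ 1 ?_
    exact ⟨⟨ha, hb1, hb2⟩, hp, by simp only at hq2 ⊢; omega⟩
  · have h1 : (e2 ∘ₗ S2 + S2 ∘ₗ e2) X = (LinearMap.id : C2 α β →ₗ[ℤ] C2 α β) X := by
      refine supp_eq _ _ ?_ hX
      rintro ⟨a, b⟩ ⟨⟨ha, hb, hab⟩, hp, hq2⟩
      rw [LinearMap.add_apply, LinearMap.comp_apply, LinearMap.comp_apply, hS2s, e2_inA, e2_single,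
        hS2i, ← map_add, ((hs a ha) b ⟨hb, hab⟩ (by simp only at hq2; omega)).2, inA_single]
      rfl
    rw [LinearMap.add_apply, LinearMap.comp_apply, LinearMap.comp_apply, hX0, map_zero, add_zero] at h1
    exact h1

/-- exactness in the first variable -/
theorem TRel_rowex {S : Set (List α)} {S' : Set (List β)} (hS : Closed S) {Rel : α → β → Prop} {n : ℕ}
    (h : ∀ b ∈ S', b ≠ [] → Ac (TRel_FA S Rel b) n) {p q : ℕ} (hp : p < n) {X : C2 α β}
    (hX : X ∈ Finsupp.supported ℤ ℤ (Ln2 (RT S S' Rel) p (q + 1))) (hX0 : e1 X = 0) :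
    ∃ Y ∈ Finsupp.supported ℤ ℤ (Ln2 (RT S S' Rel) (p + 1) (q + 1)), e1 Y = X := by
  classical
  have hs : ∀ b : List β, ∃ s : Ch α →ₗ[ℤ] Ch α, b ∈ S' → b ≠ [] → IsPC (TRel_FA S Rel b) n s := by
    intro b
    by_cases hb : b ∈ S' ∧ b ≠ []
    · obtain ⟨s, hs⟩ := exists_pc (TRel_FA_closed hS Rel b) (h b hb.1 hb.2)
      exact ⟨s, fun _ _ => hs⟩
    · exact ⟨0, fun h2 h3 => absurd ⟨h2, h3⟩ hb⟩
  choose s hs using hs
  set S1 : C2 α β →ₗ[ℤ] C2 α β :=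
    Finsupp.linearCombination ℤ (fun x => inB α x.2 (s x.2 (single x.1 1))) with hS1
  have hS1s : ∀ a b, S1 (single (a, b) 1) = inB α b (s b (single a 1)) := by
    intro a b
    simp [hS1]
  have hS1i : ∀ b c, S1 (inB α b c) = inB α b (s b c) := by
    intro b c
    have h1 : S1 ∘ₗ inB α b = (inB α b) ∘ₗ (s b) := by
      apply lin_ext
      intro a
      rw [LinearMap.comp_apply, LinearMap.comp_apply, inB_single, hS1s]
    exact LinearMap.congr_fun h1 c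
  have hne : ∀ b : List β, b.length = q + 1 → b ≠ [] := by
    intro b hb h0
    rw [h0] at hb
    simp at hb
  refine ⟨S1 X, ?_, ?_⟩
  · refine supp_map S1 _ ?_ hX
    rintro ⟨a, b⟩ ⟨⟨ha, hb, hab⟩, hp2, hq2⟩
    rw [hS1s]
    have h1 := ((hs b hb (hne b hq2)) a ⟨ha, hab⟩ (by simp only at hp2; omega)).1
    refine map_Sup (inB α b) _ ?_ h1
    rintro a' ⟨⟨ha1, ha2⟩, hl⟩
    rw [inB_single]
    refine Finsupp.single_mem_supported ℤ 1 ?_
    exact ⟨⟨ha1, hb, ha2⟩, by simp only at hp2 ⊢; omega, hq2⟩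
  · have h1 : (e1 ∘ₗ S1 + S1 ∘ₗ e1) X = (LinearMap.id : C2 α β →ₗ[ℤ] C2 α β) X := by
      refine supp_eq _ _ ?_ hX
      rintro ⟨a, b⟩ ⟨⟨ha, hb, hab⟩, hp2, hq2⟩
      rw [LinearMap.add_apply, LinearMap.comp_apply, LinearMap.comp_apply, hS1s, e1_inB, e1_single,
        hS1i, ← map_add, ((hs b hb (hne b hq2)) a ⟨ha, hab⟩ (by simp only at hp2; omega)).2, inB_single]
      rfl
    rw [LinearMap.add_apply, LinearMap.comp_apply, LinearMap.comp_apply, hX0, map_zero, add_zero] at h1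
    exact h1

/-- the staircase -/
theorem TRel_stair {S : Set (List α)} {S' : Set (List β)} (hS : Closed S) (hS' : Closed S')
    {Rel : α → β → Prop} {n : ℕ} (h1 : ∀ a ∈ S, Ac (TRel_FB S' Rel a) n)
    (h2 : ∀ b ∈ S', b ≠ [] → Ac (TRel_FA S Rel b) n) :
    ∀ (p q : ℕ) (X : C2 α β), X ∈ Finsupp.supported ℤ ℤ (Ln2 (RT S S' Rel) p q) → p + q < n →
      e1 X = 0 → e2 X = 0 →
      ∃ Y ∈ Finsupp.supported ℤ ℤ (Ln2 (RT S S' Rel) (p + 1) q), e1 Y = X ∧ e2 Y = 0 := by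
  intro p
  induction p with
  | zero =>
    intro q X hX hpq hX1 hX2
    obtain ⟨X', hX', hX'e⟩ := TRel_colex hS' h1 (by omega) hX hX2
    have hX'0 : e1 X' = 0 := e1_zero hX'
    obtain ⟨Y', hY', hY'e⟩ := TRel_rowex hS h2 (by omega) hX' hX'0
    refine ⟨e2 Y', e2_mem (TRel_cl2 hS') hY', ?_, e2_e2 Y'⟩
    rw [e1_e2, hY'e, hX'e]
  | succ p ih =>
    intro q X hX hpq hX1 hX2
    obtain ⟨X', hX', hX'e⟩ := TRel_colex hS' h1 (by omega) hX hX2
    obtain ⟨Z, hZ, hZ1, hZ2⟩ := ih (q + 1) (e1 X') (e1_mem (TRel_cl1 hS) hX') (by omega) (e1_e1 X')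
      (by rw [← e1_e2, hX'e, hX1])
    have hW : X' - Z ∈ Finsupp.supported ℤ ℤ (Ln2 (RT S S' Rel) (p + 1) (q + 1)) :=
      Submodule.sub_mem _ hX' hZ
    have hW1 : e1 (X' - Z) = 0 := by rw [map_sub, hZ1, sub_self]
    have hW2 : e2 (X' - Z) = X := by rw [map_sub, hZ2, hX'e, sub_zero]
    obtain ⟨Y', hY', hY'e⟩ := TRel_rowex hS h2 (by omega) hW hW1
    refine ⟨e2 Y', e2_mem (TRel_cl2 hS') hY', ?_, e2_e2 Y'⟩
    rw [e1_e2, hY'e, hW2]

/-- projection to the first variable -/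
noncomputable def TRel_pr (α β : Type) : C2 α β →ₗ[ℤ] Ch α := Finsupp.lmapDomain ℤ ℤ Prod.fst

theorem TRel_pr_single (a : List α) (b : List β) : TRel_pr α β (single (a, b) 1) = single a 1 := by
  simp [TRel_pr]

theorem TRel_pr_inB (b : List β) (c : Ch α) : TRel_pr α β (inB α b c) = c := by
  have h1 : (TRel_pr α β) ∘ₗ (inB α b) = LinearMap.id := by
    apply lin_ext
    intro a
    rw [LinearMap.comp_apply, inB_single, TRel_pr_single]
    rfl
  exact LinearMap.congr_fun h1 c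

theorem TRel_pr_e1 (Y : C2 α β) : TRel_pr α β (e1 Y) = bd (TRel_pr α β Y) := by
  have h1 : (TRel_pr α β) ∘ₗ e1 = bd ∘ₗ (TRel_pr α β) := by
    apply lin_ext
    rintro ⟨a, b⟩
    rw [LinearMap.comp_apply, LinearMap.comp_apply, e1_single, TRel_pr_inB, TRel_pr_single, bd_single,
      one_smul]
  exact LinearMap.congr_fun h1 Y

theorem Ac_rel (S : Set (List α)) (S' : Set (List β)) (hS : Closed S) (hS' : Closed S') (h0 : [] ∈ S')
    (Rel : α → β → Prop) {n : ℕ}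
    (h1 : ∀ a ∈ S, a ≠ [] → Ac {b | b ∈ S' ∧ ∀ x ∈ a, ∀ y ∈ b, Rel x y} n)
    (h2 : ∀ b ∈ S', b ≠ [] → Ac {a | a ∈ S ∧ ∀ x ∈ a, ∀ y ∈ b, Rel x y} n)
    (h3 : Ac S' n) : Ac S n := by
  intro m hm z hz hz0
  have h1' : ∀ a ∈ S, Ac (TRel_FB S' Rel a) n := by
    intro a ha
    by_cases h : a = []
    · have e : TRel_FB S' Rel a = S' := by
        ext b
        subst h
        simp [TRel_FB]
      rw [e]
      exact h3
    · exact h1 a ha h
  have hX : inB α [] z ∈ Finsupp.supported ℤ ℤ (Ln2 (RT S S' Rel) m 0) := by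
    refine map_Sup (inB α ([] : List β)) _ ?_ hz
    rintro a ⟨ha, hl⟩
    rw [inB_single]
    refine Finsupp.single_mem_supported ℤ 1 ?_
    exact ⟨⟨ha, h0, by simp⟩, hl, rfl⟩
  obtain ⟨Y, hY, hY1, -⟩ := TRel_stair hS hS' h1' h2 m 0 (inB α [] z) hX (by omega)
    (by rw [e1_inB, hz0, map_zero]) (e2_zero hX)
  refine ⟨TRel_pr α β Y, ?_, ?_⟩
  · refine supp_map (TRel_pr α β) _ ?_ hY
    rintro ⟨a, b⟩ ⟨⟨ha, hb, hab⟩, hp, hq⟩
    rw [TRel_pr_single]
    exact Finsupp.single_mem_supported ℤ 1 ⟨ha, hp⟩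
  · rw [← TRel_pr_e1, hY1, TRel_pr_inB]

end TorA
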