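import Pool.Agent.Lib.MP_05cdf2_gt.A.CZero
import Pool.Agent.Lib.MP_05cdf2_gt.A.CKK
import Pool.Agent.Lib.MP_05cdf2_gt.A.TRel

/-! MP_05cdf2_gt, stream A (abstract cyclic step), job CBridge: `Po KK` is acyclic; from `Po (HN 1)` to the lists of curves.

`Lam_zero`: `M ∈ KK`: `Fl R {x | x ∈ Lam M ∧ J x = 0}` is `AcI`: `zero_acI` with `Y = Lam M` (`Lam_sup`, `Lam_inf`, `Lam_T`, `KK_coh`, `KK_ne`); the sets `{x | x ∈ Lam M ∧ x ≤ t x ∧ J x = 0}` are equal.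
`KK_acI`: `Ac_rel` with `S = Po KK`, `S' = Fl R {x | x ≤ t x ∧ J x = 0}`, `Rel M x : x ∈ Lam M`. `h1`: `a = [M_0, ..]` nonempty, `M_0` is the smallest entry, the fibre is `Fl R {x | x ∈ Lam M_0 ∧ J x = 0}` (`Lam_mono`). `h2`: `b ∈ S'` nonempty: `b ∈ Cy`; the fibre is
`Po {M ∈ KK | ∀ x ∈ b, x ∈ Lam M}`, minimum `orb b ∈ KK` (`mem_Lam_orb`, `orb_subset`, `KK_coh`): `AcI_of_min`. `h3`: `zero_acI` with `Y = Set.univ` (field `base`).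
`orb_HN1`: `l ∈ Cy`, `l ≠ []`, all `w x = 1`: `orb l ∈ HN 1`: `exists_cseq` in `Lam (orb l)`, `w_eq_of_cseq` with `N = 1` (`w_T`; `hS`: a curve of `orb l` is in `fr (T k x)`, `x ∈ l`, `x = S.x i`, `T k x = S.x (i + k n)` (`per_T`); `hge`: `w_pos`).
`bridge`: `Ac_rel` with `S = Fl R {x | J x = 0 ∧ x ≤ t x ∧ w x = 1}`, `S' = Po (HN 1)`, `Rel x M : x ∈ Lam M`. `h1`: `a ∈ S` nonempty: the fibre is `Po {M ∈ HN 1 | ∀ x ∈ a, x ∈ Lam M}`, minimum `orb a` (`orb_HN1`). `h2`: `b = [M_0, ...]` nonempty: the fibre is the set of lists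
`Fl R {x | x ∈ Lam M_0 ∧ J x = 0}` (`w = 1` on `Lam M_0`, and `Lam_mono`): `Lam_zero`. -/

set_option autoImplicit false

namespace TorA
open Finsupp Tor
namespace HLat
variable {X C : Type} [Lattice X] [DecidableEq C] (H : HLat X C)

omit [DecidableEq C] in
theorem CBridge_first {M0 : Set C} {r : List (Set C)} {P : Set (Set C)} (h : (M0 :: r) ∈ Po P) :
    ∀ M ∈ M0 :: r, M0 ⊆ M := by
  intro M hM
  rcases List.mem_cons.1 hM with h1 | h1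
  · rw [h1]
  · exact (List.pairwise_cons.1 h.1).1 M h1

theorem Lam_zero {M : Set C} (hM : M ∈ H.KK) : AcI (Fl H.R {x | x ∈ H.Lam M ∧ H.J x = 0}) := by
  have hc := H.KK_coh hM
  have h := H.zero_acI (Y := H.Lam M) (fun x hx y hy => H.Lam_sup hc hx hy)
    (fun x hx y hy => H.Lam_inf hc hx hy) (fun x hx k => H.Lam_T hc.1 hx k)
    (by
      obtain ⟨b, hb⟩ := H.KK_ne hM
      exact ⟨b, hb, hb.1⟩)
  have e : {x | x ∈ H.Lam M ∧ x ≤ H.t x ∧ H.J x = 0} = {x | x ∈ H.Lam M ∧ H.J x = 0} := by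
    ext x
    constructor
    · rintro ⟨h1, -, h2⟩
      exact ⟨h1, h2⟩
    · rintro ⟨h1, h2⟩
      exact ⟨h1, h1.1, h2⟩
  rwa [e] at h

theorem KK_acI : AcI (Po H.KK) := by
  intro n
  refine Ac_rel (Po H.KK) (Fl H.R {x | x ≤ H.t x ∧ H.J x = 0}) (Po_closed _) (Fl_closed _ _)
    (nil_mem_Fl _ _) (fun M x => x ∈ H.Lam M) ?_ ?_ ?_
  · intro a ha hne
    cases a with
    | nil => exact absurd rfl hne
    | cons M0 r =>
      have hM0 : M0 ∈ H.KK := ha.2 M0 List.mem_cons_self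
      have hf := CBridge_first ha
      have e : {b | b ∈ Fl H.R {x | x ≤ H.t x ∧ H.J x = 0} ∧
          ∀ M ∈ M0 :: r, ∀ x ∈ b, x ∈ H.Lam M} = Fl H.R {x | x ∈ H.Lam M0 ∧ H.J x = 0} := by
        ext b
        constructor
        · rintro ⟨⟨h1, h2⟩, h3⟩
          exact ⟨h1, fun x hx => ⟨h3 M0 List.mem_cons_self x hx, (h2 x hx).2⟩⟩
        · rintro ⟨h1, h2⟩
          exact ⟨⟨h1, fun x hx => ⟨(h2 x hx).1.1, (h2 x hx).2⟩⟩,
            fun M hM x hx => H.Lam_mono (hf M hM) (h2 x hx).1⟩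
      rw [e]
      exact H.Lam_zero hM0 n
  · intro b hb hne
    have hbC : b ∈ H.Cy := ⟨hb.1, fun x hx => (hb.2 x hx).1⟩
    have e : {a | a ∈ Po H.KK ∧ ∀ M ∈ a, ∀ x ∈ b, x ∈ H.Lam M} =
        Po {M | M ∈ H.KK ∧ ∀ x ∈ b, x ∈ H.Lam M} := by
      ext a
      constructor
      · rintro ⟨⟨h1, h2⟩, h3⟩
        exact ⟨h1, fun M hM => ⟨h2 M hM, h3 M hM⟩⟩
      · rintro ⟨h1, h2⟩
        exact ⟨⟨h1, fun M hM => (h2 M hM).1⟩, fun M hM => (h2 M hM).2⟩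
    rw [e]
    have hA : AcI (Po {M | M ∈ H.KK ∧ ∀ x ∈ b, x ∈ H.Lam M}) :=
      AcI_of_min (H.orb b) ⟨⟨b, hbC, hne, rfl⟩, fun x hx => H.mem_Lam_orb hbC hx⟩
        (fun M hM => H.orb_subset (H.KK_coh hM.1).1 hM.2)
    exact hA n
  · have h := H.zero_acI (Y := Set.univ) (fun _ _ _ _ => Set.mem_univ _)
      (fun _ _ _ _ => Set.mem_univ _) (fun _ _ _ => Set.mem_univ _)
      (by
        obtain ⟨b, hb⟩ := H.base
        exact ⟨b, Set.mem_univ _, hb⟩) n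
    have e : {x | x ∈ Set.univ ∧ x ≤ H.t x ∧ H.J x = 0} = {x | x ≤ H.t x ∧ H.J x = 0} := by
      ext x
      constructor
      · rintro ⟨-, h1⟩
        exact h1
      · intro h1
        exact ⟨Set.mem_univ _, h1⟩
    rwa [e] at h

theorem orb_HN1 {l : List X} (hl : l ∈ H.Cy) (hne : l ≠ []) (hw : ∀ x ∈ l, H.w x = 1) :
    H.orb l ∈ H.HN 1 := by
  have hK : H.orb l ∈ H.KK := ⟨l, hl, hne, rfl⟩
  have hc := H.KK_coh hK
  refine ⟨hK, ?_⟩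
  obtain ⟨S, hS1, hS2⟩ := exists_cseq (H.subL_Lam hc) hl hne (fun x hx => H.mem_Lam_orb hl hx)
  refine H.w_eq_of_cseq hc S (fun i => ?_) (fun c hcM => ?_) (fun i z _ _ _ => H.w_pos z)
  · obtain ⟨x, hx, k, hk⟩ := hS2 i
    rw [hk, H.w_T]
    exact hw x hx
  · obtain ⟨z, hz, k, hk⟩ := hcM
    obtain ⟨i, hi⟩ := hS1 z hz
    refine ⟨i + (-k) * S.n, ?_⟩
    rw [S.per_T, H.fr_T', neg_neg, hi]
    exact hk

theorem bridge {n : ℕ} (h : Ac (Po (H.HN 1)) n) :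
    Ac (Fl H.R {x | H.J x = 0 ∧ x ≤ H.t x ∧ H.w x = 1}) n := by
  refine Ac_rel (Fl H.R {x | H.J x = 0 ∧ x ≤ H.t x ∧ H.w x = 1}) (Po (H.HN 1)) (Fl_closed _ _)
    (Po_closed _) (nil_mem_Fl _ _) (fun x M => x ∈ H.Lam M) ?_ ?_ h
  · intro a ha hne
    have haC : a ∈ H.Cy := ⟨ha.1, fun x hx => (ha.2 x hx).2.1⟩
    have hN := H.orb_HN1 haC hne (fun x hx => (ha.2 x hx).2.2)
    have e : {b | b ∈ Po (H.HN 1) ∧ ∀ x ∈ a, ∀ M ∈ b, x ∈ H.Lam M} =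
        Po {M | M ∈ H.HN 1 ∧ ∀ x ∈ a, x ∈ H.Lam M} := by
      ext b
      constructor
      · rintro ⟨⟨h1, h2⟩, h3⟩
        exact ⟨h1, fun M hM => ⟨h2 M hM, fun x hx => h3 x hx M hM⟩⟩
      · rintro ⟨h1, h2⟩
        exact ⟨⟨h1, fun M hM => (h2 M hM).1⟩, fun x hx M hM => (h2 M hM).2 x hx⟩
    rw [e]
    have hA : AcI (Po {M | M ∈ H.HN 1 ∧ ∀ x ∈ a, x ∈ H.Lam M}) :=
      AcI_of_min (H.orb a) ⟨hN, fun x hx => H.mem_Lam_orb haC hx⟩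
        (fun M hM => H.orb_subset (H.KK_coh hM.1.1).1 hM.2)
    exact hA n
  · intro b hb hne
    cases b with
    | nil => exact absurd rfl hne
    | cons M0 r =>
      have hM0 : M0 ∈ H.HN 1 := hb.2 M0 List.mem_cons_self
      have hf := CBridge_first hb
      have e : {a | a ∈ Fl H.R {x | H.J x = 0 ∧ x ≤ H.t x ∧ H.w x = 1} ∧
          ∀ x ∈ a, ∀ M ∈ M0 :: r, x ∈ H.Lam M} = Fl H.R {x | x ∈ H.Lam M0 ∧ H.J x = 0} := by
        ext a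
        constructor
        · rintro ⟨⟨h1, h2⟩, h3⟩
          exact ⟨h1, fun x hx => ⟨h3 x hx M0 List.mem_cons_self, (h2 x hx).1⟩⟩
        · rintro ⟨h1, h2⟩
          exact ⟨⟨h1, fun x hx => ⟨(h2 x hx).2, (h2 x hx).1.1, hM0.2 x (h2 x hx).1⟩⟩,
            fun x hx M hM => H.Lam_mono (hf M hM) (h2 x hx).1⟩
      rw [e]
      exact H.Lam_zero hM0.1 n

end HLat
end TorA
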