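import Pool.Agent.Lib.MP_05cdf2_gt.A.CLam

/-! MP_05cdf2_gt, stream A (abstract cyclic step), job CCov: covers in a shift invariant sublattice `L` (`SubL L`).

`exists_cov`: among the `z ∈ L` with `x < z ≤ y` choose one with minimal `rho z` (integers bounded below by `rho x`; `rho_lt`); it covers `x`.
`exists_cov'`: dually (maximal `rho`). `cov_T`: `T k` is an order automorphism preserving `L` (field `shift`).
`cov_le_t`: Let `u = T (-1) y ⊔ x ∈ L`; `T (-1) y ≤ y` (good), so `x ≤ u ≤ y`. If `u = x` then `T (-1) y ≤ x`, so `y ≤ t x`. If `u = y`: the element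
 `T (-1) y ⊓ x ∈ L` is between `T (-1) x` and `T (-1) y`, a cover; if it is `T (-1) y` then `T (-1) y ≤ x`, done as before; if it is
 `T (-1) x` then by modularity of `ind c`: `ind c y - ind c x = ind c (T (-1) y) - ind c (T (-1) x) = ind (tc c) y - ind (tc c) x`. So
 `δ c = ind c y - ind c x` is invariant under `tc`, but only finitely many translates of `c` are in `fr x ∪ fr y` (`free`), so `δ = 0` and `x = y`
 (`eq_of_ind`), a contradiction.
`cov_proj`: Let `s = x ⊔ a`. `y ⊓ s ∈ {x, y}`. If it is `y` then `y ⊔ a = s` and the two sides are equal. If it is `x`: for modular `v`,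
 `v (y ⊔ a) - v s = v y - v x` (`y ⊔ s = y ⊔ a`), and (by `modular`) `y ⊔ a` covers `s` in `L`: if `s ≤ u ≤ y ⊔ a = s ⊔ y` then `u ⊓ y ∈ {x, y}`
 (it is between `x` and `y`), and `u = u ⊓ (s ⊔ y) = s ⊔ (y ⊓ u)`. Then `(s ⊔ ((y ⊔ a) ⊓ b)) ∈ {s, y ⊔ a}`: if it is `s` then
 `(y ⊔ a) ⊓ b ≤ s`, so both sides are equal; otherwise `v ((y ⊔ a) ⊓ b) - v (s ⊓ b) = v (y ⊔ a) - v s` (note `s ⊓ ((y ⊔ a) ⊓ b) = s ⊓ b`).
`exists_cov_leave`: choose `p ∈ L`, `x ≤ p ≤ y`, `c ∈ fr p` with maximal `rho p`; `p ≠ y`; take a cover `q ≤ y` of `p`.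
`chain`: induction on `(rho y - rho x).toNat` with `exists_cov`. -/

set_option autoImplicit false

namespace TorA
open Finsupp Tor
namespace HLat
variable {X C : Type} [Lattice X] [DecidableEq C] {H : HLat X C} {L : Set X}

theorem CCov_rho_le {x y : X} (h : x ≤ y) : H.rho x ≤ H.rho y := by
  rcases eq_or_lt_of_le h with h | h
  · rw [h]
  · exact (H.rho_lt x y h).le

theorem SubL.exists_cov (hL : H.SubL L) {x y : X} (hx : x ∈ L) (hy : y ∈ L) (h : x < y) :
    ∃ z, Cov L x z ∧ z ≤ y := by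
  obtain ⟨z, ⟨hzL, hxz, hzy⟩, hmin⟩ := (measure (fun z => (H.rho z - H.rho x).toNat)).wf.has_min
    {z | z ∈ L ∧ x < z ∧ z ≤ y} ⟨y, hy, h, le_refl y⟩
  refine ⟨z, ⟨hx, hzL, hxz, fun u hu hxu huz => ?_⟩, hzy⟩
  by_contra hcon
  push Not at hcon
  have h1 : x < u := lt_of_le_of_ne hxu (Ne.symm hcon.1)
  have h2 : u < z := lt_of_le_of_ne huz hcon.2
  refine hmin u ⟨hu, h1, huz.trans hzy⟩ ?_
  show (H.rho u - H.rho x).toNat < (H.rho z - H.rho x).toNat
  have h3 := H.rho_lt _ _ h1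
  have h4 := H.rho_lt _ _ h2
  omega

theorem SubL.exists_cov' (hL : H.SubL L) {x y : X} (hx : x ∈ L) (hy : y ∈ L) (h : x < y) :
    ∃ z, Cov L z y ∧ x ≤ z := by
  obtain ⟨z, ⟨hzL, hzy, hxz⟩, hmin⟩ := (measure (fun z => (H.rho y - H.rho z).toNat)).wf.has_min
    {z | z ∈ L ∧ z < y ∧ x ≤ z} ⟨x, hx, h, le_refl x⟩
  refine ⟨z, ⟨hzL, hy, hzy, fun u hu hzu huy => ?_⟩, hxz⟩
  by_contra hcon
  push Not at hcon
  have h1 : z < u := lt_of_le_of_ne hzu (Ne.symm hcon.1)
  have h2 : u < y := lt_of_le_of_ne huy hcon.2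
  refine hmin u ⟨hu, h2, hxz.trans hzu⟩ ?_
  show (H.rho y - H.rho u).toNat < (H.rho y - H.rho z).toNat
  have h3 := H.rho_lt _ _ h1
  have h4 := H.rho_lt _ _ h2
  omega

theorem SubL.cov_T (hL : H.SubL L) {x y : X} (h : Cov L x y) (k : ℤ) :
    Cov L (H.T k x) (H.T k y) := by
  obtain ⟨hx, hy, hlt, hc⟩ := h
  refine ⟨hL.shift x hx k, hL.shift y hy k, (H.T_lt_iff k x y).mpr hlt, fun z hz h1 h2 => ?_⟩
  have hzz : z = H.T k (H.T (-k) z) := (H.T_T_neg k z).symm
  have h1' : x ≤ H.T (-k) z := by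
    rw [← H.T_le_iff k, H.T_T_neg]
    exact h1
  have h2' : H.T (-k) z ≤ y := by
    rw [← H.T_le_iff k, H.T_T_neg]
    exact h2
  rcases hc _ (hL.shift z hz (-k)) h1' h2' with h3 | h3
  · left
    rw [hzz, h3]
  · right
    rw [hzz, h3]

theorem CCov_ind_T (c : C) (x : X) : H.ind c (H.T (-1) x) = H.ind (H.tc c) x := by
  unfold ind
  have h := H.fr_T' (-1) x c
  rw [neg_neg, zpow_one] at h
  simp only [h]

theorem SubL.cov_le_t (hL : H.SubL L) {x y : X} (h : Cov L x y) : y ≤ H.t x := by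
  have hTL := hL.cov_T h (-1)
  obtain ⟨hx, hy, hlt, hc⟩ := h
  obtain ⟨hx', hy', hlt', hc'⟩ := hTL
  have key : H.T (-1) y ≤ x → y ≤ H.t x := by
    intro h
    rw [← H.T_le_iff 1] at h
    rw [H.T_T_neg, H.T_one] at h
    exact h
  have hgood : ∀ z ∈ L, H.T (-1) z ≤ z := by
    intro z hz
    rw [← H.T_le_iff 1, H.T_T_neg, H.T_one]
    exact hL.good hz
  have hu : H.T (-1) y ⊔ x ∈ L := hL.sup _ hy' _ hx
  rcases hc _ hu le_sup_right (sup_le (hgood y hy) hlt.le) with h1 | h1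
  · exact key (h1 ▸ le_sup_left)
  · have hv : H.T (-1) y ⊓ x ∈ L := hL.inf _ hy' _ hx
    rcases hc' _ hv (le_inf hlt'.le (hgood x hx)) inf_le_left with h2 | h2
    · exfalso
      have hd : ∀ c, H.ind c y - H.ind c x = H.ind (H.tc c) y - H.ind (H.tc c) x := by
        intro c
        have h3 := hL.ind_md c _ hy' _ hx
        rw [h1, h2, CCov_ind_T, CCov_ind_T] at h3
        linarith
      have hd' : ∀ (k : ℕ) (c : C), H.ind c y - H.ind c x =
          H.ind ((H.tc ^ (k : ℤ)) c) y - H.ind ((H.tc ^ (k : ℤ)) c) x := by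
        intro k
        induction k with
        | zero => intro c; simp
        | succ k ih =>
          intro c
          rw [hd c, ih (H.tc c)]
          have h4 : (H.tc ^ ((k + 1 : ℕ) : ℤ)) c = (H.tc ^ (k : ℤ)) (H.tc c) := by
            push_cast
            rw [H.tc_add, zpow_one]
          rw [h4]
      have h0 : ∀ c, H.ind c x = H.ind c y := by
        intro c
        obtain ⟨n1, hn1⟩ := H.notin_large x c
        obtain ⟨n2, hn2⟩ := H.notin_large y c
        have hk : ∀ z : X, ∀ k : ℤ, c ∉ H.fr (H.T (-k) z) → H.ind ((H.tc ^ k) c) z = 0 := by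
          intro z k hz
          rw [H.ind_eq_zero]
          rwa [H.fr_T', neg_neg] at hz
        have hdk := hd' (max n1.toNat n2.toNat) c
        rw [hk x _ (hn1 _ ?_), hk y _ (hn2 _ ?_)] at hdk
        · linarith
        · rw [abs_neg, abs_of_nonneg (Int.natCast_nonneg _)]
          have := le_max_right n1.toNat n2.toNat
          omega
        · rw [abs_neg, abs_of_nonneg (Int.natCast_nonneg _)]
          have := le_max_left n1.toNat n2.toNat
          omega
      exact hlt.ne (H.eq_of_ind hlt.le h0)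
    · apply key
      rw [← h2]
      exact inf_le_right

theorem SubL.cov_proj (hL : H.SubL L) {x y a b : X} (h : Cov L x y) (ha : a ∈ L) (hb : b ∈ L)
    (hab : a ≤ b) : (x ⊔ a) ⊓ b = (y ⊔ a) ⊓ b ∨
      ∀ v : X → ℤ, Md L v → v ((y ⊔ a) ⊓ b) - v ((x ⊔ a) ⊓ b) = v y - v x := by
  obtain ⟨hx, hy, hlt, hc⟩ := h
  have hs : x ⊔ a ∈ L := hL.sup _ hx _ ha
  have hya : y ⊔ a ∈ L := hL.sup _ hy _ ha
  have hsya : x ⊔ a ≤ y ⊔ a := sup_le_sup_right hlt.le a
  rcases hc _ (hL.inf _ hy _ hs) (le_inf hlt.le le_sup_left) inf_le_left with h1 | h1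
  · have hq : y ⊓ b ⊔ x ∈ L := hL.sup _ (hL.inf _ hy _ hb) _ hx
    rcases hc _ hq le_sup_right (sup_le inf_le_left hlt.le) with h2 | h2
    · left
      have h3 : y ⊓ b ≤ x := h2 ▸ le_sup_left
      apply le_antisymm (inf_le_inf_right b hsya)
      refine le_inf ?_ inf_le_right
      rw [inf_comm, hL.dist_inf hb hy ha]
      refine sup_le ?_ ?_
      · rw [inf_comm]
        exact h3.trans le_sup_left
      · exact inf_le_right.trans le_sup_right
    · right
      intro v hv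
      have h3 := hv y hy (x ⊔ a) hs
      rw [h1] at h3
      have h4 : y ⊔ (x ⊔ a) = y ⊔ a := by
        rw [← sup_assoc, sup_eq_left.mpr hlt.le]
      rw [h4] at h3
      have hA : (y ⊔ a) ⊓ b ∈ L := hL.inf _ hya _ hb
      have h5 := hv (x ⊔ a) hs _ hA
      have h6 : (x ⊔ a) ⊔ (y ⊔ a) ⊓ b = y ⊔ a := by
        rw [hL.dist_sup hs hya hb]
        have h7 : x ⊔ a ⊔ (y ⊔ a) = y ⊔ a := sup_eq_right.mpr hsya
        rw [h7]
        apply inf_eq_left.mpr
        refine sup_le ?_ (hab.trans le_sup_right)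
        calc y = y ⊓ b ⊔ x := h2.symm
          _ ≤ x ⊔ a ⊔ b := sup_le (inf_le_right.trans le_sup_right) (le_sup_left.trans le_sup_left)
      have h8 : (x ⊔ a) ⊓ ((y ⊔ a) ⊓ b) = (x ⊔ a) ⊓ b := by
        rw [← inf_assoc, inf_eq_left.mpr hsya]
      rw [h6, h8] at h5
      linarith
  · left
    have h2 : y ≤ x ⊔ a := h1 ▸ inf_le_right
    have h3 : x ⊔ a = y ⊔ a := le_antisymm hsya (sup_le h2 le_sup_right)
    rw [h3]

theorem SubL.exists_cov_leave (hL : H.SubL L) {x y : X} (hx : x ∈ L) (hy : y ∈ L) (h : x ≤ y)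
    {c : C} (hc : c ∈ H.fr x) (hc' : c ∉ H.fr y) :
    ∃ p q, Cov L p q ∧ x ≤ p ∧ q ≤ y ∧ c ∈ H.fr p ∧ c ∉ H.fr q := by
  obtain ⟨p, ⟨hpL, hxp, hpy, hcp⟩, hmin⟩ := (measure (fun z => (H.rho y - H.rho z).toNat)).wf.has_min
    {z | z ∈ L ∧ x ≤ z ∧ z ≤ y ∧ c ∈ H.fr z} ⟨x, hx, le_refl x, h, hc⟩
  have hne : p ≠ y := by
    rintro rfl
    exact hc' hcp
  obtain ⟨q, hq, hqy⟩ := hL.exists_cov hpL hy (lt_of_le_of_ne hpy hne)
  refine ⟨p, q, hq, hxp, hqy, hcp, fun hcq => ?_⟩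
  refine hmin q ⟨hq.2.1, hxp.trans hq.2.2.1.le, hqy, hcq⟩ ?_
  show (H.rho y - H.rho q).toNat < (H.rho y - H.rho p).toNat
  have h3 := H.rho_lt _ _ hq.2.2.1
  have h4 := CCov_rho_le (H := H) hqy
  omega

theorem SubL.chain (hL : H.SubL L) {x y : X} (hx : x ∈ L) (hy : y ∈ L) (h : x ≤ y) :
    ∃ (n : ℕ) (f : ℕ → X), f 0 = x ∧ f n = y ∧ ∀ i < n, Cov L (f i) (f (i + 1)) := by
  obtain ⟨m, hm⟩ : ∃ m : ℕ, m = (H.rho y - H.rho x).toNat := ⟨_, rfl⟩
  induction m using Nat.strong_induction_on generalizing x with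
  | _ m ih =>
    rcases eq_or_lt_of_le h with h1 | h1
    · exact ⟨0, fun _ => x, rfl, h1, fun i hi => absurd hi (Nat.not_lt_zero i)⟩
    · obtain ⟨z, hz, hzy⟩ := hL.exists_cov hx hy h1
      have h3 := H.rho_lt _ _ hz.2.2.1
      have h4 := CCov_rho_le (H := H) hzy
      obtain ⟨n, f, hf0, hfn, hf⟩ := ih (H.rho y - H.rho z).toNat (by omega) hz.2.1 hzy rfl
      refine ⟨n + 1, fun i => if i = 0 then x else f (i - 1), by simp, by simpa using hfn, ?_⟩
      intro i hi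
      rcases Nat.eq_zero_or_pos i with h5 | h5
      · subst h5
        simp only [if_true, zero_add, one_ne_zero, if_false, Nat.sub_self]
        rw [hf0]
        exact hz
      · have h6 : i ≠ 0 := by omega
        have h7 : i + 1 ≠ 0 := by omega
        simp only [h6, h7, if_false]
        have h8 := hf (i - 1) (by omega)
        have h9 : i - 1 + 1 = i + 1 - 1 := by omega
        rwa [h9] at h8

/-- two covers of the same element: the join covers both -/
theorem SubL.cov_diamond (hL : H.SubL L) {x y z : X} (h : Cov L x y) (h' : Cov L x z) (hne : y ≠ z) :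
    y ⊓ z = x ∧ Cov L y (y ⊔ z) := by
  obtain ⟨hx, hy, hxy, hc⟩ := h
  obtain ⟨-, hz, hxz, hc'⟩ := h'
  have h1 : y ⊓ z = x := by
    rcases hc _ (hL.inf _ hy _ hz) (le_inf hxy.le hxz.le) inf_le_left with h2 | h2
    · exact h2
    · exfalso
      have h3 : y ≤ z := inf_eq_left.mp h2
      rcases hc' _ hy hxy.le h3 with h4 | h4
      · exact hxy.ne h4.symm
      · exact hne h4
  refine ⟨h1, hy, hL.sup _ hy _ hz, ?_, fun u hu h2 h3 => ?_⟩
  · refine lt_of_le_of_ne le_sup_left fun h2 => ?_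
    have h3 : z ≤ y := sup_eq_left.mp h2.symm
    rw [inf_eq_right.mpr h3] at h1
    exact hxz.ne h1.symm
  · have h4 : u = y ⊔ (u ⊓ z) := by
      have h5 := hL.dist_inf hu hy hz
      rw [inf_eq_left.mpr h3, inf_eq_right.mpr h2] at h5
      exact h5
    rcases hc' _ (hL.inf _ hu _ hz) (le_inf (hxy.le.trans h2) hxz.le) inf_le_right with h5 | h5
    · left
      rw [h5, sup_eq_left.mpr hxy.le] at h4
      exact h4
    · right
      rw [h5] at h4
      exact h4

end HLat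
end TorA
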