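import Mathlib
import Pool.Agent.Lib.MP_05cdf2_gt.B.LDef

/-! MP_05cdf2_gt, stream A, toolkit (namespace `TorA`): definitions.

`Ac S n`: every cycle supported on lists of `S` of length `m < n` bounds in the lists of `S` of length `m + 1`.
`Fl R P`: lists with entries in `P`, pairwise related by `R`; `Po P` = weakly increasing lists with entries in `P`.
`AcI S`: `Ac S n` for all `n`. -/

set_option autoImplicit false

namespace TorA
open Finsupp Tor

variable {α β : Type}

/-- lists in `S` of length `m` -/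
def Ln (S : Set (List α)) (m : ℕ) : Set (List α) := {l | l ∈ S ∧ l.length = m}

/-- every cycle on lists of length `m < n` bounds -/
def Ac (S : Set (List α)) (n : ℕ) : Prop :=
  ∀ m < n, ∀ z ∈ Sup (Ln S m), bd z = 0 → ∃ w ∈ Sup (Ln S (m + 1)), bd w = z

/-- acyclic in all lengths -/
def AcI (S : Set (List α)) : Prop := ∀ n, Ac S n

/-- lists with entries in `P`, pairwise related by `R` -/
def Fl (R : α → α → Prop) (P : Set α) : Set (List α) := {l | l.Pairwise R ∧ ∀ x ∈ l, x ∈ P}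

/-- weakly increasing lists with entries in `P` -/
def Po [LE α] (P : Set α) : Set (List α) := Fl (· ≤ ·) P

theorem Ac.mono {S : Set (List α)} {n m : ℕ} (h : Ac S n) (hm : m ≤ n) : Ac S m :=
  fun k hk => h k (lt_of_lt_of_le hk hm)

theorem AcI.ac {S : Set (List α)} (h : AcI S) (n : ℕ) : Ac S n := h n

theorem Ac_zero (S : Set (List α)) : Ac S 0 := fun m hm => absurd hm (Nat.not_lt_zero m)

theorem Fl_closed (R : α → α → Prop) (P : Set α) : Closed (Fl R P) := by
  rintro l ⟨h1, h2⟩ l' hl'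
  exact ⟨h1.sublist hl', fun x hx => h2 x (hl'.subset hx)⟩

theorem Po_closed [LE α] (P : Set α) : Closed (Po P) := Fl_closed _ P

theorem Fl_mono {R : α → α → Prop} {P Q : Set α} (h : P ⊆ Q) : Fl R P ⊆ Fl R Q :=
  fun _ hl => ⟨hl.1, fun x hx => h (hl.2 x hx)⟩

theorem Ln_mono {S T : Set (List α)} (h : S ⊆ T) (m : ℕ) : Ln S m ⊆ Ln T m :=
  fun _ hl => ⟨h hl.1, hl.2⟩

theorem nil_mem_Fl (R : α → α → Prop) (P : Set α) : [] ∈ Fl R P :=
  ⟨List.Pairwise.nil, by simp⟩

/-- the boundary lowers the length by one -/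
theorem bd_mem_Ln {S : Set (List α)} (hS : Closed S) {m : ℕ} {z : Ch α} (hz : z ∈ Sup (Ln S (m + 1))) :
    bd z ∈ Sup (Ln S m) := by
  refine map_Sup bd _ ?_ hz
  rintro l ⟨hl, hlen⟩
  rw [bd_single, one_smul, Finsupp.mem_supported]
  intro l' hl'
  obtain ⟨h1, h2⟩ := bdL_support l l' hl'
  exact ⟨hS l hl l' h1, by omega⟩

theorem bd_Ln_zero {S : Set (List α)} {z : Ch α} (hz : z ∈ Sup (Ln S 0)) : bd z = 0 := by
  have : bd z ∈ (⊥ : Submodule ℤ (Ch α)) := by
    refine map_Sup bd _ ?_ hz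
    rintro l ⟨-, hlen⟩
    rw [List.length_eq_zero_iff] at hlen
    subst hlen
    simp [bdL_nil]
  simpa using this

/-- all entries and all lists of the support of a chain lie in a finite set -/
theorem exists_finset_entries (z : Ch α) : ∃ F : Finset α, ∀ l ∈ z.support, ∀ x ∈ l, x ∈ F := by
  classical
  refine ⟨z.support.biUnion fun l => l.toFinset, ?_⟩
  intro l hl x hx
  rw [Finset.mem_biUnion]
  exact ⟨l, hl, by simpa using hx⟩

/-- induction for linear maps on `(ι →₀ ℤ)` -/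
theorem lin_ext {ι M : Type} [AddCommGroup M] {f g : (ι →₀ ℤ) →ₗ[ℤ] M}
    (h : ∀ x, f (single x 1) = g (single x 1)) : f = g :=
  Finsupp.lhom_ext' fun x => LinearMap.ext_ring (h x)

theorem supp_map {ι M : Type} [AddCommGroup M] {T : Set ι} (f : (ι →₀ ℤ) →ₗ[ℤ] M)
    (N : Submodule ℤ M) (h : ∀ x ∈ T, f (single x 1) ∈ N) {c : ι →₀ ℤ}
    (hc : c ∈ Finsupp.supported ℤ ℤ T) : f c ∈ N := by
  rw [← Finsupp.sum_single c, Finsupp.sum, map_sum]
  refine N.sum_mem fun l hl => ?_
  have hlS : l ∈ T := (Finsupp.mem_supported ℤ c).1 hc hl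
  have h1 : single l (c l) = c l • (single l 1 : ι →₀ ℤ) := by simp
  rw [h1, map_smul]
  exact N.smul_mem _ (h l hlS)

/-- two linear maps which agree on the generators of `T` agree on chains supported in `T` -/
theorem supp_eq {ι M : Type} [AddCommGroup M] {T : Set ι} (f g : (ι →₀ ℤ) →ₗ[ℤ] M)
    (h : ∀ x ∈ T, f (single x 1) = g (single x 1)) {c : ι →₀ ℤ}
    (hc : c ∈ Finsupp.supported ℤ ℤ T) : f c = g c := by
  have h1 : (f - g) c ∈ (⊥ : Submodule ℤ M) := by
    refine supp_map (f - g) _ ?_ hc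
    intro x hx
    simp [h x hx]
  have h2 : (f - g) c = 0 := by simpa using h1
  rw [LinearMap.sub_apply] at h2
  exact sub_eq_zero.mp h2

end TorA
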