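import Mathlib
import Pool.Agent.Lib.MP_05cdf2_gt.A.TDef

/-! MP_05cdf2_gt, stream A, the abstract cyclic step: definitions and basic facts.

`HLat X C`: a lattice `X` (regions of the infinite cyclic cover which contain the lower end) with a shift `t`, a set `C` of curves
with a free action of `ℤ` generated by `tc`, the frontier `fr x`, the level `J x`, an area `rho x` and the slab numbers `nn x y`.

* `T k` = k-th power of the shift; `ind c x` = 1 if `c ∈ fr x`, else 0; `w x` = number of frontier curves.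
* `R x y : x ≤ y ≤ t x`; `Cy` = cyclic chains (lists); `orb l` = all translates of the curves of the elements of `l`;
  `KK` = the sets `orb l`, `l` a nonempty cyclic chain.
* `Lam M` = the `x ≤ t x` with frontier in `M`; `Inv M`: `M` is invariant; `Coh M`: invariant and contained in a member of `KK`;
  `SubL L`: `L` is a shift invariant sublattice of some `Lam M`, `M` coherent.
* `Cov L x y`: `y` covers `x` in `L`. -/

set_option autoImplicit false

namespace TorA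
open Finsupp Tor

/-- `y` covers `x` in `L` -/
def Cov {X : Type} [Lattice X] (L : Set X) (x y : X) : Prop :=
  x ∈ L ∧ y ∈ L ∧ x < y ∧ ∀ z ∈ L, x ≤ z → z ≤ y → z = x ∨ z = y

/-- modular functions on `L` -/
def Md {X : Type} [Lattice X] (L : Set X) (v : X → ℤ) : Prop :=
  ∀ x ∈ L, ∀ y ∈ L, v (x ⊔ y) + v (x ⊓ y) = v x + v y

/-- the abstract lattice of regions -/
structure HLat (X C : Type) [Lattice X] [DecidableEq C] where
  /-- the shift -/
  t : X ≃o X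
  /-- the shift of curves -/
  tc : Equiv.Perm C
  /-- the frontier curves -/
  fr : X → Finset C
  /-- the level -/
  J : X → ℤ
  /-- the area -/
  rho : X → ℤ
  /-- the genus number of a slab -/
  nn : X → X → ℤ
  /-- total area -/
  P : ℤ
  /-- total genus number -/
  G : ℕ
  fr_t : ∀ x c, tc c ∈ fr (t x) ↔ c ∈ fr x
  J_t : ∀ x, J (t x) = J x + 1
  rho_t : ∀ x, rho (t x) = rho x + P
  nn_sub : ∀ x y z, x ≤ y → y ≤ z → z ≤ t x → nn x z ≤ nn x y + nn y z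
  nn_G : ∀ x, x ≤ t x → (G : ℤ) ≤ nn x (t x)
  free : ∀ (c : C) (k : ℤ), (tc ^ k) c = c → k = 0
  J_sup : ∀ x y, J (x ⊔ y) = max (J x) (J y)
  J_inf : ∀ x y, J (x ⊓ y) = min (J x) (J y)
  base : ∃ b, b ≤ t b
  arch : ∀ x y, ∃ k : ℕ, x ≤ (t ^ k) y
  fr_ne : ∀ x, (fr x).Nonempty
  rho_lt : ∀ x y, x < y → rho x < rho y
  inj : ∀ x y, x ≤ y → fr x = fr y → x = y
  conv : ∀ x z y c, x ≤ z → z ≤ y → c ∈ fr x → c ∈ fr y → c ∈ fr z
  compl : ∀ x y y', x ≤ y → y ≤ y' → y' ≤ t x → fr y ⊆ fr x ∪ fr y' →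
    ∃ z, y ⊓ z = x ∧ y ⊔ z = y' ∧ fr y ∪ fr z = fr x ∪ fr y' ∧ fr y ∩ fr z = fr x ∩ fr y'
  coh : ∀ l : List X, l.Pairwise (fun x y => x ≤ y ∧ y ≤ t x) → (∀ x ∈ l, x ≤ t x) →
    ∀ x y, x ≤ t x → y ≤ t y →
    (∀ c ∈ fr x, ∃ z ∈ l, ∃ k : ℤ, (tc ^ k) c ∈ fr z) →
    (∀ c ∈ fr y, ∃ z ∈ l, ∃ k : ℤ, (tc ^ k) c ∈ fr z) →
    (∀ c, ((if c ∈ fr (x ⊔ y) then 1 else 0) + (if c ∈ fr (x ⊓ y) then 1 else 0) : ℤ) =
      (if c ∈ fr x then 1 else 0) + (if c ∈ fr y then 1 else 0)) ∧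
    rho (x ⊔ y) + rho (x ⊓ y) = rho x + rho y
  conn : ∀ x y e (k : ℕ), x ≤ y → y ≤ t x → 1 ≤ k → e ∈ fr x → (tc ^ k) e ∉ fr x →
    (∀ c, c ∈ fr y ↔ (c ∈ fr x ∧ c ≠ e) ∨ c = (tc ^ k) e) → fr x = {e}
  In1 : ∀ x y, x < y → y ≤ t x → (fr x).card = (fr y).card →
    (∀ z, x < z → z < y → ¬ fr z ⊆ fr x ∪ fr y) → 2 ≤ (fr x \ fr y).card →
    Ac (Po {z | x < z ∧ z < y ∧ (fr z).card < (fr x).card}) (nn x y).toNat
  In2 : ∀ x y, x < y → y ≤ t x → (fr x).card = (fr y).card →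
    (∀ z, x < z → z < y → ¬ fr z ⊆ fr x ∪ fr y) → (fr x \ fr y).card = 1 →
    (∀ z, x ≤ z → z ≤ y → (fr x).card ≤ (fr z).card) ∧
    Ac (Po {z | x < z ∧ z < y ∧ (fr z).card = (fr x).card}) (nn x y - 1).toNat

namespace HLat
variable {X C : Type} [Lattice X] [DecidableEq C] (H : HLat X C)

/-- powers of the shift -/
def T (k : ℤ) (x : X) : X := (H.t ^ k) x

/-- indicator of `c ∈ fr x` -/
def ind (c : C) (x : X) : ℤ := if c ∈ H.fr x then 1 else 0

/-- number of frontier curves -/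
def w (x : X) : ℕ := (H.fr x).card

/-- the cyclic relation -/
def R (x y : X) : Prop := x ≤ y ∧ y ≤ H.t x

/-- elements below their translate -/
def Gd : Set X := {x | x ≤ H.t x}

/-- cyclic chains -/
def Cy : Set (List X) := Fl H.R H.Gd

/-- all translates of the frontier curves of a list -/
def orb (l : List X) : Set C := {c | ∃ z ∈ l, ∃ k : ℤ, (H.tc ^ k) c ∈ H.fr z}

/-- the supports of cyclic chains -/
def KK : Set (Set C) := {M | ∃ l ∈ H.Cy, l ≠ [] ∧ M = H.orb l}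

/-- the elements with frontier in `M` -/
def Lam (M : Set C) : Set X := {x | x ≤ H.t x ∧ ∀ c ∈ H.fr x, c ∈ M}

/-- invariant sets of curves -/
def Inv (M : Set C) : Prop := ∀ (c : C) (k : ℤ), (H.tc ^ k) c ∈ M ↔ c ∈ M

/-- coherent sets of curves -/
def Coh (M : Set C) : Prop := H.Inv M ∧ ∃ l ∈ H.Cy, M ⊆ H.orb l

/-- every curve of `M` occurs in some element of `Lam M` -/
def Full (M : Set C) : Prop := ∀ c ∈ M, ∃ y ∈ H.Lam M, c ∈ H.fr y

/-- shift invariant sublattices of coherent sets -/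
structure SubL (L : Set X) : Prop where
  coh : ∃ M, H.Coh M ∧ L ⊆ H.Lam M
  sup : ∀ x ∈ L, ∀ y ∈ L, x ⊔ y ∈ L
  inf : ∀ x ∈ L, ∀ y ∈ L, x ⊓ y ∈ L
  shift : ∀ x ∈ L, ∀ k : ℤ, H.T k x ∈ L

/-! ### powers of the shift -/

theorem T_zero (x : X) : H.T 0 x = x := by simp [T]

theorem T_one (x : X) : H.T 1 x = H.t x := by simp [T]

theorem T_add (j k : ℤ) (x : X) : H.T (j + k) x = H.T j (H.T k x) := by
  simp only [T, zpow_add]
  rfl

theorem T_add_one (k : ℤ) (x : X) : H.T (k + 1) x = H.t (H.T k x) := by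
  rw [add_comm, T_add, T_one]

theorem T_t (k : ℤ) (x : X) : H.T k (H.t x) = H.t (H.T k x) := by
  rw [← T_one, ← T_add, ← T_one, ← T_add, add_comm]

theorem T_neg_T (k : ℤ) (x : X) : H.T (-k) (H.T k x) = x := by
  rw [← T_add, neg_add_cancel, T_zero]

theorem T_T_neg (k : ℤ) (x : X) : H.T k (H.T (-k) x) = x := by
  rw [← T_add, add_neg_cancel, T_zero]

theorem T_le_iff (k : ℤ) (x y : X) : H.T k x ≤ H.T k y ↔ x ≤ y := (H.t ^ k).le_iff_le

theorem T_lt_iff (k : ℤ) (x y : X) : H.T k x < H.T k y ↔ x < y := (H.t ^ k).lt_iff_lt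

theorem T_inj (k : ℤ) (x y : X) : H.T k x = H.T k y ↔ x = y := (H.t ^ k).injective.eq_iff

theorem T_sup (k : ℤ) (x y : X) : H.T k (x ⊔ y) = H.T k x ⊔ H.T k y := map_sup (H.t ^ k) x y

theorem T_inf (k : ℤ) (x y : X) : H.T k (x ⊓ y) = H.T k x ⊓ H.T k y := map_inf (H.t ^ k) x y

theorem T_good {x : X} (hx : x ≤ H.t x) (k : ℤ) : H.T k x ≤ H.t (H.T k x) := by
  rw [← T_t, T_le_iff]
  exact hx

theorem T_mono_left {x : X} (hx : x ≤ H.t x) {j k : ℤ} (h : j ≤ k) : H.T j x ≤ H.T k x := by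
  induction k, h using Int.leInduction with
  | base => exact le_refl _
  | succ k _ ih =>
    rw [T_add_one]
    exact ih.trans (H.T_good hx k)

theorem J_T (k : ℤ) (x : X) : H.J (H.T k x) = H.J x + k := by
  induction k using Int.induction_on with
  | zero => rw [T_zero, add_zero]
  | succ k ih => rw [T_add_one, J_t, ih]; ring
  | pred k ih =>
    have h : H.T (-(k : ℤ)) x = H.t (H.T (-(k : ℤ) - 1) x) := by rw [← T_add_one]; congr 1; ring
    rw [h, J_t] at ih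
    linarith

theorem rho_T (k : ℤ) (x : X) : H.rho (H.T k x) = H.rho x + k * H.P := by
  induction k using Int.induction_on with
  | zero => rw [T_zero]; ring
  | succ k ih => rw [T_add_one, rho_t, ih]; ring
  | pred k ih =>
    have h : H.T (-(k : ℤ)) x = H.t (H.T (-(k : ℤ) - 1) x) := by rw [← T_add_one]; congr 1; ring
    rw [h, rho_t] at ih
    linarith

theorem tc_add (j k : ℤ) (c : C) : (H.tc ^ (j + k)) c = (H.tc ^ j) ((H.tc ^ k) c) := by
  rw [zpow_add, Equiv.Perm.mul_apply]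

theorem fr_T (k : ℤ) (x : X) (c : C) : (H.tc ^ k) c ∈ H.fr (H.T k x) ↔ c ∈ H.fr x := by
  induction k using Int.induction_on with
  | zero => simp [T_zero]
  | succ k ih =>
    rw [T_add_one, add_comm, tc_add, zpow_one, fr_t, ih]
  | pred k ih =>
    have h : H.T (-(k : ℤ)) x = H.t (H.T (-(k : ℤ) - 1) x) := by rw [← T_add_one]; congr 1; ring
    have h2 : (H.tc ^ (-(k : ℤ))) c = H.tc ((H.tc ^ (-(k : ℤ) - 1)) c) := by
      have h3 := H.tc_add 1 (-(k : ℤ) - 1) c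
      rw [zpow_one] at h3
      rw [← h3]; congr 2; ring
    rw [h, h2, fr_t] at ih
    exact ih

theorem fr_T' (k : ℤ) (x : X) (c : C) : c ∈ H.fr (H.T k x) ↔ (H.tc ^ (-k)) c ∈ H.fr x := by
  rw [← H.fr_T k x ((H.tc ^ (-k)) c), ← tc_add, add_neg_cancel, zpow_zero]
  rfl

theorem fr_T_map (k : ℤ) (x : X) : H.fr (H.T k x) = (H.fr x).map (H.tc ^ k).toEmbedding := by
  ext c
  rw [Finset.mem_map, fr_T']
  constructor
  · intro h
    refine ⟨_, h, ?_⟩
    show (H.tc ^ k) ((H.tc ^ (-k)) c) = c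
    rw [← tc_add, add_neg_cancel, zpow_zero]
    rfl
  · rintro ⟨d, hd, rfl⟩
    show (H.tc ^ (-k)) ((H.tc ^ k) d) ∈ _
    rw [← tc_add, neg_add_cancel, zpow_zero]
    exact hd

theorem w_T (k : ℤ) (x : X) : H.w (H.T k x) = H.w x := by
  rw [w, fr_T_map, Finset.card_map]
  rfl

theorem card_T (k : ℤ) (x : X) : (H.fr (H.T k x)).card = (H.fr x).card := H.w_T k x

theorem diff_T (k : ℤ) (x y : X) :
    (H.fr (H.T k x) \ H.fr (H.T k y)).card = (H.fr x \ H.fr y).card := by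
  rw [fr_T_map, fr_T_map, ← Finset.map_sdiff, Finset.card_map]

theorem ne_t (x : X) : x ≠ H.t x := by
  intro h
  have := H.J_t x
  rw [← h] at this
  omega

theorem lt_t {x : X} (hx : x ≤ H.t x) : x < H.t x := lt_of_le_of_ne hx (H.ne_t x)

theorem arch_T (x y : X) : ∃ k : ℤ, 0 ≤ k ∧ x ≤ H.T k y := by
  obtain ⟨k, hk⟩ := H.arch x y
  exact ⟨k, Int.natCast_nonneg k, by simpa [T] using hk⟩

/-- every element is below all large translates of a good element -/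
theorem arch_ge (x : X) {y : X} (hy : y ≤ H.t y) : ∃ n : ℤ, ∀ k, n ≤ k → x ≤ H.T k y := by
  obtain ⟨n, -, hn⟩ := H.arch_T x y
  exact ⟨n, fun k hk => hn.trans (H.T_mono_left hy hk)⟩

/-- every element is above all small translates of a good element -/
theorem arch_le (x : X) {y : X} (hy : y ≤ H.t y) : ∃ n : ℤ, ∀ k, k ≤ n → H.T k y ≤ x := by
  obtain ⟨n, -, hn⟩ := H.arch_T y x
  refine ⟨-n, fun k hk => ?_⟩
  refine (H.T_mono_left hy hk).trans ?_
  rw [← H.T_le_iff n, T_T_neg]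
  exact hn

/-! ### `Lam` -/

theorem Lam_mono {M M' : Set C} (h : M ⊆ M') : H.Lam M ⊆ H.Lam M' :=
  fun _ hx => ⟨hx.1, fun c hc => h (hx.2 c hc)⟩

theorem Lam_T {M : Set C} (hM : H.Inv M) {x : X} (hx : x ∈ H.Lam M) (k : ℤ) : H.T k x ∈ H.Lam M := by
  refine ⟨H.T_good hx.1 k, ?_⟩
  intro c hc
  rw [fr_T'] at hc
  exact (hM c (-k)).mp (hx.2 _ hc)

theorem orb_inv (l : List X) : H.Inv (H.orb l) := by
  intro c k
  constructor
  · rintro ⟨z, hz, j, hj⟩
    exact ⟨z, hz, j + k, by rw [tc_add]; exact hj⟩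
  · rintro ⟨z, hz, j, hj⟩
    refine ⟨z, hz, j - k, ?_⟩
    rw [← tc_add, sub_add_cancel]
    exact hj

theorem mem_orb {l : List X} {z : X} (hz : z ∈ l) {c : C} (hc : c ∈ H.fr z) : c ∈ H.orb l :=
  ⟨z, hz, 0, by simpa using hc⟩

theorem mem_Lam_orb {l : List X} (hl : l ∈ H.Cy) {z : X} (hz : z ∈ l) : z ∈ H.Lam (H.orb l) :=
  ⟨hl.2 z hz, fun _ hc => H.mem_orb hz hc⟩

/-- `orb l ⊆ M` if the elements of `l` are in `Lam M` -/
theorem orb_subset {M : Set C} (hM : H.Inv M) {l : List X} (h : ∀ x ∈ l, x ∈ H.Lam M) :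
    H.orb l ⊆ M := by
  rintro c ⟨z, hz, k, hk⟩
  exact (hM c k).mp ((h z hz).2 _ hk)

theorem KK_coh {M : Set C} (hM : M ∈ H.KK) : H.Coh M := by
  obtain ⟨l, hl, -, rfl⟩ := hM
  exact ⟨H.orb_inv l, l, hl, subset_rfl⟩

theorem KK_full {M : Set C} (hM : M ∈ H.KK) : H.Full M := by
  obtain ⟨l, hl, -, rfl⟩ := hM
  rintro c ⟨z, hz, k, hk⟩
  refine ⟨H.T (-k) z, H.Lam_T (H.orb_inv l) (H.mem_Lam_orb hl hz) (-k), ?_⟩
  rw [fr_T', neg_neg]
  exact hk

theorem KK_ne {M : Set C} (hM : M ∈ H.KK) : (H.Lam M).Nonempty := by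
  obtain ⟨l, hl, hne, rfl⟩ := hM
  obtain ⟨z, hz⟩ := List.exists_mem_of_ne_nil l hne
  exact ⟨z, H.mem_Lam_orb hl hz⟩

theorem Coh.sub {H : HLat X C} {M M' : Set C} (hM : H.Coh M) (hM' : H.Inv M') (h : M' ⊆ M) : H.Coh M' := by
  obtain ⟨-, l, hl, h2⟩ := hM
  exact ⟨hM', l, hl, h.trans h2⟩

theorem ind_eq_one {c : C} {x : X} : H.ind c x = 1 ↔ c ∈ H.fr x := by
  unfold ind; split_ifs <;> simp_all

theorem ind_eq_zero {c : C} {x : X} : H.ind c x = 0 ↔ c ∉ H.fr x := by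
  unfold ind; split_ifs <;> simp_all

theorem ind_nonneg (c : C) (x : X) : 0 ≤ H.ind c x := by unfold ind; split_ifs <;> simp

theorem ind_le_one (c : C) (x : X) : H.ind c x ≤ 1 := by unfold ind; split_ifs <;> simp

end HLat

end TorA
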