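import Pool.Agent.Lib.MP_05cdf2_gt.A.CDef

/-! MP_05cdf2_gt, stream A, the abstract cyclic step: second file of definitions.

* `CSeq H L`: weakly increasing sequences `x : ℤ → L` with `x (i + n) = t (x i)`; `Frame H L`: all `x (i + 1)` cover `x i` in `L`.
* `S.pt y i = (y ⊔ x i) ⊓ x (i + 1)`; `S.I y = {i | x (i + 1) ≤ y ⊔ x i}`.
* `Nt x y`: exactly one curve of `x` is not in `y` (neutral step, if `w x = w y`).
* `Pth L g x y s`: there is a chain of covers in `L` from `x` to `y` on which the sum of `g` is `s`; `vs g M`: the value from `x` to `t x`.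
* `HN N`, `Clt N`, `Cle N`: members of `KK` on which `w = N`, resp. `w` takes a value `< N`, resp. the union of the two.
* `Co M`: the curves adjacent to non neutral covers in `Lam M`.
* `En i e`, `Lv i e`: the curve `e` enters, leaves at the step from `x i` to `x (i + 1)`.
* `Mv M e f`: in every element of `Lam M` the translates of `e` can be replaced by those of `f`. -/

set_option autoImplicit false

namespace TorA
open Finsupp Tor

/-- weakly increasing periodic sequences -/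
structure CSeq {X C : Type} [Lattice X] [DecidableEq C] (H : HLat X C) (L : Set X) where
  /-- the sequence -/
  x : ℤ → X
  /-- the period -/
  n : ℕ
  pos : 0 < n
  mem : ∀ i, x i ∈ L
  le : ∀ i, x i ≤ x (i + 1)
  per : ∀ i, x (i + n) = H.t (x i)

/-- frames: all steps are covers -/
structure Frame {X C : Type} [Lattice X] [DecidableEq C] (H : HLat X C) (L : Set X) extends CSeq H L where
  cov : ∀ i, Cov L (x i) (x (i + 1))

/-- the `i`-th part of `y` -/
def CSeq.pt {X C : Type} [Lattice X] [DecidableEq C] {H : HLat X C} {L : Set X} (S : CSeq H L)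
    (y : X) (i : ℤ) : X := (y ⊔ S.x i) ⊓ S.x (i + 1)

/-- the steps contained in `y` -/
def CSeq.I {X C : Type} [Lattice X] [DecidableEq C] {H : HLat X C} {L : Set X} (S : CSeq H L)
    (y : X) : Set ℤ := {i | S.x (i + 1) ≤ y ⊔ S.x i}

/-- chains of covers with the sum of `g` -/
inductive Pth {X : Type} [Lattice X] (L : Set X) (g : X → X → ℤ) : X → X → ℤ → Prop
  | nil (x : X) (hx : x ∈ L) : Pth L g x x 0
  | cons (x y z : X) (s : ℤ) (h : Cov L x y) (hp : Pth L g y z s) : Pth L g x z (g x y + s)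

/-- the curve `e` enters at the step `i` -/
def CSeq.En {X C : Type} [Lattice X] [DecidableEq C] {H : HLat X C} {L : Set X} (S : CSeq H L)
    (i : ℤ) (e : C) : Prop := e ∉ H.fr (S.x i) ∧ e ∈ H.fr (S.x (i + 1))

/-- the curve `e` leaves at the step `i` -/
def CSeq.Lv {X C : Type} [Lattice X] [DecidableEq C] {H : HLat X C} {L : Set X} (S : CSeq H L)
    (i : ℤ) (e : C) : Prop := e ∈ H.fr (S.x i) ∧ e ∉ H.fr (S.x (i + 1))

namespace HLat
variable {X C : Type} [Lattice X] [DecidableEq C] (H : HLat X C)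

/-- exactly one curve of `x` is not in `y` -/
def Nt (x y : X) : Prop := (H.fr x \ H.fr y).card = 1

open Classical in
/-- the sum of `g` from `x` to `t x`, `x ∈ Lam M` -/
noncomputable def vs (g : X → X → ℤ) (M : Set C) : ℤ :=
  if h : ∃ s, ∃ x, Pth (H.Lam M) g x (H.t x) s then h.choose else 0

/-- `g` is invariant under perspectivities of `L` and under the shift -/
def PInv (L : Set X) (g : X → X → ℤ) : Prop :=
  (∀ a ∈ L, ∀ b ∈ L, g (a ⊓ b) a = g b (a ⊔ b)) ∧ ∀ a b, g (H.t a) (H.t b) = g a b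

open Classical in
/-- the weight of a step: `K` times the area for neutral steps, the number of curves otherwise -/
noncomputable def gv (K : ℤ) (x y : X) : ℤ :=
  if H.Nt x y then K * (H.rho y - H.rho x) else ((H.fr x \ H.fr y).card : ℤ)

/-- members of `KK` with `w = N` -/
def HN (N : ℕ) : Set (Set C) := {M | M ∈ H.KK ∧ ∀ x ∈ H.Lam M, H.w x = N}

/-- members of `KK` where `w` takes a value less than `N` -/
def Clt (N : ℕ) : Set (Set C) := {M | M ∈ H.KK ∧ ∃ x ∈ H.Lam M, H.w x < N}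

/-- the union -/
def Cle (N : ℕ) : Set (Set C) := H.Clt N ∪ H.HN N

/-- curves adjacent to non neutral covers -/
def Co (M : Set C) : Set C :=
  {c | ∃ x y, Cov (H.Lam M) x y ∧ ¬ H.Nt x y ∧
    ((c ∈ H.fr x ∧ c ∉ H.fr y) ∨ (c ∉ H.fr x ∧ c ∈ H.fr y))}

/-- `c` is a translate of `e` -/
def Eo (e c : C) : Prop := ∃ k : ℤ, c = (H.tc ^ k) e

/-- the translates of `e` can be replaced by those of `f` -/
def Mv (M : Set C) (e f : C) : Prop :=
  ∀ z ∈ H.Lam M, ∃ z' ∈ H.Lam M, ∀ c, c ∈ H.fr z' ↔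
    (c ∈ H.fr z ∧ ¬ H.Eo e c) ∨ ∃ k : ℤ, c = (H.tc ^ k) f ∧ (H.tc ^ k) e ∈ H.fr z

/-- the lower link -/
def Low (M : Set C) : Set (Set C) := {M' | M' ∈ H.KK ∧ M' ⊆ M ∧ ¬ H.Co M ⊆ M'}

/-- the upper link -/
def Up (N : ℕ) (M : Set C) : Set (Set C) :=
  {M' | M' ∈ H.KK ∧ M ⊆ M' ∧ M' ≠ M ∧ (M' ∈ H.Clt N ∨ (M' ∈ H.HN N ∧ H.Co M' ⊆ M))}

open Classical in
/-- number of neutral steps of a frame -/
noncomputable def nu {L : Set X} (F : Frame H L) : ℕ :=
  ((Finset.range F.n).filter fun i : ℕ => H.Nt (F.x i) (F.x (i + 1))).card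

/-- the elements strictly inside the step `k` which are used for the upper link -/
def Qs {L : Set X} (F : Frame H L) (N : ℕ) (k : ℤ) : Set X :=
  {z | F.x k < z ∧ z < F.x (k + 1) ∧
    ((H.Nt (F.x k) (F.x (k + 1)) ∧ H.w z = N) ∨ (¬ H.Nt (F.x k) (F.x (k + 1)) ∧ H.w z < N))}

/-- the union over one period -/
def QQ {L : Set X} (F : Frame H L) (N : ℕ) : Set X := {z | ∃ k : ℕ, k < F.n ∧ z ∈ H.Qs F N k}

/-- the rank on `HN N`: first the weighted area, then minus the number of steps -/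
noncomputable def rk (N : ℕ) (M : Set C) : ℕ ×ₗ ℕ :=
  toLex ((H.vs (H.gv (N + 1)) M).toNat, (H.P - H.vs (fun _ _ => 1) M).toNat)

theorem Eo_refl (e : C) : H.Eo e e := ⟨0, by simp⟩

theorem Eo_symm {e c : C} (h : H.Eo e c) : H.Eo c e := by
  obtain ⟨k, rfl⟩ := h
  refine ⟨-k, ?_⟩
  rw [← tc_add, neg_add_cancel, zpow_zero]
  rfl

theorem Eo_trans {e c d : C} (h : H.Eo e c) (h' : H.Eo c d) : H.Eo e d := by
  obtain ⟨k, rfl⟩ := h
  obtain ⟨j, rfl⟩ := h'
  exact ⟨j + k, by rw [tc_add]⟩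

theorem Eo_mem {M : Set C} (hM : H.Inv M) {e c : C} (h : H.Eo e c) : c ∈ M ↔ e ∈ M := by
  obtain ⟨k, rfl⟩ := h
  exact hM e k

end HLat

end TorA
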