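import Pool.Agent.Lib.MP_05cdf2_gt.A.TCon

/-! MP_05cdf2_gt, stream A, toolkit, job TRet: retractions and deformations.
`Ac_retract`: `z` cycle in `Po Q`, `ψ z` is a cycle in `Po P` (`bd_map`), bounds by `w`, and `φ w` bounds `φ (ψ z) = z`.
`bound_retract`: same with a given `w`. `Ac_deform`: `z` cycle of `Po P` of length `m`; `f z` is a cycle of `Po P'`, bounds
there, and `z - f z` bounds in `Po P` by `Po_homotopy`. -/

set_option autoImplicit false

namespace TorA
open Finsupp Tor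

variable {α β : Type}

private theorem TRet_po_map [Preorder α] [Preorder β] {P : Set α} {Q : Set β} (f : α → β)
    (hf : ∀ x ∈ P, f x ∈ Q) (mf : ∀ x ∈ P, ∀ y ∈ P, x ≤ y → f x ≤ f y) :
    ∀ l ∈ Po P, l.map f ∈ Po Q := by
  rintro l ⟨h1, h2⟩
  refine ⟨?_, ?_⟩
  · rw [List.pairwise_map]
    refine List.Pairwise.imp_of_mem ?_ h1
    intro a b ha hb hab
    exact mf a (h2 a ha) b (h2 b hb) hab
  · intro y hy
    rw [List.mem_map] at hy
    obtain ⟨x, hx, rfl⟩ := hy
    exact hf x (h2 x hx)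

private theorem TRet_map_id {S : Set (List α)} {f : α → α} (h : ∀ l ∈ S, ∀ x ∈ l, f x = x)
    {z : Ch α} (hz : z ∈ Sup S) : mapDomain (List.map f) z = z := by
  have h1 : mapDomain (List.map f) z = mapDomain (List.map (id : α → α)) z :=
    map_congr (fun l hl x hx => h l hl x hx) hz
  rw [h1, List.map_id_fun, Finsupp.mapDomain_id]

/-- acyclicity passes to retracts -/
theorem Ac_retract [Preorder α] [Preorder β] {P : Set α} {Q : Set β} (φ : α → β) (ψ : β → α)
    (hφ : ∀ x ∈ P, φ x ∈ Q) (hψ : ∀ y ∈ Q, ψ y ∈ P)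
    (mφ : ∀ x ∈ P, ∀ x' ∈ P, x ≤ x' → φ x ≤ φ x') (mψ : ∀ y ∈ Q, ∀ y' ∈ Q, y ≤ y' → ψ y ≤ ψ y')
    (h : ∀ y ∈ Q, φ (ψ y) = y) {n : ℕ} (hn : Ac (Po P) n) : Ac (Po Q) n := by
  intro m hm z hz hb
  obtain ⟨w, hw, hbw⟩ := hn m hm (mapDomain (List.map ψ) z)
    (map_mem_Ln (TRet_po_map ψ hψ mψ) hz) (by rw [bd_map, hb, Finsupp.mapDomain_zero])
  refine ⟨mapDomain (List.map φ) w, map_mem_Ln (TRet_po_map φ hφ mφ) hw, ?_⟩
  rw [bd_map, hbw, ← Finsupp.mapDomain_comp]
  have h1 : (List.map φ ∘ List.map ψ : List β → List β) = List.map (φ ∘ ψ) := by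
    funext l
    simp
  rw [h1]
  refine TRet_map_id (S := Ln (Po Q) m) ?_ hz
  intro l hl y hy
  exact h y (hl.1.2 y hy)

/-- a chain in `P` whose boundary is in the retract `P'` can be moved into `P'` -/
theorem bound_retract [Preorder α] {P P' : Set α} (f : α → α) (hf : ∀ x ∈ P, f x ∈ P')
    (mf : ∀ x ∈ P, ∀ y ∈ P, x ≤ y → f x ≤ f y) (h : ∀ x ∈ P', f x = x)
    {m : ℕ} {z : Ch α} (hz : z ∈ Sup (Ln (Po P') m))
    (hw : ∃ w ∈ Sup (Ln (Po P) (m + 1)), bd w = z) : ∃ w ∈ Sup (Ln (Po P') (m + 1)), bd w = z := by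
  obtain ⟨w, hw, hbw⟩ := hw
  refine ⟨mapDomain (List.map f) w, map_mem_Ln (TRet_po_map f hf mf) hw, ?_⟩
  rw [bd_map, hbw]
  refine TRet_map_id (S := Ln (Po P') m) ?_ hz
  intro l hl y hy
  exact h y (hl.1.2 y hy)

theorem Ac_deform [Preorder α] {P P' : Set α} (hP : P' ⊆ P) (f : α → α) (hf : ∀ x ∈ P, f x ∈ P')
    (mf : ∀ x ∈ P, ∀ y ∈ P, x ≤ y → f x ≤ f y) (h : ∀ x ∈ P, f x ≤ x) {n : ℕ}
    (hn : Ac (Po P') n) : Ac (Po P) n := by
  intro m hm z hz hb
  obtain ⟨w, hw, hbw⟩ := hn m hm (mapDomain (List.map f) z)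
    (map_mem_Ln (TRet_po_map f hf mf) hz) (by rw [bd_map, hb, Finsupp.mapDomain_zero])
  obtain ⟨u, hu, hbu⟩ := Po_homotopy (Q := P) f id (fun x hx => hP (hf x hx)) (fun x hx => hx) mf
    (fun x _ y _ hxy => hxy) (fun x hx => h x hx) hz hb
  refine ⟨u + w, Submodule.add_mem _ hu (Sup_mono (Ln_mono (Fl_mono hP) _) hw), ?_⟩
  rw [map_add, hbu, hbw, List.map_id_fun, Finsupp.mapDomain_id]
  abel

theorem Ac_deform' [Preorder α] {P P' : Set α} (hP : P' ⊆ P) (f : α → α) (hf : ∀ x ∈ P, f x ∈ P')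
    (mf : ∀ x ∈ P, ∀ y ∈ P, x ≤ y → f x ≤ f y) (h : ∀ x ∈ P, x ≤ f x) {n : ℕ}
    (hn : Ac (Po P') n) : Ac (Po P) n := by
  intro m hm z hz hb
  obtain ⟨w, hw, hbw⟩ := hn m hm (mapDomain (List.map f) z)
    (map_mem_Ln (TRet_po_map f hf mf) hz) (by rw [bd_map, hb, Finsupp.mapDomain_zero])
  obtain ⟨u, hu, hbu⟩ := Po_homotopy (Q := P) id f (fun x hx => hx) (fun x hx => hP (hf x hx))
    (fun x _ y _ hxy => hxy) mf (fun x hx => h x hx) hz hb
  refine ⟨w - u, Submodule.sub_mem _ (Sup_mono (Ln_mono (Fl_mono hP) _) hw) hu, ?_⟩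
  rw [map_sub, hbu, hbw, List.map_id_fun, Finsupp.mapDomain_id]
  abel

private theorem TRet_empty [Preorder α] {n : ℕ} : Ac (Po (∅ : Set α)) n ↔ n = 0 := by
  constructor
  · intro h
    by_contra hn
    obtain ⟨w, hw, hbw⟩ := h 0 (Nat.pos_of_ne_zero hn) (single [] 1)
      (single_mem_Sup (S := Ln (Po (∅ : Set α)) 0) ⟨nil_mem_Fl _ _, rfl⟩ 1) (by simp [bdL_nil])
    have h1 : Ln (Po (∅ : Set α)) (0 + 1) = ∅ := by
      ext l
      simp only [Set.mem_empty_iff_false, iff_false]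
      rintro ⟨⟨-, h2⟩, h3⟩
      cases l with
      | nil => simp at h3
      | cons a l => exact h2 a (by simp)
    rw [h1, Finsupp.mem_supported] at hw
    have hw0 : w = 0 := by
      rw [← Finsupp.support_eq_empty, ← Finset.coe_eq_empty]
      exact Set.subset_empty_iff.mp hw
    rw [hw0, map_zero] at hbw
    have h2 := congrArg (fun c : Ch α => c []) hbw
    simp at h2
  · rintro rfl
    exact Ac_zero _

/-- order isomorphic sets (`φ` is an order embedding on `P`) -/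
theorem Ac_image [PartialOrder α] [Preorder β] {P : Set α} (φ : α → β)
    (h : ∀ x ∈ P, ∀ y ∈ P, φ x ≤ φ y ↔ x ≤ y) {n : ℕ} : Ac (Po (φ '' P)) n ↔ Ac (Po P) n := by
  rcases P.eq_empty_or_nonempty with rfl | ⟨x0, hx0⟩
  · rw [Set.image_empty, TRet_empty, TRet_empty]
  · have : Nonempty α := ⟨x0⟩
    have hinj : Set.InjOn φ P := by
      intro x hx y hy hxy
      exact le_antisymm ((h x hx y hy).mp hxy.le) ((h y hy x hx).mp hxy.ge)
    have h1 : ∀ y ∈ φ '' P, Function.invFunOn φ P y ∈ P := fun y hy =>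
      Function.invFunOn_mem hy
    have h2 : ∀ y ∈ φ '' P, φ (Function.invFunOn φ P y) = y := fun y hy =>
      Function.invFunOn_eq hy
    have h3 : ∀ x ∈ P, Function.invFunOn φ P (φ x) = x := fun x hx =>
      hinj.leftInvOn_invFunOn hx
    have hm : ∀ y ∈ φ '' P, ∀ y' ∈ φ '' P, y ≤ y' →
        Function.invFunOn φ P y ≤ Function.invFunOn φ P y' := by
      intro y hy y' hy' hyy
      rw [← h _ (h1 y hy) _ (h1 y' hy'), h2 y hy, h2 y' hy']
      exact hyy
    have hm' : ∀ x ∈ P, ∀ y ∈ P, x ≤ y → φ x ≤ φ y := fun x hx y hy hxy => (h x hx y hy).mpr hxy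
    constructor
    · exact Ac_retract (Function.invFunOn φ P) φ h1 (fun x hx => Set.mem_image_of_mem φ hx) hm hm' h3
    · exact Ac_retract φ (Function.invFunOn φ P) (fun x hx => Set.mem_image_of_mem φ hx) h1 hm' hm h2

private noncomputable def TRet_app (a : α) : Ch α →ₗ[ℤ] Ch α :=
  Finsupp.lmapDomain ℤ ℤ (fun l => l ++ [a])

private noncomputable def TRet_rev : Ch α →ₗ[ℤ] Ch α := Finsupp.lmapDomain ℤ ℤ List.reverse

private theorem TRet_app_single (a : α) (l : List α) (n : ℤ) :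
    TRet_app a (single l n) = single (l ++ [a]) n := by
  simp [TRet_app]

private theorem TRet_rev_single (l : List α) (n : ℤ) :
    TRet_rev (single l n) = single l.reverse n := by
  simp [TRet_rev]

private theorem TRet_comm (a b : α) (c : Ch α) :
    cone b (TRet_app a c) = TRet_app a (cone b c) := by
  have : cone b ∘ₗ TRet_app a = TRet_app a ∘ₗ cone b := by
    apply Ch.ext_lin
    intro l
    simp [TRet_app_single]
  exact LinearMap.congr_fun this c

private theorem TRet_rev_cone (a : α) (c : Ch α) :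
    TRet_rev (cone a c) = TRet_app a (TRet_rev c) := by
  have : TRet_rev ∘ₗ cone a = TRet_app a ∘ₗ TRet_rev := by
    apply Ch.ext_lin
    intro l
    simp [TRet_app_single, TRet_rev_single]
  exact LinearMap.congr_fun this c

private theorem TRet_rev_rev (c : Ch α) : TRet_rev (TRet_rev c) = c := by
  have : TRet_rev ∘ₗ TRet_rev = (LinearMap.id : Ch α →ₗ[ℤ] Ch α) := by
    apply Ch.ext_lin
    intro l
    simp [TRet_rev_single]
  exact LinearMap.congr_fun this c

private theorem TRet_bdL_app (a : α) (l : List α) :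
    bdL (l ++ [a]) = TRet_app a (bdL l) + (-1 : ℤ) ^ l.length • single l 1 := by
  induction l with
  | nil => simp [bdL_cons, bdL_nil]
  | cons b l ih =>
    rw [List.cons_append, bdL_cons, ih, bdL_cons, map_sub, map_add, TRet_app_single, TRet_comm,
      map_smul, cone_single, List.length_cons, pow_succ, mul_neg, mul_one, neg_smul]
    abel

private theorem TRet_bdL_rev (l : List α) :
    bdL l.reverse = (-1 : ℤ) ^ (l.length + 1) • TRet_rev (bdL l) := by
  induction l with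
  | nil => simp [bdL_nil]
  | cons a l ih =>
    rw [List.reverse_cons, TRet_bdL_app, ih, bdL_cons, map_sub, TRet_rev_single, TRet_rev_cone,
      map_smul, List.length_reverse, List.length_cons, smul_sub]
    have h1 : (-1 : ℤ) ^ (l.length + 1 + 1) = (-1) ^ l.length := by ring
    have h2 : (-1 : ℤ) ^ (l.length + 1) = -(-1) ^ l.length := by ring
    rw [h1, h2, neg_smul]
    abel

private theorem TRet_bd_rev {S : Set (List α)} {m : ℕ} {z : Ch α} (hz : z ∈ Sup (Ln S m)) :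
    bd (TRet_rev z) = (-1 : ℤ) ^ (m + 1) • TRet_rev (bd z) := by
  have h := supp_eq (T := Ln S m) (bd ∘ₗ TRet_rev) ((-1 : ℤ) ^ (m + 1) • (TRet_rev ∘ₗ bd)) ?_ hz
  · rw [LinearMap.comp_apply, LinearMap.smul_apply, LinearMap.comp_apply] at h
    exact h
  · rintro l ⟨-, hl⟩
    rw [LinearMap.comp_apply, TRet_rev_single, bd_single, one_smul, TRet_bdL_rev, hl,
      LinearMap.smul_apply, LinearMap.comp_apply, bd_single, one_smul]

private theorem TRet_rev_mem {S S' : Set (List α)} (h : ∀ l ∈ S, l.reverse ∈ S') {m : ℕ}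
    {z : Ch α} (hz : z ∈ Sup (Ln S m)) : TRet_rev z ∈ Sup (Ln S' m) := by
  refine map_Sup TRet_rev _ ?_ hz
  rintro l ⟨h1, h2⟩
  rw [TRet_rev_single]
  exact single_mem_Sup (S := Ln S' m) ⟨h l h1, by rw [List.length_reverse, h2]⟩ 1

private theorem TRet_dual {S S' : Set (List α)} (h : ∀ l ∈ S, l.reverse ∈ S')
    (h' : ∀ l ∈ S', l.reverse ∈ S) {n : ℕ} (hn : Ac S n) : Ac S' n := by
  intro m hm z hz hb
  obtain ⟨w, hw, hbw⟩ := hn m hm (TRet_rev z) (TRet_rev_mem h' hz)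
    (by rw [TRet_bd_rev hz, hb, map_zero, smul_zero])
  refine ⟨(-1 : ℤ) ^ (m + 1 + 1) • TRet_rev w, Submodule.smul_mem _ _ (TRet_rev_mem h hw), ?_⟩
  rw [map_smul, TRet_bd_rev hw, hbw, TRet_rev_rev, smul_smul, ← mul_pow]
  simp

/-- the order dual: reversing a list changes the boundary by a sign depending on the length only -/
theorem Ac_dual [Preorder α] {P : Set α} {n : ℕ} :
    Ac (Fl (fun x y : α => y ≤ x) P) n ↔ Ac (Po P) n := by
  constructor
  · refine TRet_dual ?_ ?_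
    · rintro l ⟨h1, h2⟩
      exact ⟨List.pairwise_reverse.mpr h1, fun x hx => h2 x (List.mem_reverse.mp hx)⟩
    · rintro l ⟨h1, h2⟩
      exact ⟨List.pairwise_reverse.mpr h1, fun x hx => h2 x (List.mem_reverse.mp hx)⟩
  · refine TRet_dual ?_ ?_
    · rintro l ⟨h1, h2⟩
      exact ⟨List.pairwise_reverse.mpr h1, fun x hx => h2 x (List.mem_reverse.mp hx)⟩
    · rintro l ⟨h1, h2⟩
      exact ⟨List.pairwise_reverse.mpr h1, fun x hx => h2 x (List.mem_reverse.mp hx)⟩

end TorA
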