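import Pool.Agent.Lib.MP_05cdf2_gt.A.CKK
import Pool.Agent.Lib.MP_05cdf2_gt.A.TRet

/-! MP_05cdf2_gt, stream A (abstract cyclic step), job CFlat: the retraction of `Clt (N + 1)` onto `Cle N = Clt N ∪ HN N`.

`flat N M = {c | ∃ x ∈ Lam M, w x = N ∧ c ∈ fr x}`.
`flat_mem`: `M ∈ KK`, `N ≤ w x` on `Lam M`, some `x ∈ Lam M` with `w x = N`: then `flat N M ∈ HN N`. Proof: `L = {x ∈ Lam M | w x = N}` is `SubL` (`w_md`: `w (x ⊔ y) + w (x ⊓ y) = 2 N`, both `≥ N`; `w_T`). A frame `F` of `L`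
(`exists_frame`), `l` from `CSeq.exists_list`: `orb l = {c | ∃ i, c ∈ fr (F.x i)} = flat N M` (`Frame.fr_sub`), so `flat N M ∈ KK`. `F.x i ∈ Lam (flat N M)`; view `F` as a `CSeq H (Lam (flat N M))` (same `x`, `n`) and apply
`w_eq_of_cseq` (`hge` because `Lam (flat N M) ⊆ Lam M`).
`flat_eq`: `M ∈ HN N`: `flat N M = M` (`KK_full`).
`flat_bound`: `bound_retract` with `f M = if ∃ x ∈ Lam M, w x < N then M else flat N M` from `P = Clt (N+1)` to `P' = Cle N` (order on `Set C`: inclusion). `f` maps `P` to `P'`: if no `w x < N` then some `w x = N`. Monotone: `M ⊆ M'`: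
`Lam M ⊆ Lam M'`; cases. `f M = M` on `P'` (`HN N`: no `w x < N`). -/

set_option autoImplicit false

namespace TorA
open Finsupp Tor
namespace HLat
variable {X C : Type} [Lattice X] [DecidableEq C] (H : HLat X C)

/-- the curves of the elements with `w = N` -/
def flat (N : ℕ) (M : Set C) : Set C := {c | ∃ x ∈ H.Lam M, H.w x = N ∧ c ∈ H.fr x}

theorem CFlat_sub (N : ℕ) (M : Set C) : H.flat N M ⊆ M := by
  rintro c ⟨x, hx, -, hc⟩
  exact hx.2 c hc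

theorem flat_mem {N : ℕ} {M : Set C} (hM : M ∈ H.KK) (h : ∀ x ∈ H.Lam M, N ≤ H.w x)
    (hx : ∃ x ∈ H.Lam M, H.w x = N) : H.flat N M ∈ H.HN N := by
  have hcoh := H.KK_coh hM
  have hsM := H.subL_Lam hcoh
  have hwm : ∀ x ∈ H.Lam M, ∀ y ∈ H.Lam M, H.w x = N → H.w y = N →
      H.w (x ⊔ y) = N ∧ H.w (x ⊓ y) = N := by
    intro x hx y hy h1 h2
    have h3 : ((H.w (x ⊔ y) : ℤ)) + (H.w (x ⊓ y) : ℤ) = (H.w x : ℤ) + (H.w y : ℤ) :=
      hsM.w_md x hx y hy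
    have h4 := h _ (H.Lam_sup hcoh hx hy)
    have h5 := h _ (H.Lam_inf hcoh hx hy)
    rw [h1, h2] at h3
    constructor <;> omega
  have hL : H.SubL {x | x ∈ H.Lam M ∧ H.w x = N} := by
    refine ⟨⟨M, hcoh, fun x hx => hx.1⟩, ?_, ?_, ?_⟩
    · intro x hx y hy
      exact ⟨H.Lam_sup hcoh hx.1 hy.1, (hwm x hx.1 y hy.1 hx.2 hy.2).1⟩
    · intro x hx y hy
      exact ⟨H.Lam_inf hcoh hx.1 hy.1, (hwm x hx.1 y hy.1 hx.2 hy.2).2⟩
    · intro x hx k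
      exact ⟨H.Lam_T hcoh.1 hx.1 k, by rw [H.w_T]; exact hx.2⟩
  obtain ⟨x0, hx0, hw0⟩ := hx
  obtain ⟨F, -⟩ := exists_frame hL (x0 := x0) ⟨hx0, hw0⟩
  obtain ⟨l, hl, hne, -, -, horb⟩ := F.toCSeq.exists_list hL
  have hfl : ∀ c, c ∈ H.flat N M ↔ ∃ i, c ∈ H.fr (F.x i) := by
    intro c
    constructor
    · rintro ⟨x, hx, hw, hc⟩
      exact F.fr_sub hL (y := x) ⟨hx, hw⟩ hc
    · rintro ⟨i, hi⟩
      exact ⟨F.x i, (F.mem i).1, (F.mem i).2, hi⟩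
  have heq : H.flat N M = H.orb l := by
    rw [horb]
    ext c
    exact hfl c
  have hKK : H.flat N M ∈ H.KK := ⟨l, hl, hne, heq⟩
  refine ⟨hKK, ?_⟩
  let S : CSeq H (H.Lam (H.flat N M)) :=
    { x := F.x
      n := F.n
      pos := F.pos
      mem := fun i => ⟨(F.mem i).1.1, fun c hc => ⟨F.x i, (F.mem i).1, (F.mem i).2, hc⟩⟩
      le := F.le
      per := F.per }
  refine H.w_eq_of_cseq (H.KK_coh hKK) S (fun i => (F.mem i).2) (fun c hc => (hfl c).1 hc) ?_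
  intro i z hz _ _
  exact h z (H.Lam_mono (H.CFlat_sub N M) hz)

theorem flat_eq {N : ℕ} {M : Set C} (hM : M ∈ H.HN N) : H.flat N M = M := by
  refine Set.Subset.antisymm (H.CFlat_sub N M) ?_
  intro c hc
  obtain ⟨y, hy, hcy⟩ := H.KK_full hM.1 c hc
  exact ⟨y, hy, hM.2 y hy, hcy⟩

theorem flat_bound (N : ℕ) {m : ℕ} {z : Ch (Set C)} (hz : z ∈ Sup (Ln (Po (H.Cle N)) m))
    (hw : ∃ w ∈ Sup (Ln (Po (H.Clt (N + 1))) (m + 1)), bd w = z) :
    ∃ w ∈ Sup (Ln (Po (H.Cle N)) (m + 1)), bd w = z := by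
  classical
  refine bound_retract (P := H.Clt (N + 1)) (P' := H.Cle N)
    (fun M => if ∃ x ∈ H.Lam M, H.w x < N then M else H.flat N M) ?_ ?_ ?_ hz hw
  · rintro M ⟨hM, x, hx, hwx⟩
    show (if ∃ x ∈ H.Lam M, H.w x < N then M else H.flat N M) ∈ H.Cle N
    split_ifs with h
    · exact Or.inl ⟨hM, h⟩
    · push Not at h
      exact Or.inr (H.flat_mem hM h ⟨x, hx, le_antisymm (by omega) (h x hx)⟩)
  · intro M hM M' hM' hMM
    have hsub : M ⊆ M' := hMM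
    have hlam := H.Lam_mono hsub
    show (if ∃ x ∈ H.Lam M, H.w x < N then M else H.flat N M) ⊆
      (if ∃ x ∈ H.Lam M', H.w x < N then M' else H.flat N M')
    split_ifs with h1 h2 h2
    · exact hsub
    · obtain ⟨x, hx, hwx⟩ := h1
      exact absurd ⟨x, hlam hx, hwx⟩ h2
    · exact (H.CFlat_sub N M).trans hsub
    · rintro c ⟨x, hx, hwx, hc⟩
      exact ⟨x, hlam hx, hwx, hc⟩
  · rintro M (hM | hM)
    · show (if ∃ x ∈ H.Lam M, H.w x < N then M else H.flat N M) = M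
      rw [if_pos hM.2]
    · show (if ∃ x ∈ H.Lam M, H.w x < N then M else H.flat N M) = M
      rw [if_neg, H.flat_eq hM]
      rintro ⟨x, hx, hwx⟩
      rw [hM.2 x hx] at hwx
      exact lt_irrefl _ hwx

end HLat
end TorA
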