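import Pool.Agent.Lib.MP_05cdf2_gt.A.CSeqA

/-! MP_05cdf2_gt, stream A (abstract cyclic step), job CPer: construction of periodic sequences, lists.

`per_ext`: `x i = T (i / n) (f (i % n).toNat)` (Euclidean division in `ℤ`). `(i + n) / n = i / n + 1`, `(i + n) % n = i % n`: `T_add_one`. For `i = q n + r`, `0 ≤ r < n`:
if `r + 1 < n` then `x (i + 1) = T q (f (r+1))`; if `r + 1 = n` then `x (i + 1) = T (q+1) (f 0) = T q (t (f 0)) = T q (f n)` (`T_t`, `T_add_one`). For `j = n`: `x n = T 1 (f 0) = f n`.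
`exists_cseq`: `per_ext` with `n = l.length`, `f j = l[j]` for `j < n`, `f n = t l[0]` (e.g. `f j = if h : j < n then l[j] else t l[0]`): `f j ≤ f (j+1)` by pairwise `R`
(for `j + 1 = n`: `l[n-1] ≤ t l[0]` by `R` if `n > 1`, by `Gd` if `n = 1`); translates by `T k` (field `shift` of `SubL`).
`exists_list`: `l = (List.range n).map (fun j => S.x j)`; for `i < j < n`: `x i ≤ x j ≤ x (i + n) = t (x i)`; `orb l`: `c ∈ fr (x i)`, `i = r + q n`: `x i = T q (x r)`, `fr_T'`.
`exists_sorted`: induction on `F.card`: a minimal element `m` of `F` (`Finset.exists_minimal`) is below all the others; `m :: l'`, `l'` for `F.erase m`. -/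

set_option autoImplicit false

namespace TorA
open Finsupp Tor
variable {X C : Type} [Lattice X] [DecidableEq C] {H : HLat X C} {L : Set X}

theorem per_ext (H : HLat X C) (n : ℕ) (hn : 0 < n) (f : ℕ → X) (hf : f n = H.t (f 0)) :
    ∃ x : ℤ → X, (∀ i, x (i + n) = H.t (x i)) ∧
      (∀ i, ∃ (k : ℤ) (j : ℕ), j < n ∧ x i = H.T k (f j) ∧ x (i + 1) = H.T k (f (j + 1))) ∧
      ∀ j : ℕ, j ≤ n → x j = f j := by
  have hn' : (0 : ℤ) < n := by exact_mod_cast hn
  have hne : (n : ℤ) ≠ 0 := hn'.ne'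
  refine ⟨fun i => H.T (i / n) (f (i % n).toNat), fun i => ?_, fun i => ?_, fun j hj => ?_⟩
  · show H.T ((i + n) / n) (f ((i + n) % n).toNat) = H.t (H.T (i / n) (f (i % n).toNat))
    rw [Int.add_ediv_of_dvd_right (dvd_refl _), Int.ediv_self hne, Int.add_emod_right, H.T_add_one]
  · have hr0 := Int.emod_nonneg i hne
    have hr1 := Int.emod_lt_of_pos i hn'
    refine ⟨i / n, (i % n).toNat, by omega, rfl, ?_⟩
    show H.T ((i + 1) / n) (f ((i + 1) % n).toNat) = H.T (i / n) (f ((i % n).toNat + 1))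
    have hi := Int.mul_ediv_add_emod i n
    rcases eq_or_ne (i % n + 1) n with h | h
    · have e : i + 1 = n * (i / n + 1) := by linarith [mul_add (n : ℤ) (i / n) 1, mul_one (n : ℤ)]
      have e1 : (i + 1) / n = i / n + 1 := by
        rw [e, Int.mul_ediv_cancel_left _ hne]
      have e2 : (i + 1) % n = 0 := by
        rw [e, Int.mul_emod_right]
      have e3 : (i % n).toNat + 1 = n := by omega
      rw [e1, e2, e3, hf, H.T_add_one, H.T_t]
      rfl
    · have hlt : i % n + 1 < n := lt_of_le_of_ne (by omega) h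
      have e : i + 1 = (i % n + 1) + n * (i / n) := by linarith
      have e1 : (i + 1) / n = i / n := by
        rw [e, Int.add_mul_ediv_left _ _ hne, Int.ediv_eq_zero_of_lt (by omega) hlt, zero_add]
      have e2 : (i + 1) % n = i % n + 1 := by
        rw [e, Int.add_mul_emod_self_left, Int.emod_eq_of_lt (by omega) hlt]
      have e3 : (i % n + 1).toNat = (i % n).toNat + 1 := by omega
      rw [e1, e2, e3]
  · show H.T ((j : ℤ) / n) (f ((j : ℤ) % n).toNat) = f j
    rcases eq_or_lt_of_le hj with h | h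
    · subst h
      rw [Int.ediv_self hne, Int.emod_self, H.T_one, hf]
      rfl
    · have h' : (j : ℤ) < n := by exact_mod_cast h
      rw [Int.ediv_eq_zero_of_lt (Int.natCast_nonneg j) h',
        Int.emod_eq_of_lt (Int.natCast_nonneg j) h', H.T_zero, Int.toNat_natCast]

theorem exists_cseq (hL : H.SubL L) {l : List X} (hl : l ∈ H.Cy) (hne : l ≠ [])
    (hmem : ∀ x ∈ l, x ∈ L) :
    ∃ S : CSeq H L, (∀ x ∈ l, ∃ i, S.x i = x) ∧ ∀ i, ∃ x ∈ l, ∃ k : ℤ, S.x i = H.T k x := by
  have hpos : 0 < l.length := List.length_pos_iff.2 hne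
  set f : ℕ → X := fun j => if h : j < l.length then l[j] else H.t (l[0]) with hf
  have hfj : ∀ (j : ℕ) (h : j < l.length), f j = l[j] := fun j h => dif_pos h
  have hfn : f l.length = H.t (l[0]) := dif_neg (lt_irrefl _)
  have hf0 : f l.length = H.t (f 0) := by rw [hfn, hfj 0 hpos]
  obtain ⟨x, hx1, hx2, hx3⟩ := per_ext H l.length hpos f hf0
  have hR : ∀ (i j : ℕ) (hi : i < l.length) (hj : j < l.length), i < j →
      l[i] ≤ l[j] ∧ l[j] ≤ H.t (l[i]) := fun i j hi hj hij =>
    List.pairwise_iff_getElem.1 hl.1 i j hi hj hij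
  have hG : ∀ (j : ℕ) (hj : j < l.length), l[j] ≤ H.t (l[j]) := fun j hj =>
    hl.2 _ (List.getElem_mem hj)
  have hstep : ∀ j < l.length, f j ≤ f (j + 1) := by
    intro j hj
    rw [hfj j hj]
    rcases eq_or_lt_of_le (Nat.succ_le_of_lt hj) with h | h
    · have e : j + 1 = l.length := h
      rw [e, hfn]
      rcases Nat.eq_zero_or_pos j with h0 | h0
      · subst h0
        exact hG 0 hpos
      · exact (hR 0 j hpos hj h0).2
    · have h' : j + 1 < l.length := h
      rw [hfj (j + 1) h']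
      exact (hR j (j + 1) hj h' (Nat.lt_succ_self j)).1
  have hshape : ∀ i, ∃ z ∈ l, ∃ k : ℤ, x i = H.T k z := by
    intro i
    obtain ⟨k, j, hj, e1, -⟩ := hx2 i
    exact ⟨l[j], List.getElem_mem hj, k, by rw [e1, hfj j hj]⟩
  refine ⟨⟨x, l.length, hpos, fun i => ?_, fun i => ?_, hx1⟩, fun z hz => ?_, hshape⟩
  · obtain ⟨z, hz, k, hk⟩ := hshape i
    rw [hk]
    exact hL.shift _ (hmem z hz) k
  · obtain ⟨k, j, hj, e1, e2⟩ := hx2 i
    rw [e1, e2, H.T_le_iff]
    exact hstep j hj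
  · obtain ⟨j, hj, rfl⟩ := List.mem_iff_getElem.1 hz
    refine ⟨j, ?_⟩
    show x j = l[j]
    rw [hx3 j hj.le, hfj j hj]

theorem CSeq.exists_list (S : CSeq H L) (hL : H.SubL L) :
    ∃ l ∈ H.Cy, l ≠ [] ∧ (∀ x ∈ l, ∃ i, x = S.x i) ∧ (∀ i : ℕ, i < S.n → S.x i ∈ l) ∧
      H.orb l = {c | ∃ i, c ∈ H.fr (S.x i)} := by
  have hn' : (0 : ℤ) < S.n := by exact_mod_cast S.pos
  have hne : (S.n : ℤ) ≠ 0 := hn'.ne'
  have hmemi : ∀ i : ℕ, i < S.n → S.x i ∈ (List.range S.n).map (fun j : ℕ => S.x j) := fun i hi =>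
    List.mem_map.2 ⟨i, List.mem_range.2 hi, rfl⟩
  have hmem : ∀ z ∈ (List.range S.n).map (fun j : ℕ => S.x j), ∃ i, z = S.x i := by
    intro z hz
    obtain ⟨j, -, rfl⟩ := List.mem_map.1 hz
    exact ⟨j, rfl⟩
  refine ⟨(List.range S.n).map (fun j : ℕ => S.x j), ⟨?_, ?_⟩, ?_, hmem, hmemi, ?_⟩
  · rw [List.pairwise_map]
    refine List.Pairwise.imp_of_mem ?_ List.pairwise_lt_range
    intro a b ha hb hab
    have ha' := List.mem_range.1 ha
    have hb' := List.mem_range.1 hb
    refine ⟨S.mono (by exact_mod_cast hab.le), ?_⟩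
    rw [← S.per]
    refine S.mono ?_
    omega
  · intro z hz
    obtain ⟨i, rfl⟩ := hmem z hz
    exact hL.good (S.mem i)
  · intro h
    have := hmemi 0 S.pos
    rw [h] at this
    exact List.not_mem_nil this
  · ext c
    constructor
    · rintro ⟨z, hz, k, hk⟩
      obtain ⟨i, rfl⟩ := hmem z hz
      refine ⟨i + (-k) * S.n, ?_⟩
      rw [S.per_T, H.fr_T', neg_neg]
      exact hk
    · rintro ⟨i, hi⟩
      have hr0 := Int.emod_nonneg i hne
      have hr1 := Int.emod_lt_of_pos i hn'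
      have hdm := Int.mul_ediv_add_emod i S.n
      refine ⟨S.x ((i % S.n).toNat : ℕ), hmemi _ (by omega), -(i / S.n), ?_⟩
      have e : i = ((i % S.n).toNat : ℕ) + (i / S.n) * S.n := by
        rw [Int.toNat_of_nonneg hr0]
        linarith [mul_comm (i / (S.n : ℤ)) (S.n : ℤ)]
      rw [← H.fr_T', ← S.per_T, ← e]
      exact hi

theorem exists_sorted (F : Finset X) (h : ∀ x ∈ F, ∀ y ∈ F, x ≤ y ∨ y ≤ x) :
    ∃ l : List X, l.Pairwise (· ≤ ·) ∧ ∀ x, x ∈ l ↔ x ∈ F := by
  classical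
  induction F using Finset.strongInduction with
  | H F ih =>
    rcases F.eq_empty_or_nonempty with rfl | hF
    · exact ⟨[], List.Pairwise.nil, fun x => by simp⟩
    · obtain ⟨m, hm, hmin⟩ := F.exists_minimal hF
      obtain ⟨l, hl1, hl2⟩ := ih (F.erase m) (Finset.erase_ssubset hm) fun x hx y hy =>
        h x (Finset.mem_of_mem_erase hx) y (Finset.mem_of_mem_erase hy)
      refine ⟨m :: l, List.pairwise_cons.2 ⟨fun z hz => ?_, hl1⟩, fun x => ?_⟩
      · have hz' := Finset.mem_of_mem_erase ((hl2 z).1 hz)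
        rcases h m hm z hz' with h1 | h1
        · exact h1
        · exact hmin hz' h1
      · rw [List.mem_cons, hl2, Finset.mem_erase]
        constructor
        · rintro (rfl | h1)
          · exact hm
          · exact h1.2
        · intro hx
          by_cases hxm : x = m
          · exact Or.inl hxm
          · exact Or.inr ⟨hxm, hx⟩

end TorA
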