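import Pool.Agent.Lib.MP_05cdf2_gt.A.CCov
import Pool.Agent.Lib.MP_05cdf2_gt.A.CPer

/-! MP_05cdf2_gt, stream A (abstract cyclic step), job CFrame: frames (maximal cyclic chains).

`exists_frame`: `SubL.chain` from `x0` to `t x0` (`n > 0` as `x0 ≠ t x0`), `per_ext`, `SubL.cov_T`.
`pt_eq`: `x i ≤ pt y i ≤ x (i+1)`, `pt_mem`, `cov`.
`fr_sub`: if `c` is in no `fr (x i)` then `ind c (pt y i) = 0 = ind c (pt (x 0) i)` for all `i` (`pt_eq`), so `ind c y = ind c (x 0) = 0` (`tel_eq`).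
`exists_pt_ne`: otherwise `rho x = rho y` by `tel_eq`, but `x < y`.
`n_le`: `rho (x n) = rho (x 0) + P` and `rho` grows by at least one at each step.
`cov_at`: `Cov L x y`, `S : CSeq H L`: there is `i` with `pt x i ≠ pt y i`, and then by `cov_proj` `v (pt y i) - v (pt x i) = v y - v x` for all modular `v`;
for `ind c`, this gives the statement about curves; `pt x i ≤ pt y i`, so `<`. `Nt`: the finset `fr a \ fr b` is determined by the differences of the `ind c`. -/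

set_option autoImplicit false

namespace TorA
open Finsupp Tor
variable {X C : Type} [Lattice X] [DecidableEq C] {H : HLat X C} {L : Set X}

theorem exists_frame (hL : H.SubL L) {x0 : X} (h : x0 ∈ L) : ∃ F : Frame H L, F.x 0 = x0 := by
  have ht : H.t x0 ∈ L := by
    have := hL.shift x0 h 1
    rwa [H.T_one] at this
  obtain ⟨n, f, h0, hn, hc⟩ := hL.chain h ht (hL.good h)
  have hpos : 0 < n := by
    rcases Nat.eq_zero_or_pos n with h1 | h1
    · subst h1
      exact absurd (h0.symm.trans hn) (H.ne_t x0)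
    · exact h1
  obtain ⟨x, hx1, hx2, hx3⟩ := per_ext H n hpos f (by rw [hn, h0])
  refine ⟨⟨⟨x, n, hpos, fun i => ?_, fun i => ?_, hx1⟩, fun i => ?_⟩, ?_⟩
  · obtain ⟨k, j, hj, e1, -⟩ := hx2 i
    rw [e1]
    exact hL.shift _ (hc j hj).1 k
  · obtain ⟨k, j, hj, e1, e2⟩ := hx2 i
    rw [e1, e2, H.T_le_iff]
    exact (hc j hj).2.2.1.le
  · obtain ⟨k, j, hj, e1, e2⟩ := hx2 i
    show Cov L (x i) (x (i + 1))
    rw [e1, e2]
    exact hL.cov_T (hc j hj) k
  · show x 0 = x0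
    have := hx3 0 (Nat.zero_le n)
    rw [Nat.cast_zero] at this
    rw [this, h0]

theorem Frame.pt_eq (F : Frame H L) (hL : H.SubL L) {y : X} (hy : y ∈ L) (i : ℤ) :
    F.pt y i = F.x i ∨ F.pt y i = F.x (i + 1) := by
  exact (F.cov i).2.2.2 _ (F.toCSeq.pt_mem hL hy i) (F.toCSeq.le_pt y i) (F.toCSeq.pt_le y i)

theorem Frame.fr_sub (F : Frame H L) (hL : H.SubL L) {y : X} (hy : y ∈ L) {c : C}
    (hc : c ∈ H.fr y) : ∃ i, c ∈ H.fr (F.x i) := by
  by_contra hcon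
  push Not at hcon
  have h0 : ∀ z ∈ L, ∀ i, H.ind c (F.pt z i) = 0 := by
    intro z hz i
    rw [H.ind_eq_zero]
    rcases F.pt_eq hL hz i with h | h
    · rw [h]
      exact hcon i
    · rw [h]
      exact hcon (i + 1)
  have h1 := F.toCSeq.tel_eq hL (hL.ind_md c) hy (F.mem 0) fun i => by
    rw [h0 y hy i, h0 _ (F.mem 0) i]
  rw [H.ind_eq_zero.2 (hcon 0)] at h1
  exact (H.ind_eq_zero.1 h1) hc

theorem CSeq.exists_pt_ne (S : CSeq H L) (hL : H.SubL L) {x y : X} (hx : x ∈ L) (hy : y ∈ L)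
    (h : x < y) : ∃ i, S.pt x i ≠ S.pt y i := by
  by_contra hcon
  push Not at hcon
  have h1 := S.tel_eq hL hL.rho_md hx hy fun i => by rw [hcon i]
  exact absurd h1 (H.rho_lt x y h).ne

theorem Frame.n_le (F : Frame H L) : (F.n : ℤ) ≤ H.P := by
  have h1 : ∀ j : ℕ, H.rho (F.x 0) + j ≤ H.rho (F.x j) := by
    intro j
    induction j with
    | zero => simp
    | succ j ih =>
      have h2 := H.rho_lt _ _ (F.cov j).2.2.1
      push_cast
      linarith
  have h2 := h1 F.n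
  have h3 := F.per 0
  rw [zero_add] at h3
  rw [h3, H.rho_t] at h2
  linarith

theorem diff_eq_of_ind {a b x y : X} (h : ∀ c, H.ind c b - H.ind c a = H.ind c y - H.ind c x) :
    H.fr a \ H.fr b = H.fr x \ H.fr y ∧ H.fr b \ H.fr a = H.fr y \ H.fr x := by
  have key : ∀ c, (c ∈ H.fr a ∧ c ∉ H.fr b ↔ c ∈ H.fr x ∧ c ∉ H.fr y) ∧
      (c ∈ H.fr b ∧ c ∉ H.fr a ↔ c ∈ H.fr y ∧ c ∉ H.fr x) := by
    intro c
    have h1 := h c
    unfold HLat.ind at h1
    by_cases ha : c ∈ H.fr a <;> by_cases hb : c ∈ H.fr b <;> by_cases hx : c ∈ H.fr x <;>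
      by_cases hy : c ∈ H.fr y <;> simp [ha, hb, hx, hy] at h1 ⊢
  constructor
  · ext c
    rw [Finset.mem_sdiff, Finset.mem_sdiff]
    exact (key c).1
  · ext c
    rw [Finset.mem_sdiff, Finset.mem_sdiff]
    exact (key c).2

/-- a cover of `L` is visible at one step of a sequence -/
theorem CSeq.cov_at (S : CSeq H L) (hL : H.SubL L) {x y : X} (h : Cov L x y) :
    ∃ i, S.pt x i < S.pt y i ∧ H.fr (S.pt x i) \ H.fr (S.pt y i) = H.fr x \ H.fr y ∧
      H.fr (S.pt y i) \ H.fr (S.pt x i) = H.fr y \ H.fr x ∧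
      H.rho (S.pt y i) - H.rho (S.pt x i) = H.rho y - H.rho x := by
  obtain ⟨i, hi⟩ := S.exists_pt_ne hL h.1 h.2.1 h.2.2.1
  have h1 : ∀ v : X → ℤ, Md L v → v (S.pt y i) - v (S.pt x i) = v y - v x :=
    (hL.cov_proj h (S.mem i) (S.mem (i + 1)) (S.le i)).resolve_left hi
  obtain ⟨d1, d2⟩ := diff_eq_of_ind (H := H) (a := S.pt x i) (b := S.pt y i) (x := x) (y := y)
    fun c => h1 _ (hL.ind_md c)
  exact ⟨i, lt_of_le_of_ne (S.pt_mono h.2.2.1.le i) hi, d1, d2, h1 _ hL.rho_md⟩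

end TorA
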