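import Pool.Agent.Lib.MP_05cdf2_gt.A.CFrame

/-! MP_05cdf2_gt, stream A (abstract cyclic step), job CIdA: elements of `L` as sets of steps of a frame `F`, `F.I y = {i | F.x (i + 1) ≤ y ⊔ F.x i}`.

`i ∈ I y` iff `pt y i = x (i+1)`; otherwise `pt y i = x i` (`Frame.pt_eq`; `x i ≠ x (i+1)`).
`I_sup`: `pt (y ⊔ z) i = ((y ⊔ x i) ⊔ (z ⊔ x i)) ⊓ x (i+1) = pt y i ⊔ pt z i` (`SubL.dist_inf`). `I_inf`: `(y ⊓ z) ⊔ x i = (y ⊔ x i) ⊓ (z ⊔ x i)` (`dist_sup`), so `pt (y ⊓ z) i = pt y i ⊓ pt z i`.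
`I_T`: `pt_T` (with `i = (i - k n) + k n`). `I_x`: `pt_self`. `I_low`, `I_high`: for `F.x i' ≤ y` (`CSeq.low`) ... if `x (i+1) ≤ y` then `i ∈ I y`; if `y ≤ x i` then `i ∉ I y`.
`I_shift`: `y ≤ T 1 y`, so `i ∈ I y` implies `i ∈ I (T 1 y)`, `I_T`.
`RT1`: `f k = ind e (y ⊓ x k)`. By `tel_step` `f (k+1) - f k = ind e (pt y k) - ind e (x k)` = `0` if `k ∉ I y`, `= ind e (x (k+1)) - ind e (x k)` if `k ∈ I y`; by `mem_fr_iff` this last
difference is `1` for `k = i` (`En i e`), `-1` for `k = j` (`Lv j e`), `0` otherwise. `f k = ind e (x k) = 0` for small `k` (`low`, and `k ≤ i`), `f k = ind e y` for large `k`. So `ind e y = [i ∈ I y] - [j ∈ I y]`; as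
`ind e y` is 0 or 1, this gives `RT1` and `I_edge`.
`I_inj`: every `e ∈ fr y ∪ fr z` or in `fr (y ⊔ z)` enters and leaves (`fr_sub`, `exists_En_Lv`); if `I y = I z` then also `I (y ⊔ z) = I y` (`I_sup`) and by `RT1` `fr (y ⊔ z) = fr y`, so `y = y ⊔ z` (`inj`), same for `z`. -/

set_option autoImplicit false

namespace TorA
open Finsupp Tor
namespace Frame
variable {X C : Type} [Lattice X] [DecidableEq C] {H : HLat X C} {L : Set X} (F : Frame H L)

theorem pt_of_mem (hL : H.SubL L) {y : X} (hy : y ∈ L) {i : ℤ} : i ∈ F.I y ↔ F.pt y i = F.x (i + 1) := by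
  show F.x (i + 1) ≤ y ⊔ F.x i ↔ (y ⊔ F.x i) ⊓ F.x (i + 1) = F.x (i + 1)
  exact inf_eq_right.symm

theorem pt_of_notMem (hL : H.SubL L) {y : X} (hy : y ∈ L) {i : ℤ} : i ∉ F.I y ↔ F.pt y i = F.x i := by
  have hne : F.x i ≠ F.x (i + 1) := (F.cov i).2.2.1.ne
  constructor
  · intro h
    rcases F.pt_eq hL hy i with h1 | h1
    · exact h1
    · exact absurd ((F.pt_of_mem hL hy).2 h1) h
  · intro h h1
    exact hne (h.symm.trans ((F.pt_of_mem hL hy).1 h1))

theorem I_sup (hL : H.SubL L) {y z : X} (hy : y ∈ L) (hz : z ∈ L) (i : ℤ) :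
    i ∈ F.I (y ⊔ z) ↔ i ∈ F.I y ∨ i ∈ F.I z := by
  constructor
  · intro h
    by_contra hc
    rw [not_or] at hc
    have h1 := (F.pt_of_notMem hL hy).1 hc.1
    have h2 := (F.pt_of_notMem hL hz).1 hc.2
    have h3 := (F.pt_of_mem hL (hL.sup y hy z hz)).1 h
    have hne : F.x i ≠ F.x (i + 1) := (F.cov i).2.2.1.ne
    apply hne
    have h1' : (y ⊔ F.x i) ⊓ F.x (i + 1) = F.x i := h1
    have h2' : (z ⊔ F.x i) ⊓ F.x (i + 1) = F.x i := h2
    have h3' : ((y ⊔ z) ⊔ F.x i) ⊓ F.x (i + 1) = F.x (i + 1) := h3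
    have h4 : (y ⊔ z) ⊔ F.x i = (y ⊔ F.x i) ⊔ (z ⊔ F.x i) := by
      rw [sup_sup_distrib_right]
    rw [h4, inf_comm, hL.dist_inf (F.mem (i + 1)) (hL.sup _ hy _ (F.mem i)) (hL.sup _ hz _ (F.mem i)),
      inf_comm, h1', inf_comm, h2', sup_idem] at h3'
    exact h3'
  · rintro (h | h)
    · have h' : F.x (i + 1) ≤ y ⊔ F.x i := h
      exact h'.trans (sup_le_sup_right le_sup_left _)
    · have h' : F.x (i + 1) ≤ z ⊔ F.x i := h
      exact h'.trans (sup_le_sup_right le_sup_right _)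

theorem I_inf (hL : H.SubL L) {y z : X} (hy : y ∈ L) (hz : z ∈ L) (i : ℤ) :
    i ∈ F.I (y ⊓ z) ↔ i ∈ F.I y ∧ i ∈ F.I z := by
  show F.x (i + 1) ≤ (y ⊓ z) ⊔ F.x i ↔ F.x (i + 1) ≤ y ⊔ F.x i ∧ F.x (i + 1) ≤ z ⊔ F.x i
  rw [sup_comm, hL.dist_sup (F.mem i) hy hz, le_inf_iff, sup_comm (F.x i) y, sup_comm (F.x i) z]

theorem I_T (hL : H.SubL L) {y : X} (hy : y ∈ L) (i k : ℤ) :
    i ∈ F.I (H.T k y) ↔ i - k * F.n ∈ F.I y := by
  show F.x (i + 1) ≤ H.T k y ⊔ F.x i ↔ F.x (i - k * F.n + 1) ≤ y ⊔ F.x (i - k * F.n)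
  have h1 : F.x (i + 1) = H.T k (F.x (i - k * F.n + 1)) := by
    rw [← F.per_T]
    congr 1
    ring
  have h2 : F.x i = H.T k (F.x (i - k * F.n)) := by
    rw [← F.per_T]
    congr 1
    ring
  rw [h1, h2, ← H.T_sup, H.T_le_iff]

theorem I_x (hL : H.SubL L) (m i : ℤ) : i ∈ F.I (F.x m) ↔ i < m := by
  rw [F.pt_of_mem hL (F.mem m), F.pt_self]
  have hne : F.x i ≠ F.x (i + 1) := (F.cov i).2.2.1.ne
  constructor
  · intro h
    by_contra hc
    rw [if_neg hc] at h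
    exact hne h
  · intro h
    rw [if_pos h]

theorem I_low (hL : H.SubL L) {y : X} (hy : y ∈ L) : ∃ m : ℤ, ∀ i ≤ m, i ∈ F.I y := by
  obtain ⟨m, hm⟩ := F.low hL y
  refine ⟨m - 1, fun i hi => ?_⟩
  exact (hm (i + 1) (by omega)).trans le_sup_left

theorem I_high (hL : H.SubL L) {y : X} (hy : y ∈ L) : ∃ m : ℤ, ∀ i, m ≤ i → i ∉ F.I y := by
  obtain ⟨m, hm⟩ := F.high hL y
  refine ⟨m, fun i hi h => ?_⟩
  have h' : F.x (i + 1) ≤ y ⊔ F.x i := h
  rw [sup_eq_right.2 (hm i hi)] at h'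
  exact absurd (F.cov i).2.2.1 (not_lt_of_ge h')

theorem I_mono (hL : H.SubL L) {y z : X} (hy : y ∈ L) (hz : z ∈ L) (h : y ≤ z) {i : ℤ}
    (hi : i ∈ F.I y) : i ∈ F.I z := by
  exact le_trans (show F.x (i + 1) ≤ y ⊔ F.x i from hi) (sup_le_sup_right h _)

theorem I_shift (hL : H.SubL L) {y : X} (hy : y ∈ L) {i : ℤ} (hi : i ∈ F.I y) :
    i - F.n ∈ F.I y := by
  have h1 : y ≤ H.T 1 y := by
    rw [H.T_one]
    exact hL.good hy
  have h2 := F.I_mono hL hy (hL.shift y hy 1) h1 hi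
  rw [F.I_T hL hy, one_mul] at h2
  exact h2

open Classical in
theorem CIdA_ind (hL : H.SubL L) {y : X} (hy : y ∈ L) {i j : ℤ} {e : C} (hi : F.En i e)
    (hj : F.Lv j e) :
    H.ind e y = (if i ∈ F.I y then 1 else 0) - (if j ∈ F.I y then 1 else 0) := by
  have hij : i < j := F.En_lt_Lv hi hj
  obtain ⟨m, hm⟩ := F.low hL y
  obtain ⟨m', hm'⟩ := F.high hL y
  have hx : ∀ k, H.ind e (F.x k) = if i < k ∧ k ≤ j then 1 else 0 := by
    intro k
    by_cases h : i < k ∧ k ≤ j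
    · rw [if_pos h, H.ind_eq_one, F.mem_fr_iff hi hj]
      exact h
    · rw [if_neg h, H.ind_eq_zero, F.mem_fr_iff hi hj]
      exact h
  have hk : ∀ k : ℤ, min m i ≤ k → H.ind e (y ⊓ F.x k) =
      (if i < k ∧ i ∈ F.I y then 1 else 0) - (if j < k ∧ j ∈ F.I y then 1 else 0) := by
    intro k hk
    induction k, hk using Int.leInduction with
    | base =>
      have h1 : y ⊓ F.x (min m i) = F.x (min m i) := inf_eq_right.2 (hm _ (min_le_left _ _))
      have h2 := min_le_right m i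
      rw [h1, hx, if_neg (by omega), if_neg (by omega), if_neg (by omega)]
      rfl
    | succ k _ ih =>
      have h1 := F.tel_step hL (hL.ind_md e) hy k
      have h2 : H.ind e (y ⊓ F.x (k + 1)) = H.ind e (y ⊓ F.x k) +
          (H.ind e (F.pt y k) - H.ind e (F.x k)) := by linarith
      rw [h2, ih]
      by_cases hkI : k ∈ F.I y
      · rw [(F.pt_of_mem hL hy).1 hkI, hx, hx]
        by_cases hki : k = i
        · subst hki
          rw [if_neg (by omega), if_neg (by omega), if_pos (by omega), if_neg (by omega),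
            if_pos (by constructor; omega; exact hkI), if_neg (by omega)]
          norm_num
        · by_cases hkj : k = j
          · subst hkj
            rw [if_neg (show ¬ (k < k ∧ k ∈ F.I y) by omega), if_neg (show ¬ (i < k + 1 ∧ k + 1 ≤ k) by omega),
              if_pos (show i < k ∧ k ≤ k by omega), if_pos (show k < k + 1 ∧ k ∈ F.I y from ⟨by omega, hkI⟩)]
            by_cases hI : i ∈ F.I y
            · rw [if_pos ⟨hij, hI⟩, if_pos ⟨by omega, hI⟩]
              norm_num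
            · rw [if_neg (fun h => hI h.2), if_neg (fun h => hI h.2)]
              norm_num
          · have e1 : (i < k + 1 ∧ i ∈ F.I y) ↔ (i < k ∧ i ∈ F.I y) := by
              constructor
              · rintro ⟨h3, h4⟩
                exact ⟨by omega, h4⟩
              · rintro ⟨h3, h4⟩
                exact ⟨by omega, h4⟩
            have e2 : (j < k + 1 ∧ j ∈ F.I y) ↔ (j < k ∧ j ∈ F.I y) := by
              constructor
              · rintro ⟨h3, h4⟩
                exact ⟨by omega, h4⟩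
              · rintro ⟨h3, h4⟩
                exact ⟨by omega, h4⟩
            have e3 : (i < k + 1 ∧ k + 1 ≤ j) ↔ (i < k ∧ k ≤ j) := by omega
            simp only [e1, e2, e3]
            ring
      · rw [(F.pt_of_notMem hL hy).1 hkI]
        have e1 : (i < k + 1 ∧ i ∈ F.I y) ↔ (i < k ∧ i ∈ F.I y) := by
          constructor
          · rintro ⟨h3, h4⟩
            refine ⟨?_, h4⟩
            have : i ≠ k := fun h5 => hkI (h5 ▸ h4)
            omega
          · rintro ⟨h3, h4⟩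
            exact ⟨by omega, h4⟩
        have e2 : (j < k + 1 ∧ j ∈ F.I y) ↔ (j < k ∧ j ∈ F.I y) := by
          constructor
          · rintro ⟨h3, h4⟩
            refine ⟨?_, h4⟩
            have : j ≠ k := fun h5 => hkI (h5 ▸ h4)
            omega
          · rintro ⟨h3, h4⟩
            exact ⟨by omega, h4⟩
        simp only [e1, e2]
        ring
  have h1 := hk (max (max m' (j + 1)) (min m i)) (le_max_right _ _)
  have h2 : m' ≤ max (max m' (j + 1)) (min m i) := (le_max_left _ _).trans (le_max_left _ _)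
  have h3 : j + 1 ≤ max (max m' (j + 1)) (min m i) := (le_max_right _ _).trans (le_max_left _ _)
  rw [inf_eq_left.2 (hm' _ h2)] at h1
  rw [h1]
  have e1 : (i < max (max m' (j + 1)) (min m i) ∧ i ∈ F.I y) ↔ i ∈ F.I y :=
    ⟨fun h => h.2, fun h => ⟨by omega, h⟩⟩
  have e2 : (j < max (max m' (j + 1)) (min m i) ∧ j ∈ F.I y) ↔ j ∈ F.I y :=
    ⟨fun h => h.2, fun h => ⟨by omega, h⟩⟩
  simp only [e1, e2]

theorem RT1 (hL : H.SubL L) {y : X} (hy : y ∈ L) {i j : ℤ} {e : C} (hi : F.En i e) (hj : F.Lv j e) :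
    e ∈ H.fr y ↔ i ∈ F.I y ∧ j ∉ F.I y := by
  classical
  rw [← H.ind_eq_one, F.CIdA_ind hL hy hi hj]
  by_cases h1 : i ∈ F.I y
  · by_cases h2 : j ∈ F.I y
    · rw [if_pos h1, if_pos h2]
      simp [h2]
    · rw [if_pos h1, if_neg h2]
      simp [h1, h2]
  · by_cases h2 : j ∈ F.I y
    · rw [if_neg h1, if_pos h2]
      simp [h1]
    · rw [if_neg h1, if_neg h2]
      simp [h1]

theorem I_edge (hL : H.SubL L) {y : X} (hy : y ∈ L) {i j : ℤ} {e : C} (hi : F.En i e)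
    (hj : F.Lv j e) (h : j ∈ F.I y) : i ∈ F.I y := by
  classical
  by_contra h1
  have h2 := F.CIdA_ind hL hy hi hj
  rw [if_neg h1, if_pos h] at h2
  have h3 := H.ind_nonneg e y
  omega

theorem I_inj (hL : H.SubL L) {y z : X} (hy : y ∈ L) (hz : z ∈ L) (h : F.I y = F.I z) : y = z := by
  have key : ∀ y ∈ L, ∀ z ∈ L, F.I y = F.I z → y = y ⊔ z := by
    intro y hy z hz h
    have hyz := hL.sup y hy z hz
    have hI : ∀ i, i ∈ F.I (y ⊔ z) ↔ i ∈ F.I y := by
      intro i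
      rw [F.I_sup hL hy hz, ← h, or_self]
    refine H.inj _ _ le_sup_left ?_
    ext e
    constructor
    · intro he
      obtain ⟨i, hi⟩ := F.fr_sub hL hy he
      obtain ⟨a, b, -, -, ha, hb⟩ := F.exists_En_Lv hL hi
      rw [F.RT1 hL hyz ha hb, hI, hI, ← F.RT1 hL hy ha hb]
      exact he
    · intro he
      obtain ⟨i, hi⟩ := F.fr_sub hL hyz he
      obtain ⟨a, b, -, -, ha, hb⟩ := F.exists_En_Lv hL hi
      rw [F.RT1 hL hyz ha hb, hI, hI, ← F.RT1 hL hy ha hb] at he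
      exact he
  rw [key y hy z hz h]
  nth_rewrite 2 [key z hz y hy h.symm]
  exact sup_comm _ _

end Frame
end TorA
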