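import Pool.Agent.Lib.MP_05cdf2_gt.A.CIdA

/-! MP_05cdf2_gt, stream A (abstract cyclic step), job CIdB: every ideal of steps comes from an element of `Lam M`.

Ideal: `I : Set ℤ` closed under `i ↦ i - n`, under predecessors along curves (if `e` enters at `i` and leaves at `j ∈ I` then `i ∈ I`), containing all small and no large integers.
Proof. Let `m0` with all `i ≤ m0` in `I`, `m1` with no `i ≥ m1` in `I`. Start with `y = F.x (m0 + 1)` (or `F.x m0`), `I y ⊆ I`. Claim: for every `y ∈ Lam M` with `I y ⊆ I` and `{i | i ≤ m0} ⊆ I y`, by induction on the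
number of elements of the finite set `(I \ I y) ∩ Finset.Icc m0 m1`, there is `z ∈ Lam M`, `I z = I`. If the set is empty take `z = y`. Otherwise let `i` be its minimum: all `j < i` in `I` are in `I y`.
Let `L = Lam M` (`subL_Lam`), `u = (y ⊔ x i) ⊓ t y`, `u' = (y ⊔ x (i+1)) ⊓ t y` (`t y = T 1 y ∈ L`). By `I_sup, I_inf, I_T, I_x`: `I u = (I y ∪ {j < i}) ∩ (I y + n)`, `I u' = (I y ∪ {j ≤ i}) ∩ (I y + n)`.
`i - n ∈ I`, `i - n < i`, so `i - n ∈ I y`: hence `i ∈ I u'`, `i ∉ I u`, `I u' = I u ∪ {i}`. `y ≤ u ≤ u' ≤ t y`. If `e ∈ fr u`, `e ∉ fr u'`: `e` enters at `a`, leaves at `b` (`fr_sub`, `exists_En_Lv`), by `RT1`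
`a ∈ I u ⊆ I u'`, `b ∉ I u`, so `b ∈ I u'`, `b = i ∈ I`, so `a ∈ I`, `a < b = i` (`En_lt_Lv`), so `a ∈ I y`; `i ∉ I y`; so `e ∈ fr y` (`RT1`). So `compl_mem` applies to `y ≤ u ≤ u' ≤ t y`: `z ∈ Lam M`,
`u ⊓ z = y`, `u ⊔ z = u'`: `I z ∩ I u = I y`, `I z ∪ I u = I u ∪ {i}`, so `I z = I y ∪ {i}` (`i ∈ I z` as `i ∉ I u`; `I z ⊆ I u ∪ {i}`). Induction for `z`. -/

set_option autoImplicit false

namespace TorA
open Finsupp Tor
variable {X C : Type} [Lattice X] [DecidableEq C] {H : HLat X C}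

/-- one step: add the smallest missing step -/
theorem CIdB_step {M : Set C} (hM : H.Coh M) (F : Frame H (H.Lam M)) (I : Set ℤ)
    (h1 : ∀ i ∈ I, i - (F.n : ℤ) ∈ I)
    (h2 : ∀ e i j, F.En i e → F.Lv j e → j ∈ I → i ∈ I) {y : X} (hy : y ∈ H.Lam M)
    {i : ℤ} (hi : i ∈ I) (hiy : i ∉ F.I y) (hj : ∀ j, j < i → j ∈ I → j ∈ F.I y) :
    ∃ z ∈ H.Lam M, ∀ j, j ∈ F.I z ↔ j ∈ F.I y ∨ j = i := by
  have hL := H.subL_Lam hM
  have hty : H.T 1 y ∈ H.Lam M := hL.shift y hy 1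
  have hxi : F.x i ∈ H.Lam M := F.mem i
  have hxi' : F.x (i + 1) ∈ H.Lam M := F.mem (i + 1)
  have hn : (0 : ℤ) < F.n := by exact_mod_cast F.pos
  have hs : y ⊔ F.x i ∈ H.Lam M := hL.sup _ hy _ hxi
  have hs' : y ⊔ F.x (i + 1) ∈ H.Lam M := hL.sup _ hy _ hxi'
  obtain ⟨u, hu⟩ : ∃ u, u = (y ⊔ F.x i) ⊓ H.T 1 y := ⟨_, rfl⟩
  obtain ⟨u', hu'⟩ : ∃ u', u' = (y ⊔ F.x (i + 1)) ⊓ H.T 1 y := ⟨_, rfl⟩
  have huL : u ∈ H.Lam M := by rw [hu]; exact hL.inf _ hs _ hty
  have huL' : u' ∈ H.Lam M := by rw [hu']; exact hL.inf _ hs' _ hty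
  have mu : ∀ j, j ∈ F.I u ↔ (j ∈ F.I y ∨ j < i) ∧ j - F.n ∈ F.I y := by
    intro j
    rw [hu, F.I_inf hL hs hty, F.I_sup hL hy hxi, F.I_x hL, F.I_T hL hy, one_mul]
  have mu' : ∀ j, j ∈ F.I u' ↔ (j ∈ F.I y ∨ j < i + 1) ∧ j - F.n ∈ F.I y := by
    intro j
    rw [hu', F.I_inf hL hs' hty, F.I_sup hL hy hxi', F.I_x hL, F.I_T hL hy, one_mul]
  have hin : i - (F.n : ℤ) ∈ F.I y := hj _ (by omega) (h1 i hi)
  have hyt : y ≤ H.T 1 y := by
    rw [H.T_one]
    exact hy.1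
  have hyu : y ≤ u := by
    rw [hu]
    exact le_inf le_sup_left hyt
  have huu' : u ≤ u' := by
    rw [hu, hu']
    exact inf_le_inf_right _ (sup_le_sup_left (F.le i) y)
  have hu't : u' ≤ H.t y := by
    rw [hu', ← H.T_one]
    exact inf_le_right
  have hc : ∀ c ∈ H.fr u, c ∈ H.fr y ∨ c ∈ H.fr u' := by
    intro e he
    by_cases he' : e ∈ H.fr u'
    · exact Or.inr he'
    left
    obtain ⟨k, hk⟩ := F.fr_sub hL huL he
    obtain ⟨a, b, -, -, ha, hb⟩ := F.toCSeq.exists_En_Lv hL hk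
    rw [F.RT1 hL huL ha hb] at he
    rw [F.RT1 hL huL' ha hb] at he'
    rw [F.RT1 hL hy ha hb]
    have ha' : a ∈ F.I u' := F.I_mono hL huL huL' huu' he.1
    have hb' : b ∈ F.I u' := by
      by_contra hcon
      exact he' ⟨ha', hcon⟩
    have hbu := he.2
    rw [mu] at hbu
    rw [mu'] at hb'
    have hbi : b = i ∧ b ∉ F.I y := by
      by_cases hby : b ∈ F.I y
      · exact absurd ⟨Or.inl hby, hb'.2⟩ hbu
      · refine ⟨?_, hby⟩
        have h5 : b < i + 1 := hb'.1.resolve_left hby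
        have h6 : ¬ b < i := fun h7 => hbu ⟨Or.inr h7, hb'.2⟩
        omega
    refine ⟨?_, hbi.2⟩
    have hab : a < b := F.toCSeq.En_lt_Lv ha hb
    exact hj a (by omega) (h2 e a b ha hb (hbi.1 ▸ hi))
  obtain ⟨z, hz, -, -, hz1, hz2, -, -⟩ := H.compl_mem hM hy huL huL' hyu huu' hu't hc
  have m1 : ∀ j, j ∈ F.I y ↔ j ∈ F.I u ∧ j ∈ F.I z := by
    intro j
    rw [← F.I_inf hL huL hz, hz1]
  have m2 : ∀ j, j ∈ F.I u' ↔ j ∈ F.I u ∨ j ∈ F.I z := by
    intro j
    rw [← F.I_sup hL huL hz, hz2]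
  refine ⟨z, hz, fun j => ⟨fun h => ?_, ?_⟩⟩
  · by_cases hju : j ∈ F.I u
    · exact Or.inl ((m1 j).2 ⟨hju, h⟩)
    · have h5 := (m2 j).2 (Or.inr h)
      rw [mu'] at h5
      rw [mu] at hju
      rcases h5.1 with h6 | h6
      · exact Or.inl h6
      · right
        have h7 : ¬ j < i := fun h7 => hju ⟨Or.inr h7, h5.2⟩
        omega
  · rintro (h | rfl)
    · exact ((m1 j).1 h).2
    · have h5 : j ∈ F.I u' := (mu' j).2 ⟨Or.inr (by omega), hin⟩
      refine ((m2 j).1 h5).resolve_left fun h6 => ?_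
      rw [mu] at h6
      rcases h6.1 with h7 | h7
      · exact hiy h7
      · exact lt_irrefl _ h7

theorem Frame.exists_of_ideal {M : Set C} (hM : H.Coh M) (F : Frame H (H.Lam M)) (I : Set ℤ)
    (h1 : ∀ i ∈ I, i - (F.n : ℤ) ∈ I)
    (h2 : ∀ e i j, F.En i e → F.Lv j e → j ∈ I → i ∈ I)
    (h3 : ∃ m : ℤ, ∀ i ≤ m, i ∈ I) (h4 : ∃ m : ℤ, ∀ i, m ≤ i → i ∉ I) :
    ∃ y ∈ H.Lam M, F.I y = I := by
  classical
  obtain ⟨m0, h3⟩ := h3
  obtain ⟨m1, h4⟩ := h4
  have hL := H.subL_Lam hM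
  have key : ∀ (k : ℕ) (y : X), y ∈ H.Lam M → F.I y ⊆ I → (∀ i ≤ m0, i ∈ F.I y) →
      ((Finset.Icc m0 m1).filter fun i => i ∈ I ∧ i ∉ F.I y).card ≤ k →
      ∃ z ∈ H.Lam M, F.I z = I := by
    intro k
    induction k with
    | zero =>
      intro y hy h5 h6 h7
      rw [Nat.le_zero, Finset.card_eq_zero] at h7
      refine ⟨y, hy, Set.Subset.antisymm h5 fun i hi => ?_⟩
      by_contra hcon
      have h8 : i < m1 := not_le.1 fun h8 => h4 i h8 hi
      have h9 : m0 < i := not_le.1 fun h9 => hcon (h6 i h9)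
      have h10 : i ∈ (Finset.Icc m0 m1).filter fun i => i ∈ I ∧ i ∉ F.I y := by
        rw [Finset.mem_filter, Finset.mem_Icc]
        exact ⟨⟨h9.le, h8.le⟩, hi, hcon⟩
      rw [h7] at h10
      exact absurd h10 (Finset.notMem_empty _)
    | succ k ih =>
      intro y hy h5 h6 h7
      by_cases hne : ((Finset.Icc m0 m1).filter fun i => i ∈ I ∧ i ∉ F.I y).Nonempty
      · obtain ⟨i, hi, hmin⟩ := Finset.exists_minimal hne
        rw [Finset.mem_filter, Finset.mem_Icc] at hi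
        have hj : ∀ j, j < i → j ∈ I → j ∈ F.I y := by
          intro j hji hjI
          by_contra hcon
          have h9 : m0 < j := not_le.1 fun h9 => hcon (h6 j h9)
          have h10 : j ∈ (Finset.Icc m0 m1).filter fun i => i ∈ I ∧ i ∉ F.I y := by
            rw [Finset.mem_filter, Finset.mem_Icc]
            exact ⟨⟨h9.le, by omega⟩, hjI, hcon⟩
          have h11 := hmin h10 hji.le
          omega
        obtain ⟨z, hz, hzI⟩ := CIdB_step hM F I h1 h2 hy hi.2.1 hi.2.2 hj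
        refine ih z hz ?_ ?_ ?_
        · intro j hjz
          rcases (hzI j).1 hjz with h8 | h8
          · exact h5 h8
          · rw [h8]
            exact hi.2.1
        · intro j hjm
          exact (hzI j).2 (Or.inl (h6 j hjm))
        · have h8 : ((Finset.Icc m0 m1).filter fun i => i ∈ I ∧ i ∉ F.I z) ⊂
              ((Finset.Icc m0 m1).filter fun i => i ∈ I ∧ i ∉ F.I y) := by
            rw [Finset.ssubset_iff_of_subset]
            · refine ⟨i, ?_, ?_⟩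
              · rw [Finset.mem_filter, Finset.mem_Icc]
                exact hi
              · rw [Finset.mem_filter]
                rintro ⟨-, -, h9⟩
                exact h9 ((hzI i).2 (Or.inr rfl))
            · intro j hjm
              rw [Finset.mem_filter] at hjm ⊢
              exact ⟨hjm.1, hjm.2.1, fun h9 => hjm.2.2 ((hzI j).2 (Or.inl h9))⟩
          have h9 := Finset.card_lt_card h8
          omega
      · refine ih y hy h5 h6 ?_
        rw [Finset.not_nonempty_iff_eq_empty] at hne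
        rw [hne, Finset.card_empty]
        exact Nat.zero_le _
  refine key _ (F.x (m0 + 1)) (F.mem _) ?_ ?_ le_rfl
  · intro i hi
    rw [F.I_x hL] at hi
    exact h3 i (by omega)
  · intro i hi
    rw [F.I_x hL]
    omega

end TorA
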