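import Pool.Agent.Lib.MP_05cdf2_gt.A.CDefB

/-! MP_05cdf2_gt, stream A (abstract cyclic step), job CLam: the lattices `Lam M` (`M` coherent).

`coh_ind`, `coh_rho`: field `coh` of `HLat` (`M ⊆ orb l`, `l ∈ Cy`; unfold `ind`).
`Lam_sup`: `x ⊔ y ≤ t x ⊔ t y = t (x ⊔ y)`; a curve of `x ⊔ y` has `ind = 1`, so by `coh_ind` it is a curve of `x` or of `y`. Same for `⊓`.
`w_md`: `w x = ∑ c ∈ A, ind c x` for every finset `A ⊇ fr x`; take `A` = union of the four frontiers.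
`eq_of_ind`: `fr x = fr y` (`ind_eq_one`), field `inj`.
`modular`: `x ≤ z`; `x ⊔ (y ⊓ z) ≤ (x ⊔ y) ⊓ z`, and both have the same `ind c`: `ind c ((x ⊔ y) ⊓ z) = v x + v y - v (x ⊓ y) + v z - v (y ⊔ z)` (because
`(x ⊔ y) ⊔ z = y ⊔ z`), `ind c (x ⊔ (y ⊓ z)) = v x + v y + v z - v (y ⊔ z) - v (x ⊓ y)` (because `x ⊓ (y ⊓ z) = x ⊓ y`). So `eq_of_ind`.
`dist_inf`: let `v = ind c`, `a = x ⊓ (y ⊔ z)`, `b = (x ⊓ y) ⊔ (x ⊓ z) ≤ a`, `D = v a - v b`. Expanding with modularity of `v` (all elements are in `L`)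
 `D = v x + v y + v z - v (y ⊓ z) - v (x ⊓ y) - v (x ⊓ z) + v (x ⊓ y ⊓ z) - v (x ⊔ y ⊔ z)`. Let `m = b ⊔ (y ⊓ z)`: `b ⊓ (y ⊓ z) = x ⊓ y ⊓ z`, so
 `v m = v (x ⊓ y) + v (x ⊓ z) + v (y ⊓ z) - 2 v (x ⊓ y ⊓ z)`; let `M = ((x ⊔ y) ⊓ (x ⊔ z)) ⊓ (y ⊔ z)`: dually
 `v M = v (x ⊔ y) + v (x ⊔ z) + v (y ⊔ z) - 2 v (x ⊔ y ⊔ z)`. Hence `v M - v m = 2 D`, and `v` has values in `{0, 1}`, so `D = 0`. So `eq_of_ind`.
`dist_sup` follows: `(x ⊔ y) ⊓ (x ⊔ z) = ((x ⊔ y) ⊓ x) ⊔ ((x ⊔ y) ⊓ z) = x ⊔ ((x ⊓ z) ⊔ (y ⊓ z)) = x ⊔ (y ⊓ z)`.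
`compl_mem`: field `compl`; `z ≤ y' ≤ t x ≤ t z`, `fr z ⊆ fr x ∪ fr y'`; the formula for `ind` from the union and the intersection; for `rho` use
`coh_rho` for `y`, `z`.
`notin_large`: `{k | c ∈ fr (T k x)}` = `{k | (tc ^ (-k)) c ∈ fr x}` is finite because `k ↦ (tc ^ (-k)) c` is injective (field `free`). -/

set_option autoImplicit false

namespace TorA
open Finsupp Tor
namespace HLat
variable {X C : Type} [Lattice X] [DecidableEq C] (H : HLat X C)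

theorem coh_ind {M : Set C} (hM : H.Coh M) {x y : X} (hx : x ∈ H.Lam M) (hy : y ∈ H.Lam M) (c : C) :
    H.ind c (x ⊔ y) + H.ind c (x ⊓ y) = H.ind c x + H.ind c y := by
  obtain ⟨hinv, l, hl, hsub⟩ := hM
  have h := H.coh l hl.1 (fun z hz => hl.2 z hz) x y hx.1 hy.1
    (fun c hc => hsub (hx.2 c hc)) (fun c hc => hsub (hy.2 c hc))
  exact h.1 c

theorem coh_rho {M : Set C} (hM : H.Coh M) {x y : X} (hx : x ∈ H.Lam M) (hy : y ∈ H.Lam M) :
    H.rho (x ⊔ y) + H.rho (x ⊓ y) = H.rho x + H.rho y := by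
  obtain ⟨hinv, l, hl, hsub⟩ := hM
  have h := H.coh l hl.1 (fun z hz => hl.2 z hz) x y hx.1 hy.1
    (fun c hc => hsub (hx.2 c hc)) (fun c hc => hsub (hy.2 c hc))
  exact h.2

theorem Lam_sup {M : Set C} (hM : H.Coh M) {x y : X} (hx : x ∈ H.Lam M) (hy : y ∈ H.Lam M) :
    x ⊔ y ∈ H.Lam M := by
  refine ⟨?_, ?_⟩
  · rw [map_sup]
    exact sup_le_sup hx.1 hy.1
  · intro c hc
    have h := H.coh_ind hM hx hy c
    have h1 : H.ind c (x ⊔ y) = 1 := H.ind_eq_one.mpr hc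
    have h2 := H.ind_nonneg c (x ⊓ y)
    have h3 := H.ind_nonneg c x
    have h4 := H.ind_nonneg c y
    have h5 := H.ind_le_one c x
    have h6 := H.ind_le_one c y
    have h7 : H.ind c x = 1 ∨ H.ind c y = 1 := by omega
    rcases h7 with h7 | h7
    · exact hx.2 c (H.ind_eq_one.mp h7)
    · exact hy.2 c (H.ind_eq_one.mp h7)

theorem Lam_inf {M : Set C} (hM : H.Coh M) {x y : X} (hx : x ∈ H.Lam M) (hy : y ∈ H.Lam M) :
    x ⊓ y ∈ H.Lam M := by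
  refine ⟨?_, ?_⟩
  · rw [map_inf]
    exact inf_le_inf hx.1 hy.1
  · intro c hc
    have h := H.coh_ind hM hx hy c
    have h1 : H.ind c (x ⊓ y) = 1 := H.ind_eq_one.mpr hc
    have h2 := H.ind_nonneg c (x ⊔ y)
    have h3 := H.ind_nonneg c x
    have h4 := H.ind_nonneg c y
    have h5 := H.ind_le_one c x
    have h6 := H.ind_le_one c y
    have h7 : H.ind c x = 1 ∨ H.ind c y = 1 := by omega
    rcases h7 with h7 | h7
    · exact hx.2 c (H.ind_eq_one.mp h7)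
    · exact hy.2 c (H.ind_eq_one.mp h7)

theorem subL_Lam {M : Set C} (hM : H.Coh M) : H.SubL (H.Lam M) := by
  exact ⟨⟨M, hM, subset_rfl⟩, fun x hx y hy => H.Lam_sup hM hx hy,
    fun x hx y hy => H.Lam_inf hM hx hy, fun x hx k => H.Lam_T hM.1 hx k⟩

theorem eq_of_ind {x y : X} (h : x ≤ y) (hi : ∀ c, H.ind c x = H.ind c y) : x = y := by
  refine H.inj x y h ?_
  ext c
  rw [← H.ind_eq_one, ← H.ind_eq_one, hi c]

variable {H} {L : Set X}

theorem SubL.good (hL : H.SubL L) {x : X} (hx : x ∈ L) : x ≤ H.t x := by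
  obtain ⟨M, hM, hLM⟩ := hL.coh
  exact (hLM hx).1

theorem SubL.ind_md (hL : H.SubL L) (c : C) : Md L (H.ind c) := by
  obtain ⟨M, hM, hLM⟩ := hL.coh
  intro x hx y hy
  exact H.coh_ind hM (hLM hx) (hLM hy) c

theorem SubL.rho_md (hL : H.SubL L) : Md L H.rho := by
  obtain ⟨M, hM, hLM⟩ := hL.coh
  intro x hx y hy
  exact H.coh_rho hM (hLM hx) (hLM hy)

theorem SubL.w_md (hL : H.SubL L) : Md L (fun x => (H.w x : ℤ)) := by
  intro x hx y hy
  have hw : ∀ (z : X) (A : Finset C), H.fr z ⊆ A → (H.w z : ℤ) = ∑ c ∈ A, H.ind c z := by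
    intro z A hA
    unfold w ind
    rw [← Finset.sum_filter, Finset.sum_const, nsmul_eq_mul, mul_one]
    congr 2
    ext c
    rw [Finset.mem_filter]
    exact ⟨fun h => ⟨hA h, h⟩, fun h => h.2⟩
  set A : Finset C := (H.fr (x ⊔ y) ∪ H.fr (x ⊓ y)) ∪ (H.fr x ∪ H.fr y) with hA
  have e1 := hw (x ⊔ y) A (fun c hc => by simp [hA, hc])
  have e2 := hw (x ⊓ y) A (fun c hc => by simp [hA, hc])
  have e3 := hw x A (fun c hc => by simp [hA, hc])
  have e4 := hw y A (fun c hc => by simp [hA, hc])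
  show (H.w (x ⊔ y) : ℤ) + (H.w (x ⊓ y) : ℤ) = (H.w x : ℤ) + (H.w y : ℤ)
  rw [e1, e2, e3, e4, ← Finset.sum_add_distrib, ← Finset.sum_add_distrib]
  refine Finset.sum_congr rfl ?_
  intro c _
  exact hL.ind_md c x hx y hy

theorem SubL.modular (hL : H.SubL L) {x y z : X} (hx : x ∈ L) (hy : y ∈ L) (hz : z ∈ L) (h : x ≤ z) :
    (x ⊔ y) ⊓ z = x ⊔ (y ⊓ z) := by
  have hle : x ⊔ (y ⊓ z) ≤ (x ⊔ y) ⊓ z :=
    sup_le (le_inf le_sup_left h) (le_inf (inf_le_left.trans le_sup_right) inf_le_right)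
  refine (H.eq_of_ind hle ?_).symm
  intro c
  have hxy := hL.sup x hx y hy
  have hyz := hL.inf y hy z hz
  have e1 := hL.ind_md c (x ⊔ y) hxy z hz
  have e2 := hL.ind_md c x hx y hy
  have e3 := hL.ind_md c y hy z hz
  have e4 := hL.ind_md c x hx (y ⊓ z) hyz
  have s1 : (x ⊔ y) ⊔ z = y ⊔ z := by
    apply le_antisymm
    · exact sup_le (sup_le (h.trans le_sup_right) le_sup_left) le_sup_right
    · exact sup_le (le_sup_right.trans le_sup_left) le_sup_right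
  have s2 : x ⊓ (y ⊓ z) = x ⊓ y := by
    apply le_antisymm
    · exact le_inf inf_le_left (inf_le_right.trans inf_le_left)
    · exact le_inf inf_le_left (le_inf inf_le_right (inf_le_left.trans h))
  rw [s1] at e1
  rw [s2] at e4
  linarith

theorem SubL.dist_inf (hL : H.SubL L) {x y z : X} (hx : x ∈ L) (hy : y ∈ L) (hz : z ∈ L) :
    x ⊓ (y ⊔ z) = (x ⊓ y) ⊔ (x ⊓ z) := by
  set a := x ⊓ (y ⊔ z) with ha
  set b := (x ⊓ y) ⊔ (x ⊓ z) with hb
  have hle : b ≤ a := by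
    refine sup_le (le_inf inf_le_left (inf_le_right.trans le_sup_left))
      (le_inf inf_le_left (inf_le_right.trans le_sup_right))
  refine (H.eq_of_ind hle ?_).symm
  intro c
  have m1 := hL.sup y hy z hz
  have m2 := hL.inf x hx y hy
  have m3 := hL.inf x hx z hz
  have m4 := hL.inf y hy z hz
  have m5 := hL.sup x hx y hy
  have m6 := hL.sup x hx z hz
  have mb : b ∈ L := hL.sup _ m2 _ m3
  have ma : a ∈ L := hL.inf _ hx _ m1
  have e1 := hL.ind_md c x hx (y ⊔ z) m1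
  have e2 := hL.ind_md c y hy z hz
  have e3 := hL.ind_md c (x ⊓ y) m2 (x ⊓ z) m3
  have e4 := hL.ind_md c x hx y hy
  have e5 := hL.ind_md c x hx z hz
  have s1 : (x ⊓ y) ⊓ (x ⊓ z) = x ⊓ (y ⊓ z) := by
    rw [← inf_inf_distrib_left]
  have s2 : b ⊓ (y ⊓ z) = x ⊓ (y ⊓ z) := by
    apply le_antisymm
    · exact le_inf ((inf_le_left.trans (sup_le inf_le_left inf_le_left))) inf_le_right
    · refine le_inf ?_ inf_le_right
      exact (le_inf inf_le_left (inf_le_right.trans inf_le_left)).trans le_sup_left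
  have e6 := hL.ind_md c b mb (y ⊓ z) m4
  have mm := hL.inf _ m5 _ m6
  have e7 := hL.ind_md c _ mm _ m1
  have e8 := hL.ind_md c _ m5 _ m6
  have s3 : (x ⊔ y) ⊔ (x ⊔ z) = x ⊔ (y ⊔ z) := by
    rw [← sup_sup_distrib_left]
  have s4 : ((x ⊔ y) ⊓ (x ⊔ z)) ⊔ (y ⊔ z) = x ⊔ (y ⊔ z) := by
    apply le_antisymm
    · refine sup_le ?_ le_sup_right
      exact inf_le_left.trans (sup_le le_sup_left (le_sup_left.trans le_sup_right))
    · exact sup_le ((le_inf le_sup_left le_sup_left).trans le_sup_left) le_sup_right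
  rw [s1] at e3
  rw [s2] at e6
  rw [s4] at e7
  rw [s3] at e8
  have n1 := H.ind_nonneg c (b ⊔ (y ⊓ z))
  have n2 := H.ind_le_one c (b ⊔ (y ⊓ z))
  have n3 := H.ind_nonneg c (((x ⊔ y) ⊓ (x ⊔ z)) ⊓ (y ⊔ z))
  have n4 := H.ind_le_one c (((x ⊔ y) ⊓ (x ⊔ z)) ⊓ (y ⊔ z))
  rw [← ha] at e1
  rw [← hb] at e3
  omega

theorem SubL.dist_sup (hL : H.SubL L) {x y z : X} (hx : x ∈ L) (hy : y ∈ L) (hz : z ∈ L) :
    x ⊔ (y ⊓ z) = (x ⊔ y) ⊓ (x ⊔ z) := by
  have hxy := hL.sup x hx y hy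
  rw [hL.dist_inf hxy hx hz, inf_comm (x ⊔ y) x, inf_sup_self, inf_comm (x ⊔ y) z,
    hL.dist_inf hz hx hy]
  apply le_antisymm
  · refine sup_le le_sup_left ?_
    exact (le_inf (inf_le_right) inf_le_left).trans (le_sup_right.trans le_sup_right)
  · refine sup_le le_sup_left (sup_le ?_ ?_)
    · exact inf_le_right.trans le_sup_left
    · exact (le_inf inf_le_right inf_le_left).trans le_sup_right

variable (H)

theorem compl_mem {M : Set C} (hM : H.Coh M) {x y y' : X} (hx : x ∈ H.Lam M) (hy : y ∈ H.Lam M)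
    (hy' : y' ∈ H.Lam M) (h1 : x ≤ y) (h2 : y ≤ y') (h3 : y' ≤ H.t x)
    (h4 : ∀ c ∈ H.fr y, c ∈ H.fr x ∨ c ∈ H.fr y') :
    ∃ z ∈ H.Lam M, x ≤ z ∧ z ≤ y' ∧ y ⊓ z = x ∧ y ⊔ z = y' ∧
      (∀ c, H.ind c z = H.ind c x + H.ind c y' - H.ind c y) ∧
      H.rho z = H.rho x + H.rho y' - H.rho y := by
  obtain ⟨z, hz1, hz2, hz3, hz4⟩ := H.compl x y y' h1 h2 h3 (by
    intro c hc
    rw [Finset.mem_union]
    exact h4 c hc)
  have hxz : x ≤ z := by rw [← hz1]; exact inf_le_right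
  have hzy : z ≤ y' := by rw [← hz2]; exact le_sup_right
  have hzg : z ≤ H.t z := hzy.trans (h3.trans (H.t.le_iff_le.mpr hxz))
  have hzM : z ∈ H.Lam M := by
    refine ⟨hzg, ?_⟩
    intro c hc
    have : c ∈ H.fr x ∪ H.fr y' := by
      rw [← hz3]
      exact Finset.mem_union_right _ hc
    rcases Finset.mem_union.mp this with h | h
    · exact hx.2 c h
    · exact hy'.2 c h
  refine ⟨z, hzM, hxz, hzy, hz1, hz2, ?_, ?_⟩
  · intro c
    have h := H.coh_ind hM hy hzM c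
    rw [hz1, hz2] at h
    linarith
  · have h := H.coh_rho hM hy hzM
    rw [hz1, hz2] at h
    linarith

theorem notin_large (x : X) (c : C) : ∃ n : ℤ, ∀ k : ℤ, n ≤ |k| → c ∉ H.fr (H.T k x) := by
  have hfin : {k : ℤ | c ∈ H.fr (H.T k x)}.Finite := by
    have h1 : {k : ℤ | c ∈ H.fr (H.T k x)} ⊆ (fun k : ℤ => (H.tc ^ (-k)) c) ⁻¹' (H.fr x : Set C) := by
      intro k hk
      rw [Set.mem_setOf_eq, fr_T'] at hk
      exact hk
    refine Set.Finite.subset (Set.Finite.preimage ?_ (H.fr x).finite_toSet) h1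
    intro j _ k _ hjk
    simp only at hjk
    have h2 : (H.tc ^ (k - j)) c = c := by
      have h3 := H.tc_add k (-j) c
      have h4 := H.tc_add k (-k) c
      rw [hjk, ← h4, add_neg_cancel, zpow_zero] at h3
      rw [sub_eq_add_neg, h3]
      rfl
    have h5 := H.free c (k - j) h2
    omega
  obtain ⟨a, ha⟩ := hfin.bddAbove
  obtain ⟨b, hb⟩ := hfin.bddBelow
  refine ⟨|a| + |b| + 1, ?_⟩
  intro k hk hc
  have h1 : k ≤ a := ha hc
  have h2 : b ≤ k := hb hc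
  have h3 := abs_nonneg a
  have h4 := abs_nonneg b
  have h5 := le_abs_self a
  have h6 := neg_abs_le b
  have h7 := neg_abs_le a
  have h8 := le_abs_self b
  have h9 : |k| ≤ |a| + |b| := abs_le.mpr ⟨by omega, by omega⟩
  omega

end HLat
end TorA
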