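import Pool.Agent.Lib.MP_05cdf2_gt.A.CStar

/-! MP_05cdf2_gt, stream A (abstract cyclic step), job CRank: the rank `rk N M = (vs (gv (N+1)) M, P - vs 1 M)` (lexicographic) on `HN N`.

`Co_frame`: `c ∈ Co M`, `F` a frame of `Lam M`: there is a non neutral step `k` of `F` at which `c` enters or leaves. Proof: `Cov (Lam M) x y`, not `Nt x y`, `c` in the difference. `CSeq.cov_at`: a step `k` with `pt x k < pt y k` and the same differences of
frontiers; both are in `{F.x k, F.x (k+1)}` (`Frame.pt_eq`), so `pt x k = F.x k`, `pt y k = F.x (k+1)`.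
`star2`: let `F` be a frame of `Lam M'` (a `CSeq` in `Lam M`, because `Lam M' ⊆ Lam M`), `c ∈ Co M`, `Cov (Lam M) x y`, not `Nt x y`. `CSeq.cov_at` in `L = Lam M`: a step `k` with `F.x k ≤ pt x k < pt y k ≤ F.x (k+1)` and the same differences. `vs_eq_imp`: if the step
`k` is neutral, then `Nt (pt x k) (pt y k)` by `nt_between`, so `Nt x y`, contradiction. Otherwise it is a cover in `Lam M`, so `pt x k = F.x k`, `pt y k = F.x (k+1)`, the curve `c` is in `fr (F.x k)` or `fr (F.x (k+1))`, so in `M'`.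
`rk_lt_of_not`: `¬ Co M ⊆ M'`: by `star2` and `vs_le` `vs M' < vs M` (both `≥ 0`), first component (`Prod.Lex`).
`rk_lt_of`: `Co M ⊆ M'`: `star1`, `vs_eq_of`: equal first components; `len_lt`, `len_bounds`: `P - vs 1 M < P - vs 1 M'`. -/

set_option autoImplicit false

namespace TorA
open Finsupp Tor
namespace HLat
variable {X C : Type} [Lattice X] [DecidableEq C] (H : HLat X C)

theorem CRank_ends {L : Set X} {a b p q : X} (hp : p = a ∨ p = b) (hq : q = a ∨ q = b)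
    (hab : a ≤ b) (hpq : p < q) : p = a ∧ q = b := by
  rcases hp with rfl | rfl
  · rcases hq with rfl | rfl
    · exact absurd hpq (lt_irrefl _)
    · exact ⟨rfl, rfl⟩
  · rcases hq with rfl | rfl
    · exact absurd (lt_of_lt_of_le hpq hab) (lt_irrefl _)
    · exact absurd hpq (lt_irrefl _)

theorem Co_frame {M : Set C} (hM : H.Coh M) (F : Frame H (H.Lam M)) {c : C} (hc : c ∈ H.Co M) :
    ∃ k, ¬ H.Nt (F.x k) (F.x (k + 1)) ∧ (F.En k c ∨ F.Lv k c) := by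
  obtain ⟨x, y, hcov, hnt, hcd⟩ := hc
  have hL := H.subL_Lam hM
  obtain ⟨k, hlt, hd1, hd2, -⟩ := F.toCSeq.cov_at hL hcov
  obtain ⟨e1, e2⟩ := CRank_ends (L := H.Lam M) (F.pt_eq hL hcov.1 k) (F.pt_eq hL hcov.2.1 k)
    (F.le k) hlt
  rw [e1, e2] at hd1 hd2
  refine ⟨k, fun h => hnt ?_, ?_⟩
  · unfold Nt at h ⊢
    rw [← hd1]
    exact h
  · rcases hcd with ⟨h1, h2⟩ | ⟨h1, h2⟩
    · right
      have h3 : c ∈ H.fr x \ H.fr y := Finset.mem_sdiff.2 ⟨h1, h2⟩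
      rw [← hd1] at h3
      exact Finset.mem_sdiff.1 h3
    · left
      have h3 : c ∈ H.fr y \ H.fr x := Finset.mem_sdiff.2 ⟨h2, h1⟩
      rw [← hd2] at h3
      exact (Finset.mem_sdiff.1 h3).symm

/-- the curves of a non neutral step are in `Co M` -/
theorem mem_Co {M : Set C} (F : Frame H (H.Lam M)) {k : ℤ} (hk : ¬ H.Nt (F.x k) (F.x (k + 1)))
    {c : C} (hc : F.En k c ∨ F.Lv k c) : c ∈ H.Co M := by
  refine ⟨F.x k, F.x (k + 1), F.cov k, hk, ?_⟩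
  rcases hc with h | h
  · exact Or.inr h
  · exact Or.inl h

theorem star2 {N : ℕ} {M M' : Set C} (hM : M ∈ H.HN N) (hM' : M' ∈ H.KK) (h : M' ⊆ M) {K : ℤ}
    (hK : (N : ℤ) < K) (he : H.vs (H.gv K) M' = H.vs (H.gv K) M) : H.Co M ⊆ M' := by
  intro c hc
  obtain ⟨x0, hx0⟩ := H.KK_ne hM'
  obtain ⟨F, -⟩ := exists_frame (H.subL_Lam (H.KK_coh hM')) hx0
  have hlam := H.Lam_mono h
  let S : CSeq H (H.Lam M) :=
    { x := F.x
      n := F.n
      pos := F.pos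
      mem := fun i => hlam (F.mem i)
      le := F.le
      per := F.per }
  have hL := H.subL_Lam (H.KK_coh hM.1)
  obtain ⟨x, y, hcov, hnt, hcd⟩ := hc
  obtain ⟨k, hlt, hd1, hd2, -⟩ := S.cov_at hL hcov
  have hpx := S.pt_mem hL hcov.1 k
  have hpy := S.pt_mem hL hcov.2.1 k
  rcases H.vs_eq_imp hM hM' h hK he F k with hN | hC
  · exfalso
    have h1 := H.nt_between hM (hlam (F.mem k)) hpx hpy (hlam (F.mem (k + 1))) (S.le_pt x k) hlt
      (S.pt_le y k) hN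
    unfold Nt at h1 hnt
    rw [hd1] at h1
    exact hnt h1
  · have h1 := hC.2.2.2 _ hpx (S.le_pt x k) (S.pt_le x k)
    have h2 := hC.2.2.2 _ hpy (S.le_pt y k) (S.pt_le y k)
    obtain ⟨e1, e2⟩ := CRank_ends (L := H.Lam M) h1 h2 (F.le k) hlt
    rcases hcd with ⟨h3, h4⟩ | ⟨h3, h4⟩
    · have h5 : c ∈ H.fr x \ H.fr y := Finset.mem_sdiff.2 ⟨h3, h4⟩
      rw [← hd1, e1] at h5
      exact (F.mem k).2 c (Finset.mem_sdiff.1 h5).1
    · have h5 : c ∈ H.fr y \ H.fr x := Finset.mem_sdiff.2 ⟨h4, h3⟩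
      rw [← hd2, e2] at h5
      exact (F.mem (k + 1)).2 c (Finset.mem_sdiff.1 h5).1

theorem rk_lt_of_not {N : ℕ} {M M' : Set C} (hM : M ∈ H.HN N) (hM' : M' ∈ H.KK) (h : M' ⊆ M)
    (hCo : ¬ H.Co M ⊆ M') : H.rk N M' < H.rk N M := by
  have hK : (N : ℤ) < (N : ℤ) + 1 := by omega
  have h1 := H.vs_le hM hM' h hK
  have h2 : H.vs (H.gv ((N : ℤ) + 1)) M' ≠ H.vs (H.gv ((N : ℤ) + 1)) M := fun he =>
    hCo (H.star2 hM hM' h hK he)
  have h3 := H.vs_nonneg (H.HN_sub hM h hM') hK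
  have h4 : H.vs (H.gv ((N : ℤ) + 1)) M' < H.vs (H.gv ((N : ℤ) + 1)) M := lt_of_le_of_ne h1 h2
  unfold rk
  rw [Prod.Lex.toLex_lt_toLex]
  left
  show (H.vs (H.gv ((N : ℤ) + 1)) M').toNat < (H.vs (H.gv ((N : ℤ) + 1)) M).toNat
  omega

theorem rk_lt_of {N : ℕ} {M M' : Set C} (hM : M ∈ H.HN N) (hM' : M' ∈ H.KK) (h : M' ⊆ M)
    (hne : M' ≠ M) (hCo : H.Co M ⊆ M') : H.rk N M < H.rk N M' := by
  have hK : (N : ℤ) < (N : ℤ) + 1 := by omega
  have h1 := H.vs_eq_of hM hM' h hK (fun x y hc hn => H.star1 hM hM' h hCo hc hn)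
  have h2 := H.len_lt hM.1 hM' h hne
  have h3 := H.len_bounds hM.1
  have h4 := H.len_bounds hM'
  unfold rk
  rw [Prod.Lex.toLex_lt_toLex]
  right
  refine ⟨?_, ?_⟩
  · show (H.vs (H.gv ((N : ℤ) + 1)) M).toNat = (H.vs (H.gv ((N : ℤ) + 1)) M').toNat
    rw [h1]
  · show (H.P - H.vs (fun _ _ => 1) M).toNat < (H.P - H.vs (fun _ _ => 1) M').toNat
    omega

end HLat
end TorA
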