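import Pool.Agent.Lib.MP_05cdf2_gt.A.TPrism

/-! MP_05cdf2_gt, stream A, toolkit, job TCon: contractions of posets (all by `Fl_homotopy` and `const_bound`).

`Po_homotopy`: `f ≤ g` monotone on `P` with values in `Q`: special case of `Fl_homotopy` (`f x ≤ f y ≤ g y`).
`AcI_of_zig`: `x ≤ f x`, `g x ≤ f x`, `g x ≤ c`: a cycle `z` of `Po P` is homologous to `f z`, to `g z` and to the
constant map `c`, and this one bounds (`const_bound`, lists with all entries `c` are in `Po P`). All the other `AcI_...` are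
special cases (`f = id`, `g = id`, the order dual has to be proved in the same way).
`AcI_directed`: the entries of a cycle `z` (finite set, `exists_finset_entries`, intersected with `P`) have an upper bound
`c ∈ P` (`P` nonempty and directed); `z` is a cycle in the set `{x ∈ P | x ≤ c}` which has the maximum `c`. -/

set_option autoImplicit false

namespace TorA
open Finsupp Tor

variable {α β : Type}

theorem Po_homotopy [Preorder α] [Preorder β] {P : Set α} {Q : Set β} (f g : α → β)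
    (hf : ∀ x ∈ P, f x ∈ Q) (hg : ∀ x ∈ P, g x ∈ Q)
    (mf : ∀ x ∈ P, ∀ y ∈ P, x ≤ y → f x ≤ f y) (mg : ∀ x ∈ P, ∀ y ∈ P, x ≤ y → g x ≤ g y)
    (h : ∀ x ∈ P, f x ≤ g x)
    {m : ℕ} {z : Ch α} (hz : z ∈ Sup (Ln (Po P) m)) (hb : bd z = 0) :
    ∃ w ∈ Sup (Ln (Po Q) (m + 1)), bd w = mapDomain (List.map g) z - mapDomain (List.map f) z := by
  exact Fl_homotopy (R := (· ≤ ·)) (R' := (· ≤ ·)) f g hf hg mf
    (fun x hx y hy hxy => (mf x hx y hy hxy).trans (h y hy)) mg h hz hb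

theorem TCon_id (z : Ch α) : mapDomain (List.map (fun x : α => x)) z = z := by
  have h : (List.map (fun x : α => x)) = id := by
    funext l
    simp
  rw [h, mapDomain_id]

theorem TCon_const [Preorder α] {P : Set α} (c : α) (hc : c ∈ P) {m : ℕ} {z : Ch α}
    (hz : z ∈ Sup (Ln (Po P) m)) (hb : bd z = 0) :
    ∃ w ∈ Sup (Ln (Po P) (m + 1)), bd w = mapDomain (List.map (fun _ => c)) z := by
  obtain ⟨w, hw, hbw⟩ := const_bound c hz hb
  refine ⟨w, Sup_mono (Ln_mono ?_ _) hw, hbw⟩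
  intro l hl
  refine ⟨?_, fun x hx => by rw [hl x hx]; exact hc⟩
  refine List.pairwise_of_forall_mem_list ?_
  intro x hx y hy
  rw [hl x hx, hl y hy]

theorem AcI_of_zig [Preorder α] {P : Set α} (f g : α → α) (c : α) (hc : c ∈ P)
    (hf : ∀ x ∈ P, f x ∈ P) (hg : ∀ x ∈ P, g x ∈ P)
    (mf : ∀ x ∈ P, ∀ y ∈ P, x ≤ y → f x ≤ f y) (mg : ∀ x ∈ P, ∀ y ∈ P, x ≤ y → g x ≤ g y)
    (h1 : ∀ x ∈ P, x ≤ f x) (h2 : ∀ x ∈ P, g x ≤ f x) (h3 : ∀ x ∈ P, g x ≤ c) : AcI (Po P) := by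
  intro n m _ z hz hb
  obtain ⟨w1, hw1, b1⟩ := Po_homotopy (P := P) (Q := P) (fun x => x) f (fun x hx => hx) hf
    (fun x _ y _ hxy => hxy) mf h1 hz hb
  obtain ⟨w2, hw2, b2⟩ := Po_homotopy (P := P) (Q := P) g f hg hf mg mf h2 hz hb
  obtain ⟨w3, hw3, b3⟩ := Po_homotopy (P := P) (Q := P) g (fun _ => c) hg (fun x hx => hc)
    mg (fun x _ y _ _ => le_refl c) h3 hz hb
  obtain ⟨w4, hw4, b4⟩ := TCon_const c hc hz hb
  refine ⟨w2 + w4 - w3 - w1, ?_, ?_⟩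
  · exact Submodule.sub_mem _ (Submodule.sub_mem _ (Submodule.add_mem _ hw2 hw4) hw3) hw1
  · rw [map_sub, map_sub, map_add, b1, b2, b3, b4, TCon_id]
    abel

theorem AcI_of_down_up [Preorder α] {P : Set α} (f : α → α) (c : α) (hc : c ∈ P)
    (hf : ∀ x ∈ P, f x ∈ P) (mf : ∀ x ∈ P, ∀ y ∈ P, x ≤ y → f x ≤ f y)
    (h1 : ∀ x ∈ P, f x ≤ x) (h2 : ∀ x ∈ P, f x ≤ c) : AcI (Po P) := by
  exact AcI_of_zig (fun x => x) f c hc (fun x hx => hx) hf (fun x _ y _ hxy => hxy) mf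
    (fun x _ => le_refl x) h1 h2

theorem AcI_of_up_down [Preorder α] {P : Set α} (f : α → α) (c : α) (hc : c ∈ P)
    (hf : ∀ x ∈ P, f x ∈ P) (mf : ∀ x ∈ P, ∀ y ∈ P, x ≤ y → f x ≤ f y)
    (h1 : ∀ x ∈ P, x ≤ f x) (h2 : ∀ x ∈ P, c ≤ f x) : AcI (Po P) := by
  intro n m _ z hz hb
  obtain ⟨w1, hw1, b1⟩ := Po_homotopy (P := P) (Q := P) (fun x => x) f (fun x hx => hx) hf
    (fun x _ y _ hxy => hxy) mf h1 hz hb
  obtain ⟨w2, hw2, b2⟩ := Po_homotopy (P := P) (Q := P) (fun _ => c) f (fun x hx => hc) hf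
    (fun x _ y _ _ => le_refl c) mf h2 hz hb
  obtain ⟨w4, hw4, b4⟩ := TCon_const c hc hz hb
  refine ⟨w2 + w4 - w1, ?_, ?_⟩
  · exact Submodule.sub_mem _ (Submodule.add_mem _ hw2 hw4) hw1
  · rw [map_sub, map_add, b1, b2, b4, TCon_id]
    abel

theorem AcI_of_max [Preorder α] {P : Set α} (c : α) (hc : c ∈ P) (h : ∀ x ∈ P, x ≤ c) :
    AcI (Po P) := by
  exact AcI_of_down_up (fun x => x) c hc (fun x hx => hx) (fun x _ y _ hxy => hxy)
    (fun x _ => le_refl x) h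

theorem AcI_of_min [Preorder α] {P : Set α} (c : α) (hc : c ∈ P) (h : ∀ x ∈ P, c ≤ x) :
    AcI (Po P) := by
  exact AcI_of_up_down (fun x => x) c hc (fun x hx => hx) (fun x _ y _ hxy => hxy)
    (fun x _ => le_refl x) h

theorem TCon_upper [Preorder α] {P : Set α} (hne : P.Nonempty)
    (h : ∀ x ∈ P, ∀ y ∈ P, ∃ u ∈ P, x ≤ u ∧ y ≤ u) (F : Finset α) :
    ∃ c ∈ P, ∀ x ∈ F, x ∈ P → x ≤ c := by
  classical
  induction F using Finset.induction_on with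
  | empty =>
    obtain ⟨c, hc⟩ := hne
    exact ⟨c, hc, fun x hx => absurd hx (Finset.notMem_empty x)⟩
  | insert a F _ ih =>
    obtain ⟨c, hc, hF⟩ := ih
    by_cases ha : a ∈ P
    · obtain ⟨u, hu, h1, h2⟩ := h c hc a ha
      refine ⟨u, hu, fun x hx hxP => ?_⟩
      rw [Finset.mem_insert] at hx
      rcases hx with hx | hx
      · rw [hx]
        exact h2
      · exact (hF x hx hxP).trans h1
    · refine ⟨c, hc, fun x hx hxP => ?_⟩
      rw [Finset.mem_insert] at hx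
      rcases hx with hx | hx
      · rw [hx] at hxP
        exact absurd hxP ha
      · exact hF x hx hxP

theorem AcI_directed [Preorder α] {P : Set α} (hne : P.Nonempty)
    (h : ∀ x ∈ P, ∀ y ∈ P, ∃ u ∈ P, x ≤ u ∧ y ≤ u) : AcI (Po P) := by
  intro n m hm z hz hb
  obtain ⟨F, hF⟩ := exists_finset_entries z
  obtain ⟨c, hc, hcF⟩ := TCon_upper hne h F
  have hsub : {x | x ∈ P ∧ x ≤ c} ⊆ P := fun x hx => hx.1
  have hz' : z ∈ Sup (Ln (Po {x | x ∈ P ∧ x ≤ c}) m) := by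
    rw [Finsupp.mem_supported]
    intro l hl
    have hl1 : l ∈ Ln (Po P) m := (Finsupp.mem_supported ℤ z).1 hz hl
    obtain ⟨⟨h1, h2⟩, h3⟩ := hl1
    exact ⟨⟨h1, fun x hx => ⟨h2 x hx, hcF x (hF l hl x hx) (h2 x hx)⟩⟩, h3⟩
  have hA : AcI (Po {x | x ∈ P ∧ x ≤ c}) := AcI_of_max c ⟨hc, le_refl c⟩ fun x hx => hx.2
  obtain ⟨w, hw, hbw⟩ := hA n m hm z hz' hb
  exact ⟨w, Sup_mono (Ln_mono (Fl_mono hsub) _) hw, hbw⟩

end TorA
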