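import Pool.Agent.Lib.MP_05cdf2_gt.A.CUpA
import Pool.Agent.Lib.MP_05cdf2_gt.A.CRank
import Pool.Agent.Lib.MP_05cdf2_gt.A.TCon

/-! MP_05cdf2_gt, stream A (abstract cyclic step), job CUpC: `QQ F N ∩ Lam M0` is acyclic for every `M0 ∈ Up N M` (`M ∈ HN N`, `F` a frame of `Lam M`).

`F` is a `CSeq` in `Lam M0` (`Lam M ⊆ Lam M0`), `Lam M0` is `SubL`.
(1) It is enough to find `k`, `0 ≤ k < n`, such that `Qs F N k ∩ Lam M0` is `AcI`: then `ord_sum` (`A j = Qs F N j ∩ Lam M0`, `a k = m`, `a j = 0` for `j ≠ k`, `Ac_zero`) gives `Ac ... m` for every `m`.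
(2) Case `M0 ∈ Clt N`: `y ∈ Lam M0`, `w y < N`. There is `k : ℤ` with `w (pt y k) < N`: otherwise `w (pt (x 0) k) = N ≤ w (pt y k)` for all `k` (`pt_self`), so `N = w (x 0) ≤ w y` by `tel_le` (`w_md`). Translating (`pt_T`, `w_T`, `per_T`, `k = r + q n`) there are `0 ≤ k < n` and `z ∈ Lam M0`,
`F.x k ≤ z ≤ F.x (k+1)`, `w z < N`. The step `k` is not neutral (`Qs_ac`). Let `E ∈ Lam M0`, `F.x k ≤ E ≤ F.x (k+1)` with minimal `w E` (so `w E < N`, `E ∈ Qs F N k`: `E ≠ F.x k, F.x (k+1)` as these have `w = N`). `AcI_of_down_up` with `f z = z ⊓ E`, `c = E`: for `z ∈ Qs F N k ∩ Lam M0`: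
`w (z ⊓ E) + w (z ⊔ E) = w z + w E` (`w_md`) and `w (z ⊔ E) ≥ w E`, so `w (z ⊓ E) ≤ w z < N`; `F.x k ≤ z ⊓ E < F.x (k+1)`, `≠ F.x k`.
(3) Case `M0 ∈ HN N`, `Co M0 ⊆ M`. There is `k : ℤ` and `z ∈ Lam M0` with `F.x k < z < F.x (k+1)`: otherwise all steps of `F` are covers in `Lam M0`, `F` is a frame of `Lam M0`, so `M0 ⊆ M` (`KK_frame`), but `M0 ≠ M`. By `star1` (for `M0`, `M`) the step `k` is neutral. Translate to `0 ≤ k < n` (`T`, `per_T`, `diff_T`).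
`Qs F N k ∩ Lam M0 = {z ∈ Lam M0 | F.x k < z < F.x (k+1)}` (`w = N` on `Lam M0`), nonempty. Two elements `z, z'` are comparable: `A = fr (F.x k) ∩ fr (F.x (k+1))` has `N - 1` elements and is contained in the frontier of everything between (`conv`); so `fr z = A ∪ {c}`, `fr z' = A ∪ {c'}`,
`fr (z ⊔ z') = A ∪ {d}`; `ind d z + ind d z' = ind d (z ⊔ z') + ind d (z ⊓ z') ≥ 1`, so `d = c` or `d = c'`, so `fr (z ⊔ z') = fr z` or `fr z'` and `z ⊔ z' = z` or `z'` (`inj`). So `AcI_directed`. -/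

set_option autoImplicit false

namespace TorA
open Finsupp Tor
namespace HLat
variable {X C : Type} [Lattice X] [DecidableEq C] (H : HLat X C)

theorem CUpC_glue {N : ℕ} {M : Set C} (F : Frame H (H.Lam M)) {M0 : Set C} {k : ℕ} (hk : k < F.n)
    (h : AcI (Po {z | z ∈ H.Qs F N k ∧ z ∈ H.Lam M0})) :
    AcI (Po {z | z ∈ H.QQ F N ∧ z ∈ H.Lam M0}) := by
  intro m
  have h1 := ord_sum (n := F.n) (A := fun j : ℕ => {z | z ∈ H.Qs F N j ∧ z ∈ H.Lam M0})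
    (x := fun j : ℕ => F.x j) (a := fun j => if j = k then m else 0)
    (by
      intro j _ z hz
      have h2 : z ∈ H.Qs F N j := hz.1
      refine ⟨h2.1, ?_⟩
      have h3 := h2.2.1
      push_cast
      exact h3)
    (by
      intro j _
      have h3 := F.le j
      push_cast
      exact h3)
    (by
      intro j _
      by_cases hj : j = k
      · subst hj
        rw [if_pos rfl]
        exact h m
      · rw [if_neg hj]
        exact Ac_zero _)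
  rw [Finset.sum_ite_eq', if_pos (Finset.mem_range.2 hk)] at h1
  have h2 : {z | ∃ j, j < F.n ∧ z ∈ (fun j : ℕ => {z | z ∈ H.Qs F N j ∧ z ∈ H.Lam M0}) j} =
      {z | z ∈ H.QQ F N ∧ z ∈ H.Lam M0} := by
    ext z
    constructor
    · rintro ⟨j, hj, hz1, hz2⟩
      exact ⟨⟨j, hj, hz1⟩, hz2⟩
    · rintro ⟨⟨j, hj, hz1⟩, hz2⟩
      exact ⟨j, hj, hz1, hz2⟩
  rw [h2] at h1
  exact h1

/-- translation of a step into one period -/
theorem CUpC_shift {L : Set X} (S : CSeq H L) (k : ℤ) :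
    ∃ (r : ℕ) (q : ℤ), r < S.n ∧ S.x r = H.T (-q) (S.x k) ∧
      S.x (r + 1) = H.T (-q) (S.x (k + 1)) := by
  have hn : (0 : ℤ) < S.n := by exact_mod_cast S.pos
  have h0 : 0 ≤ k % S.n := Int.emod_nonneg _ hn.ne'
  have h1 : k % S.n < S.n := Int.emod_lt_of_pos _ hn
  obtain ⟨r, hr⟩ := Int.eq_ofNat_of_zero_le h0
  have h2 : k = (r : ℤ) + k / S.n * S.n := by
    have := Int.emod_add_mul_ediv k S.n
    rw [hr] at this
    linarith
  have h4 : S.x k = H.T (k / S.n) (S.x r) := (congrArg S.x h2).trans (S.per_T _ _)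
  have h3 : k + 1 = ((r : ℤ) + 1) + k / S.n * S.n := by linarith
  have h5 : S.x (k + 1) = H.T (k / S.n) (S.x ((r : ℤ) + 1)) :=
    (congrArg S.x h3).trans (S.per_T _ _)
  refine ⟨r, k / S.n, by omega, ?_, ?_⟩
  · rw [h4, T_neg_T]
  · rw [h5, T_neg_T]

/-- the case of an element with less curves -/
theorem CUpC_clt {N : ℕ} {M : Set C} (hM : M ∈ H.HN N) (F : Frame H (H.Lam M)) {M0 : Set C}
    (hK : M0 ∈ H.KK) (h : M ⊆ M0) (hc : M0 ∈ H.Clt N) :
    AcI (Po {z | z ∈ H.QQ F N ∧ z ∈ H.Lam M0}) := by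
  have hL : H.SubL (H.Lam M0) := H.subL_Lam (H.KK_coh hK)
  have hw : ∀ i, H.w (F.x i) = N := fun i => hM.2 _ (F.mem i)
  let S : CSeq H (H.Lam M0) := ⟨F.x, F.n, F.pos, fun i => H.Lam_mono h (F.mem i), F.le, F.per⟩
  have hSx : ∀ i, S.x i = F.x i := fun i => rfl
  obtain ⟨y, hy, hyN⟩ := hc.2
  have h1 : ∃ k : ℤ, H.w (S.pt y k) < N := by
    by_contra hcon
    push Not at hcon
    have h2 := S.tel_le hL (hL.w_md) (x := S.x 0) (y := y) (S.mem 0) hy (by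
      intro i
      have h3 : H.w (S.pt (S.x 0) i) = N := by
        rw [S.pt_self]
        split_ifs
        · exact hw _
        · exact hw _
      have h4 := hcon i
      simp only [h3]
      exact_mod_cast h4)
    have h5 : H.w (S.x 0) = N := hw 0
    simp only [h5] at h2
    have h6 : N ≤ H.w y := by exact_mod_cast h2
    omega
  obtain ⟨k, hk⟩ := h1
  obtain ⟨r, q, hr, e1, e2⟩ := H.CUpC_shift S k
  have hz1 : H.T (-q) (S.pt y k) ∈ H.Lam M0 := hL.shift _ (S.pt_mem hL hy k) _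
  have hz2 : F.x r ≤ H.T (-q) (S.pt y k) := by
    rw [← hSx, e1, T_le_iff]
    exact S.le_pt y k
  have hz3 : H.T (-q) (S.pt y k) ≤ F.x (r + 1) := by
    rw [← hSx, e2, T_le_iff]
    exact S.pt_le y k
  have hz4 : H.w (H.T (-q) (S.pt y k)) < N := by
    rw [w_T]
    exact hk
  have hnt : ¬ H.Nt (F.x r) (F.x (r + 1)) := by
    intro hnt
    have := ((H.Qs_ac hM F r).1 hnt).1 _ hz2 hz3
    omega
  -- the element with the smallest number of curves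
  classical
  have hex : ∃ m : ℕ, ∃ E ∈ H.Lam M0, F.x r ≤ E ∧ E ≤ F.x (r + 1) ∧ H.w E = m :=
    ⟨_, _, hz1, hz2, hz3, rfl⟩
  obtain ⟨E, hE1, hE2, hE3, hE4⟩ := Nat.find_spec hex
  have hmin : ∀ E' ∈ H.Lam M0, F.x r ≤ E' → E' ≤ F.x (r + 1) → H.w E ≤ H.w E' := by
    intro E' h1 h2 h3
    rw [hE4]
    exact Nat.find_min' hex ⟨E', h1, h2, h3, rfl⟩
  have hEN : H.w E < N := (hmin _ hz1 hz2 hz3).trans_lt hz4
  have hlt : ∀ z, F.x r ≤ z → H.w z < N → F.x r < z := by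
    intro z h1 h2
    refine lt_of_le_of_ne h1 fun he => ?_
    rw [← he, hw] at h2
    omega
  have hlt' : ∀ z, z ≤ F.x (r + 1) → H.w z < N → z < F.x (r + 1) := by
    intro z h1 h2
    refine lt_of_le_of_ne h1 fun he => ?_
    rw [he, hw] at h2
    omega
  refine H.CUpC_glue F hr (AcI_of_down_up (fun z => z ⊓ E) E ?_ ?_ ?_ ?_ ?_)
  · exact ⟨⟨hlt E hE2 hEN, hlt' E hE3 hEN, Or.inr ⟨hnt, hEN⟩⟩, hE1⟩
  · rintro z ⟨⟨hz5, hz6, hz7⟩, hz8⟩
    have hzN : H.w z < N := by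
      rcases hz7 with h | h
      · exact absurd h.1 hnt
      · exact h.2
    have h2 := hL.w_md z hz8 E hE1
    simp only at h2
    have h3 := hmin (z ⊔ E) (hL.sup _ hz8 _ hE1) (hE2.trans le_sup_right) (sup_le hz6.le hE3)
    have h4 : H.w (z ⊓ E) < N := by
      have h5 : (H.w (z ⊓ E) : ℤ) < N := by
        have h6 : (H.w E : ℤ) ≤ H.w (z ⊔ E) := by exact_mod_cast h3
        have h7 : (H.w z : ℤ) < N := by exact_mod_cast hzN
        linarith
      exact_mod_cast h5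
    have h5 : z ⊓ E ≤ F.x (r + 1) := inf_le_right.trans hE3
    exact ⟨⟨hlt _ (le_inf hz5.le hE2) h4, hlt' _ h5 h4, Or.inr ⟨hnt, h4⟩⟩, hL.inf _ hz8 _ hE1⟩
  · intro x _ y _ hxy
    exact inf_le_inf_right E hxy
  · intro x _
    exact inf_le_left
  · intro x _
    exact inf_le_right

/-- two elements inside a neutral step are comparable -/
theorem CUpC_comp {N : ℕ} {M0 : Set C} (hM0 : M0 ∈ H.HN N) {x y z z' : X} (hx : x ∈ H.Lam M0)
    (hn : H.Nt x y) (hz : z ∈ H.Lam M0) (hz' : z' ∈ H.Lam M0) (h1 : x ≤ z) (h2 : z ≤ y)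
    (h1' : x ≤ z') (h2' : z' ≤ y) : z ≤ z' ∨ z' ≤ z := by
  have hK := H.KK_coh hM0.1
  have hu : z ⊔ z' ∈ H.Lam M0 := H.Lam_sup hK hz hz'
  have hA : ((H.fr x) ∩ (H.fr y)).card + 1 = N := by
    have h3 := Finset.card_sdiff_add_card_inter (H.fr x) (H.fr y)
    have h4 : (H.fr x \ H.fr y).card = 1 := hn
    have h5 : (H.fr x).card = N := hM0.2 x hx
    omega
  have hAs : H.fr x ∩ H.fr y ⊆ H.fr (z ⊔ z') := by
    intro c hc
    rw [Finset.mem_inter] at hc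
    exact H.conv x (z ⊔ z') y c (h1.trans le_sup_left) (sup_le h2 h2') hc.1 hc.2
  have hd : (H.fr (z ⊔ z') \ (H.fr x ∩ H.fr y)).card = 1 := by
    rw [Finset.card_sdiff_of_subset hAs]
    have h5 : (H.fr (z ⊔ z')).card = N := hM0.2 _ hu
    omega
  obtain ⟨d, hd⟩ := Finset.card_eq_one.1 hd
  have hd1 : d ∈ H.fr (z ⊔ z') := by
    have : d ∈ H.fr (z ⊔ z') \ (H.fr x ∩ H.fr y) := by
      rw [hd]
      exact Finset.mem_singleton_self d
    exact (Finset.mem_sdiff.1 this).1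
  have key : ∀ v ∈ H.Lam M0, x ≤ v → v ≤ y → v ≤ z ⊔ z' → d ∈ H.fr v → v = z ⊔ z' := by
    intro v hv hv1 hv2 hv3 hdv
    refine H.inj _ _ hv3 (Eq.symm ?_)
    refine Finset.eq_of_subset_of_card_le ?_ ?_
    · intro c hc
      by_cases hcA : c ∈ H.fr x ∩ H.fr y
      · rw [Finset.mem_inter] at hcA
        exact H.conv x v y c hv1 hv2 hcA.1 hcA.2
      · have h6 : c ∈ H.fr (z ⊔ z') \ (H.fr x ∩ H.fr y) := Finset.mem_sdiff.2 ⟨hc, hcA⟩
        rw [hd, Finset.mem_singleton] at h6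
        rw [h6]
        exact hdv
    · have h6 : (H.fr (z ⊔ z')).card = N := hM0.2 _ hu
      have h7 : (H.fr v).card = N := hM0.2 _ hv
      omega
  have h7 := H.coh_ind hK hz hz' d
  have h8 : H.ind d (z ⊔ z') = 1 := H.ind_eq_one.2 hd1
  have h9 := H.ind_nonneg d (z ⊓ z')
  by_cases hdz : d ∈ H.fr z
  · right
    rw [key z hz h1 h2 le_sup_left hdz]
    exact le_sup_right
  · left
    have h10 : H.ind d z = 0 := H.ind_eq_zero.2 hdz
    have h11 := H.ind_le_one d z'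
    have h12 : H.ind d z' = 1 := by omega
    rw [key z' hz' h1' h2' le_sup_right (H.ind_eq_one.1 h12)]
    exact le_sup_left

/-- the case of the same number of curves -/
theorem CUpC_hn {N : ℕ} {M : Set C} (hM : M ∈ H.HN N) (F : Frame H (H.Lam M)) {M0 : Set C}
    (hM0 : M0 ∈ H.HN N) (h : M ⊆ M0) (hne : M0 ≠ M) (hCo : H.Co M0 ⊆ M) :
    AcI (Po {z | z ∈ H.QQ F N ∧ z ∈ H.Lam M0}) := by
  have hL : H.SubL (H.Lam M0) := H.subL_Lam (H.KK_coh hM0.1)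
  let S : CSeq H (H.Lam M0) := ⟨F.x, F.n, F.pos, fun i => H.Lam_mono h (F.mem i), F.le, F.per⟩
  have hSx : ∀ i, S.x i = F.x i := fun i => rfl
  have h1 : ∃ k : ℤ, ∃ z ∈ H.Lam M0, F.x k < z ∧ z < F.x (k + 1) := by
    by_contra hcon
    push Not at hcon
    let F0 : Frame H (H.Lam M0) := ⟨S, fun i => ⟨S.mem i, S.mem (i + 1), (F.cov i).2.2.1, by
      intro z hz hz1 hz2
      by_contra h2
      push Not at h2
      exact hcon i z hz (lt_of_le_of_ne hz1 (Ne.symm h2.1)) (lt_of_le_of_ne hz2 h2.2)⟩⟩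
    apply hne
    refine Set.Subset.antisymm (fun c hc => ?_) h
    obtain ⟨i, hi⟩ := H.KK_frame hM0.1 F0 hc
    exact (F.mem i).2 c hi
  obtain ⟨k, z, hz, hz1, hz2⟩ := h1
  have hnt : H.Nt (F.x k) (F.x (k + 1)) := by
    by_contra hn
    have h2 := H.star1 hM0 hM.1 h hCo (F.cov k) hn
    rcases h2.2.2.2 z hz hz1.le hz2.le with h3 | h3
    · rw [h3] at hz1
      exact lt_irrefl _ hz1
    · rw [h3] at hz2
      exact lt_irrefl _ hz2
  obtain ⟨r, q, hr, e1, e2⟩ := H.CUpC_shift S k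
  have hnt' : H.Nt (F.x r) (F.x (r + 1)) := by
    have h3 := H.diff_T (-q) (S.x k) (S.x (k + 1))
    rw [← e1, ← e2] at h3
    exact h3.trans hnt
  refine H.CUpC_glue F hr (AcI_directed ⟨H.T (-q) z, ⟨?_, ?_, ?_⟩, ?_⟩ ?_)
  · rw [← hSx, e1, T_lt_iff]
    exact hz1
  · rw [← hSx, e2, T_lt_iff]
    exact hz2
  · exact Or.inl ⟨hnt', hM0.2 _ (hL.shift _ hz _)⟩
  · exact hL.shift _ hz _
  · rintro u ⟨⟨hu1, hu2, hu3⟩, hu4⟩ v ⟨⟨hv1, hv2, hv3⟩, hv4⟩
    rcases H.CUpC_comp hM0 (H.Lam_mono h (F.mem r)) hnt' hu4 hv4 hu1.le hu2.le hv1.le hv2.le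
      with h3 | h3
    · exact ⟨v, ⟨⟨hv1, hv2, hv3⟩, hv4⟩, h3, le_refl v⟩
    · exact ⟨u, ⟨⟨hu1, hu2, hu3⟩, hu4⟩, le_refl u, h3⟩

theorem upC {N : ℕ} {M : Set C} (hM : M ∈ H.HN N) (F : Frame H (H.Lam M)) {M0 : Set C}
    (h0 : M0 ∈ H.Up N M) : AcI (Po {z | z ∈ H.QQ F N ∧ z ∈ H.Lam M0}) := by
  obtain ⟨h1, h2, h3, h4⟩ := h0
  rcases h4 with h4 | h4
  · exact H.CUpC_clt hM F h1 h2 h4
  · exact H.CUpC_hn hM F h4.1 h2 h3 h4.2

end HLat
end TorA
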