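import Pool.Agent.Lib.MP_05cdf2_gt.A.CUpB
import Pool.Agent.Lib.MP_05cdf2_gt.A.CUpC
import Pool.Agent.Lib.MP_05cdf2_gt.A.TRel

/-! MP_05cdf2_gt, stream A (abstract cyclic step), job CUp: the upper link is `Ac (G - nu F)`.

`Ac_rel` with `S = Po (Up N M)`, `S' = Po (QQ F N)`, `Rel M' z : z ∈ Lam M'`.
`h1`: `a = [M_0, ...] ∈ Po (Up N M)` nonempty; `M_0 ⊆` all the others (weakly increasing), so `∀ M' ∈ a, z ∈ Lam M'` iff `z ∈ Lam M_0` (`Lam_mono`): the fibre is `Po {z ∈ QQ F N | z ∈ Lam M_0}` (as a set of lists), `upC`.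
`h2`: `b ∈ Po (QQ F N)` nonempty: the fibre is `Po {M' ∈ Up N M | ∀ z ∈ b, z ∈ Lam M'}`, which has a minimum (`upB`): `AcI_of_min`. `h3`: `upA`. -/

set_option autoImplicit false

namespace TorA
open Finsupp Tor
namespace HLat
variable {X C : Type} [Lattice X] [DecidableEq C] (H : HLat X C)

theorem up_ac {N : ℕ} {M : Set C} (hM : M ∈ H.HN N) (F : Frame H (H.Lam M)) :
    Ac (Po (H.Up N M)) (H.G - H.nu F) := by
  refine Ac_rel (Po (H.Up N M)) (Po (H.QQ F N)) (Po_closed _) (Po_closed _) (nil_mem_Fl _ _)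
    (fun (M' : Set C) (z : X) => z ∈ H.Lam M') ?_ ?_ (H.upA hM F)
  · intro a ha hne
    obtain ⟨M0, a', rfl⟩ := List.exists_cons_of_ne_nil hne
    have h0 : M0 ∈ H.Up N M := ha.2 M0 (List.mem_cons_self ..)
    have e : {b | b ∈ Po (H.QQ F N) ∧ ∀ x ∈ M0 :: a', ∀ y ∈ b, y ∈ H.Lam x} =
        Po {z | z ∈ H.QQ F N ∧ z ∈ H.Lam M0} := by
      ext b
      constructor
      · rintro ⟨⟨h1, h2⟩, h3⟩
        exact ⟨h1, fun z hz => ⟨h2 z hz, h3 M0 (List.mem_cons_self ..) z hz⟩⟩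
      · rintro ⟨h1, h2⟩
        refine ⟨⟨h1, fun z hz => (h2 z hz).1⟩, ?_⟩
        intro M' hM' z hz
        have h3 : M0 ≤ M' := by
          rcases List.mem_cons.1 hM' with h | h
          · exact le_of_eq h.symm
          · exact (List.pairwise_cons.1 ha.1).1 M' h
        exact H.Lam_mono h3 (h2 z hz).2
    rw [e]
    exact (H.upC hM F h0) _
  · intro b hb hne
    obtain ⟨M0, hM0, h1, h2⟩ := H.upB hM F hb hne
    have e : {a | a ∈ Po (H.Up N M) ∧ ∀ x ∈ a, ∀ y ∈ b, y ∈ H.Lam x} =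
        Po {M' | M' ∈ H.Up N M ∧ ∀ z ∈ b, z ∈ H.Lam M'} := by
      ext a
      constructor
      · rintro ⟨⟨h3, h4⟩, h5⟩
        exact ⟨h3, fun M' hM' => ⟨h4 M' hM', h5 M' hM'⟩⟩
      · rintro ⟨h3, h4⟩
        exact ⟨⟨h3, fun M' hM' => (h4 M' hM').1⟩, fun M' hM' => (h4 M' hM').2⟩
    rw [e]
    have h6 : AcI (Po {M' | M' ∈ H.Up N M ∧ ∀ z ∈ b, z ∈ H.Lam M'}) :=
      AcI_of_min M0 ⟨hM0, h1⟩ (fun M' hM' => h2 M' hM'.1 hM'.2)
    exact h6 _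

end HLat
end TorA
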