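import Pool.Agent.Lib.MP_05cdf2_gt.A.TAdd

/-! MP_05cdf2_gt, stream A, toolkit, job TRank: adding many elements in the order of a rank.

`P' ⊆ P`, `rk : α → ι` with values in a well ordered set; comparable distinct elements of `P \ P'` have different ranks;
`LkR M = {x ∈ P | x ≠ M, x comparable to M, x ∈ P' or rk x < rk M}`.
`rank_bd`: if all `LkR M` (`M ∈ P \ P'`) are `Ac n` then every cycle of `Po P'` of length `m < n` which bounds in `Po P` bounds in `Po P'`.
Proof. For `r : ι` let `A r = P' ∪ {x ∈ P | rk x < r}`. (i) for every `r`, every finite `F ⊆ {x ∈ P \ P' | rk x = r}`: a cycle of `P'`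
which bounds in `A r ∪ F` bounds in `A r` (induction on `F`: `add_one_bd` for `A r ∪ F'` and `M ∈ F \ F'`; the link `Lk (A r ∪ F') M` is
equal to `LkR M`, because an element of `F'` comparable to `M` would have rank `≠ r`; note that `z` is a chain of `A r`).
(ii) by well founded induction on `r`: a cycle of `P'` which bounds in `A r` bounds in `P'`: the chain `w` has finitely many
entries; if none is outside `P'` done; otherwise let `r' < r` be the largest rank of an entry in `P \ P'`, then `w` is a chain of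
`A r' ∪ F` with `F` finite as in (i); so `z` bounds in `A r'`, induction. (iii) a chain `w` of `P`: same argument with the largest rank.
`rank_ac`: if `Ac (Po P') (n+1)` and all `LkR M` are `Ac n` then `Ac (Po P) (n+1)`. Same scheme: (i) `Ac (A r)` implies `Ac (A r ∪ F)` by
`add_one_ac`; (ii) by well founded induction on `r`: `Ac (Po (A r)) (n+1)` (a cycle of `A r` lies in `P'` or in some `A r' ∪ F`, `r' < r`);
(iii) the same for `P`. -/

set_option autoImplicit false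

namespace TorA
open Finsupp Tor

variable {α : Type}

/-- the link of `M` at its turn -/
def LkR {ι : Type} [PartialOrder α] [LinearOrder ι] (P P' : Set α) (rk : α → ι) (M : α) : Set α :=
  {x | x ∈ P ∧ x ≠ M ∧ (x ≤ M ∨ M ≤ x) ∧ (x ∈ P' ∨ rk x < rk M)}

/-- the elements of `P'` and those of rank smaller than `r` -/
def TRank_A {ι : Type} [LinearOrder ι] (P P' : Set α) (rk : α → ι) (r : ι) : Set α :=
  {x | x ∈ P' ∨ (x ∈ P ∧ rk x < r)}

theorem TRank_SupLn_mono [PartialOrder α] {P Q : Set α} (h : P ⊆ Q) (k : ℕ) {w : Ch α}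
    (hw : w ∈ Sup (Ln (Po P) k)) : w ∈ Sup (Ln (Po Q) k) := by
  have h1 : Ln (Po P) k ⊆ Ln (Po Q) k := Ln_mono (Fl_mono h) k
  exact Finsupp.supported_mono h1 hw

theorem TRank_A_sub {ι : Type} [LinearOrder ι] {P P' : Set α} (hP : P' ⊆ P) (rk : α → ι) (r : ι) :
    TRank_A P P' rk r ⊆ P := by
  rintro x (hx | hx)
  · exact hP hx
  · exact hx.1

theorem TRank_sub_A {ι : Type} [LinearOrder ι] {P P' : Set α} (rk : α → ι) (r : ι) :
    P' ⊆ TRank_A P P' rk r := fun _ hx => Or.inl hx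

theorem TRank_link {ι : Type} [PartialOrder α] [LinearOrder ι] {P P' : Set α}
    (hP : P' ⊆ P) (rk : α → ι)
    (hcomp : ∀ x ∈ P, x ∉ P' → ∀ y ∈ P, y ∉ P' → x ≤ y → x ≠ y → rk x ≠ rk y) (r : ι)
    (F : Finset α) (hF : ∀ x ∈ F, x ∈ P ∧ x ∉ P' ∧ rk x = r) {M : α} (hM : M ∈ P) (hM' : M ∉ P')
    (hr : rk M = r) (hMF : M ∉ F) :
    Lk (TRank_A P P' rk r ∪ ↑F) M = LkR P P' rk M := by
  ext x
  constructor
  · rintro ⟨h1 | h1, h2⟩
    · rcases h1 with h1 | h1
      · exact ⟨hP h1, fun h => hM' (h ▸ h1), h2, Or.inl h1⟩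
      · refine ⟨h1.1, fun h => ?_, h2, Or.inr (by rw [hr]; exact h1.2)⟩
        rw [h, hr] at h1
        exact lt_irrefl _ h1.2
    · have h3 := hF x h1
      have hne : x ≠ M := fun h => hMF (h ▸ h1)
      exfalso
      rcases h2 with h2 | h2
      · exact hcomp x h3.1 h3.2.1 M hM hM' h2 hne (h3.2.2.trans hr.symm)
      · exact hcomp M hM hM' x h3.1 h3.2.1 h2 hne.symm (hr.trans h3.2.2.symm)
  · rintro ⟨h1, -, h3, h4⟩
    refine ⟨Or.inl ?_, h3⟩
    rcases h4 with h4 | h4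
    · exact Or.inl h4
    · exact Or.inr ⟨h1, by rw [← hr]; exact h4⟩

theorem TRank_notMem {ι : Type} [LinearOrder ι] {P P' : Set α} (rk : α → ι) (r : ι)
    (F : Finset α) {M : α} (hM' : M ∉ P') (hr : rk M = r) (hMF : M ∉ F) :
    M ∉ TRank_A P P' rk r ∪ ↑F := by
  rintro ((h | h) | h)
  · exact hM' h
  · exact absurd h.2 (by rw [hr]; exact lt_irrefl _)
  · exact hMF h

theorem TRank_split {ι : Type} [PartialOrder α] [LinearOrder ι] {P P' Q : Set α} (rk : α → ι)
    (hQ : Q ⊆ P) {k : ℕ} {w : Ch α} (hw : w ∈ Sup (Ln (Po Q) k)) :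
    w ∈ Sup (Ln (Po P') k) ∨ ∃ (M : α) (F : Finset α), M ∈ Q ∧ M ∉ P' ∧
      (∀ x ∈ F, x ∈ P ∧ x ∉ P' ∧ rk x = rk M) ∧
        w ∈ Sup (Ln (Po (TRank_A P P' rk (rk M) ∪ ↑F)) k) := by
  classical
  obtain ⟨E, hE⟩ := exists_finset_entries w
  have hw' : ∀ l ∈ w.support, l ∈ Ln (Po Q) k := fun l hl =>
    (Finsupp.mem_supported ℤ w).1 hw (Finset.mem_coe.2 hl)
  rcases (E.filter (fun x => x ∈ Q ∧ x ∉ P')).eq_empty_or_nonempty with h0 | h0
  · left
    refine (Finsupp.mem_supported ℤ w).2 fun l hl => ?_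
    have h1 := hw' l (Finset.mem_coe.1 hl)
    refine ⟨⟨h1.1.1, fun x hx => ?_⟩, h1.2⟩
    by_contra hc
    have h2 : x ∈ E.filter (fun x => x ∈ Q ∧ x ∉ P') :=
      Finset.mem_filter.2 ⟨hE l (Finset.mem_coe.1 hl) x hx, h1.1.2 x hx, hc⟩
    rw [h0] at h2
    exact absurd h2 (Finset.notMem_empty _)
  · right
    obtain ⟨M, hM, hmax⟩ := Finset.exists_max_image _ rk h0
    rw [Finset.mem_filter] at hM
    refine ⟨M, (E.filter (fun x => x ∈ Q ∧ x ∉ P')).filter (fun x => rk x = rk M), hM.2.1,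
      hM.2.2, fun x hx => ?_, ?_⟩
    · rw [Finset.mem_filter, Finset.mem_filter] at hx
      exact ⟨hQ hx.1.2.1, hx.1.2.2, hx.2⟩
    · refine (Finsupp.mem_supported ℤ w).2 fun l hl => ?_
      have h1 := hw' l (Finset.mem_coe.1 hl)
      refine ⟨⟨h1.1.1, fun x hx => ?_⟩, h1.2⟩
      by_cases hc : x ∈ P'
      · exact Or.inl (Or.inl hc)
      · have h2 : x ∈ E.filter (fun x => x ∈ Q ∧ x ∉ P') :=
          Finset.mem_filter.2 ⟨hE l (Finset.mem_coe.1 hl) x hx, h1.1.2 x hx, hc⟩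
        rcases lt_or_eq_of_le (hmax x h2) with h3 | h3
        · exact Or.inl (Or.inr ⟨hQ (h1.1.2 x hx), h3⟩)
        · exact Or.inr (Finset.mem_coe.2 (Finset.mem_filter.2 ⟨h2, h3⟩))

theorem TRank_insert [DecidableEq α] (S : Set α) (M : α) (F : Finset α) :
    S ∪ ↑(insert M F) = insert M (S ∪ ↑F) := by
  rw [Finset.coe_insert, Set.union_insert]

theorem rank_bd {ι : Type} [PartialOrder α] [LinearOrder ι] [WellFoundedLT ι] {P P' : Set α}
    (hP : P' ⊆ P) (rk : α → ι)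
    (hcomp : ∀ x ∈ P, x ∉ P' → ∀ y ∈ P, y ∉ P' → x ≤ y → x ≠ y → rk x ≠ rk y) {n : ℕ}
    (hL : ∀ M ∈ P, M ∉ P' → Ac (Po (LkR P P' rk M)) n) {m : ℕ} (hm : m < n) {z : Ch α}
    (hz : z ∈ Sup (Ln (Po P') m)) (hb : bd z = 0)
    (hw : ∃ w ∈ Sup (Ln (Po P) (m + 1)), bd w = z) : ∃ w ∈ Sup (Ln (Po P') (m + 1)), bd w = z := by
  classical
  -- (i)
  have step : ∀ (r : ι) (F : Finset α), (∀ x ∈ F, x ∈ P ∧ x ∉ P' ∧ rk x = r) →
      (∃ w ∈ Sup (Ln (Po (TRank_A P P' rk r ∪ ↑F)) (m + 1)), bd w = z) →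
      ∃ w ∈ Sup (Ln (Po (TRank_A P P' rk r)) (m + 1)), bd w = z := by
    intro r F
    induction F using Finset.induction_on with
    | empty =>
      intro _ h
      rwa [Finset.coe_empty, Set.union_empty] at h
    | insert M F hMF ih =>
      intro hF h
      have hM := hF M (Finset.mem_insert_self _ _)
      have hF' : ∀ x ∈ F, x ∈ P ∧ x ∉ P' ∧ rk x = r := fun x hx =>
        hF x (Finset.mem_insert_of_mem hx)
      refine ih hF' ?_
      rw [TRank_insert] at h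
      refine add_one_bd _ M (TRank_notMem rk r F hM.2.1 hM.2.2 hMF) ?_ hm ?_ hb h
      · rw [TRank_link hP rk hcomp r F hF' hM.1 hM.2.1 hM.2.2 hMF]
        exact hL M hM.1 hM.2.1
      · exact TRank_SupLn_mono (fun x hx => Or.inl (Or.inl hx)) m hz
  -- (ii)
  have main : ∀ r : ι, (∃ w ∈ Sup (Ln (Po (TRank_A P P' rk r)) (m + 1)), bd w = z) →
      ∃ w ∈ Sup (Ln (Po P') (m + 1)), bd w = z := by
    intro r
    induction r using WellFoundedLT.induction with
    | ind r ih =>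
      rintro ⟨w, hw1, hw2⟩
      rcases TRank_split (P := P) (P' := P') rk (TRank_A_sub hP rk r) hw1 with h | ⟨M, F, hMQ, hM', hF, h⟩
      · exact ⟨w, h, hw2⟩
      · refine ih (rk M) ?_ (step (rk M) F hF ⟨w, h, hw2⟩)
        rcases hMQ with h1 | h1
        · exact absurd h1 hM'
        · exact h1.2
  obtain ⟨w, hw1, hw2⟩ := hw
  rcases TRank_split (P := P) (P' := P') rk (subset_refl P) hw1 with h | ⟨M, F, hMQ, hM', hF, h⟩
  · exact ⟨w, h, hw2⟩
  · exact main (rk M) (step (rk M) F hF ⟨w, h, hw2⟩)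

theorem rank_ac {ι : Type} [PartialOrder α] [LinearOrder ι] [WellFoundedLT ι] {P P' : Set α}
    (hP : P' ⊆ P) (rk : α → ι)
    (hcomp : ∀ x ∈ P, x ∉ P' → ∀ y ∈ P, y ∉ P' → x ≤ y → x ≠ y → rk x ≠ rk y) {n : ℕ}
    (hL : ∀ M ∈ P, M ∉ P' → Ac (Po (LkR P P' rk M)) n) (hn : Ac (Po P') (n + 1)) :
    Ac (Po P) (n + 1) := by
  classical
  -- (i)
  have step : ∀ (r : ι) (F : Finset α), (∀ x ∈ F, x ∈ P ∧ x ∉ P' ∧ rk x = r) →
      Ac (Po (TRank_A P P' rk r)) (n + 1) → Ac (Po (TRank_A P P' rk r ∪ ↑F)) (n + 1) := by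
    intro r F
    induction F using Finset.induction_on with
    | empty =>
      intro _ h
      rwa [Finset.coe_empty, Set.union_empty]
    | insert M F hMF ih =>
      intro hF h
      have hM := hF M (Finset.mem_insert_self _ _)
      have hF' : ∀ x ∈ F, x ∈ P ∧ x ∉ P' ∧ rk x = r := fun x hx =>
        hF x (Finset.mem_insert_of_mem hx)
      rw [TRank_insert]
      refine add_one_ac _ M (TRank_notMem rk r F hM.2.1 hM.2.2 hMF) (ih hF' h) ?_
      rw [TRank_link hP rk hcomp r F hF' hM.1 hM.2.1 hM.2.2 hMF]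
      exact hL M hM.1 hM.2.1
  -- the common argument
  have gen : ∀ Q : Set α, P' ⊆ Q → Q ⊆ P → (∀ M ∈ Q, M ∉ P' → TRank_A P P' rk (rk M) ⊆ Q) →
      (∀ M ∈ Q, M ∉ P' → ∀ x ∈ P, rk x = rk M → x ∈ Q) →
      (∀ M ∈ Q, M ∉ P' → Ac (Po (TRank_A P P' rk (rk M))) (n + 1)) → Ac (Po Q) (n + 1) := by
    intro Q h1 h2 h3 h4 h5 k hk z hz hb
    rcases TRank_split (P := P) (P' := P') rk h2 hz with h | ⟨M, F, hMQ, hM', hF, h⟩
    · obtain ⟨w, hw1, hw2⟩ := hn k hk z h hb
      exact ⟨w, TRank_SupLn_mono h1 _ hw1, hw2⟩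
    · obtain ⟨w, hw1, hw2⟩ := step (rk M) F hF (h5 M hMQ hM') k hk z h hb
      refine ⟨w, TRank_SupLn_mono ?_ _ hw1, hw2⟩
      rintro x (hx | hx)
      · exact h3 M hMQ hM' hx
      · exact h4 M hMQ hM' x (hF x hx).1 (hF x hx).2.2
  -- (ii)
  have main : ∀ r : ι, Ac (Po (TRank_A P P' rk r)) (n + 1) := by
    intro r
    induction r using WellFoundedLT.induction with
    | ind r ih =>
      have hlt : ∀ M ∈ TRank_A P P' rk r, M ∉ P' → rk M < r := by
        intro M hM hM'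
        rcases hM with h1 | h1
        · exact absurd h1 hM'
        · exact h1.2
      refine gen _ (TRank_sub_A rk r) (TRank_A_sub hP rk r) ?_ ?_ ?_
      · intro M hM hM' x hx
        rcases hx with hx | hx
        · exact Or.inl hx
        · exact Or.inr ⟨hx.1, hx.2.trans (hlt M hM hM')⟩
      · intro M hM hM' x hx hr
        exact Or.inr ⟨hx, by rw [hr]; exact hlt M hM hM'⟩
      · intro M hM hM'
        exact ih (rk M) (hlt M hM hM')
  refine gen P hP (subset_refl P) ?_ ?_ ?_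
  · intro M _ _
    exact TRank_A_sub hP rk _
  · intro M _ _ x hx _
    exact hx
  · intro M _ _
    exact main (rk M)

end TorA
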