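import Pool.Agent.Lib.MP_05cdf2_gt.A.CLow
import Pool.Agent.Lib.MP_05cdf2_gt.A.CUp
import Pool.Agent.Lib.MP_05cdf2_gt.A.TRank
import Pool.Agent.Lib.MP_05cdf2_gt.A.CFlat

/-! MP_05cdf2_gt, stream A (abstract cyclic step), job CLink: the links for the order of `rk`, and the removal of `HN N`.

`link_eq`: `M ∈ HN N`, `LkR (Cle N) (Clt N) (rk N) M = Low M ∪ Up N M`. Let `M' ∈ Cle N`, `M' ≠ M`. If `M' ⊆ M`: `M' ∈ HN N` (`HN_sub`; so `M' ∉ Clt N`), `M'` is in the link iff `rk M' < rk M` iff `¬ Co M ⊆ M'` (`rk_lt_of_not`, `rk_lt_of`), and `M' ≠ M` follows from `¬ Co M ⊆ M'` (`Co_sub`). If `M ⊆ M'` and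
`M' ∈ HN N`: `rk M' < rk M` iff `Co M' ⊆ M` (the same two lemmas for `M ⊆ M'`). (`HN N` and `Clt N` are disjoint, `KK_ne`.)
`link_ac`: a frame `F` of `Lam M` exists (`KK_ne`, `exists_frame`). `Ac_join` for `P = Low M`, `Q = Up N M` (`M' ∈ Low M`, `M'' ∈ Up N M`: `M' ⊂ M ⊂ M''`): `Ac (nu F + (G - nu F))`, `Ac.mono`.
`removal`: `rank_bd` with `P = Cle N`, `P' = Clt N`, `rk = rk N` (`ι = ℕ ×ₗ ℕ`): elements of `P \ P'` are in `HN N`; comparable different ones have different rank (`rk_lt_of_not`, `rk_lt_of`).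
`HN1_ac`: let `z` be a cycle of `Po (HN 1)` of length `m < G`; it bounds in `Po KK` (`hKK`) by some `w`; finitely many entries `M`, each has some `x ∈ Lam M` (`KK_ne`), so there is `N0 ≥ 1` with all entries in `Clt (N0 + 1)`. Claim by descending induction on `N ≥ 1`: `z` bounds in `Po (Clt (N+1))`. Step from
`N ≥ 2` to `N - 1`: `z` is a chain of `Po (Cle N)` (`HN 1 ⊆ Clt N`), `flat_bound` gives that it bounds in `Po (Cle N)`, `removal` that it bounds in `Po (Clt N)`. So `z` bounds in `Po (Clt 2)`; by `flat_bound` in `Po (Cle 1)` and `Cle 1 = HN 1` (`Clt 1 = ∅` by `w_pos`). -/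

set_option autoImplicit false

namespace TorA
open Finsupp Tor
namespace HLat
variable {X C : Type} [Lattice X] [DecidableEq C] (H : HLat X C)

theorem CLink_disj {N : ℕ} {M : Set C} (hM : M ∈ H.HN N) : M ∉ H.Clt N := by
  rintro ⟨-, x, hx, hlt⟩
  have h1 := hM.2 x hx
  omega

theorem CLink_Co_ne {M M' : Set C} (h : ¬ H.Co M ⊆ M') : M' ≠ M := by
  rintro rfl
  exact h (H.Co_sub _)

theorem link_eq {N : ℕ} {M : Set C} (hM : M ∈ H.HN N) :
    LkR (H.Cle N) (H.Clt N) (H.rk N) M = H.Low M ∪ H.Up N M := by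
  ext M'
  constructor
  · rintro ⟨hC, hne, hle, hr⟩
    have hKK : M' ∈ H.KK := by
      rcases hC with h | h
      · exact h.1
      · exact h.1
    rcases hle with hle | hle
    · have hle' : M' ⊆ M := hle
      have hH : M' ∈ H.HN N := H.HN_sub hM hle' hKK
      left
      refine ⟨hKK, hle', ?_⟩
      intro hCo
      rcases hr with hr | hr
      · exact H.CLink_disj hH hr
      · exact absurd (H.rk_lt_of hM hKK hle' hne hCo) (not_lt_of_gt hr)
    · have hle' : M ⊆ M' := hle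
      right
      refine ⟨hKK, hle', hne, ?_⟩
      rcases hC with h | h
      · exact Or.inl h
      · right
        refine ⟨h, ?_⟩
        by_contra hCo
        rcases hr with hr | hr
        · exact H.CLink_disj h hr
        · exact absurd (H.rk_lt_of_not h hM.1 hle' hCo) (not_lt_of_gt hr)
  · rintro (⟨hKK, hle, hCo⟩ | ⟨hKK, hle, hne, hU⟩)
    · have hH : M' ∈ H.HN N := H.HN_sub hM hle hKK
      exact ⟨Or.inr hH, H.CLink_Co_ne hCo, Or.inl hle, Or.inr (H.rk_lt_of_not hM hKK hle hCo)⟩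
    · rcases hU with hU | ⟨hU, hCo⟩
      · exact ⟨Or.inl hU, hne, Or.inr hle, Or.inl hU⟩
      · exact ⟨Or.inr hU, hne, Or.inr hle, Or.inr (H.rk_lt_of hU hM.1 hle (Ne.symm hne) hCo)⟩

theorem link_ac {N : ℕ} (hN : 2 ≤ N) {M : Set C} (hM : M ∈ H.HN N) :
    Ac (Po (LkR (H.Cle N) (H.Clt N) (H.rk N) M)) H.G := by
  rw [H.link_eq hM]
  obtain ⟨x0, hx0⟩ := H.KK_ne hM.1
  obtain ⟨F, -⟩ := exists_frame (H.subL_Lam (H.KK_coh hM.1)) hx0
  have h1 := H.low_ac hN hM F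
  have h2 := H.up_ac hM F
  have h3 : ∀ x ∈ H.Low M, ∀ y ∈ H.Up N M, x < y := by
    rintro x ⟨-, hx, hCo⟩ y ⟨-, hy, hne, -⟩
    refine lt_of_le_of_ne (le_trans hx hy) ?_
    rintro rfl
    exact hne (le_antisymm hx hy)
  exact (Ac_join h3 h1 h2).mono (by omega)

theorem removal {N : ℕ} (hN : 2 ≤ N) {m : ℕ} (hm : m < H.G) {z : Ch (Set C)}
    (hz : z ∈ Sup (Ln (Po (H.Clt N)) m)) (hb : bd z = 0)
    (hw : ∃ w ∈ Sup (Ln (Po (H.Cle N)) (m + 1)), bd w = z) :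
    ∃ w ∈ Sup (Ln (Po (H.Clt N)) (m + 1)), bd w = z := by
  refine rank_bd (P := H.Cle N) (P' := H.Clt N) (fun _ h => Or.inl h) (H.rk N) ?_
    (n := H.G) ?_ hm hz hb hw
  · intro x hx hx' y hy hy' hle hne
    have hxH : x ∈ H.HN N := hx.resolve_left hx'
    have hyH : y ∈ H.HN N := hy.resolve_left hy'
    by_cases hCo : H.Co y ⊆ x
    · exact ne_of_gt (H.rk_lt_of hyH hxH.1 hle hne hCo)
    · exact ne_of_lt (H.rk_lt_of_not hyH hxH.1 hle hCo)
  · intro M hM hM'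
    exact H.link_ac hN (hM.resolve_left hM')

theorem CLink_HN1_sub {N : ℕ} (hN : 1 ≤ N) : H.HN 1 ⊆ H.Clt (N + 1) := by
  intro M hM
  obtain ⟨x, hx⟩ := H.KK_ne hM.1
  refine ⟨hM.1, x, hx, ?_⟩
  have h1 := hM.2 x hx
  omega

theorem CLink_desc {m : ℕ} (hm : m < H.G) {z : Ch (Set C)} (hz : z ∈ Sup (Ln (Po (H.HN 1)) m))
    (hb : bd z = 0) (N : ℕ) (hN : 1 ≤ N)
    (hw : ∃ w ∈ Sup (Ln (Po (H.Clt (N + 1))) (m + 1)), bd w = z) :
    ∃ w ∈ Sup (Ln (Po (H.Clt 2)) (m + 1)), bd w = z := by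
  induction N, hN using Nat.le_induction with
  | base => exact hw
  | succ N hN ih =>
    apply ih
    have hz1 : z ∈ Sup (Ln (Po (H.Clt (N + 1))) m) :=
      Sup_mono (Ln_mono (Fl_mono (H.CLink_HN1_sub hN)) m) hz
    have hz2 : z ∈ Sup (Ln (Po (H.Cle (N + 1))) m) :=
      Sup_mono (Ln_mono (Fl_mono (fun _ h => Or.inl h)) m) hz1
    exact H.removal (by omega) hm hz1 hb (H.flat_bound (N + 1) hz2 hw)

theorem CLink_fin (E : Finset (Set C)) :
    ∃ N : ℕ, 1 ≤ N ∧ ∀ M ∈ E, M ∈ H.KK → M ∈ H.Clt (N + 1) := by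
  classical
  induction E using Finset.induction_on with
  | empty => exact ⟨1, le_refl _, by simp⟩
  | insert a E _ ih =>
    obtain ⟨N, hN, h⟩ := ih
    by_cases ha : a ∈ H.KK
    · obtain ⟨x, hx⟩ := H.KK_ne ha
      refine ⟨N + H.w x, by omega, ?_⟩
      intro M hM hMK
      rcases Finset.mem_insert.mp hM with rfl | hM
      · exact ⟨hMK, x, hx, by omega⟩
      · obtain ⟨h1, y, hy, h2⟩ := h M hM hMK
        exact ⟨h1, y, hy, by omega⟩
    · refine ⟨N, hN, ?_⟩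
      intro M hM hMK
      rcases Finset.mem_insert.mp hM with rfl | hM
      · exact absurd hMK ha
      · exact h M hM hMK

theorem HN1_ac (hKK : AcI (Po H.KK)) : Ac (Po (H.HN 1)) H.G := by
  intro m hm z hz hb
  have hz0 : z ∈ Sup (Ln (Po H.KK) m) := Sup_mono (Ln_mono (Fl_mono (fun _ h => h.1)) m) hz
  obtain ⟨w, hw, hbw⟩ := hKK (m + 1) m (Nat.lt_succ_self m) z hz0 hb
  obtain ⟨E, hE⟩ := exists_finset_entries w
  obtain ⟨N, hN, hNE⟩ := H.CLink_fin E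
  have hw1 : w ∈ Sup (Ln (Po (H.Clt (N + 1))) (m + 1)) := by
    rw [Finsupp.mem_supported] at hw ⊢
    intro l hl
    obtain ⟨h1, h2⟩ := hw hl
    refine ⟨⟨h1.1, ?_⟩, h2⟩
    intro x hx
    exact hNE x (hE l hl x hx) (h1.2 x hx)
  have h2 := H.CLink_desc hm hz hb N hN ⟨w, hw1, hbw⟩
  have hz3 : z ∈ Sup (Ln (Po (H.Cle 1)) m) :=
    Sup_mono (Ln_mono (Fl_mono (fun _ h => Or.inr h)) m) hz
  obtain ⟨v, hv, hbv⟩ := H.flat_bound 1 hz3 h2
  refine ⟨v, Sup_mono (Ln_mono (Fl_mono ?_) _) hv, hbv⟩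
  rintro M (⟨-, x, -, hlt⟩ | h)
  · have h1 := H.w_pos x
    omega
  · exact h

end HLat
end TorA
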