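import Pool.Agent.Lib.MP_05cdf2_gt.A.TCon

/-! MP_05cdf2_gt, stream A, toolkit, job TAdd: adding one element `M` to a set `P` of a ordered set.
`L = {x ∈ P | x ≤ M ∨ M ≤ x}` (the link). Split a chain `w` into `w_M` (lists containing `M`, `Finsupp.filter`) and `w'`.
A list of `Po (insert M P)` which contains `M` has all its other entries in `L`.
`star`: `Po (insert M L)` is acyclic: `f x = x` if `x ≤ M`, `f x = M` otherwise (then `M ≤ x`); `f` is monotone on
`insert M L`, `f x ≤ x`, `f x ≤ M`: `AcI_of_down_up`.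
`add_one_bd`: `w` in `Po (insert M P)`, `bd w = z` in `Po P`. `bd w_M = z - bd w'` has no list containing `M`
(`M ∉ P`), and it is supported on sublists of lists of `Po (insert M L)`: so `bd w_M ∈ Sup (Ln (Po L) m)`, a cycle,
`= bd u`, `u` in `Po L`; `w' + u` is in `Po P`.
`add_one_ac`: `z` cycle of `Po (insert M P)` of length `m < n + 1`. If `m = 0` all lists are `[]`. Otherwise `bd z_M = - bd z'` has no list
containing `M`, is a cycle in `Po L` of length `m - 1 < n`, `= bd u`, `u ∈ Sup (Ln (Po L) m)`; `z_M - u` is a cycle in the star, bounds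
there; `z' + u` is a cycle of `Po P`, bounds there. -/

set_option autoImplicit false

namespace TorA
open Finsupp Tor

variable {α : Type}

/-- the elements of `P` comparable to `M` -/
def Lk [PartialOrder α] (P : Set α) (M : α) : Set α := {x | x ∈ P ∧ (x ≤ M ∨ M ≤ x)}

private theorem TAdd_split [PartialOrder α] (P : Set α) (M : α) {k : ℕ} {w : Ch α}
    (hw : w ∈ Sup (Ln (Po (insert M P)) k)) :
    ∃ a b : Ch α, w = a + b ∧ a ∈ Sup (Ln (Po (insert M (Lk P M))) k) ∧ b ∈ Sup (Ln (Po P) k) := by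
  classical
  refine ⟨w.filter (fun l => M ∈ l), w.filter (fun l => ¬ M ∈ l),
    (Finsupp.filter_add_filter_not w (fun l => M ∈ l)).symm, ?_, ?_⟩
  · rw [Finsupp.mem_supported]
    intro l hl
    rw [Finset.mem_coe, Finsupp.support_filter, Finset.mem_filter] at hl
    obtain ⟨⟨hl1, hl2⟩, hl3⟩ := (Finsupp.mem_supported ℤ w).1 hw hl.1
    refine ⟨⟨hl1, fun x hx => ?_⟩, hl3⟩
    rcases hl2 x hx with h | h
    · exact Or.inl h
    · by_cases hxM : x = M
      · exact Or.inl hxM
      · refine Or.inr ⟨h, ?_⟩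
        have hs : l.Pairwise (fun a b => a ≤ b ∨ b ≤ a) := hl1.imp (fun h => Or.inl h)
        have hsym : Std.Symm (fun a b : α => a ≤ b ∨ b ≤ a) := ⟨fun a b h => h.symm⟩
        exact List.Pairwise.forall_of_forall (R := fun a b : α => a ≤ b ∨ b ≤ a) (fun y _ => Or.inl le_rfl) hs hx hl.2
  · rw [Finsupp.mem_supported]
    intro l hl
    rw [Finset.mem_coe, Finsupp.support_filter, Finset.mem_filter] at hl
    obtain ⟨⟨hl1, hl2⟩, hl3⟩ := (Finsupp.mem_supported ℤ w).1 hw hl.1
    refine ⟨⟨hl1, fun x hx => ?_⟩, hl3⟩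
    rcases hl2 x hx with h | h
    · rw [h] at hx
      exact absurd hx hl.2
    · exact h

private theorem TAdd_inter [PartialOrder α] (P : Set α) (M : α) (hM : M ∉ P) {k : ℕ} {c : Ch α}
    (h1 : c ∈ Sup (Ln (Po (insert M (Lk P M))) k)) (h2 : c ∈ Sup (Ln (Po P) k)) :
    c ∈ Sup (Ln (Po (Lk P M)) k) := by
  rw [Finsupp.mem_supported] at h1 h2 ⊢
  intro l hl
  obtain ⟨⟨ha, hb⟩, hc⟩ := h1 hl
  obtain ⟨⟨-, hd⟩, -⟩ := h2 hl
  refine ⟨⟨ha, fun x hx => ?_⟩, hc⟩
  rcases hb x hx with h | h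
  · exact absurd (h ▸ hd x hx) hM
  · exact h

private theorem TAdd_LP [PartialOrder α] (P : Set α) (M : α) : Lk P M ⊆ P := fun _ h => h.1

private theorem TAdd_mono [PartialOrder α] {P Q : Set α} (h : P ⊆ Q) {k : ℕ} {c : Ch α}
    (hc : c ∈ Sup (Ln (Po P) k)) : c ∈ Sup (Ln (Po Q) k) :=
  Sup_mono (Ln_mono (Fl_mono h) k) hc

theorem star [PartialOrder α] (P : Set α) (M : α) : AcI (Po (insert M (Lk P M))) := by
  classical
  refine AcI_of_down_up (fun x => if x ≤ M then x else M) M (Set.mem_insert _ _) ?_ ?_ ?_ ?_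
  · intro x hx
    by_cases h : x ≤ M
    · simp only [h, if_true]; exact hx
    · simp only [h, if_false]; exact Set.mem_insert _ _
  · intro x _ y _ hxy
    by_cases hy : y ≤ M
    · have hx : x ≤ M := hxy.trans hy
      simp only [hx, hy, if_true]; exact hxy
    · simp only [hy, if_false]
      by_cases hx : x ≤ M
      · simp only [hx, if_true]
      · simp only [hx, if_false]; exact le_rfl
  · intro x hx
    by_cases h : x ≤ M
    · simp only [h, if_true]; exact le_rfl
    · simp only [h, if_false]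
      rcases hx with hx | hx
      · exact absurd hx.le h
      · exact hx.2.resolve_left h
  · intro x _
    by_cases h : x ≤ M
    · simp only [h, if_true]
    · simp only [h, if_false]; exact le_rfl

theorem add_one_bd [PartialOrder α] (P : Set α) (M : α) (hM : M ∉ P) {n : ℕ}
    (hL : Ac (Po (Lk P M)) n) {m : ℕ} (hm : m < n) {z : Ch α} (hz : z ∈ Sup (Ln (Po P) m))
    (hb : bd z = 0) (hw : ∃ w ∈ Sup (Ln (Po (insert M P)) (m + 1)), bd w = z) :
    ∃ w ∈ Sup (Ln (Po P) (m + 1)), bd w = z := by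
  obtain ⟨w, hw, hwz⟩ := hw
  obtain ⟨a, b, hab, ha, hb'⟩ := TAdd_split P M hw
  have h1 : bd a = z - bd b := by rw [← hwz, hab, map_add, add_sub_cancel_right]
  have h2 : bd a ∈ Sup (Ln (Po P) m) := by
    rw [h1]
    exact Submodule.sub_mem _ hz (bd_mem_Ln (Po_closed P) hb')
  have h3 := TAdd_inter P M hM (bd_mem_Ln (Po_closed _) ha) h2
  obtain ⟨u, hu, hu'⟩ := hL m hm _ h3 (bd_bd a)
  refine ⟨b + u, Submodule.add_mem _ hb' (TAdd_mono (TAdd_LP P M) hu), ?_⟩
  rw [map_add, hu', h1, add_sub_cancel]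

theorem add_one_ac [PartialOrder α] (P : Set α) (M : α) (hM : M ∉ P) {n : ℕ}
    (hP : Ac (Po P) (n + 1)) (hL : Ac (Po (Lk P M)) n) : Ac (Po (insert M P)) (n + 1) := by
  intro m hm z hz hb
  obtain ⟨a, b, hab, ha, hb'⟩ := TAdd_split P M hz
  cases m with
  | zero =>
    have hz' : z ∈ Sup (Ln (Po P) 0) := by
      rw [Finsupp.mem_supported] at hz ⊢
      intro l hl
      obtain ⟨-, hl2⟩ := hz hl
      have hl3 : l = [] := List.length_eq_zero_iff.1 hl2
      rw [hl3]
      exact ⟨nil_mem_Fl _ _, rfl⟩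
    obtain ⟨w, hw, hw'⟩ := hP 0 (Nat.succ_pos n) z hz' hb
    exact ⟨w, TAdd_mono (Set.subset_insert M P) hw, hw'⟩
  | succ k =>
    have h1 : bd a = - bd b := by
      have : bd a + bd b = 0 := by rw [← map_add, ← hab, hb]
      exact eq_neg_of_add_eq_zero_left this
    have h2 : bd a ∈ Sup (Ln (Po P) k) := by
      rw [h1]
      exact Submodule.neg_mem _ (bd_mem_Ln (Po_closed P) hb')
    have h3 := TAdd_inter P M hM (bd_mem_Ln (Po_closed _) ha) h2
    obtain ⟨u, hu, hu'⟩ := hL k (by omega) _ h3 (bd_bd a)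
    have h4 : a - u ∈ Sup (Ln (Po (insert M (Lk P M))) (k + 1)) :=
      Submodule.sub_mem _ ha (TAdd_mono (Set.subset_insert _ _) hu)
    have h5 : bd (a - u) = 0 := by rw [map_sub, hu', sub_self]
    obtain ⟨w1, hw1, hw1'⟩ := star P M (k + 2) (k + 1) (Nat.lt_succ_self _) _ h4 h5
    have h6 : b + u ∈ Sup (Ln (Po P) (k + 1)) :=
      Submodule.add_mem _ hb' (TAdd_mono (TAdd_LP P M) hu)
    have h7 : bd (b + u) = 0 := by rw [map_add, hu', h1, add_neg_cancel]
    obtain ⟨w2, hw2, hw2'⟩ := hP (k + 1) hm _ h6 h7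
    refine ⟨w1 + w2, Submodule.add_mem _ (TAdd_mono (Set.insert_subset_insert (TAdd_LP P M)) hw1)
      (TAdd_mono (Set.subset_insert M P) hw2), ?_⟩
    rw [map_add, hw1', hw2', hab]
    abel

end TorA
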