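import Pool.Agent.Lib.MP_05cdf2_gt.A.CMove
import Pool.Agent.Lib.MP_05cdf2_gt.A.TAdd

/-! MP_05cdf2_gt, stream A (abstract cyclic step), job CLowB: `{M' ∈ KK | M' ⊂ M}` is `Ac s` if `M` has `s` independent movable pairs.

Induction on the list `S` of pairs (general `M ∈ KK`). `S = []`: `Ac_zero`. `S = (e, f) :: S'`. `A + e = A ∪ {c | Eo e c}`, `A - f = {c ∈ A | ¬ Eo f c}`. Members of `KK` are invariant.
`Me = M - e ∈ KK`, `Mf = M - f ∈ KK` (`KK_sub`; full: a curve `c ∈ M - e` is in some `y ∈ Lam M` (`KK_full`); `Mv M e f` gives `z' ∈ Lam M` without translates of `e`, still containing `c`; nonempty: `f ∈ Me` as `¬ Eo e f`).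
`P = {M' ∈ KK | M' ⊂ M}`, `P0 = P \ {Me}`.
(1) `P0` is acyclic: `AcI_of_zig` with `al M' = M' + e` if `f ∈ M'`, else `M'`; `be M' = (M' + e) - f` if `f ∈ M'`, else `M'`; `c = Mf`. `al M' ∈ KK` (`KK_sub` from `M`; `e`: take `y ∈ Lam M'` with `f ∈ fr y`, `Mv M f e`); `al M' ≠ M` (otherwise `Me ⊆ M'`, so `M' = Me` or `M' = M` by
 invariance of `M'`: if `e ∈ M'` then `M ⊆ M'`, if not `M' = Me`); `al M' ≠ Me` (if `f ∈ M'` then `e ∈ al M'`; else `al M' = M' ≠ Me`). `be M' ∈ KK` (from `y ∈ Lam (al M')`, `Mv M f e`), `be M' ≠ M, Me` (`f ∈ M`, `f ∈ Me`, `f ∉ be M'`). `be M' ⊆ Mf`. Monotone.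
(2) `P = insert Me P0`, `Lk P0 Me = {M' ∈ KK | M' ⊂ Me}` (`M'` with `Me ⊆ M' ⊂ M` is `Me`), which is `Ac S'.length` by the induction hypothesis for `Me`, `S'`: the curves of the pairs of `S'` are in `Me` (not translates of `e`, by `hd`), `Mv_sub`.
(3) `add_one_ac`. -/

set_option autoImplicit false

namespace TorA
open Finsupp Tor
namespace HLat
variable {X C : Type} [Lattice X] [DecidableEq C] (H : HLat X C)

theorem lowB_Eo {e c : C} (k : ℤ) : H.Eo e ((H.tc ^ k) c) ↔ H.Eo e c := by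
  constructor
  · intro h
    exact H.Eo_trans h (H.Eo_symm ⟨k, rfl⟩)
  · intro h
    exact H.Eo_trans h ⟨k, rfl⟩

/-- add the translates of `e` -/
def lowB_Ad (e : C) (A : Set C) : Set C := {c | c ∈ A ∨ H.Eo e c}

/-- remove the translates of `e` -/
def lowB_Rm (e : C) (A : Set C) : Set C := {c | c ∈ A ∧ ¬ H.Eo e c}

theorem lowB_Ad_inv {A : Set C} (hA : H.Inv A) (e : C) : H.Inv (H.lowB_Ad e A) := by
  intro c k
  exact or_congr (hA c k) (H.lowB_Eo k)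

theorem lowB_Rm_inv {A : Set C} (hA : H.Inv A) (e : C) : H.Inv (H.lowB_Rm e A) := by
  intro c k
  exact and_congr (hA c k) (not_congr (H.lowB_Eo k))

theorem lowB_inv {M : Set C} (hM : M ∈ H.KK) : H.Inv M := (H.KK_coh hM).1

/-- removing a movable curve -/
theorem lowB_rmKK {M : Set C} (hM : M ∈ H.KK) {e f : C} (hf : f ∈ M)
    (hne : ¬ H.Eo e f) (hm : H.Mv M e f) : H.lowB_Rm e M ∈ H.KK := by
  have hi := H.lowB_inv hM
  refine H.KK_sub hM (fun c hc => hc.1) (H.lowB_Rm_inv hi e) ⟨f, hf, hne⟩ ?_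
  rintro c ⟨hc, hce⟩
  obtain ⟨y, hy, hcy⟩ := H.KK_full hM c hc
  obtain ⟨z, hz, hz'⟩ := hm y hy
  refine ⟨z, ⟨hz.1, fun d hd => ?_⟩, (hz' c).mpr (Or.inl ⟨hcy, hce⟩)⟩
  refine ⟨hz.2 d hd, ?_⟩
  rcases (hz' d).mp hd with ⟨-, h⟩ | ⟨k, rfl, -⟩
  · exact h
  · intro h
    exact hne ((H.lowB_Eo k).mp h)

/-- adding a movable curve -/
theorem lowB_adKK {M M' : Set C} (hM : M ∈ H.KK) (hM' : M' ∈ H.KK) (h : M' ⊆ M) {e f : C}
    (he : e ∈ M) (hf : f ∈ M') (hm : H.Mv M f e) : H.lowB_Ad e M' ∈ H.KK := by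
  have hi := H.lowB_inv hM
  have hi' := H.lowB_inv hM'
  refine H.KK_sub hM ?_ (H.lowB_Ad_inv hi' e) ⟨f, Or.inl hf⟩ ?_
  · rintro c (hc | hc)
    · exact h hc
    · exact (H.Eo_mem hi hc).mpr he
  · rintro c (hc | hc)
    · obtain ⟨y, hy, hcy⟩ := H.KK_full hM' c hc
      exact ⟨y, H.Lam_mono (fun d hd => Or.inl hd) hy, hcy⟩
    · obtain ⟨y, hy, hfy⟩ := H.KK_full hM' f hf
      obtain ⟨z, hz, hz'⟩ := hm y (H.Lam_mono h hy)
      have hzl : z ∈ H.Lam (H.lowB_Ad e M') := by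
        refine ⟨hz.1, fun d hd => ?_⟩
        rcases (hz' d).mp hd with ⟨h1, -⟩ | ⟨k, hk, -⟩
        · exact Or.inl (hy.2 d h1)
        · exact Or.inr ⟨k, hk⟩
      have hez : e ∈ H.fr z := (hz' e).mpr (Or.inr ⟨0, by simp, by simpa using hfy⟩)
      obtain ⟨k, rfl⟩ := hc
      exact ⟨H.T k z, H.Lam_T (H.lowB_Ad_inv hi' e) hzl k, (H.fr_T k z e).mpr hez⟩

theorem lowB_step {M : Set C} (hM : M ∈ H.KK) {e f : C} (he : e ∈ M) (hf : f ∈ M)
    (hne : ¬ H.Eo e f) (hm : H.Mv M e f) (hm' : H.Mv M f e) {n : ℕ}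
    (ih : Ac (Po {M' : Set C | M' ∈ H.KK ∧ M' ⊆ H.lowB_Rm e M ∧ M' ≠ H.lowB_Rm e M}) n) :
    Ac (Po {M' : Set C | M' ∈ H.KK ∧ M' ⊆ M ∧ M' ≠ M}) (n + 1) := by
  classical
  have hi := H.lowB_inv hM
  have hne' : ¬ H.Eo f e := fun h => hne (H.Eo_symm h)
  have hMe : H.lowB_Rm e M ∈ H.KK := H.lowB_rmKK hM hf hne hm
  have hMf : H.lowB_Rm f M ∈ H.KK := H.lowB_rmKK hM he hne' hm'
  have heM : e ∉ H.lowB_Rm e M := fun h => h.2 (H.Eo_refl e)
  have hfM : f ∉ H.lowB_Rm f M := fun h => h.2 (H.Eo_refl f)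
  have hfe : f ∈ H.lowB_Rm e M := ⟨hf, hne⟩
  set P : Set (Set C) := {M' : Set C | M' ∈ H.KK ∧ M' ⊆ M ∧ M' ≠ M} with hP
  set P0 : Set (Set C) := {M' : Set C | M' ∈ P ∧ M' ≠ H.lowB_Rm e M} with hP0
  have hMeP : H.lowB_Rm e M ∈ P :=
    ⟨hMe, fun c hc => hc.1, fun h => heM (by rw [h]; exact he)⟩
  -- (1)
  have h1 : AcI (Po P0) := by
    have hadM : ∀ x ∈ P0, H.lowB_Ad e x ⊆ M := by
      rintro x ⟨⟨-, hx, -⟩, -⟩ c (hc | hc)
      · exact hx hc
      · exact (H.Eo_mem hi hc).mpr he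
    have hfx : ∀ x ∈ P0, f ∉ x → ∀ c ∈ x, ¬ H.Eo f c := by
      rintro x ⟨⟨hx, -, -⟩, -⟩ hfx c hc hE
      exact hfx ((H.Eo_mem (H.lowB_inv hx) hE).mp hc)
    refine AcI_of_zig (fun x => if f ∈ x then H.lowB_Ad e x else x)
      (fun x => if f ∈ x then H.lowB_Rm f (H.lowB_Ad e x) else x) (H.lowB_Rm f M)
      ?_ ?_ ?_ ?_ ?_ ?_ ?_ ?_
    · refine ⟨⟨hMf, fun c hc => hc.1, fun h => hfM (by rw [h]; exact hf)⟩, fun h => hfM ?_⟩
      rw [h]; exact hfe
    · intro x hx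
      by_cases hfx' : f ∈ x
      · simp only [hfx', if_true]
        obtain ⟨⟨hxK, hxM, hxne⟩, hxe⟩ := hx
        refine ⟨⟨H.lowB_adKK hM hxK hxM he hfx' hm', hadM x ⟨⟨hxK, hxM, hxne⟩, hxe⟩, ?_⟩, ?_⟩
        · intro h
          by_cases hex : e ∈ x
          · refine hxne (Set.Subset.antisymm hxM fun c hc => ?_)
            rw [← h] at hc
            rcases hc with hc | hc
            · exact hc
            · exact (H.Eo_mem (H.lowB_inv hxK) hc).mpr hex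
          · refine hxe (Set.Subset.antisymm (fun c hc => ⟨hxM hc, fun hE => ?_⟩) fun c hc => ?_)
            · exact hex ((H.Eo_mem (H.lowB_inv hxK) hE).mp hc)
            · have h2 := hc.1
              rw [← h] at h2
              exact h2.resolve_right hc.2
        · intro h
          exact heM (by rw [← h]; exact Or.inr (H.Eo_refl e))
      · simp only [hfx', if_false]; exact hx
    · intro x hx
      by_cases hfx' : f ∈ x
      · simp only [hfx', if_true]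
        obtain ⟨⟨hxK, hxM, hxne⟩, hxe⟩ := hx
        have hA := H.lowB_adKK hM hxK hxM he hfx' hm'
        have hAM := hadM x ⟨⟨hxK, hxM, hxne⟩, hxe⟩
        have hB : H.lowB_Rm f (H.lowB_Ad e x) ∈ H.KK :=
          H.lowB_rmKK hA (Or.inr (H.Eo_refl e)) hne'
            (H.Mv_sub hAM (H.lowB_inv hA) (Or.inr (H.Eo_refl e)) hm')
        have hfn : f ∉ H.lowB_Rm f (H.lowB_Ad e x) := fun h => h.2 (H.Eo_refl f)
        refine ⟨⟨hB, fun c hc => hAM hc.1, fun h => hfn (by rw [h]; exact hf)⟩,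
          fun h => hfn (by rw [h]; exact hfe)⟩
      · simp only [hfx', if_false]; exact hx
    · intro x hx y hy hxy
      by_cases hx1 : f ∈ x
      · have hy1 : f ∈ y := hxy hx1
        simp only [hx1, hy1, if_true]
        rintro c (hc | hc)
        · exact Or.inl (hxy hc)
        · exact Or.inr hc
      · by_cases hy1 : f ∈ y
        · simp only [hx1, hy1, if_true, if_false]
          intro c hc
          exact Or.inl (hxy hc)
        · simp only [hx1, hy1, if_false]; exact hxy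
    · intro x hx y hy hxy
      by_cases hx1 : f ∈ x
      · have hy1 : f ∈ y := hxy hx1
        simp only [hx1, hy1, if_true]
        rintro c ⟨hc | hc, h2⟩
        · exact ⟨Or.inl (hxy hc), h2⟩
        · exact ⟨Or.inr hc, h2⟩
      · by_cases hy1 : f ∈ y
        · simp only [hx1, hy1, if_true, if_false]
          intro c hc
          exact ⟨Or.inl (hxy hc), hfx x hx hx1 c hc⟩
        · simp only [hx1, hy1, if_false]; exact hxy
    · intro x hx
      by_cases hx1 : f ∈ x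
      · simp only [hx1, if_true]; exact fun c hc => Or.inl hc
      · simp only [hx1, if_false]; exact le_refl x
    · intro x hx
      by_cases hx1 : f ∈ x
      · simp only [hx1, if_true]; exact fun c hc => hc.1
      · simp only [hx1, if_false]; exact le_refl x
    · intro x hx
      by_cases hx1 : f ∈ x
      · simp only [hx1, if_true]; exact fun c hc => ⟨hadM x hx hc.1, hc.2⟩
      · simp only [hx1, if_false]; exact fun c hc => ⟨hx.1.2.1 hc, hfx x hx hx1 c hc⟩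
  -- (2)
  have h2 : P = insert (H.lowB_Rm e M) P0 := by
    ext x
    constructor
    · intro hx
      by_cases h : x = H.lowB_Rm e M
      · exact Or.inl h
      · exact Or.inr ⟨hx, h⟩
    · rintro (rfl | hx)
      · exact hMeP
      · exact hx.1
  have h3 : Lk P0 (H.lowB_Rm e M) =
      {M' : Set C | M' ∈ H.KK ∧ M' ⊆ H.lowB_Rm e M ∧ M' ≠ H.lowB_Rm e M} := by
    ext x
    constructor
    · rintro ⟨⟨⟨hxK, hxM, hxne⟩, hxe⟩, h | h⟩
      · exact ⟨hxK, h, hxe⟩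
      · refine ⟨hxK, fun c hc => ⟨hxM hc, fun hE => ?_⟩, hxe⟩
        have hex : e ∈ x := (H.Eo_mem (H.lowB_inv hxK) hE).mp hc
        refine hxne (Set.Subset.antisymm hxM fun d hd => ?_)
        by_cases hE' : H.Eo e d
        · exact (H.Eo_mem (H.lowB_inv hxK) hE').mpr hex
        · exact h ⟨hd, hE'⟩
    · rintro ⟨hxK, hx, hxe⟩
      refine ⟨⟨⟨hxK, fun c hc => (hx hc).1, fun h => ?_⟩, hxe⟩, Or.inl hx⟩
      rw [h] at hx
      exact heM (hx he)
  rw [h2]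
  refine add_one_ac P0 _ (fun h => h.2 rfl) (h1 _) ?_
  rw [h3]
  exact ih

theorem lowB (S : List (C × C)) : ∀ {M : Set C}, M ∈ H.KK →
    (∀ p ∈ S, p.1 ∈ M ∧ p.2 ∈ M ∧ ¬ H.Eo p.1 p.2 ∧ H.Mv M p.1 p.2 ∧ H.Mv M p.2 p.1) →
    S.Pairwise (fun p q => ¬ H.Eo p.1 q.1 ∧ ¬ H.Eo p.1 q.2 ∧ ¬ H.Eo p.2 q.1 ∧ ¬ H.Eo p.2 q.2) →
    Ac (Po {M' : Set C | M' ∈ H.KK ∧ M' ⊆ M ∧ M' ≠ M}) S.length := by
  induction S with
  | nil =>
    intro M _ _ _
    exact Ac_zero _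
  | cons p S ih =>
    intro M hM hS hpw
    obtain ⟨e, f⟩ := p
    rw [List.pairwise_cons] at hpw
    obtain ⟨hpw1, hpw2⟩ := hpw
    obtain ⟨he, hf, hne, hm, hm'⟩ := hS (e, f) List.mem_cons_self
    have hMe : H.lowB_Rm e M ∈ H.KK := H.lowB_rmKK hM hf hne hm
    have hinv := H.lowB_inv hMe
    refine H.lowB_step hM he hf hne hm hm' (ih hMe ?_ hpw2)
    intro p hp
    obtain ⟨h1, h2, h3, h4, h5⟩ := hS p (List.mem_cons_of_mem _ hp)
    obtain ⟨h6, h7, -, -⟩ := hpw1 p hp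
    have hp1 : p.1 ∈ H.lowB_Rm e M := ⟨h1, h6⟩
    have hp2 : p.2 ∈ H.lowB_Rm e M := ⟨h2, h7⟩
    exact ⟨hp1, hp2, h3, H.Mv_sub (fun c hc => hc.1) hinv hp2 h4,
      H.Mv_sub (fun c hc => hc.1) hinv hp1 h5⟩

end HLat
end TorA
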