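import Pool.Agent.Lib.MP_05cdf2_gt.A.CLowA
import Pool.Agent.Lib.MP_05cdf2_gt.A.CLowB

/-! MP_05cdf2_gt, stream A (abstract cyclic step), job CLow: the lower link `Low M = {M' ∈ KK | M' ⊆ M, ¬ Co M ⊆ M'}` of `M ∈ HN N` is `Ac (nu F)`.

If `Co M ≠ M`: `lowA` with `Z = Co M` (`Co_inv`, `Co_sub`). If `Co M = M`: `Low M = {M' ∈ KK | M' ⊆ M, M' ≠ M}`. Let `S` be the list of the pairs `(e_i, f_i)`, `i` running over the neutral steps in `Finset.range F.n` (e.g. `(filter ...).toList.map`, with `e_i, f_i` from `exists_moves`, classical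
choice): length `nu F`. `e_i` leaves at `i`, `f_i` enters at `i` (from `fr (x i) \ fr (x (i+1)) = {e_i}` etc.). The conditions of `lowB`: `exists_moves`; pairwise for `i ≠ j` in `[0, n)`: `Eo e_i e_j`: `e_j = (tc ^ k) e_i` leaves at `i + k n` (`Lv_T`) and at `j`, so `j = i + k n`
(`Lv_unique`), impossible for `0 ≤ i, j < n`, `i ≠ j`. `Eo f_i f_j`: same with `En`. `Eo e_i f_j`: the curve `c = f_j = (tc ^ k) e_i` enters at the neutral step `j` and leaves at `i + k n`, neutral (`CSeq.per_T`, `diff_T`); but `c ∈ M = Co M`, so by `Co_frame` it enters or leaves at a non neutral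
step, contradiction by `En_unique`, `Lv_unique`. `Eo f_i e_j`: symmetric (`Eo_symm`). -/

set_option autoImplicit false

namespace TorA
open Finsupp Tor
namespace HLat
variable {X C : Type} [Lattice X] [DecidableEq C] (H : HLat X C)

private theorem CLow_nt_T {L : Set X} (S : CSeq H L) (i k : ℤ) :
    H.Nt (S.x (i + k * S.n)) (S.x (i + k * S.n + 1)) ↔ H.Nt (S.x i) (S.x (i + 1)) := by
  have h1 : i + k * S.n + 1 = (i + 1) + k * S.n := by ring
  unfold Nt
  rw [h1, S.per_T, S.per_T, H.diff_T]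

private theorem CLow_eq {n : ℕ} {i j : ℕ} (hi : i < n) (hj : j < n) {k : ℤ}
    (h : (i : ℤ) + k * n = j) : i = j := by
  have hk : k = 0 := by
    by_contra hne
    rcases lt_or_gt_of_ne hne with h1 | h1
    · have h2 : k * n ≤ (-1) * n := mul_le_mul_of_nonneg_right (by omega) (by omega)
      omega
    · have h2 : 1 * (n : ℤ) ≤ k * n := mul_le_mul_of_nonneg_right (by omega) (by omega)
      omega
  rw [hk] at h
  omega

theorem low_ac {N : ℕ} (hN : 2 ≤ N) {M : Set C} (hM : M ∈ H.HN N) (F : Frame H (H.Lam M)) :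
    Ac (Po (H.Low M)) (H.nu F) := by
  classical
  have hcoh : H.Coh M := H.KK_coh hM.1
  by_cases hCo : H.Co M = M
  · -- all the curves are adjacent to non neutral covers
    obtain ⟨c0, -⟩ := H.KK_nonempty hM.1
    have hC : Nonempty C := ⟨c0⟩
    have hset : H.Low M = {M' : Set C | M' ∈ H.KK ∧ M' ⊆ M ∧ M' ≠ M} := by
      ext M'
      constructor
      · rintro ⟨h1, h2, h3⟩
        rw [hCo] at h3
        exact ⟨h1, h2, fun h => h3 (h ▸ subset_rfl)⟩
      · rintro ⟨h1, h2, h3⟩
        refine ⟨h1, h2, ?_⟩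
        rw [hCo]
        exact fun h => h3 (Set.Subset.antisymm h2 h)
    let nf : Finset ℕ := (Finset.range F.n).filter fun i : ℕ => H.Nt (F.x i) (F.x (i + 1))
    have hnf : ∀ i ∈ nf, i < F.n ∧ H.Nt (F.x i) (F.x (i + 1)) := by
      intro i hi
      obtain ⟨h1, h2⟩ := Finset.mem_filter.mp hi
      exact ⟨Finset.mem_range.mp h1, h2⟩
    have hex : ∀ i ∈ nf, ∃ e f, H.fr (F.x i) \ H.fr (F.x (i + 1)) = {e} ∧
        H.fr (F.x (i + 1)) \ H.fr (F.x i) = {f} ∧
        ¬ H.Eo e f ∧ H.Mv M e f ∧ H.Mv M f e := fun i hi =>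
      H.exists_moves hM hN F (i : ℤ) (hnf i hi).2
    choose! e f he hf hef hm1 hm2 using hex
    have hLv : ∀ i ∈ nf, F.Lv (i : ℤ) (e i) := by
      intro i hi
      have h1 : e i ∈ H.fr (F.x i) \ H.fr (F.x (i + 1)) := by
        rw [he i hi]
        exact Finset.mem_singleton_self _
      exact Finset.mem_sdiff.mp h1
    have hEn : ∀ i ∈ nf, F.En (i : ℤ) (f i) := by
      intro i hi
      have h1 : f i ∈ H.fr (F.x (i + 1)) \ H.fr (F.x i) := by
        rw [hf i hi]
        exact Finset.mem_singleton_self _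
      obtain ⟨h2, h3⟩ := Finset.mem_sdiff.mp h1
      exact ⟨h3, h2⟩
    have heM : ∀ i ∈ nf, e i ∈ M := fun i hi => (F.mem i).2 _ (hLv i hi).1
    have hfM : ∀ i ∈ nf, f i ∈ M := fun i hi => (F.mem (i + 1)).2 _ (hEn i hi).2
    -- a curve which leaves at a neutral step and one which enters are never translates
    have hb : ∀ i ∈ nf, ∀ j ∈ nf, ¬ H.Eo (e i) (f j) := by
      rintro i hi j hj ⟨k, hk⟩
      have h1 : F.Lv ((i : ℤ) + k * F.n) (f j) := by
        rw [hk]
        exact (F.Lv_T i k (e i)).mpr (hLv i hi)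
      have h2 : f j ∈ H.Co M := by
        rw [hCo]
        exact hfM j hj
      obtain ⟨q, hq, h3⟩ := H.Co_frame hcoh F h2
      rcases h3 with h3 | h3
      · have h4 : q = (j : ℤ) := F.En_unique h3 (hEn j hj)
        rw [h4] at hq
        exact hq (hnf j hj).2
      · have h4 : q = (i : ℤ) + k * F.n := F.Lv_unique h3 h1
        rw [h4] at hq
        exact hq ((CLow_nt_T H F.toCSeq i k).mpr (hnf i hi).2)
    let S : List (C × C) := nf.toList.map fun i => (e i, f i)
    have hlen : S.length = H.nu F := by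
      show (nf.toList.map fun i => (e i, f i)).length = _
      rw [List.length_map, Finset.length_toList]
      rfl
    have hS := H.lowB S hM.1 (by
      intro p hp
      obtain ⟨i, hi, rfl⟩ := List.mem_map.mp hp
      have hi' : i ∈ nf := Finset.mem_toList.mp hi
      exact ⟨heM i hi', hfM i hi', hef i hi', hm1 i hi', hm2 i hi'⟩) (by
      rw [List.pairwise_map]
      refine List.Pairwise.imp_of_mem ?_ (Finset.nodup_toList nf)
      intro i j hi hj hij
      have hi' : i ∈ nf := Finset.mem_toList.mp hi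
      have hj' : j ∈ nf := Finset.mem_toList.mp hj
      refine ⟨?_, hb i hi' j hj', fun h => hb j hj' i hi' (H.Eo_symm h), ?_⟩
      · rintro ⟨k, hk⟩
        have h1 : F.Lv ((i : ℤ) + k * F.n) (e j) := by
          have h0 : e j = (H.tc ^ k) (e i) := hk
          rw [h0]
          exact (F.Lv_T i k (e i)).mpr (hLv i hi')
        exact hij (CLow_eq (hnf i hi').1 (hnf j hj').1 (F.Lv_unique h1 (hLv j hj')))
      · rintro ⟨k, hk⟩
        have h1 : F.En ((i : ℤ) + k * F.n) (f j) := by
          have h0 : f j = (H.tc ^ k) (f i) := hk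
          rw [h0]
          exact (F.En_T i k (f i)).mpr (hEn i hi')
        exact hij (CLow_eq (hnf i hi').1 (hnf j hj').1 (F.En_unique h1 (hEn j hj'))))
    rw [hlen, ← hset] at hS
    exact hS
  · exact (H.lowA hN hM (H.Co_inv hcoh) subset_rfl (H.Co_sub M) hCo).ac _

end HLat
end TorA
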