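import Pool.Agent.Lib.MP_05cdf2_gt.A.CMove
import Pool.Agent.Lib.MP_05cdf2_gt.A.CRank
import Pool.Agent.Lib.MP_05cdf2_gt.A.TRet

/-! MP_05cdf2_gt, stream A (abstract cyclic step), job CLowA: the lower link is contractible if some curve has neutral steps on both sides.

THEOREM. `2 ≤ N`, `M ∈ HN N`, `Z` invariant, `Co M ⊆ Z ⊆ M`, `Z ≠ M`. Then `P = {M' ∈ KK | M' ⊆ M, ¬ Z ⊆ M'}` is acyclic. Induction on `(vs 1 M).toNat` (`len_lt`, `len_bounds`).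
Choose `m ∈ M`, `m ∉ Z`. `F` a frame of `Lam M`; `m ∈ fr (F.x k)` for some `k` (`KK_frame`), so `m` enters at `a` and leaves at `b` (`exists_En_Lv`). Both steps are neutral (`mem_Co`, `m ∉ Co M`). `exists_moves` at `b`: `fr (x b) \ fr (x (b+1)) = {m}`, so we get `f` with
`¬ Eo m f`, `Mv M m f`, `Mv M f m`; at `a`: `fr (x (a+1)) \ fr (x a) = {m}` and `e` with `¬ Eo e m`, `Mv M e m`, `Mv M m e`. `e, f ∈ M`.
For a set `A` write `A + m = A ∪ {c | Eo m c}`, `A - e - f = {c ∈ A | ¬ Eo e c ∧ ¬ Eo f c}`. All members of `KK` are invariant (`KK_coh`), so `e ∈ M'` iff some translate is (`Eo_mem`).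
 `al M' = M' + m` if `e ∈ M' ∨ m ∈ M' ∨ f ∈ M'`, else `M'`.   `be M' = (M' + m) - e - f` if `e ∈ M' ∨ m ∈ M' ∨ f ∈ M'`, else `M'`.
(i) `al M' ∈ KK` for `M' ∈ KK`, `M' ⊆ M`: `KK_sub` (from `M`): full: a curve of `M'` is in some `y ∈ Lam M' ⊆ Lam (M' + m)`; a translate of `m`: if `m ∈ M'` nothing to do; if `e ∈ M'`: `y ∈ Lam M'` with `e ∈ fr y` (`KK_full`), `Mv M e m` gives `z' ∈ Lam M` whose curves are
 in `fr y` or translates of `m`, and `m ∈ fr z'` (`k = 0`), `z' ∈ Lam (M' + m)`; translate with `T k`. If `f ∈ M'` use `Mv M f m`. `¬ Z ⊆ M' + m`: otherwise `Z ⊆ M'` because `Z` contains no translate of `m`.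
(ii) `be M' ∈ KK`: nonempty (`m`); full: `c ∈ be M'` is in some `y ∈ Lam (al M')` (`KK_full` for `al M'`); apply `Mv M e m` and then `Mv M f m`: the result `z''` has all its curves in `(fr y minus translates of e, f) + m`, and still contains `c` (`c` is not a translate of `e` or `f`).
 (in the case of `m` a translate of `e` or `f`: excluded). `be M' ⊆ al M'`, so `¬ Z ⊆ be M'`. `be` and `al` are monotone on subsets.
(iii) `M1 = be M = M - e - f ∈ KK`, `M1 ∈ HN N` (`HN_sub`), `M1 ≠ M`. `P1 = {M' ∈ KK | M' ⊆ M1, ¬ Z ⊆ M'}` is acyclic: if `¬ Z ⊆ M1` it has the maximum `M1` (`AcI_of_max`); if `Z ⊆ M1`: induction hypothesis for `M1`, `Z`: `Co M1 ⊆ Co M ⊆ Z` (`Co_mono`, as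
 `Co M ⊆ Z ⊆ M1`), `Z ≠ M1` because `m ∈ M1`, `m ∉ Z`.
(iv) `Pa = {M' ∈ P | e ∈ M' ∨ f ∈ M' → m ∈ M'}`. `Ac_deform` for `P1 ⊆ Pa`, `f = be` (`be M' ⊆ M'` for `M' ∈ Pa`; `be M' ⊆ M1`), then `Ac_deform'` for `Pa ⊆ P`, `f = al` (`M' ⊆ al M'`). -/

set_option autoImplicit false

namespace TorA
open Finsupp Tor
namespace HLat
variable {X C : Type} [Lattice X] [DecidableEq C] (H : HLat X C)

/-- add the translates of `m` -/
private def CLowA_pl (m : C) (A : Set C) : Set C := {c | c ∈ A ∨ H.Eo m c}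

/-- remove the translates of `e` and `f` -/
private def CLowA_mi (e f : C) (A : Set C) : Set C := {c | c ∈ A ∧ ¬ H.Eo e c ∧ ¬ H.Eo f c}

private theorem CLowA_Eo_inv (e c : C) (k : ℤ) : H.Eo e ((H.tc ^ k) c) ↔ H.Eo e c := by
  constructor
  · intro h
    exact H.Eo_trans h (H.Eo_symm ⟨k, rfl⟩)
  · intro h
    exact H.Eo_trans h ⟨k, rfl⟩

private theorem CLowA_pl_inv (m : C) {A : Set C} (hA : H.Inv A) : H.Inv (H.CLowA_pl m A) := by
  intro c k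
  change ((H.tc ^ k) c ∈ A ∨ H.Eo m ((H.tc ^ k) c)) ↔ (c ∈ A ∨ H.Eo m c)
  rw [hA c k, H.CLowA_Eo_inv]

private theorem CLowA_mi_inv (e f : C) {A : Set C} (hA : H.Inv A) : H.Inv (H.CLowA_mi e f A) := by
  intro c k
  change ((H.tc ^ k) c ∈ A ∧ ¬ H.Eo e ((H.tc ^ k) c) ∧ ¬ H.Eo f ((H.tc ^ k) c)) ↔
    (c ∈ A ∧ ¬ H.Eo e c ∧ ¬ H.Eo f c)
  rw [hA c k, H.CLowA_Eo_inv, H.CLowA_Eo_inv]

private theorem CLowA_pl_mono (m : C) {A B : Set C} (h : A ⊆ B) : H.CLowA_pl m A ⊆ H.CLowA_pl m B := by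
  rintro c (hc | hc)
  · exact Or.inl (h hc)
  · exact Or.inr hc

private theorem CLowA_mi_mono (e f : C) {A B : Set C} (h : A ⊆ B) :
    H.CLowA_mi e f A ⊆ H.CLowA_mi e f B := by
  rintro c ⟨hc, h1⟩
  exact ⟨h hc, h1⟩

private theorem CLowA_le_pl (m : C) (A : Set C) : A ⊆ H.CLowA_pl m A := fun _ hc => Or.inl hc

private theorem CLowA_mi_le (e f : C) (A : Set C) : H.CLowA_mi e f A ⊆ A := fun _ hc => hc.1

private theorem CLowA_pl_sub {m : C} {A M : Set C} (hM : H.Inv M) (hm : m ∈ M) (h : A ⊆ M) :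
    H.CLowA_pl m A ⊆ M := by
  rintro c (hc | hc)
  · exact h hc
  · exact (H.Eo_mem hM hc).2 hm

private theorem CLowA_full_of {M M' : Set C} {m g : C} (h : M' ⊆ M) (hM' : M' ∈ H.KK)
    (hg : g ∈ M') (hmv : H.Mv M g m) : ∃ y ∈ H.Lam (H.CLowA_pl m M'), m ∈ H.fr y := by
  obtain ⟨y, hy, hgy⟩ := H.KK_full hM' g hg
  obtain ⟨z, hz, hzc⟩ := hmv y (H.Lam_mono h hy)
  refine ⟨z, ⟨hz.1, fun c hc => ?_⟩, ?_⟩
  · rcases (hzc c).1 hc with h1 | ⟨k, h1, -⟩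
    · exact Or.inl (hy.2 c h1.1)
    · exact Or.inr ⟨k, h1⟩
  · exact (hzc m).2 (Or.inr ⟨0, by simp, by simpa using hgy⟩)

private theorem CLowA_pl_KK {M M' : Set C} {m e f : C} (hM : M ∈ H.KK) (hm : m ∈ M) (h : M' ⊆ M)
    (hM' : M' ∈ H.KK) (he : H.Mv M e m) (hf : H.Mv M f m) (hc : e ∈ M' ∨ m ∈ M' ∨ f ∈ M') :
    H.CLowA_pl m M' ∈ H.KK := by
  have hi : H.Inv (H.CLowA_pl m M') := H.CLowA_pl_inv m (H.KK_coh hM').1
  have hy : ∃ y ∈ H.Lam (H.CLowA_pl m M'), m ∈ H.fr y := by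
    rcases hc with hc | hc | hc
    · exact H.CLowA_full_of h hM' hc he
    · obtain ⟨y, hy, hmy⟩ := H.KK_full hM' m hc
      exact ⟨y, H.Lam_mono (H.CLowA_le_pl m M') hy, hmy⟩
    · exact H.CLowA_full_of h hM' hc hf
  refine H.KK_sub hM (H.CLowA_pl_sub (H.KK_coh hM).1 hm h) hi ⟨m, Or.inr (H.Eo_refl m)⟩ ?_
  rintro c (h1 | ⟨k, rfl⟩)
  · obtain ⟨y, hy, hcy⟩ := H.KK_full hM' c h1
    exact ⟨y, H.Lam_mono (H.CLowA_le_pl m M') hy, hcy⟩
  · obtain ⟨y, hy, hmy⟩ := hy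
    exact ⟨H.T k y, H.Lam_T hi hy k, (H.fr_T k y m).2 hmy⟩

private theorem CLowA_mi_KK {M A : Set C} {m e f : C} (hM : M ∈ H.KK) (h : A ⊆ M)
    (hA : A ∈ H.KK) (hm : m ∈ A) (he : H.Mv M e m) (hf : H.Mv M f m) (hem : ¬ H.Eo e m)
    (hfm : ¬ H.Eo f m) : H.CLowA_mi e f A ∈ H.KK := by
  have hAi : H.Inv A := (H.KK_coh hA).1
  have hmm : ∀ k : ℤ, (H.tc ^ k) m ∈ H.CLowA_mi e f A := by
    intro k
    refine ⟨(hAi m k).2 hm, fun h1 => hem ?_, fun h1 => hfm ?_⟩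
    · exact (H.CLowA_Eo_inv e m k).1 h1
    · exact (H.CLowA_Eo_inv f m k).1 h1
  refine H.KK_sub hM ((H.CLowA_mi_le e f A).trans h) (H.CLowA_mi_inv e f hAi)
    ⟨m, by simpa using hmm 0⟩ ?_
  rintro c ⟨hcA, hce, hcf⟩
  obtain ⟨y, hy, hcy⟩ := H.KK_full hA c hcA
  obtain ⟨z, hz, hzc⟩ := he y (H.Lam_mono h hy)
  obtain ⟨u, hu, huc⟩ := hf z hz
  refine ⟨u, ⟨hu.1, fun d hd => ?_⟩, ?_⟩
  · rcases (huc d).1 hd with ⟨h1, h2⟩ | ⟨k, h1, -⟩
    · rcases (hzc d).1 h1 with ⟨h3, h4⟩ | ⟨k, h3, -⟩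
      · exact ⟨hy.2 d h3, h4, h2⟩
      · rw [h3]
        exact hmm k
    · rw [h1]
      exact hmm k
  · exact (huc c).2 (Or.inl ⟨(hzc c).2 (Or.inl ⟨hcy, hce⟩), hcf⟩)

open Classical in
private theorem CLowA_main (n : ℕ) {N : ℕ} (hN : 2 ≤ N) : ∀ (M : Set C), M ∈ H.HN N →
    (H.vs (fun _ _ => 1) M).toNat < n → ∀ Z : Set C, H.Inv Z → H.Co M ⊆ Z → Z ⊆ M → Z ≠ M →
    AcI (Po {M' : Set C | M' ∈ H.KK ∧ M' ⊆ M ∧ ¬ Z ⊆ M'}) := by
  induction n with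
  | zero =>
    intro M hM hn
    exact absurd hn (Nat.not_lt_zero _)
  | succ n ih =>
    intro M hM hn Z hZ h1 h2 h3
    have hcoh : H.Coh M := H.KK_coh hM.1
    obtain ⟨m, hmM, hmZ⟩ : ∃ m, m ∈ M ∧ m ∉ Z := by
      by_contra hcon
      push Not at hcon
      exact h3 (Set.Subset.antisymm h2 hcon)
    obtain ⟨x0, hx0⟩ := H.KK_ne hM.1
    obtain ⟨F, -⟩ := exists_frame (H.subL_Lam hcoh) hx0
    obtain ⟨j, hj⟩ := H.KK_frame hM.1 F hmM
    obtain ⟨a, b, -, -, ha, hb⟩ := F.toCSeq.exists_En_Lv (H.subL_Lam hcoh) hj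
    have hna : H.Nt (F.x a) (F.x (a + 1)) := by
      by_contra hcon
      exact hmZ (h1 (H.mem_Co F hcon (Or.inl ha)))
    have hnb : H.Nt (F.x b) (F.x (b + 1)) := by
      by_contra hcon
      exact hmZ (h1 (H.mem_Co F hcon (Or.inr hb)))
    obtain ⟨f, hfM, hfm, hf2⟩ : ∃ f, f ∈ M ∧ ¬ H.Eo f m ∧ H.Mv M f m := by
      obtain ⟨e', f', he', hf', h4, h5, h6⟩ := H.exists_moves hM hN F b hnb
      have h7 : m ∈ H.fr (F.x b) \ H.fr (F.x (b + 1)) := Finset.mem_sdiff.2 ⟨hb.1, hb.2⟩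
      rw [he', Finset.mem_singleton] at h7
      have h8 : f' ∈ H.fr (F.x (b + 1)) \ H.fr (F.x b) := by
        rw [hf']
        exact Finset.mem_singleton_self f'
      rw [← h7] at h4 h6
      exact ⟨f', (F.mem (b + 1)).2 f' (Finset.mem_sdiff.1 h8).1, fun h => h4 (H.Eo_symm h), h6⟩
    obtain ⟨e, heM, hem, he2⟩ : ∃ e, e ∈ M ∧ ¬ H.Eo e m ∧ H.Mv M e m := by
      obtain ⟨e', f', he', hf', h4, h5, h6⟩ := H.exists_moves hM hN F a hna
      have h7 : m ∈ H.fr (F.x (a + 1)) \ H.fr (F.x a) := Finset.mem_sdiff.2 ⟨ha.2, ha.1⟩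
      rw [hf', Finset.mem_singleton] at h7
      have h8 : e' ∈ H.fr (F.x a) \ H.fr (F.x (a + 1)) := by
        rw [he']
        exact Finset.mem_singleton_self e'
      rw [← h7] at h4 h5
      exact ⟨e', (F.mem a).2 e' (Finset.mem_sdiff.1 h8).1, h4, h5⟩
    have hMi : H.Inv M := hcoh.1
    set P : Set (Set C) := {M' : Set C | M' ∈ H.KK ∧ M' ⊆ M ∧ ¬ Z ⊆ M'} with hP
    set cond : Set C → Prop := fun A => e ∈ A ∨ m ∈ A ∨ f ∈ A with hcond
    set al : Set C → Set C := fun A => if cond A then H.CLowA_pl m A else A with hal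
    set be : Set C → Set C := fun A => if cond A then H.CLowA_mi e f (H.CLowA_pl m A) else A with hbe
    have hal1 : ∀ A, cond A → al A = H.CLowA_pl m A := fun A h => if_pos h
    have hal2 : ∀ A, ¬ cond A → al A = A := fun A h => if_neg h
    have hbe1 : ∀ A, cond A → be A = H.CLowA_mi e f (H.CLowA_pl m A) := fun A h => if_pos h
    have hbe2 : ∀ A, ¬ cond A → be A = A := fun A h => if_neg h
    have hcm : ∀ A B : Set C, A ⊆ B → cond A → cond B := by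
      rintro A B h (h4 | h4 | h4)
      · exact Or.inl (h h4)
      · exact Or.inr (Or.inl (h h4))
      · exact Or.inr (Or.inr (h h4))
    have hplKK : ∀ A, A ∈ H.KK → A ⊆ M → cond A → H.CLowA_pl m A ∈ H.KK := fun A hA h hc =>
      H.CLowA_pl_KK hM.1 hmM h hA he2 hf2 hc
    have hmiKK : ∀ A, A ∈ H.KK → A ⊆ M → cond A → H.CLowA_mi e f (H.CLowA_pl m A) ∈ H.KK :=
      fun A hA h hc => H.CLowA_mi_KK hM.1 (H.CLowA_pl_sub hMi hmM h) (hplKK A hA h hc)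
        (Or.inr (H.Eo_refl m)) he2 hf2 hem hfm
    have hplZ : ∀ A, ¬ Z ⊆ A → ¬ Z ⊆ H.CLowA_pl m A := by
      intro A h h4
      apply h
      intro z hz
      rcases h4 hz with h5 | h5
      · exact h5
      · exact absurd ((H.Eo_mem hZ h5).1 hz) hmZ
    have hmiZ : ∀ A, ¬ Z ⊆ A → ¬ Z ⊆ H.CLowA_mi e f (H.CLowA_pl m A) := fun A h h4 =>
      hplZ A h (h4.trans (H.CLowA_mi_le e f _))
    have halP : ∀ A ∈ P, al A ∈ P := by
      rintro A ⟨h4, h5, h6⟩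
      by_cases hc : cond A
      · rw [hal1 A hc]
        exact ⟨hplKK A h4 h5 hc, H.CLowA_pl_sub hMi hmM h5, hplZ A h6⟩
      · rw [hal2 A hc]
        exact ⟨h4, h5, h6⟩
    have hbeP : ∀ A ∈ P, be A ∈ P := by
      rintro A ⟨h4, h5, h6⟩
      by_cases hc : cond A
      · rw [hbe1 A hc]
        exact ⟨hmiKK A h4 h5 hc, (H.CLowA_mi_le e f _).trans (H.CLowA_pl_sub hMi hmM h5),
          hmiZ A h6⟩
      · rw [hbe2 A hc]
        exact ⟨h4, h5, h6⟩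
    have hnot : ∀ A B : Set C, H.Inv A → ¬ cond A → A ⊆ B →
        A ⊆ H.CLowA_mi e f (H.CLowA_pl m B) := by
      intro A B hA hc h c hcA
      refine ⟨Or.inl (h hcA), fun h4 => hc (Or.inl ((H.Eo_mem hA h4).1 hcA)), fun h4 =>
        hc (Or.inr (Or.inr ((H.Eo_mem hA h4).1 hcA)))⟩
    have halm : ∀ A ∈ P, ∀ B ∈ P, A ≤ B → al A ≤ al B := by
      intro A hA B hB h
      by_cases hc : cond A
      · rw [hal1 A hc, hal1 B (hcm A B h hc)]
        exact H.CLowA_pl_mono m h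
      · rw [hal2 A hc]
        by_cases hc2 : cond B
        · rw [hal1 B hc2]
          exact Set.Subset.trans h (H.CLowA_le_pl m B)
        · rw [hal2 B hc2]
          exact h
    have hbem : ∀ A ∈ P, ∀ B ∈ P, A ≤ B → be A ≤ be B := by
      intro A hA B hB h
      by_cases hc : cond A
      · rw [hbe1 A hc, hbe1 B (hcm A B h hc)]
        exact H.CLowA_mi_mono e f (H.CLowA_pl_mono m h)
      · rw [hbe2 A hc]
        by_cases hc2 : cond B
        · rw [hbe1 B hc2]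
          exact hnot A B (H.KK_coh hA.1).1 hc h
        · rw [hbe2 B hc2]
          exact h
    have hcM : cond M := Or.inr (Or.inl hmM)
    set M1 : Set C := H.CLowA_mi e f (H.CLowA_pl m M) with hM1
    have hM1K : M1 ∈ H.KK := hmiKK M hM.1 Set.Subset.rfl hcM
    have hM1M : M1 ⊆ M := (H.CLowA_mi_le e f _).trans (H.CLowA_pl_sub hMi hmM Set.Subset.rfl)
    have hM1N : M1 ∈ H.HN N := H.HN_sub hM hM1M hM1K
    have heM1 : e ∉ M1 := fun h => h.2.1 (H.Eo_refl e)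
    have hfM1 : f ∉ M1 := fun h => h.2.2 (H.Eo_refl f)
    have hmM1 : m ∈ M1 := ⟨Or.inl hmM, hem, hfm⟩
    have hM1ne : M1 ≠ M := fun h => heM1 (h ▸ heM)
    have hAc1 : AcI (Po {M' : Set C | M' ∈ H.KK ∧ M' ⊆ M1 ∧ ¬ Z ⊆ M'}) := by
      by_cases hZ1 : Z ⊆ M1
      · refine ih M1 hM1N ?_ Z hZ ?_ hZ1 (fun h => hmZ (h ▸ hmM1))
        · have h4 := H.len_lt hM.1 hM1K hM1M hM1ne
          have h5 := (H.len_bounds hM1K).1
          omega
        · exact (H.Co_mono hM hM1K hM1M (h1.trans hZ1)).trans h1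
      · exact AcI_of_max M1 ⟨hM1K, Set.Subset.rfl, hZ1⟩ (fun x hx => hx.2.1)
    set Pa : Set (Set C) := {M' : Set C | M' ∈ P ∧ (e ∈ M' ∨ f ∈ M' → m ∈ M')} with hPa
    have hAca : AcI (Po Pa) := by
      intro k
      refine Ac_deform (P' := {M' : Set C | M' ∈ H.KK ∧ M' ⊆ M1 ∧ ¬ Z ⊆ M'}) ?_ be ?_ ?_ ?_
        (hAc1 k)
      · rintro A ⟨h4, h5, h6⟩
        refine ⟨⟨h4, h5.trans hM1M, h6⟩, ?_⟩
        rintro (h7 | h7)
        · exact absurd (h5 h7) heM1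
        · exact absurd (h5 h7) hfM1
      · rintro A ⟨hA, -⟩
        refine ⟨(hbeP A hA).1, ?_, (hbeP A hA).2.2⟩
        by_cases hc : cond A
        · rw [hbe1 A hc]
          exact H.CLowA_mi_mono e f (H.CLowA_pl_mono m hA.2.1)
        · rw [hbe2 A hc]
          exact hnot A M (H.KK_coh hA.1).1 hc hA.2.1
      · intro A hA B hB h
        exact hbem A hA.1 B hB.1 h
      · rintro A ⟨hA, hA2⟩
        by_cases hc : cond A
        · have hmA : m ∈ A := by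
            rcases hc with h4 | h4 | h4
            · exact hA2 (Or.inl h4)
            · exact h4
            · exact hA2 (Or.inr h4)
          rw [hbe1 A hc]
          exact (H.CLowA_mi_le e f _).trans
            (H.CLowA_pl_sub (H.KK_coh hA.1).1 hmA Set.Subset.rfl)
        · rw [hbe2 A hc]
    intro k
    refine Ac_deform' (P' := Pa) ?_ al ?_ halm ?_ (hAca k)
    · rintro A ⟨hA, -⟩
      exact hA
    · intro A hA
      refine ⟨halP A hA, ?_⟩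
      by_cases hc : cond A
      · rw [hal1 A hc]
        intro _
        exact Or.inr (H.Eo_refl m)
      · rw [hal2 A hc]
        rintro (h4 | h4)
        · exact absurd (Or.inl h4) hc
        · exact absurd (Or.inr (Or.inr h4)) hc
    · intro A hA
      by_cases hc : cond A
      · rw [hal1 A hc]
        exact H.CLowA_le_pl m A
      · rw [hal2 A hc]

theorem lowA {N : ℕ} (hN : 2 ≤ N) {M : Set C} (hM : M ∈ H.HN N) {Z : Set C} (hZ : H.Inv Z)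
    (h1 : H.Co M ⊆ Z) (h2 : Z ⊆ M) (h3 : Z ≠ M) :
    AcI (Po {M' : Set C | M' ∈ H.KK ∧ M' ⊆ M ∧ ¬ Z ⊆ M'}) := by
  exact H.CLowA_main _ hN M hM (Nat.lt_succ_self _) Z hZ h1 h2 h3

end HLat
end TorA
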