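import Pool.Agent.Lib.MP_05cdf2_gt.A.CLink
import Pool.Agent.Lib.MP_05cdf2_gt.A.CBridge

/-! MP_05cdf2_gt, stream A: the abstract cyclic step, final statement. -/

set_option autoImplicit false

namespace TorA
open Finsupp Tor
namespace HLat
variable {X C : Type} [Lattice X] [DecidableEq C] (H : HLat X C)

/-- lists of curves (elements with one frontier curve) of level `0`, pairwise `x ≤ y ≤ t x`, are acyclic up to length `G` -/
theorem cyc_main :
    Ac (Fl (fun x y => x ≤ y ∧ y ≤ H.t x) {x | H.J x = 0 ∧ x ≤ H.t x ∧ (H.fr x).card = 1}) H.G :=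
  H.bridge (H.HN1_ac H.KK_acI)

end HLat
end TorA
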