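import Pool.Agent.Lib.MP_05cdf2_gt.A.CIdB
import Pool.Agent.Lib.MP_05cdf2_gt.A.CKK

/-! MP_05cdf2_gt, stream A (abstract cyclic step), job CMove: moving curves across a neutral step.

`exists_moves`: `M ∈ HN N`, `2 ≤ N`, `F` a frame of `Lam M`, the step `i` neutral: `fr (x i) \ fr (x (i+1)) = {e}`, and as both frontiers have `N` elements `fr (x (i+1)) \ fr (x i) = {f}`.
(1) `¬ Eo e f`: suppose `f = (tc ^ k) e`. `k = 0`: `e = f`, impossible (`e ∈ fr (x i)`, `f ∉ fr (x i)`). `k < 0`: `e ∈ fr (x i)` and `e = (tc ^ (-k)) f ∈ fr (T (-k) (x (i+1)))`, `x i ≤ x (i+1) ≤ T (-k) (x (i+1))`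
(`T_mono_left`), so `e ∈ fr (x (i+1))` by `conv`, impossible. `k ≥ 1`: field `conn` with `x = x i`, `y = x (i+1) ≤ t (x i)` (`CSeq.le_t`) gives `fr (x i) = {e}`, `N = 1`, contradiction.
(2) `Mv M e f`. Let `e` enter at `a` (`exists_En_Lv`; it leaves at `i`), `f` leave at `b` (it enters at `i`). `Lv j g` with `j = i + k n` iff `g = (tc ^ k) e` (`Lv_T`, and `Lv i g ↔ g = e`); `En j g` with `j = i + k n` iff
`g = (tc ^ k) f`. For `z ∈ Lam M` put `I' = I z ∪ {j | ∃ k, j = i + k n ∧ a + k n ∈ I z}`. Ideal: shift: `I_shift`. Edges: `En p g`, `Lv q g`, `q ∈ I'`: if `q ∈ I z` use `I_edge`; if `q = i + k n`, `a + k n ∈ I z`, then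
`g = (tc ^ k) e` enters at `a + k n` (`En_T`, `En_unique`), so `p ∈ I z`. Low: `I_low`. High: `a + k n ∈ I z` bounds `k` above (`I_high`), `n > 0`. So `z' ∈ Lam M` with `I z' = I'` (`exists_of_ideal`).
Frontier (use `RT1`; every curve of `fr z`, `fr z'`, and `e`, `f`, enters and leaves, `fr_sub`): let `g` enter at `p` and leave at `q`.
 If `g` is not a translate of `e` nor `f`: `p, q` are not of the form `i + k n` so `p ∈ I' ↔ p ∈ I z`, same for `q`. If `g = (tc ^ k) e`: `q = i + k n`, `p = a + k n`; `p` is not of the form `i + k' n` (otherwise `g` is a translate of `f`);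
 `p ∈ I'` implies `p ∈ I z`, so `q ∈ I'`; so `g ∉ fr z'`. If `g = (tc ^ k) f`: `p = i + k n`, `q` is not of the form `i + k' n`: `q ∈ I' ↔ q ∈ I z`; `p ∈ I' ↔ a + k n ∈ I z` (`I_edge` for `(tc^k) e`). If `g ∈ fr z'`: either
 `p ∈ I z`, then `g ∈ fr z`, or `p ∉ I z`, then `(tc ^ k) e ∈ fr z`. Conversely both imply `a + k n ∈ I z` and `q ∉ I z` (if `q ∈ I z` then `p = i + k n ∈ I z`).
(3) `Mv M f e`. Same with `I'' = I z \ {j | ∃ k, j = i + k n ∧ b + k n ∉ I z}`. Edges: `q ∈ I''`, then `p ∈ I z`; if `p = i + k n` with `b + k n ∉ I z` then `g = (tc ^ k) f` leaves at `b + k n = q ∉ I z`, contradiction. Shift: if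
 `j ∈ I''` and `j - n = i + k n` with `b + k n ∉ I z` then `b + (k+1) n ∉ I z` (`I_shift`) and `j = i + (k+1) n`, contradiction. Low: `I_low` (also for `b + k n`). High: `I_high`.
`Mv_sub`: the new curves are translates of `f ∈ M'`. -/

set_option autoImplicit false

namespace TorA
open Finsupp Tor
namespace HLat
variable {X C : Type} [Lattice X] [DecidableEq C] (H : HLat X C)

/-- the curve which leaves at the translates of the step `i` -/
theorem CMove_Lv {M : Set C} (F : Frame H (H.Lam M)) {i : ℤ} {e : C}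
    (he : H.fr (F.x i) \ H.fr (F.x (i + 1)) = {e}) (k : ℤ) (g : C) :
    F.Lv (i + k * F.n) g ↔ g = (H.tc ^ k) e := by
  obtain ⟨g', rfl⟩ : ∃ g', g = (H.tc ^ k) g' := ⟨(H.tc ^ (-k)) g, by
    rw [← H.tc_add, add_neg_cancel, zpow_zero]; rfl⟩
  rw [F.toCSeq.Lv_T, (H.tc ^ k).injective.eq_iff]
  have h1 : F.Lv i g' ↔ g' ∈ H.fr (F.x i) \ H.fr (F.x (i + 1)) := by
    rw [Finset.mem_sdiff]
    rfl
  rw [h1, he, Finset.mem_singleton]

/-- the curve which enters at the translates of the step `i` -/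
theorem CMove_En {M : Set C} (F : Frame H (H.Lam M)) {i : ℤ} {f : C}
    (hf : H.fr (F.x (i + 1)) \ H.fr (F.x i) = {f}) (k : ℤ) (g : C) :
    F.En (i + k * F.n) g ↔ g = (H.tc ^ k) f := by
  obtain ⟨g', rfl⟩ : ∃ g', g = (H.tc ^ k) g' := ⟨(H.tc ^ (-k)) g, by
    rw [← H.tc_add, add_neg_cancel, zpow_zero]; rfl⟩
  rw [F.toCSeq.En_T, (H.tc ^ k).injective.eq_iff]
  have h1 : F.En i g' ↔ g' ∈ H.fr (F.x (i + 1)) \ H.fr (F.x i) := by
    rw [Finset.mem_sdiff]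
    exact and_comm
  rw [h1, hf, Finset.mem_singleton]

theorem CMove_not_Eo {N : ℕ} {M : Set C} (hM : M ∈ H.HN N) (hN : 2 ≤ N) (F : Frame H (H.Lam M))
    {i : ℤ} {e f : C} (he : H.fr (F.x i) \ H.fr (F.x (i + 1)) = {e})
    (hf : H.fr (F.x (i + 1)) \ H.fr (F.x i) = {f}) : ¬ H.Eo e f := by
  have he1 : e ∈ H.fr (F.x i) ∧ e ∉ H.fr (F.x (i + 1)) := by
    rw [← Finset.mem_sdiff, he, Finset.mem_singleton]
  have hf1 : f ∈ H.fr (F.x (i + 1)) ∧ f ∉ H.fr (F.x i) := by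
    rw [← Finset.mem_sdiff, hf, Finset.mem_singleton]
  rintro ⟨k, hk⟩
  rcases lt_trichotomy k 0 with h0 | h0 | h0
  · -- `e` is a later translate of `f`
    have h1 : (H.tc ^ (-k)) f ∈ H.fr (H.T (-k) (F.x (i + 1))) := (H.fr_T (-k) _ f).2 hf1.1
    have h2 : (H.tc ^ (-k)) f = e := by
      rw [hk, ← H.tc_add, neg_add_cancel, zpow_zero]
      rfl
    rw [h2] at h1
    have h3 : F.x (i + 1) ≤ H.T (-k) (F.x (i + 1)) := by
      have h4 := H.T_mono_left (F.mem (i + 1)).1 (show (0 : ℤ) ≤ -k by omega)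
      rwa [H.T_zero] at h4
    exact he1.2 (H.conv _ _ _ e (F.le i) h3 he1.1 h1)
  · rw [h0, zpow_zero] at hk
    have h1 : f = e := hk
    rw [h1] at hf1
    exact hf1.2 he1.1
  · obtain ⟨m, rfl⟩ := Int.eq_ofNat_of_zero_le h0.le
    have h1 : H.fr (F.x i) = {e} := by
      have hk' : (H.tc ^ m) e = f := by
        rw [hk]
        rfl
      refine H.conn (F.x i) (F.x (i + 1)) e m (F.le i) (F.toCSeq.le_t i) (by omega) he1.1
        (by rw [hk']; exact hf1.2) ?_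
      intro c
      rw [hk']
      constructor
      · intro hc
        by_cases hc' : c ∈ H.fr (F.x i)
        · refine Or.inl ⟨hc', ?_⟩
          rintro rfl
          exact he1.2 hc
        · right
          rw [← Finset.mem_singleton, ← hf, Finset.mem_sdiff]
          exact ⟨hc, hc'⟩
      · rintro (⟨hc, hce⟩ | rfl)
        · by_contra hcon
          apply hce
          rw [← Finset.mem_singleton, ← he, Finset.mem_sdiff]
          exact ⟨hc, hcon⟩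
        · exact hf1.1
    have h2 := hM.2 _ (F.mem i)
    rw [w, h1, Finset.card_singleton] at h2
    omega

theorem CMove_one {M : Set C} (hM : H.Coh M) (F : Frame H (H.Lam M))
    {i : ℤ} {e f : C} (he : H.fr (F.x i) \ H.fr (F.x (i + 1)) = {e})
    (hf : H.fr (F.x (i + 1)) \ H.fr (F.x i) = {f}) (hef : ¬ H.Eo e f) {a b : ℤ}
    (ha : F.En a e) (hai : a < i) (hb : F.Lv b f) : H.Mv M e f := by
  intro z hz
  have hL := H.subL_Lam hM
  have hno : ∀ k k' : ℤ, (H.tc ^ k) e ≠ (H.tc ^ k') f := by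
    intro k k' h
    apply hef
    refine ⟨-k' + k, ?_⟩
    rw [H.tc_add, h, ← H.tc_add, neg_add_cancel, zpow_zero]
    rfl
  have haT : ∀ k : ℤ, F.En (a + k * F.n) ((H.tc ^ k) e) := fun k => (F.toCSeq.En_T a k e).2 ha
  have hbT : ∀ k : ℤ, F.Lv (b + k * F.n) ((H.tc ^ k) f) := fun k => (F.toCSeq.Lv_T b k f).2 hb
  have heT : ∀ k : ℤ, F.Lv (i + k * F.n) ((H.tc ^ k) e) := fun k => (H.CMove_Lv F he k _).2 rfl
  have hfT : ∀ k : ℤ, F.En (i + k * F.n) ((H.tc ^ k) f) := fun k => (H.CMove_En F hf k _).2 rfl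
  obtain ⟨I, hI⟩ : ∃ I : Set ℤ, ∀ j, j ∈ I ↔
      j ∈ F.I z ∨ ∃ k : ℤ, j = i + k * F.n ∧ a + k * F.n ∈ F.I z :=
    ⟨{j | j ∈ F.I z ∨ ∃ k : ℤ, j = i + k * F.n ∧ a + k * F.n ∈ F.I z}, fun _ => Iff.rfl⟩
  have hex : ∃ z' ∈ H.Lam M, F.I z' = I := by
    refine F.exists_of_ideal hM I ?_ ?_ ?_ ?_
    · intro j hj
      rw [hI] at hj ⊢
      rcases hj with hj | ⟨k, rfl, hk⟩
      · exact Or.inl (F.I_shift hL hz hj)
      · refine Or.inr ⟨k - 1, by ring, ?_⟩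
        have h1 := F.I_shift hL hz hk
        have h2 : a + (k - 1) * (F.n : ℤ) = a + k * F.n - F.n := by ring
        rwa [h2]
    · intro g p q hp hq hqI
      rw [hI] at hqI ⊢
      rcases hqI with hqI | ⟨k, rfl, hk⟩
      · exact Or.inl (F.I_edge hL hz hp hq hqI)
      · left
        rw [H.CMove_Lv F he] at hq
        rw [hq] at hp
        rw [F.toCSeq.En_unique hp (haT k)]
        exact hk
    · obtain ⟨m, hm⟩ := F.I_low hL hz
      exact ⟨m, fun j hj => (hI j).2 (Or.inl (hm j hj))⟩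
    · obtain ⟨m, hm⟩ := F.I_high hL hz
      refine ⟨m + (i - a), fun j hj hjI => ?_⟩
      rcases (hI j).1 hjI with h1 | ⟨k, rfl, hk⟩
      · exact hm j (by omega) h1
      · exact hm _ (by omega) hk
  obtain ⟨z', hz', hzI⟩ := hex
  refine ⟨z', hz', fun c => ⟨fun hc => ?_, ?_⟩⟩
  · obtain ⟨j, hj⟩ := F.fr_sub hL hz' hc
    obtain ⟨p, q, -, -, hp, hq⟩ := F.toCSeq.exists_En_Lv hL hj
    rw [F.RT1 hL hz' hp hq, hzI, hI, hI] at hc
    obtain ⟨hpI, hqI⟩ := hc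
    by_cases hE : H.Eo e c
    · exfalso
      obtain ⟨k, rfl⟩ := hE
      rw [F.toCSeq.Lv_unique hq (heT k)] at hqI
      rcases hpI with hpI | ⟨k', rfl, -⟩
      · rw [F.toCSeq.En_unique hp (haT k)] at hpI
        exact hqI (Or.inr ⟨k, rfl, hpI⟩)
      · rw [H.CMove_En F hf] at hp
        exact hno _ _ hp
    · have hqz : q ∉ F.I z := fun h => hqI (Or.inl h)
      by_cases hpz : p ∈ F.I z
      · exact Or.inl ⟨(F.RT1 hL hz hp hq).2 ⟨hpz, hqz⟩, hE⟩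
      · obtain ⟨k, rfl, hk⟩ := hpI.resolve_left hpz
        refine Or.inr ⟨k, (H.CMove_En F hf k c).1 hp, ?_⟩
        exact (F.RT1 hL hz (haT k) (heT k)).2 ⟨hk, hpz⟩
  · rintro (⟨hc, hE⟩ | ⟨k, rfl, hk⟩)
    · obtain ⟨j, hj⟩ := F.fr_sub hL hz hc
      obtain ⟨p, q, -, -, hp, hq⟩ := F.toCSeq.exists_En_Lv hL hj
      rw [F.RT1 hL hz hp hq] at hc
      rw [F.RT1 hL hz' hp hq, hzI, hI, hI]
      refine ⟨Or.inl hc.1, ?_⟩
      rintro (h1 | ⟨k, rfl, -⟩)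
      · exact hc.2 h1
      · exact hE ⟨k, (H.CMove_Lv F he k c).1 hq⟩
    · rw [F.RT1 hL hz (haT k) (heT k)] at hk
      rw [F.RT1 hL hz' (hfT k) (hbT k), hzI, hI, hI]
      refine ⟨Or.inr ⟨k, rfl, hk.1⟩, ?_⟩
      rintro (h1 | ⟨k', h1, -⟩)
      · exact hk.2 (F.I_edge hL hz (hfT k) (hbT k) h1)
      · have h2 := hbT k
        rw [h1, H.CMove_Lv F he] at h2
        exact hno _ _ h2.symm

theorem CMove_two {M : Set C} (hM : H.Coh M) (F : Frame H (H.Lam M))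
    {i : ℤ} {e f : C} (he : H.fr (F.x i) \ H.fr (F.x (i + 1)) = {e})
    (hf : H.fr (F.x (i + 1)) \ H.fr (F.x i) = {f}) (hef : ¬ H.Eo e f) {a b : ℤ}
    (ha : F.En a e) (hib : i < b) (hb : F.Lv b f) : H.Mv M f e := by
  intro z hz
  have hL := H.subL_Lam hM
  have hno : ∀ k k' : ℤ, (H.tc ^ k) e ≠ (H.tc ^ k') f := by
    intro k k' h
    apply hef
    refine ⟨-k' + k, ?_⟩
    rw [H.tc_add, h, ← H.tc_add, neg_add_cancel, zpow_zero]
    rfl
  have haT : ∀ k : ℤ, F.En (a + k * F.n) ((H.tc ^ k) e) := fun k => (F.toCSeq.En_T a k e).2 ha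
  have hbT : ∀ k : ℤ, F.Lv (b + k * F.n) ((H.tc ^ k) f) := fun k => (F.toCSeq.Lv_T b k f).2 hb
  have heT : ∀ k : ℤ, F.Lv (i + k * F.n) ((H.tc ^ k) e) := fun k => (H.CMove_Lv F he k _).2 rfl
  have hfT : ∀ k : ℤ, F.En (i + k * F.n) ((H.tc ^ k) f) := fun k => (H.CMove_En F hf k _).2 rfl
  obtain ⟨I, hI⟩ : ∃ I : Set ℤ, ∀ j, j ∈ I ↔
      j ∈ F.I z ∧ ∀ k : ℤ, j = i + k * F.n → b + k * F.n ∈ F.I z :=
    ⟨{j | j ∈ F.I z ∧ ∀ k : ℤ, j = i + k * F.n → b + k * F.n ∈ F.I z}, fun _ => Iff.rfl⟩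
  have hex : ∃ z' ∈ H.Lam M, F.I z' = I := by
    refine F.exists_of_ideal hM I ?_ ?_ ?_ ?_
    · intro j hj
      rw [hI] at hj ⊢
      refine ⟨F.I_shift hL hz hj.1, fun k hk => ?_⟩
      have h1 := hj.2 (k + 1) (by linarith)
      have h2 := F.I_shift hL hz h1
      have h3 : b + (k + 1) * (F.n : ℤ) - F.n = b + k * F.n := by ring
      rwa [h3] at h2
    · intro g p q hp hq hqI
      rw [hI] at hqI ⊢
      refine ⟨F.I_edge hL hz hp hq hqI.1, fun k hk => ?_⟩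
      rw [hk, H.CMove_En F hf] at hp
      rw [hp] at hq
      rw [← F.toCSeq.Lv_unique hq (hbT k)]
      exact hqI.1
    · obtain ⟨m, hm⟩ := F.I_low hL hz
      refine ⟨m - (b - i), fun j hj => (hI j).2 ⟨hm j (by omega), fun k hk => ?_⟩⟩
      exact hm _ (by omega)
    · obtain ⟨m, hm⟩ := F.I_high hL hz
      exact ⟨m, fun j hj hjI => hm j hj ((hI j).1 hjI).1⟩
  obtain ⟨z', hz', hzI⟩ := hex
  refine ⟨z', hz', fun c => ⟨fun hc => ?_, ?_⟩⟩
  · obtain ⟨j, hj⟩ := F.fr_sub hL hz' hc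
    obtain ⟨p, q, -, -, hp, hq⟩ := F.toCSeq.exists_En_Lv hL hj
    rw [F.RT1 hL hz' hp hq, hzI, hI, hI] at hc
    obtain ⟨hpI, hqI⟩ := hc
    by_cases hE : H.Eo f c
    · exfalso
      obtain ⟨k, rfl⟩ := hE
      have h1 := hpI.2 k (F.toCSeq.En_unique hp (hfT k))
      rw [← F.toCSeq.Lv_unique hq (hbT k)] at h1
      refine hqI ⟨h1, fun k' hk' => ?_⟩
      exfalso
      rw [hk', H.CMove_Lv F he] at hq
      exact hno _ _ hq.symm
    · by_cases hqz : q ∈ F.I z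
      · right
        have h1 : ∃ k : ℤ, q = i + k * F.n ∧ b + k * F.n ∉ F.I z := by
          by_contra hcon
          push Not at hcon
          exact hqI ⟨hqz, hcon⟩
        obtain ⟨k, rfl, hk⟩ := h1
        refine ⟨k, (H.CMove_Lv F he k c).1 hq, ?_⟩
        exact (F.RT1 hL hz (hfT k) (hbT k)).2 ⟨hqz, hk⟩
      · exact Or.inl ⟨(F.RT1 hL hz hp hq).2 ⟨hpI.1, hqz⟩, hE⟩
  · rintro (⟨hc, hE⟩ | ⟨k, rfl, hk⟩)
    · obtain ⟨j, hj⟩ := F.fr_sub hL hz hc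
      obtain ⟨p, q, -, -, hp, hq⟩ := F.toCSeq.exists_En_Lv hL hj
      rw [F.RT1 hL hz hp hq] at hc
      rw [F.RT1 hL hz' hp hq, hzI, hI, hI]
      refine ⟨⟨hc.1, fun k hk => ?_⟩, fun h1 => hc.2 h1.1⟩
      exfalso
      rw [hk] at hp
      exact hE ⟨k, (H.CMove_En F hf k c).1 hp⟩
    · rw [F.RT1 hL hz (hfT k) (hbT k)] at hk
      rw [F.RT1 hL hz' (haT k) (heT k), hzI, hI, hI]
      refine ⟨⟨F.I_edge hL hz (haT k) (heT k) hk.1, fun k' hk' => ?_⟩, fun h1 => ?_⟩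
      · exfalso
        have h2 := haT k
        rw [hk', H.CMove_En F hf] at h2
        exact hno _ _ h2
      · exact hk.2 (h1.2 k rfl)

theorem exists_moves {N : ℕ} {M : Set C} (hM : M ∈ H.HN N) (hN : 2 ≤ N) (F : Frame H (H.Lam M))
    (i : ℤ) (hi : H.Nt (F.x i) (F.x (i + 1))) :
    ∃ e f, H.fr (F.x i) \ H.fr (F.x (i + 1)) = {e} ∧ H.fr (F.x (i + 1)) \ H.fr (F.x i) = {f} ∧
      ¬ H.Eo e f ∧ H.Mv M e f ∧ H.Mv M f e := by
  have hcoh : H.Coh M := H.KK_coh hM.1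
  have hL := H.subL_Lam hcoh
  obtain ⟨e, he⟩ := Finset.card_eq_one.1 hi
  have hcard : (H.fr (F.x (i + 1)) \ H.fr (F.x i)).card = 1 := by
    have h1 : (H.fr (F.x i)).card = (H.fr (F.x (i + 1))).card := by
      have h2 := hM.2 _ (F.mem i)
      have h3 := hM.2 _ (F.mem (i + 1))
      rw [w] at h2 h3
      rw [h2, h3]
    rw [← Finset.card_sdiff_comm h1]
    exact hi
  obtain ⟨f, hf⟩ := Finset.card_eq_one.1 hcard
  have hef := H.CMove_not_Eo hM hN F he hf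
  have he1 : e ∈ H.fr (F.x i) ∧ e ∉ H.fr (F.x (i + 1)) := by
    rw [← Finset.mem_sdiff, he, Finset.mem_singleton]
  have hf1 : f ∈ H.fr (F.x (i + 1)) ∧ f ∉ H.fr (F.x i) := by
    rw [← Finset.mem_sdiff, hf, Finset.mem_singleton]
  obtain ⟨a, -, hai, -, ha, -⟩ := F.toCSeq.exists_En_Lv hL he1.1
  obtain ⟨-, b, -, hib, -, hb⟩ := F.toCSeq.exists_En_Lv hL hf1.1
  exact ⟨e, f, he, hf, hef, H.CMove_one hcoh F he hf hef ha hai hb,
    H.CMove_two hcoh F he hf hef ha (by omega) hb⟩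

theorem Mv_sub {M M' : Set C} (h : M' ⊆ M) (hi : H.Inv M') {e f : C} (hf : f ∈ M')
    (hm : H.Mv M e f) : H.Mv M' e f := by
  intro z hz
  obtain ⟨z', hz', hc⟩ := hm z (H.Lam_mono h hz)
  refine ⟨z', ⟨hz'.1, fun c hcz => ?_⟩, hc⟩
  rcases (hc c).1 hcz with h1 | ⟨k, rfl, -⟩
  · exact hz.2 c h1.1
  · exact (hi f k).2 hf

end HLat
end TorA
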