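import Pool.Agent.Lib.MP_05cdf2_gt.A.CFrame

/-! MP_05cdf2_gt, stream A (abstract cyclic step), job CPth: chains of covers, Jordan-Hoelder.

`Pth L g x y s`: there is a chain of covers in `L` from `x` to `y`, the sum of `g` over its steps is `s` (file CDefB).
`Pth.exists`: `SubL.chain`, or induction on `(rho y - rho x).toNat` with `SubL.exists_cov`.
`Pth.unique`: strong induction on `(rho y - rho x).toNat`. nil/cons is impossible (`x < y1 ≤ x`). cons/cons with first covers `y1`, `y2`: if `y1 = y2` induction. If not: `z = y1 ⊔ y2 ≤ y`; `SubL.cov_diamond`: `y1 ⊓ y2 = x`, `Cov L y1 z`,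
`Cov L y2 z`; `g x y1 = g (y1 ⊓ y2) y1 = g y2 z` and `g x y2 = g y1 z` (`PInv`, `inf_comm`, `sup_comm`). Take `Pth L g z y r`. By induction (from `y1`, from `y2`) `s1 = g y1 z + r`, `s2 = g y2 z + r`; so `g x y1 + s1 = g x y2 + s2`.
`vs_eq`: independence of `x`: for `x ≤ u` in `L = Lam M`, `Pth x u a`, so `Pth (t x) (t u) a` (`Pth.shift`), `Pth u (t u) b`, `Pth x (t x) s`: then `Pth x (t u) (a + b)` and `Pth x (t u) (s + a)`, so `s = b`. For arbitrary `x`, `y` use `u = x ⊔ y`.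
`pinv_gv`: `Nt (a ⊓ b) a ↔ Nt b (a ⊔ b)` because `ind c (a ⊔ b) - ind c b = ind c a - ind c (a ⊓ b)` (`SubL.ind_md`, `diff_eq_of_ind`), `rho_md`; shift: `diff_T` with `k = 1` (`T_one`), `rho_t`.
`Frame.pth`: induction on `m` with `Pth.snoc` (= `trans` with a one step path). -/

set_option autoImplicit false

namespace TorA
open Finsupp Tor
variable {X C : Type} [Lattice X] [DecidableEq C] {H : HLat X C} {L : Set X}

theorem Pth.mem_le {g : X → X → ℤ} {x y : X} {s : ℤ} (h : Pth L g x y s) : x ∈ L ∧ y ∈ L ∧ x ≤ y := by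
  induction h with
  | nil x hx => exact ⟨hx, hx, le_rfl⟩
  | cons x y z s h _ ih => exact ⟨h.1, ih.2.1, h.2.2.1.le.trans ih.2.2⟩

theorem Pth.trans {g : X → X → ℤ} {x y z : X} {s r : ℤ} (h : Pth L g x y s) (h' : Pth L g y z r) :
    Pth L g x z (s + r) := by
  induction h with
  | nil x hx => rw [zero_add]; exact h'
  | cons x y z' s h _ ih =>
    rw [add_assoc]
    exact Pth.cons x y z (s + r) h (ih h')

theorem Pth.single {g : X → X → ℤ} {x y : X} (h : Cov L x y) : Pth L g x y (g x y) := by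
  have h1 := Pth.cons (g := g) x y y 0 h (Pth.nil y h.2.1)
  rwa [add_zero] at h1

/-- gluing paths along a sequence -/
theorem Pth.glue {g : X → X → ℤ} {x : ℤ → X} {s : ℕ → ℤ} (h0 : x 0 ∈ L) (m : ℕ)
    (h : ∀ i : ℕ, i < m → Pth L g (x i) (x (i + 1)) (s i)) :
    Pth L g (x 0) (x m) (∑ i ∈ Finset.range m, s i) := by
  induction m with
  | zero =>
    rw [Finset.range_zero, Finset.sum_empty, Nat.cast_zero]
    exact Pth.nil _ h0
  | succ m ih =>
    rw [Finset.sum_range_succ, Nat.cast_succ]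
    exact (ih fun i hi => h i (Nat.lt_succ_of_lt hi)).trans (h m (Nat.lt_succ_self m))

theorem HLat.SubL.pth_exists (hL : H.SubL L) (g : X → X → ℤ) {x y : X} (hx : x ∈ L) (hy : y ∈ L)
    (h : x ≤ y) : ∃ s, Pth L g x y s := by
  obtain ⟨n, f, hf0, hfn, hcov⟩ := hL.chain hx hy h
  have key : ∀ m ≤ n, ∃ s, Pth L g (f 0) (f m) s := by
    intro m
    induction m with
    | zero =>
      intro _
      exact ⟨0, Pth.nil _ (by rw [hf0]; exact hx)⟩
    | succ m ih =>
      intro hm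
      obtain ⟨s, hs⟩ := ih (by omega)
      exact ⟨_, hs.trans (Pth.single (hcov m (by omega)))⟩
  obtain ⟨s, hs⟩ := key n le_rfl
  rw [hf0, hfn] at hs
  exact ⟨s, hs⟩

private theorem CPth_rho_le {x y : X} (h : x ≤ y) : H.rho x ≤ H.rho y := by
  rcases h.lt_or_eq with h | rfl
  · exact (H.rho_lt x y h).le
  · exact le_rfl

theorem HLat.SubL.pth_unique (hL : H.SubL L) {g : X → X → ℤ} (hg : H.PInv L g) {x y : X} {s r : ℤ}
    (h : Pth L g x y s) (h' : Pth L g x y r) : s = r := by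
  obtain ⟨N, hN⟩ : ∃ N : ℕ, (H.rho y - H.rho x).toNat = N := ⟨_, rfl⟩
  induction N using Nat.strong_induction_on generalizing x y s r with
  | _ N IH =>
    cases h with
    | nil _ hx =>
      cases h' with
      | nil _ _ => rfl
      | cons _ y1 _ s1 c1 p1 => exact absurd (lt_of_lt_of_le c1.2.2.1 p1.mem_le.2.2) (lt_irrefl _)
    | cons _ y1 _ s1 c1 p1 =>
      cases h' with
      | nil _ _ => exact absurd (lt_of_lt_of_le c1.2.2.1 p1.mem_le.2.2) (lt_irrefl _)
      | cons _ y2 _ s2 c2 p2 =>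
        have r1 : H.rho x < H.rho y1 := H.rho_lt x y1 c1.2.2.1
        have r2 : H.rho x < H.rho y2 := H.rho_lt x y2 c2.2.2.1
        have q1 : H.rho y1 ≤ H.rho y := CPth_rho_le p1.mem_le.2.2
        have q2 : H.rho y2 ≤ H.rho y := CPth_rho_le p2.mem_le.2.2
        have m1 : (H.rho y - H.rho y1).toNat < N := by omega
        have m2 : (H.rho y - H.rho y2).toNat < N := by omega
        by_cases hne : y1 = y2
        · subst hne
          rw [IH _ m1 p1 p2 rfl]
        · obtain ⟨e1, d1⟩ := hL.cov_diamond c1 c2 hne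
          obtain ⟨e2, d2⟩ := hL.cov_diamond c2 c1 (Ne.symm hne)
          have hz : y1 ⊔ y2 ≤ y := sup_le p1.mem_le.2.2 p2.mem_le.2.2
          obtain ⟨r0, pr⟩ := hL.pth_exists g d1.2.1 p1.mem_le.2.1 hz
          have i1 := IH _ m1 p1 (Pth.cons _ _ _ _ d1 pr) rfl
          rw [sup_comm] at d2
          have i2 := IH _ m2 p2 (Pth.cons _ _ _ _ d2 pr) rfl
          have g1 := hg.1 y1 c1.2.1 y2 c2.2.1
          have g2 := hg.1 y2 c2.2.1 y1 c1.2.1
          rw [e1] at g1
          rw [e2, sup_comm] at g2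
          rw [i1, i2, g1, g2]
          ring

theorem HLat.SubL.pth_shift (hL : H.SubL L) {g : X → X → ℤ} (hg : H.PInv L g) {x y : X} {s : ℤ}
    (h : Pth L g x y s) : Pth L g (H.t x) (H.t y) s := by
  induction h with
  | nil x hx =>
    have h1 := hL.shift x hx 1
    rw [H.T_one] at h1
    exact Pth.nil _ h1
  | cons x y z s h _ ih =>
    have h1 := hL.cov_T h 1
    rw [H.T_one, H.T_one] at h1
    rw [← hg.2 x y]
    exact Pth.cons _ _ _ _ h1 ih

private theorem CPth_gv_eq {a b x y : X} (K : ℤ) (h : H.fr a \ H.fr b = H.fr x \ H.fr y)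
    (hr : H.rho b - H.rho a = H.rho y - H.rho x) : H.gv K a b = H.gv K x y := by
  unfold HLat.gv
  by_cases hn : H.Nt a b
  · have hn' : H.Nt x y := by
      unfold HLat.Nt at hn ⊢
      rw [← h]
      exact hn
    rw [if_pos hn, if_pos hn', hr]
  · have hn' : ¬ H.Nt x y := by
      unfold HLat.Nt at hn ⊢
      rw [← h]
      exact hn
    rw [if_neg hn, if_neg hn', h]

theorem HLat.pinv_gv {M : Set C} (hM : H.Coh M) (K : ℤ) : H.PInv (H.Lam M) (H.gv K) := by
  have hL := H.subL_Lam hM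
  refine ⟨fun a ha b hb => ?_, fun a b => ?_⟩
  · refine (CPth_gv_eq K ?_ ?_).symm
    · refine (diff_eq_of_ind (H := H) fun c => ?_).1
      have h1 := hL.ind_md c a ha b hb
      linarith
    · have h1 := hL.rho_md a ha b hb
      linarith
  · unfold HLat.gv
    have h1 : (H.fr (H.t a) \ H.fr (H.t b)).card = (H.fr a \ H.fr b).card := by
      have h2 := H.diff_T 1 a b
      rwa [H.T_one, H.T_one] at h2
    by_cases hn : H.Nt a b
    · have hn' : H.Nt (H.t a) (H.t b) := by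
        unfold HLat.Nt at hn ⊢
        rw [h1]
        exact hn
      rw [if_pos hn, if_pos hn', H.rho_t, H.rho_t]
      ring
    · have hn' : ¬ H.Nt (H.t a) (H.t b) := by
        unfold HLat.Nt at hn ⊢
        rw [h1]
        exact hn
      rw [if_neg hn, if_neg hn', h1]

theorem HLat.pinv_one (L : Set X) : H.PInv L (fun _ _ => 1) := by
  exact ⟨fun _ _ _ _ => rfl, fun _ _ => rfl⟩

private theorem CPth_indep {M : Set C} (hM : H.Coh M) {g : X → X → ℤ} (hg : H.PInv (H.Lam M) g)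
    {x y : X} {s r : ℤ} (h : Pth (H.Lam M) g x (H.t x) s) (h' : Pth (H.Lam M) g y (H.t y) r) :
    s = r := by
  have hL := H.subL_Lam hM
  have hu : x ⊔ y ∈ H.Lam M := hL.sup x h.mem_le.1 y h'.mem_le.1
  obtain ⟨b, hb⟩ := hL.pth_exists g hu (by
    have h1 := hL.shift (x ⊔ y) hu 1
    rwa [H.T_one] at h1) hu.1
  obtain ⟨a, ha⟩ := hL.pth_exists g h.mem_le.1 hu le_sup_left
  obtain ⟨a', ha'⟩ := hL.pth_exists g h'.mem_le.1 hu le_sup_right
  have e1 := hL.pth_unique hg (ha.trans hb) (h.trans (hL.pth_shift hg ha))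
  have e2 := hL.pth_unique hg (ha'.trans hb) (h'.trans (hL.pth_shift hg ha'))
  linarith

theorem HLat.vs_eq {M : Set C} (hM : H.Coh M) {g : X → X → ℤ} (hg : H.PInv (H.Lam M) g) {x : X}
    {s : ℤ} (h : Pth (H.Lam M) g x (H.t x) s) : H.vs g M = s := by
  have hex : ∃ s, ∃ x, Pth (H.Lam M) g x (H.t x) s := ⟨s, x, h⟩
  unfold HLat.vs
  rw [dif_pos hex]
  obtain ⟨x', hx'⟩ := hex.choose_spec
  exact CPth_indep hM hg hx' h

theorem Frame.pth (F : Frame H L) (g : X → X → ℤ) (m : ℕ) :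
    Pth L g (F.x 0) (F.x m) (∑ i ∈ Finset.range m, g (F.x i) (F.x (i + 1))) := by
  exact Pth.glue (x := F.x) (s := fun i => g (F.x i) (F.x (i + 1))) (F.mem 0) m
    fun i _ => Pth.single (F.cov i)

theorem Frame.vs_eq {M : Set C} (hM : H.Coh M) (F : Frame H (H.Lam M)) {g : X → X → ℤ}
    (hg : H.PInv (H.Lam M) g) :
    H.vs g M = ∑ i ∈ Finset.range F.n, g (F.x i) (F.x (i + 1)) := by
  have h1 := F.pth g F.n
  have h2 := F.per 0
  rw [zero_add] at h2
  rw [h2] at h1
  exact HLat.vs_eq hM hg h1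

end TorA
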