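import Pool.Agent.Lib.MP_05cdf2_gt.A.CPth
import Pool.Agent.Lib.MP_05cdf2_gt.A.CKK

/-! MP_05cdf2_gt, stream A (abstract cyclic step), job CRef: refining covers of `Lam M'` in `Lam M`, `M' ⊆ M`, `M ∈ HN N`, `K > N`.

`nt_between`: `x ≤ u < v ≤ y` in `Lam M`, all `w = N`. `fr x ∩ fr y ⊆ fr u ∩ fr v` (`conv`), and it has `N - 1` elements, so `fr u \ fr v` has at most one; `fr u ≠ fr v` (`inj`) have the same size, so exactly one.
`nt_pth`: `Nt x y`: on every `Pth (Lam M) (gv K) x' y' s` with `x ≤ x'`, `y' ≤ y` the sum is `K (rho y' - rho x')` (induction on the path, `nt_between`).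
`lower`: `Pth (Lam M) (gv K) x y s` implies `(fr x \ fr y).card ≤ s` (induction: first step `x, u`: `gv K x u ≥ (fr x \ fr u).card` — in the neutral case `K (rho u - rho x) ≥ K ≥ 1` —
 and `fr x \ fr y ⊆ (fr x \ fr u) ∪ (fr u \ fr y)`).
`step_ref`: `Cov (Lam M') x y`; take a path `s` in `Lam M` (`x, y ∈ Lam M`). If `Nt x y`: `s = gv K x y` by `nt_pth`. If not: `gv K x y = p = (fr x \ fr y).card`. `p ≤ s` by `lower`. If `s = p`: the path is not nil; first step `x, u`, rest `s'` from `u` to `y`,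
 `s = gv K x u + s'`, `s' ≥ (fr u \ fr y).card`. If `Nt x u` then `gv K x u ≥ K > N ≥ p`, contradiction (`s' ≥ 0`). So `gv K x u = (fr x \ fr u).card`, and from `p = s ≥ (fr x \ fr u).card + (fr u \ fr y).card ≥ p` (`fr x \ fr y ⊆ ...`)
 the union `fr x \ fr y = (fr x \ fr u) ∪ (fr u \ fr y)` is exact: `fr u \ fr y ⊆ fr x` (if `c ∈ fr u \ fr y`, `c ∉ fr x` then the union is strictly bigger than `fr x \ fr y`). So `fr u ⊆ fr x ∪ fr y ⊆ M'`, `u ∈ Lam M'`, `x < u ≤ y`, so `u = y` and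
 `Cov (Lam M) x y`.
`len_ref`: with `g = 1`: a path from `x` to `y` in `Lam M` has sum `≥ 1`, and if it is `1` then it is the single cover.
`vs_le` etc: `F` a frame of `Lam M'` (`exists_frame`), `vs g M' = ∑ i < n, g (x i) (x (i+1))` (`Frame.vs_eq`), glue the paths of `step_ref` (`Pth.glue`; `x n = t (x 0)`), `vs_eq` for `M`. Equality of the sums forces equality of every term.
`vs_eq_imp` for general `i : ℤ`: translate (`CSeq.per_T`, `SubL.cov_T`, `diff_T`) from `i % n`.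
`len_lt`: if `vs 1 M' = vs 1 M` all steps of `F` are covers in `Lam M`, so `F` is a frame of `Lam M` (`F.x i ∈ Lam M' ⊆ Lam M`) and `M ⊆ ⋃ fr (F.x i) ⊆ M'` by `KK_frame`.
`vs_nonneg`, `len_nonneg`, `len_le` (`Frame.n_le`). -/

set_option autoImplicit false

namespace TorA
open Finsupp Tor
namespace HLat
variable {X C : Type} [Lattice X] [DecidableEq C] (H : HLat X C)

theorem nt_between {N : ℕ} {M : Set C} (hM : M ∈ H.HN N) {x u v y : X} (hx : x ∈ H.Lam M)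
    (hu : u ∈ H.Lam M) (hv : v ∈ H.Lam M) (hy : y ∈ H.Lam M) (h1 : x ≤ u) (h2 : u < v) (h3 : v ≤ y)
    (hn : H.Nt x y) : H.Nt u v := by
  have hwu : (H.fr u).card = N := hM.2 u hu
  have hwv : (H.fr v).card = N := hM.2 v hv
  have hwx : (H.fr x).card = N := hM.2 x hx
  have hsub : H.fr x ∩ H.fr y ⊆ H.fr u ∩ H.fr v := by
    intro c hc
    rw [Finset.mem_inter] at hc ⊢
    exact ⟨H.conv x u y c h1 (h2.le.trans h3) hc.1 hc.2,
      H.conv x v y c (h1.trans h2.le) h3 hc.1 hc.2⟩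
  have e1 := Finset.card_sdiff_add_card_inter (H.fr x) (H.fr y)
  have e2 := Finset.card_sdiff_add_card_inter (H.fr u) (H.fr v)
  have e3 := Finset.card_le_card hsub
  have hn' : (H.fr x \ H.fr y).card = 1 := hn
  have e4 : (H.fr u \ H.fr v).card ≠ 0 := by
    intro h0
    rw [Finset.card_eq_zero, Finset.sdiff_eq_empty_iff_subset] at h0
    have h5 : H.fr u = H.fr v := Finset.eq_of_subset_of_card_le h0 (by omega)
    exact absurd (H.inj u v h2.le h5) h2.ne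
  show (H.fr u \ H.fr v).card = 1
  omega

theorem CRef_gv_ge {K : ℤ} (hK : 0 < K) {a u : X} (h : a < u) :
    ((H.fr a \ H.fr u).card : ℤ) ≤ H.gv K a u := by
  unfold HLat.gv
  split_ifs with hn
  · have hn' : (H.fr a \ H.fr u).card = 1 := hn
    rw [hn']
    have h1 := H.rho_lt a u h
    have h2 : 1 ≤ H.rho u - H.rho a := by omega
    have h3 : K * 1 ≤ K * (H.rho u - H.rho a) := mul_le_mul_of_nonneg_left h2 hK.le
    push_cast
    omega
  · exact le_rfl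

theorem CRef_sub (x u y : X) :
    H.fr x \ H.fr y ⊆ (H.fr x \ H.fr u) ∪ (H.fr u \ H.fr y) := by
  intro c hc
  rw [Finset.mem_sdiff] at hc
  rw [Finset.mem_union, Finset.mem_sdiff, Finset.mem_sdiff]
  by_cases hcu : c ∈ H.fr u
  · exact Or.inr ⟨hcu, hc.2⟩
  · exact Or.inl ⟨hc.1, hcu⟩

theorem CRef_lower {L : Set X} {K : ℤ} (hK : 0 < K) {a b : X} {s : ℤ}
    (hp : Pth L (H.gv K) a b s) : ((H.fr a \ H.fr b).card : ℤ) ≤ s := by
  induction hp with
  | nil x hx => rw [Finset.sdiff_self]; simp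
  | cons x u z s h hp ih =>
    have h1 := H.CRef_gv_ge hK h.2.2.1
    have h2 := Finset.card_le_card (H.CRef_sub x u z)
    have h3 := Finset.card_union_le (H.fr x \ H.fr u) (H.fr u \ H.fr z)
    omega

theorem CRef_nt_pth {N : ℕ} {M : Set C} (hM : M ∈ H.HN N) {x y : X} (hx : x ∈ H.Lam M)
    (hy : y ∈ H.Lam M) (hn : H.Nt x y) {K : ℤ} {a b : X} {s : ℤ}
    (hp : Pth (H.Lam M) (H.gv K) a b s) :
    x ≤ a → b ≤ y → s = K * (H.rho b - H.rho a) := by
  induction hp with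
  | nil c hc => intro _ _; ring
  | cons c u z s h hp ih =>
    intro h1 h2
    have h3 := ih (h1.trans h.2.2.1.le) h2
    have h4 : H.Nt c u := H.nt_between hM hx h.1 h.2.1 hy h1 h.2.2.1 (hp.mem_le.2.2.trans h2) hn
    have h5 : H.gv K c u = K * (H.rho u - H.rho c) := by
      unfold HLat.gv
      rw [if_pos h4]
    rw [h5, h3]
    ring

theorem CRef_len {L : Set X} {a b : X} {s : ℤ} (hp : Pth L (fun _ _ => 1) a b s) (h : a < b) :
    1 ≤ s ∧ (s = 1 → Cov L a b) := by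
  have key : ∀ {a b : X} {s : ℤ}, Pth L (fun _ _ => 1) a b s → 0 ≤ s ∧ (s = 0 → a = b) := by
    intro a b s hp
    induction hp with
    | nil c hc => exact ⟨le_rfl, fun _ => rfl⟩
    | cons c u z s h hp ih => exact ⟨by omega, fun h0 => by omega⟩
  cases hp with
  | nil => exact absurd rfl h.ne
  | cons _ u _ s' hcu hp =>
    have h1 := key hp
    refine ⟨by omega, fun h2 => ?_⟩
    have h3 : s' = 0 := by omega
    rw [← h1.2 h3]
    exact hcu

theorem CRef_red {H : HLat X C} {L : Set X} (S : CSeq H L) (i : ℤ) : ∃ (r : ℕ) (k : ℤ), r < S.n ∧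
    S.x i = H.T k (S.x r) ∧ S.x (i + 1) = H.T k (S.x (r + 1)) := by
  have hn : (0 : ℤ) < S.n := by exact_mod_cast S.pos
  have h1 := Int.emod_nonneg i hn.ne'
  have h2 := Int.emod_lt_of_pos i hn
  have h3 := Int.emod_add_mul_ediv i S.n
  refine ⟨(i % S.n).toNat, i / S.n, by omega, ?_, ?_⟩
  · rw [← S.per_T, Int.toNat_of_nonneg h1]
    congr 1
    rw [mul_comm] at h3
    exact h3.symm
  · rw [← S.per_T, Int.toNat_of_nonneg h1]
    congr 1
    rw [mul_comm] at h3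
    omega

theorem step_ref {N : ℕ} {M M' : Set C} (hM : M ∈ H.HN N) (hM' : M' ∈ H.KK) (h : M' ⊆ M) {K : ℤ}
    (hK : (N : ℤ) < K) {x y : X} (hc : Cov (H.Lam M') x y) :
    ∃ s, Pth (H.Lam M) (H.gv K) x y s ∧ H.gv K x y ≤ s ∧
      (s = H.gv K x y → H.Nt x y ∨ Cov (H.Lam M) x y) := by
  have hMc := H.KK_coh hM.1
  have hL := H.subL_Lam hMc
  obtain ⟨hx', hy', hlt, hcov⟩ := hc
  have hx := H.Lam_mono h hx'
  have hy := H.Lam_mono h hy'
  obtain ⟨s, hs⟩ := hL.pth_exists (H.gv K) hx hy hlt.le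
  refine ⟨s, hs, ?_⟩
  by_cases hn : H.Nt x y
  · have h1 := H.CRef_nt_pth hM hx hy hn hs le_rfl le_rfl
    have h2 : H.gv K x y = K * (H.rho y - H.rho x) := by
      unfold HLat.gv
      rw [if_pos hn]
    rw [h1, h2]
    exact ⟨le_rfl, fun _ => Or.inl hn⟩
  · have h2 : H.gv K x y = ((H.fr x \ H.fr y).card : ℤ) := by
      unfold HLat.gv
      rw [if_neg hn]
    have hK0 : 0 < K := by omega
    have h3 := H.CRef_lower hK0 hs
    rw [h2]
    refine ⟨h3, ?_⟩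
    intro h4
    right
    have hwx : (H.fr x).card = N := hM.2 x hx
    have hpN : (H.fr x \ H.fr y).card ≤ N := by
      rw [← hwx]
      exact Finset.card_le_card Finset.sdiff_subset
    cases hs with
    | nil => exact absurd rfl hlt.ne
    | cons _ u _ s' hcu hp =>
      have h5 := H.CRef_lower hK0 hp
      have h6 := hp.mem_le
      have h7 : 1 ≤ H.rho u - H.rho x := by
        have := H.rho_lt x u hcu.2.2.1
        omega
      have h8 : ¬ H.Nt x u := by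
        intro h9
        have h10 : H.gv K x u = K * (H.rho u - H.rho x) := by
          unfold HLat.gv
          rw [if_pos h9]
        rw [h10] at h4
        have h11 : K * 1 ≤ K * (H.rho u - H.rho x) := mul_le_mul_of_nonneg_left h7 hK0.le
        have h12 : (0 : ℤ) ≤ ((H.fr u \ H.fr y).card : ℤ) := Int.natCast_nonneg _
        omega
      have h10 : H.gv K x u = ((H.fr x \ H.fr u).card : ℤ) := by
        unfold HLat.gv
        rw [if_neg h8]
      rw [h10] at h4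
      have hsub : H.fr x \ H.fr y ⊆ (H.fr x \ H.fr u) ∪ (H.fr u \ H.fr y) :=
        H.CRef_sub x u y
      have h11 := Finset.card_union_le (H.fr x \ H.fr u) (H.fr u \ H.fr y)
      have h12 : H.fr x \ H.fr y = (H.fr x \ H.fr u) ∪ (H.fr u \ H.fr y) :=
        Finset.eq_of_subset_of_card_le hsub (by omega)
      have hu : u ∈ H.Lam M' := by
        refine ⟨hcu.2.1.1, ?_⟩
        intro c hcu'
        by_cases hcy : c ∈ H.fr y
        · exact hy'.2 c hcy
        · have h13 : c ∈ H.fr x \ H.fr y := by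
            rw [h12, Finset.mem_union]
            right
            rw [Finset.mem_sdiff]
            exact ⟨hcu', hcy⟩
          rw [Finset.mem_sdiff] at h13
          exact hx'.2 c h13.1
      rcases hcov u hu hcu.2.2.1.le h6.2.2 with h13 | h13
      · exact absurd h13.symm hcu.2.2.1.ne
      · rw [← h13]
        exact hcu

theorem CRef_sum {N : ℕ} {M M' : Set C} (hM : M ∈ H.HN N) (hM' : M' ∈ H.KK) (h : M' ⊆ M) {K : ℤ}
    (hK : (N : ℤ) < K) (F : Frame H (H.Lam M')) :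
    ∃ s : ℕ → ℤ, (∀ i : ℕ, i < F.n → H.gv K (F.x i) (F.x (i + 1)) ≤ s i ∧
      (s i = H.gv K (F.x i) (F.x (i + 1)) → H.Nt (F.x i) (F.x (i + 1)) ∨
        Cov (H.Lam M) (F.x i) (F.x (i + 1)))) ∧
      H.vs (H.gv K) M = ∑ i ∈ Finset.range F.n, s i ∧ 0 < F.n := by
  have h1 : ∀ i : ℕ, ∃ s, Pth (H.Lam M) (H.gv K) (F.x i) (F.x (i + 1)) s ∧
      H.gv K (F.x i) (F.x (i + 1)) ≤ s ∧ (s = H.gv K (F.x i) (F.x (i + 1)) →
        H.Nt (F.x i) (F.x (i + 1)) ∨ Cov (H.Lam M) (F.x i) (F.x (i + 1))) :=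
    fun i => H.step_ref hM hM' h hK (F.cov i)
  choose s hs using h1
  have hMc := H.KK_coh hM.1
  refine ⟨s, fun i _ => (hs i).2, ?_, F.pos⟩
  have h2 := Pth.glue (H.Lam_mono h (F.mem 0)) F.n (fun i _ => (hs i).1)
  have h3 : F.x F.n = H.t (F.x 0) := by
    have := F.per 0
    rwa [zero_add] at this
  rw [h3] at h2
  exact HLat.vs_eq hMc (HLat.pinv_gv hMc K) h2

theorem vs_le {N : ℕ} {M M' : Set C} (hM : M ∈ H.HN N) (hM' : M' ∈ H.KK) (h : M' ⊆ M) {K : ℤ}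
    (hK : (N : ℤ) < K) : H.vs (H.gv K) M' ≤ H.vs (H.gv K) M := by
  obtain ⟨x0, hx0⟩ := H.KK_ne hM'
  obtain ⟨F, -⟩ := exists_frame (H.subL_Lam (H.KK_coh hM')) hx0
  obtain ⟨s, hs1, hs2, hs3⟩ := H.CRef_sum hM hM' h hK F
  rw [hs2, Frame.vs_eq (H.KK_coh hM') F (HLat.pinv_gv (H.KK_coh hM') K)]
  exact Finset.sum_le_sum fun i hi => (hs1 i (Finset.mem_range.mp hi)).1

theorem vs_eq_imp {N : ℕ} {M M' : Set C} (hM : M ∈ H.HN N) (hM' : M' ∈ H.KK) (h : M' ⊆ M) {K : ℤ}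
    (hK : (N : ℤ) < K) (he : H.vs (H.gv K) M' = H.vs (H.gv K) M) (F : Frame H (H.Lam M')) (i : ℤ) :
    H.Nt (F.x i) (F.x (i + 1)) ∨ Cov (H.Lam M) (F.x i) (F.x (i + 1)) := by
  obtain ⟨s, hs1, hs2, hs3⟩ := H.CRef_sum hM hM' h hK F
  rw [hs2, Frame.vs_eq (H.KK_coh hM') F (HLat.pinv_gv (H.KK_coh hM') K)] at he
  have h1 : ∀ i ∈ Finset.range F.n, H.gv K (F.x i) (F.x (i + 1)) = s i :=
    (Finset.sum_eq_sum_iff_of_le
      (fun i hi => (hs1 i (Finset.mem_range.mp hi)).1)).mp he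
  have h2 : ∀ i : ℕ, i < F.n →
      H.Nt (F.x i) (F.x (i + 1)) ∨ Cov (H.Lam M) (F.x i) (F.x (i + 1)) := by
    intro i hi
    exact (hs1 i hi).2 (h1 i (Finset.mem_range.mpr hi)).symm
  obtain ⟨r, k, hr, hk1, hk2⟩ := CRef_red F.toCSeq i
  rw [hk1, hk2]
  rcases h2 r hr with h3 | h3
  · left
    show (H.fr (H.T k (F.x r)) \ H.fr (H.T k (F.x (r + 1)))).card = 1
    rw [H.diff_T]
    exact h3
  · right
    exact (H.subL_Lam (H.KK_coh hM.1)).cov_T h3 k

theorem vs_eq_of {N : ℕ} {M M' : Set C} (hM : M ∈ H.HN N) (hM' : M' ∈ H.KK) (h : M' ⊆ M) {K : ℤ}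
    (hK : (N : ℤ) < K)
    (hc : ∀ x y, Cov (H.Lam M') x y → ¬ H.Nt x y → Cov (H.Lam M) x y) :
    H.vs (H.gv K) M' = H.vs (H.gv K) M := by
  obtain ⟨x0, hx0⟩ := H.KK_ne hM'
  obtain ⟨F, -⟩ := exists_frame (H.subL_Lam (H.KK_coh hM')) hx0
  have hMc := H.KK_coh hM.1
  have h1 : ∀ i : ℕ, i < F.n → Pth (H.Lam M) (H.gv K) (F.x i) (F.x (i + 1))
      (H.gv K (F.x i) (F.x (i + 1))) := by
    intro i _
    by_cases hn : H.Nt (F.x i) (F.x (i + 1))
    · have hx := H.Lam_mono h (F.mem i)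
      have hy := H.Lam_mono h (F.mem (i + 1))
      obtain ⟨s, hs⟩ := (H.subL_Lam hMc).pth_exists (H.gv K) hx hy (F.le i)
      have h2 := H.CRef_nt_pth hM hx hy hn hs le_rfl le_rfl
      have h3 : H.gv K (F.x i) (F.x (i + 1)) =
          K * (H.rho (F.x (i + 1)) - H.rho (F.x i)) := by
        unfold HLat.gv
        rw [if_pos hn]
      rw [h3, ← h2]
      exact hs
    · exact Pth.single (hc _ _ (F.cov i) hn)
  have h2 := Pth.glue (H.Lam_mono h (F.mem 0)) F.n h1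
  have h3 : F.x F.n = H.t (F.x 0) := by
    have := F.per 0
    rwa [zero_add] at this
  rw [h3] at h2
  rw [HLat.vs_eq hMc (HLat.pinv_gv hMc K) h2,
    Frame.vs_eq (H.KK_coh hM') F (HLat.pinv_gv (H.KK_coh hM') K)]

theorem len_lt {M M' : Set C} (hM : M ∈ H.KK) (hM' : M' ∈ H.KK) (h : M' ⊆ M) (hne : M' ≠ M) :
    H.vs (fun _ _ => 1) M' < H.vs (fun _ _ => 1) M := by
  obtain ⟨x0, hx0⟩ := H.KK_ne hM'
  obtain ⟨F, -⟩ := exists_frame (H.subL_Lam (H.KK_coh hM')) hx0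
  have hMc := H.KK_coh hM
  have hL := H.subL_Lam hMc
  have h1 : ∀ i : ℕ, ∃ s, Pth (H.Lam M) (fun _ _ => 1) (F.x i) (F.x (i + 1)) s :=
    fun i => hL.pth_exists _ (H.Lam_mono h (F.mem i)) (H.Lam_mono h (F.mem (i + 1))) (F.le i)
  choose s hs using h1
  have h2 := Pth.glue (H.Lam_mono h (F.mem 0)) F.n (fun i _ => hs i)
  have h3 : F.x F.n = H.t (F.x 0) := by
    have := F.per 0
    rwa [zero_add] at this
  rw [h3] at h2
  rw [HLat.vs_eq hMc (HLat.pinv_one _) h2,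
    Frame.vs_eq (H.KK_coh hM') F (HLat.pinv_one _)]
  have h4 : ∀ i : ℕ, 1 ≤ s i ∧ (s i = 1 → Cov (H.Lam M) (F.x i) (F.x (i + 1))) :=
    fun i => CRef_len (hs i) (F.cov i).2.2.1
  by_contra h5
  have h6 : ∑ i ∈ Finset.range F.n, (1 : ℤ) = ∑ i ∈ Finset.range F.n, s i :=
    le_antisymm (Finset.sum_le_sum fun i _ => (h4 i).1) (not_lt.mp h5)
  have h7 : ∀ i ∈ Finset.range F.n, (1 : ℤ) = s i :=
    (Finset.sum_eq_sum_iff_of_le (fun i _ => (h4 i).1)).mp h6
  have h8 : ∀ i : ℤ, Cov (H.Lam M) (F.x i) (F.x (i + 1)) := by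
    intro i
    obtain ⟨r, k, hr, hk1, hk2⟩ := CRef_red F.toCSeq i
    rw [hk1, hk2]
    exact hL.cov_T ((h4 r).2 (h7 r (Finset.mem_range.mpr hr)).symm) k
  let F' : Frame H (H.Lam M) :=
    { x := F.x
      n := F.n
      pos := F.pos
      mem := fun i => H.Lam_mono h (F.mem i)
      le := F.le
      per := F.per
      cov := h8 }
  apply hne
  apply Set.Subset.antisymm h
  intro c hc
  obtain ⟨i, hi⟩ := H.KK_frame hM F' hc
  exact (F.mem i).2 c hi

theorem vs_nonneg {N : ℕ} {M : Set C} (hM : M ∈ H.HN N) {K : ℤ} (hK : (N : ℤ) < K) :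
    0 ≤ H.vs (H.gv K) M := by
  obtain ⟨x0, hx0⟩ := H.KK_ne hM.1
  obtain ⟨F, -⟩ := exists_frame (H.subL_Lam (H.KK_coh hM.1)) hx0
  rw [Frame.vs_eq (H.KK_coh hM.1) F (HLat.pinv_gv (H.KK_coh hM.1) K)]
  apply Finset.sum_nonneg
  intro i _
  exact (Int.natCast_nonneg _).trans (H.CRef_gv_ge (by omega) (F.cov i).2.2.1)

theorem len_bounds {M : Set C} (hM : M ∈ H.KK) :
    0 ≤ H.vs (fun _ _ => 1) M ∧ H.vs (fun _ _ => 1) M ≤ H.P := by
  obtain ⟨x0, hx0⟩ := H.KK_ne hM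
  obtain ⟨F, -⟩ := exists_frame (H.subL_Lam (H.KK_coh hM)) hx0
  rw [Frame.vs_eq (H.KK_coh hM) F (HLat.pinv_one _)]
  have h1 : ∑ i ∈ Finset.range F.n, (1 : ℤ) = F.n := by simp
  have h2 := F.n_le
  constructor
  · have h3 : (0 : ℤ) ≤ (F.n : ℤ) := Int.natCast_nonneg _
    calc (0 : ℤ) ≤ (F.n : ℤ) := h3
      _ = _ := h1.symm
  · calc _ = (F.n : ℤ) := h1
      _ ≤ H.P := h2

end HLat
end TorA
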