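import Pool.Agent.Lib.MP_05cdf2_gt.A.CLam

/-! MP_05cdf2_gt, stream A (abstract cyclic step), job CSeqA: periodic sequences `S : CSeq H L` in `L` (`SubL L`) and telescoping.

`mono`: induction. `per_T`: `x (i + k n) = T k (x i)`, `Int.induction_on`. `le_t`: `i + 1 ≤ i + n`. `low`, `high`: `arch_le`, `arch_ge` for `x 0`, `per_T`, `mono`.
`pt y i = (y ⊔ x i) ⊓ x (i + 1)`. `pt_self`: if `i < m` then `x (i+1) ≤ x m`, else `x m ≤ x i ≤ x (i+1)`.
`tel_step`: with `a = y ⊓ x (i+1)`, `b = x i`: `a ⊔ b = pt y i` (`SubL.modular`, `x i ≤ x (i+1)`), `a ⊓ b = y ⊓ x i`.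
`tel_le`: `d i = v (y ⊓ x i) - v (x ⊓ x i)` is nondecreasing by `tel_step` and the hypothesis; it is `v (x i) - v (x i) = 0` for small `i` (`low`) and `v y - v x`
for large `i` (`high`).
`pt_T`: `T k` is a lattice automorphism, `per_T`. `En_T`, `Lv_T`: `fr_T`, `per_T` (write `i + k n + 1 = (i + 1) + k n`).
`exists_En_Lv`: the set of `j` with `e ∈ fr (x j)` is nonempty, contained in a bounded interval (`notin_large` and `per_T`: every `x j` is `T q (x r)`, `0 ≤ r < n`,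
finitely many `r`) and convex (field `conv`); let `a + 1` be its minimum and `b` its maximum. -/

set_option autoImplicit false

namespace TorA
open Finsupp Tor
namespace CSeq
variable {X C : Type} [Lattice X] [DecidableEq C] {H : HLat X C} {L : Set X} (S : CSeq H L)

theorem mono {i j : ℤ} (h : i ≤ j) : S.x i ≤ S.x j := by
  induction j, h using Int.leInduction with
  | base => exact le_refl _
  | succ k _ ih => exact ih.trans (S.le k)

theorem per_T (i k : ℤ) : S.x (i + k * S.n) = H.T k (S.x i) := by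
  induction k using Int.induction_on with
  | zero => rw [zero_mul, add_zero, H.T_zero]
  | succ k ih =>
    have e : i + ((k : ℤ) + 1) * S.n = (i + (k : ℤ) * S.n) + S.n := by ring
    rw [e, S.per, ih, H.T_add_one]
  | pred k ih =>
    have e : i + -(k : ℤ) * S.n = (i + (-(k : ℤ) - 1) * S.n) + S.n := by ring
    have h2 : H.T (-(k : ℤ)) (S.x i) = H.t (H.T (-(k : ℤ) - 1) (S.x i)) := by
      rw [← H.T_add_one]
      congr 1
      ring
    rw [e, S.per, h2] at ih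
    exact H.t.injective ih

theorem le_t (i : ℤ) : S.x (i + 1) ≤ H.t (S.x i) := by
  rw [← S.per]
  refine S.mono ?_
  have := S.pos
  omega

theorem low (hL : H.SubL L) (y : X) : ∃ m : ℤ, ∀ i ≤ m, S.x i ≤ y := by
  obtain ⟨m, hm⟩ := H.arch_le y (hL.good (S.mem 0))
  refine ⟨m * S.n, fun i hi => ?_⟩
  have e := S.per_T 0 m
  rw [zero_add] at e
  exact (S.mono hi).trans (e ▸ hm m le_rfl)

theorem high (hL : H.SubL L) (y : X) : ∃ m : ℤ, ∀ i, m ≤ i → y ≤ S.x i := by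
  obtain ⟨m, hm⟩ := H.arch_ge y (hL.good (S.mem 0))
  refine ⟨m * S.n, fun i hi => ?_⟩
  have e := S.per_T 0 m
  rw [zero_add] at e
  exact (e ▸ hm m le_rfl : y ≤ S.x (m * S.n)).trans (S.mono hi)

theorem le_pt (y : X) (i : ℤ) : S.x i ≤ S.pt y i := by
  exact le_inf le_sup_right (S.le i)

theorem pt_le (y : X) (i : ℤ) : S.pt y i ≤ S.x (i + 1) := by
  exact inf_le_right

theorem pt_mem (hL : H.SubL L) {y : X} (hy : y ∈ L) (i : ℤ) : S.pt y i ∈ L := by
  exact hL.inf _ (hL.sup _ hy _ (S.mem i)) _ (S.mem (i + 1))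

theorem pt_mono {y z : X} (h : y ≤ z) (i : ℤ) : S.pt y i ≤ S.pt z i := by
  exact inf_le_inf_right _ (sup_le_sup_right h _)

theorem pt_self (m i : ℤ) : S.pt (S.x m) i = if i < m then S.x (i + 1) else S.x i := by
  split_ifs with h
  · exact inf_eq_right.2 ((S.mono (by omega : i + 1 ≤ m)).trans le_sup_left)
  · rw [pt, sup_eq_right.2 (S.mono (not_lt.1 h))]
    exact inf_eq_left.2 (S.le i)

theorem tel_step (hL : H.SubL L) {v : X → ℤ} (hv : Md L v) {y : X} (hy : y ∈ L) (i : ℤ) :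
    v (y ⊓ S.x (i + 1)) - v (y ⊓ S.x i) = v (S.pt y i) - v (S.x i) := by
  have hi := S.mem i
  have hi1 := S.mem (i + 1)
  have h1 := hv (y ⊓ S.x (i + 1)) (hL.inf _ hy _ hi1) (S.x i) hi
  have e1 : (y ⊓ S.x (i + 1)) ⊔ S.x i = S.pt y i := by
    rw [sup_comm, ← hL.modular hi hy hi1 (S.le i), pt, sup_comm]
  have e2 : (y ⊓ S.x (i + 1)) ⊓ S.x i = y ⊓ S.x i := by
    rw [inf_assoc, inf_eq_right.2 (S.le i)]
  rw [e1, e2] at h1
  linarith

theorem tel_le (hL : H.SubL L) {v : X → ℤ} (hv : Md L v) {x y : X} (hx : x ∈ L) (hy : y ∈ L)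
    (h : ∀ i, v (S.pt x i) ≤ v (S.pt y i)) : v x ≤ v y := by
  have hmono : ∀ i j : ℤ, i ≤ j → v (y ⊓ S.x i) - v (x ⊓ S.x i) ≤ v (y ⊓ S.x j) - v (x ⊓ S.x j) := by
    intro i j hij
    induction j, hij using Int.leInduction with
    | base => exact le_refl _
    | succ k _ ih =>
      have h1 := S.tel_step hL hv hy k
      have h2 := S.tel_step hL hv hx k
      have h3 := h k
      linarith
  obtain ⟨m1, hm1⟩ := S.low hL x
  obtain ⟨m2, hm2⟩ := S.low hL y
  obtain ⟨m3, hm3⟩ := S.high hL x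
  obtain ⟨m4, hm4⟩ := S.high hL y
  have h1 := hmono (min (min m1 m2) (max m3 m4)) (max m3 m4) (min_le_right _ _)
  have a1 : S.x (min (min m1 m2) (max m3 m4)) ≤ x :=
    hm1 _ ((min_le_left _ _).trans (min_le_left _ _))
  have a2 : S.x (min (min m1 m2) (max m3 m4)) ≤ y :=
    hm2 _ ((min_le_left _ _).trans (min_le_right _ _))
  have a3 : x ≤ S.x (max m3 m4) := hm3 _ (le_max_left _ _)
  have a4 : y ≤ S.x (max m3 m4) := hm4 _ (le_max_right _ _)
  rw [inf_eq_right.2 a1, inf_eq_right.2 a2, inf_eq_left.2 a3, inf_eq_left.2 a4] at h1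
  linarith

theorem tel_eq (hL : H.SubL L) {v : X → ℤ} (hv : Md L v) {x y : X} (hx : x ∈ L) (hy : y ∈ L)
    (h : ∀ i, v (S.pt x i) = v (S.pt y i)) : v x = v y := by
  exact le_antisymm (S.tel_le hL hv hx hy fun i => (h i).le)
    (S.tel_le hL hv hy hx fun i => (h i).ge)

theorem pt_T (y : X) (i k : ℤ) : S.pt (H.T k y) (i + k * S.n) = H.T k (S.pt y i) := by
  have e : i + k * S.n + 1 = (i + 1) + k * S.n := by ring
  rw [pt, pt, e, S.per_T, S.per_T, H.T_inf, H.T_sup]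

theorem En_T (i k : ℤ) (e : C) : S.En (i + k * S.n) ((H.tc ^ k) e) ↔ S.En i e := by
  have e : i + k * S.n + 1 = (i + 1) + k * S.n := by ring
  rw [En, En, e, S.per_T, S.per_T, H.fr_T, H.fr_T]

theorem Lv_T (i k : ℤ) (e : C) : S.Lv (i + k * S.n) ((H.tc ^ k) e) ↔ S.Lv i e := by
  have e : i + k * S.n + 1 = (i + 1) + k * S.n := by ring
  rw [Lv, Lv, e, S.per_T, S.per_T, H.fr_T, H.fr_T]

theorem exists_En_Lv (hL : H.SubL L) {e : C} {j : ℤ} (he : e ∈ H.fr (S.x j)) :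
    ∃ a b, a < j ∧ j ≤ b ∧ S.En a e ∧ S.Lv b e := by
  obtain ⟨N, hN⟩ := H.notin_large (S.x j) e
  have hn : (0 : ℤ) < S.n := by exact_mod_cast S.pos
  have hM1 : (1 : ℤ) ≤ max N 1 := le_max_right _ _
  have hMN : N ≤ max N 1 := le_max_left _ _
  have h1 : e ∉ H.fr (S.x (j + (-(max N 1)) * S.n)) := by
    rw [S.per_T]
    refine hN _ ?_
    rw [abs_neg, abs_of_pos (by omega)]
    exact hMN
  have h2 : e ∉ H.fr (S.x (j + (max N 1) * S.n)) := by
    rw [S.per_T]
    refine hN _ ?_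
    rw [abs_of_pos (by omega)]
    exact hMN
  have hpos : 0 < max N 1 * S.n := by positivity
  obtain ⟨a, ⟨ha1, ha2⟩, ha3⟩ := Int.exists_greatest_of_bdd
    (P := fun z => z < j ∧ e ∉ H.fr (S.x z)) ⟨j, fun z hz => hz.1.le⟩
    ⟨j + (-(max N 1)) * S.n, by linarith, h1⟩
  obtain ⟨b, ⟨hb1, hb2⟩, hb3⟩ := Int.exists_least_of_bdd
    (P := fun z => j < z ∧ e ∉ H.fr (S.x z)) ⟨j, fun z hz => hz.1.le⟩
    ⟨j + (max N 1) * S.n, by linarith, h2⟩
  refine ⟨a, b - 1, ha1, by omega, ⟨ha2, ?_⟩, ?_, ?_⟩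
  · by_contra hc
    rcases eq_or_ne (a + 1) j with h | h
    · rw [h] at hc
      exact hc he
    · have := ha3 (a + 1) ⟨by omega, hc⟩
      omega
  · by_contra hc
    rcases eq_or_ne (b - 1) j with h | h
    · rw [h] at hc
      exact hc he
    · have := hb3 (b - 1) ⟨by omega, hc⟩
      omega
  · rw [sub_add_cancel]
    exact hb2

theorem En_unique {i j : ℤ} {e : C} (hi : S.En i e) (hj : S.En j e) : i = j := by
  rcases lt_trichotomy i j with h | h | h
  · exact absurd (H.conv _ _ _ e (S.mono (by omega : i + 1 ≤ j)) (S.le j) hi.2 hj.2) hj.1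
  · exact h
  · exact absurd (H.conv _ _ _ e (S.mono (by omega : j + 1 ≤ i)) (S.le i) hj.2 hi.2) hi.1

theorem Lv_unique {i j : ℤ} {e : C} (hi : S.Lv i e) (hj : S.Lv j e) : i = j := by
  rcases lt_trichotomy i j with h | h | h
  · exact absurd (H.conv _ _ _ e (S.le i) (S.mono (by omega : i + 1 ≤ j)) hi.1 hj.1) hi.2
  · exact h
  · exact absurd (H.conv _ _ _ e (S.le j) (S.mono (by omega : j + 1 ≤ i)) hj.1 hi.1) hj.2

theorem En_lt_Lv {i j : ℤ} {e : C} (hi : S.En i e) (hj : S.Lv j e) : i < j := by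
  by_contra hc
  rcases eq_or_lt_of_le (not_lt.1 hc) with h | h
  · rw [h] at hj
    exact hi.1 hj.1
  · exact hj.2 (H.conv _ _ _ e (S.le j) (S.mono (by omega : j + 1 ≤ i + 1)) hj.1 hi.2)

/-- `e ∈ fr (x k)` exactly between entering and leaving -/
theorem mem_fr_iff {i j k : ℤ} {e : C} (hi : S.En i e) (hj : S.Lv j e) :
    e ∈ H.fr (S.x k) ↔ i < k ∧ k ≤ j := by
  constructor
  · intro hk
    constructor
    · by_contra hc
      exact hi.1 (H.conv _ _ _ e (S.mono (not_lt.1 hc)) (S.le i) hk hi.2)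
    · by_contra hc
      exact hj.2 (H.conv _ _ _ e (S.le j) (S.mono (by omega : j + 1 ≤ k)) hj.1 hk)
  · rintro ⟨h1, h2⟩
    exact H.conv _ _ _ e (S.mono (by omega : i + 1 ≤ k)) (S.mono h2) hi.2 hj.1

end CSeq
end TorA
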