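import Pool.Agent.Lib.MP_05cdf2_gt.A.CRef

/-! MP_05cdf2_gt, stream A (abstract cyclic step), job CStar: if `Co M ⊆ M' ⊆ M` then the non neutral covers of `Lam M'` are covers of `Lam M`.

Let `Cov (Lam M') x y`, not `Nt x y`; all elements of `Lam M` have `w = N`; `x, y ∈ Lam M' ⊆ Lam M`.
STEP A. Let `Cov (Lam M) p q`, `x ≤ p`, `q ≤ y`, not `Nt p q`. Then `p = x` and `q = y`. Proof: all curves in `B = fr p \ fr q` and in `B' = fr q \ fr p` are in `Co M ⊆ M'`. For `c ∈ B`: by `between` (for `p`) `c ∈ fr x` or `c ∈ fr y`; `c ∈ fr y`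
would give `c ∈ fr q` by `conv` (`p ≤ q ≤ y`), so `c ∈ fr x`. For `c ∈ B'`: by `between` (for `q`) `c ∈ fr x` or `c ∈ fr y`; `c ∈ fr x` gives `c ∈ fr p` (`x ≤ p ≤ q`), so `c ∈ fr y`. `compl_mem` for `x ≤ p ≤ q ≤ t x`
(`q ≤ y ≤ t x` by `SubL.cov_le_t`; a curve of `p` is in `fr q` or in `B ⊆ fr x`): `z ∈ Lam M`, `x ≤ z ≤ q`, `p ⊓ z = x`, `p ⊔ z = q`, `ind c z = ind c x + ind c q - ind c p`: `fr z ⊆ fr x ∪ B' ⊆ M'` so `z ∈ Lam M'`;
`rho z = rho x + rho q - rho p > rho x`, so `z ≠ x`, so `z = y` (`Cov (Lam M') x y`), so `y ≤ q`, `q = y`, and `p = p ⊓ y = p ⊓ z = x`.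
STEP B. Suppose `x` is not covered by `y` in `Lam M`. By step A every cover `p, q` of `Lam M` with `x ≤ p`, `q ≤ y` is neutral (otherwise `p = x`, `q = y`). Consider `z ∈ Lam M` with `x < z ≤ y` and `Nt x z`; there is one (`exists_cov`); choose one
with maximal `rho z`. `fr x \ fr z = {e0}`, `fr z \ fr x = {e}` (both have `N` elements). If `e ∈ M'` then `fr z ⊆ fr x ∪ {e} ⊆ M'`, `z ∈ Lam M'`, `z = y`, but not `Nt x y`: contradiction. So `e ∉ M'`, `e ∉ fr y`, `z < y`.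
`SubL.exists_cov_leave` (from `z` to `y`, curve `e`): `Cov (Lam M) p q`, `z ≤ p`, `q ≤ y`, `e ∈ fr p`, `e ∉ fr q`; it is neutral: `fr p \ fr q = {e}`, `fr q \ fr p = {e'}`. `compl_mem` for `z ≤ p ≤ q ≤ t z` (`q ≤ y ≤ t x ≤ t z`; a curve of
`p` is in `fr q` or equal to `e ∈ fr z`): `z' ∈ Lam M`, `z ≤ z' ≤ q ≤ y`, `ind c z' = ind c z + ind c q - ind c p`, `rho z' = rho z + rho q - rho p > rho z`. `fr x \ fr z' = {e0}`: `e ∉ fr x`; a curve of `fr x` which is not in `fr z'` is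
not in `fr z` (or is `e`), so it is `e0`; and `e0 ∉ fr z'`: otherwise `e0 = e'`, `e0 ∈ fr x ∩ fr q`, so `e0 ∈ fr p` (`conv`), contradiction with `e' ∉ fr p`. So `Nt x z'`, `x < z' ≤ y`: contradiction to the maximality of `rho z`.
`Co_mono`: from `star1`. `Co_inv`: `cov_T`, `diff_T`, `fr_T`. `Co_sub`: `Co M ⊆ M`. -/

set_option autoImplicit false

namespace TorA
open Finsupp Tor
namespace HLat
variable {X C : Type} [Lattice X] [DecidableEq C] (H : HLat X C)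

private theorem CY_CStar_stepA {M M' : Set C} (hM : M ∈ H.KK) (hM' : M' ∈ H.KK) (h : M' ⊆ M)
    (hCo : H.Co M ⊆ M') {x y : X} (hc : Cov (H.Lam M') x y) {p q : X}
    (hpq : Cov (H.Lam M) p q) (hxp : x ≤ p) (hqy : q ≤ y) (hn : ¬ H.Nt p q) :
    p = x ∧ q = y := by
  have hcM : H.Coh M := H.KK_coh hM
  have hcM' : H.Coh M' := H.KK_coh hM'
  have hxM : x ∈ H.Lam M := H.Lam_mono h hc.1
  have hpq' : p ≤ q := hpq.2.2.1.le
  have hB : ∀ c ∈ H.fr p, c ∉ H.fr q → c ∈ H.fr x := by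
    intro c hcp hcq
    have hcM1 : c ∈ M' := hCo ⟨p, q, hpq, hn, Or.inl ⟨hcp, hcq⟩⟩
    rcases H.between hM hM' h hc hpq.1 hxp (hpq'.trans hqy) hcM1 hcp with h1 | h1
    · exact h1
    · exact absurd (H.conv p q y c hpq' hqy hcp h1) hcq
  obtain ⟨z, hz, hxz, hzq, hinf, hsup, hind, hrho⟩ :=
    H.compl_mem hcM hxM hpq.1 hpq.2.1 hxp hpq'
      (hqy.trans (SubL.cov_le_t (H.subL_Lam hcM') hc))
      (fun c hcp => by
        by_cases hcq : c ∈ H.fr q
        · exact Or.inr hcq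
        · exact Or.inl (hB c hcp hcq))
  have hzM' : z ∈ H.Lam M' := by
    refine ⟨hz.1, fun c hcz => ?_⟩
    by_cases hcx : c ∈ H.fr x
    · exact hc.1.2 c hcx
    · have h1 := hind c
      rw [(H.ind_eq_one).mpr hcz, (H.ind_eq_zero).mpr hcx] at h1
      have h2 := H.ind_le_one c q
      have h3 := H.ind_nonneg c p
      have hq1 : c ∈ H.fr q := (H.ind_eq_one).mp (by omega)
      have hp0 : c ∉ H.fr p := (H.ind_eq_zero).mp (by omega)
      exact hCo ⟨p, q, hpq, hn, Or.inr ⟨hp0, hq1⟩⟩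
  have hzx : z ≠ x := by
    intro he
    have h1 := H.rho_lt p q hpq.2.2.1
    rw [he] at hrho
    omega
  rcases hc.2.2.2 z hzM' hxz (hzq.trans hqy) with h1 | h1
  · exact absurd h1 hzx
  · have hqy' : q = y := le_antisymm hqy (h1 ▸ hzq)
    refine ⟨?_, hqy'⟩
    rw [h1, ← hqy', inf_eq_left.mpr hpq'] at hinf
    exact hinf

private theorem CY_CStar_step {N : ℕ} {M M' : Set C} (hM : M ∈ H.HN N) (hM' : M' ∈ H.KK)
    (h : M' ⊆ M) (hCo : H.Co M ⊆ M') {x y : X} (hc : Cov (H.Lam M') x y) (hn : ¬ H.Nt x y)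
    {z : X} (hz : z ∈ H.Lam M) (hxz : x < z) (hzy : z ≤ y) (hnz : H.Nt x z) :
    ∃ z' ∈ H.Lam M, x < z' ∧ z' ≤ y ∧ H.Nt x z' ∧ H.rho z < H.rho z' := by
  have hcM : H.Coh M := H.KK_coh hM.1
  have hcM' : H.Coh M' := H.KK_coh hM'
  have hxM : x ∈ H.Lam M := H.Lam_mono h hc.1
  have hyM : y ∈ H.Lam M := H.Lam_mono h hc.2.1
  have hcard : (H.fr z \ H.fr x).card = 1 := by
    have h1 : (H.fr z).card = (H.fr x).card := (hM.2 z hz).trans (hM.2 x hxM).symm
    rw [Finset.card_sdiff_comm h1]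
    exact hnz
  obtain ⟨e, he⟩ := Finset.card_eq_one.mp hcard
  obtain ⟨e0, he0⟩ := Finset.card_eq_one.mp hnz
  have hez : e ∈ H.fr z ∧ e ∉ H.fr x := by
    have : e ∈ H.fr z \ H.fr x := by rw [he]; exact Finset.mem_singleton_self e
    exact Finset.mem_sdiff.mp this
  have hez0 : e0 ∈ H.fr x ∧ e0 ∉ H.fr z := by
    have : e0 ∈ H.fr x \ H.fr z := by rw [he0]; exact Finset.mem_singleton_self e0
    exact Finset.mem_sdiff.mp this
  have heM' : e ∉ M' := by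
    intro heM
    have hzM' : z ∈ H.Lam M' := by
      refine ⟨hz.1, fun c hcz => ?_⟩
      by_cases hcx : c ∈ H.fr x
      · exact hc.1.2 c hcx
      · have h1 : c ∈ H.fr z \ H.fr x := Finset.mem_sdiff.mpr ⟨hcz, hcx⟩
        rw [he, Finset.mem_singleton] at h1
        rw [h1]
        exact heM
    rcases hc.2.2.2 z hzM' hxz.le hzy with h1 | h1
    · exact absurd h1 hxz.ne'
    · rw [h1] at hnz
      exact hn hnz
  have hey : e ∉ H.fr y := fun h1 => heM' (hc.2.1.2 e h1)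
  obtain ⟨p, q, hpq, hzp, hqy, hep, heq⟩ :=
    SubL.exists_cov_leave (H.subL_Lam hcM) hz hyM hzy hez.1 hey
  have hpq' : p ≤ q := hpq.2.2.1.le
  have hnpq : H.Nt p q := by
    by_contra hnn
    have h1 := (CY_CStar_stepA H hM.1 hM' h hCo hc hpq (hxz.le.trans hzp) hqy hnn).1
    rw [h1] at hzp
    exact absurd (lt_of_lt_of_le hxz hzp) (lt_irrefl x)
  have hpe : ∀ c, c ∈ H.fr p → c ∉ H.fr q → c = e := by
    obtain ⟨a, ha⟩ := Finset.card_eq_one.mp hnpq
    have h1 : e ∈ H.fr p \ H.fr q := Finset.mem_sdiff.mpr ⟨hep, heq⟩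
    rw [ha, Finset.mem_singleton] at h1
    intro c hcp hcq
    have h2 : c ∈ H.fr p \ H.fr q := Finset.mem_sdiff.mpr ⟨hcp, hcq⟩
    rw [ha, Finset.mem_singleton] at h2
    rw [h1, h2]
  have hyt : y ≤ H.t x := SubL.cov_le_t (H.subL_Lam hcM') hc
  have htz : H.t x ≤ H.t z := H.t.monotone hxz.le
  obtain ⟨z', hz', hzz', hz'q, hinf, hsup, hind, hrho⟩ :=
    H.compl_mem hcM hz hpq.1 hpq.2.1 hzp hpq' (hqy.trans (hyt.trans htz))
      (fun c hcp => by
        by_cases hcq : c ∈ H.fr q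
        · exact Or.inr hcq
        · rw [hpe c hcp hcq]
          exact Or.inl hez.1)
  refine ⟨z', hz', lt_of_lt_of_le hxz hzz', hz'q.trans hqy, ?_, ?_⟩
  · refine Finset.card_eq_one.mpr ⟨e0, ?_⟩
    ext c
    rw [Finset.mem_sdiff, Finset.mem_singleton]
    constructor
    · rintro ⟨hcx, hcz'⟩
      by_cases hcz : c ∈ H.fr z
      · exfalso
        have h1 := hind c
        rw [(H.ind_eq_one).mpr hcz, (H.ind_eq_zero).mpr hcz'] at h1
        have h2 := H.ind_le_one c p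
        have h3 := H.ind_nonneg c q
        have hp1 : c ∈ H.fr p := (H.ind_eq_one).mp (by omega)
        have hq0 : c ∉ H.fr q := (H.ind_eq_zero).mp (by omega)
        rw [hpe c hp1 hq0] at hcx
        exact hez.2 hcx
      · have h1 : c ∈ H.fr x \ H.fr z := Finset.mem_sdiff.mpr ⟨hcx, hcz⟩
        rw [he0, Finset.mem_singleton] at h1
        exact h1
    · intro hce
      rw [hce]
      refine ⟨hez0.1, fun hcz' => ?_⟩
      have h1 := hind e0
      rw [(H.ind_eq_one).mpr hcz', (H.ind_eq_zero).mpr hez0.2] at h1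
      have h2 := H.ind_le_one e0 q
      have h3 := H.ind_nonneg e0 p
      have hq1 : e0 ∈ H.fr q := (H.ind_eq_one).mp (by omega)
      have hp0 : e0 ∉ H.fr p := (H.ind_eq_zero).mp (by omega)
      exact hp0 (H.conv x p q e0 (hxz.le.trans hzp) hpq' hez0.1 hq1)
  · have h1 := H.rho_lt p q hpq.2.2.1
    omega

theorem star1 {N : ℕ} {M M' : Set C} (hM : M ∈ H.HN N) (hM' : M' ∈ H.KK) (h : M' ⊆ M)
    (hCo : H.Co M ⊆ M') {x y : X} (hc : Cov (H.Lam M') x y) (hn : ¬ H.Nt x y) :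
    Cov (H.Lam M) x y := by
  have hcM : H.Coh M := H.KK_coh hM.1
  have hxM : x ∈ H.Lam M := H.Lam_mono h hc.1
  have hyM : y ∈ H.Lam M := H.Lam_mono h hc.2.1
  have key : ∀ n : ℕ, ∀ z ∈ H.Lam M, x < z → z ≤ y → H.Nt x z →
      (H.rho y - H.rho z).toNat < n → False := by
    intro n
    induction n with
    | zero => intro z _ _ _ _ h1; omega
    | succ n ih =>
      intro z hz hxz hzy hnz hlt
      obtain ⟨z', hz', hxz', hzy', hnz', hr⟩ := CY_CStar_step H hM hM' h hCo hc hn hz hxz hzy hnz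
      have hry : H.rho z' ≤ H.rho y := by
        rcases hzy'.eq_or_lt with h1 | h1
        · rw [h1]
        · exact (H.rho_lt z' y h1).le
      exact ih z' hz' hxz' hzy' hnz' (by omega)
  obtain ⟨z, hxz, hzy⟩ := SubL.exists_cov (H.subL_Lam hcM) hxM hyM hc.2.2.1
  by_cases hnz : H.Nt x z
  · exact (key _ z hxz.2.1 hxz.2.2.1 hzy hnz (Nat.lt_succ_self _)).elim
  · have h1 := (CY_CStar_stepA H hM.1 hM' h hCo hc hxz le_rfl hzy hnz).2
    rw [h1] at hxz
    exact hxz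

theorem Co_mono {N : ℕ} {M M' : Set C} (hM : M ∈ H.HN N) (hM' : M' ∈ H.KK) (h : M' ⊆ M)
    (hCo : H.Co M ⊆ M') : H.Co M' ⊆ H.Co M := by
  rintro c ⟨x, y, hc, hn, hd⟩
  exact ⟨x, y, H.star1 hM hM' h hCo hc hn, hn, hd⟩

private theorem CY_CStar_inv {M : Set C} (hM : H.Coh M) (c : C) (k : ℤ) (hc : c ∈ H.Co M) :
    (H.tc ^ k) c ∈ H.Co M := by
  obtain ⟨x, y, hxy, hn, hd⟩ := hc
  refine ⟨H.T k x, H.T k y, SubL.cov_T (H.subL_Lam hM) hxy k, ?_, ?_⟩
  · intro h1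
    apply hn
    unfold Nt at h1 ⊢
    rw [H.diff_T] at h1
    exact h1
  · rw [H.fr_T, H.fr_T]
    exact hd

theorem Co_inv {M : Set C} (hM : H.Coh M) : H.Inv (H.Co M) := by
  intro c k
  constructor
  · intro h1
    have h2 := CY_CStar_inv H hM _ (-k) h1
    rw [← H.tc_add, neg_add_cancel, zpow_zero] at h2
    exact h2
  · exact CY_CStar_inv H hM c k

theorem Co_sub (M : Set C) : H.Co M ⊆ M := by
  rintro c ⟨x, y, hxy, -, h1 | h1⟩
  · exact hxy.1.2 c h1.1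
  · exact hxy.2.1.2 c h1.2

end HLat
end TorA
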