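import Pool.Agent.Lib.MP_05cdf2_gt.A.TPC
import Pool.Agent.Lib.MP_05cdf2_gt.A.TCon

/-! MP_05cdf2_gt, stream A, toolkit, job TJoin: the join (ordinal sum) of two sets `P < Q` of a ordered set.

Every list of `Po (P ∪ Q)` is `a ++ b`, `a ∈ Po P`, `b ∈ Po Q` (`a = filter (· ∈ P)`, `b = filter (· ∉ P)`), uniquely.
Boundary: `bd (a ++ b) = (bd a) ++ b + (-1)^{|a|} a ++ (bd b)` (induction on `a`).
`s1`, `s2` truncated contractions of `Po P` (up to `a0`) and `Po Q` (up to `b0`) (`exists_pc`). WLOG (redefine) `s1 l = 0` for `l.length ≥ a0`.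
Let `E1 l = l - bd (s1 l) - s1 (bd l)` for `l ∈ Po P`: it is a chain map, it vanishes on lists of length `< a0` and keeps the length
(`s1 l = 0` if the length is `≥ a0`). Same for `E2`. On lists `l = a ++ b` of `Po (P ∪ Q)` put
 `H1 l = (s1 a) ++ b`, `F l = (E1 a) ++ b`, `H2 (a ++ b) = (-1)^{|a|} a ++ (s2 b)`, `F2 (a ++ b) = a ++ (E2 b)`.
Then `bd H1 + H1 bd = id - F`, `bd H2 + H2 bd = id - F2` on `Sup (Po (P ∪ Q))`. For a cycle `z` of length `m < a0 + b0`:
`z = bd (H1 z) + F z`; `F z` is a cycle supported on `a ++ b` with `|a| ≥ a0`, so `|b| < b0`, so `F2 (F z) = 0` and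
`F z = bd (H2 (F z))`. So `z = bd (H1 z + H2 (F z))`. -/

set_option autoImplicit false

namespace TorA
open Finsupp Tor

variable {α : Type}

/-- concatenation of chains -/
noncomputable def TJoin_cat : Ch α →ₗ[ℤ] Ch α →ₗ[ℤ] Ch α :=
  Finsupp.linearCombination ℤ (fun a : List α =>
    (Finsupp.lmapDomain ℤ ℤ (fun b : List α => a ++ b) : Ch α →ₗ[ℤ] Ch α))

theorem TJoin_cat_single (a b : List α) :
    TJoin_cat (single a 1) (single b 1) = (single (a ++ b) 1 : Ch α) := by
  simp [TJoin_cat]

theorem TJoin_cat_cone (x : α) (u v : Ch α) : cone x (TJoin_cat u v) = TJoin_cat (cone x u) v := by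
  have h1 : ((LinearMap.compr₂ TJoin_cat (cone x)).flip v) = (TJoin_cat.comp (cone x)).flip v := by
    apply Ch.ext_lin
    intro a
    have h2 : (LinearMap.compr₂ TJoin_cat (cone x)) (single a 1)
        = (TJoin_cat.comp (cone x)) (single a 1) := by
      apply Ch.ext_lin
      intro b
      simp [TJoin_cat_single]
    rw [LinearMap.flip_apply, LinearMap.flip_apply, h2]
  exact LinearMap.congr_fun h1 u

/-- bilinear maps which agree on generators -/
theorem TJoin_bil {M : Type} [AddCommGroup M] {S T : Set (List α)}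
    (B1 B2 : Ch α →ₗ[ℤ] Ch α →ₗ[ℤ] M)
    (h : ∀ a ∈ S, ∀ b ∈ T, B1 (single a 1) (single b 1) = B2 (single a 1) (single b 1))
    {u v : Ch α} (hu : u ∈ Sup S) (hv : v ∈ Sup T) : B1 u v = B2 u v := by
  have h1 := supp_eq (B1.flip v) (B2.flip v) (T := S) (fun a ha => by
    rw [LinearMap.flip_apply, LinearMap.flip_apply]
    exact supp_eq (B1 (single a 1)) (B2 (single a 1)) (T := T) (fun b hb => h a ha b hb) hv) hu
  rwa [LinearMap.flip_apply, LinearMap.flip_apply] at h1

theorem TJoin_cat_mem {S T R : Set (List α)} (h : ∀ a ∈ S, ∀ b ∈ T, a ++ b ∈ R)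
    {u v : Ch α} (hu : u ∈ Sup S) (hv : v ∈ Sup T) : TJoin_cat u v ∈ Sup R := by
  have h1 : (TJoin_cat.flip v) u ∈ Sup R := by
    refine supp_map _ _ (fun a ha => ?_) hu
    rw [LinearMap.flip_apply]
    refine supp_map _ _ (fun b hb => ?_) hv
    rw [TJoin_cat_single]
    exact single_mem_Sup (h a ha b hb) 1
  rwa [LinearMap.flip_apply] at h1

theorem TJoin_bdL (a b : List α) : bdL (a ++ b) = TJoin_cat (bdL a) (single b 1)
    + (-1 : ℤ) ^ a.length • TJoin_cat (single a 1) (bdL b) := by
  induction a with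
  | nil =>
    have h1 : ∀ c : Ch α, TJoin_cat (single [] 1) c = c := by
      intro c
      have h2 : mapDomain (fun b : List α => b) c = c := mapDomain_id
      simpa [TJoin_cat] using h2
    simp [bdL_nil, h1]
  | cons x a ih =>
    rw [List.cons_append, bdL_cons, ih, bdL_cons, map_sub, LinearMap.sub_apply, TJoin_cat_single,
      map_add, map_smul, TJoin_cat_cone, TJoin_cat_cone, cone_single, List.length_cons, pow_succ]
    module

theorem TJoin_bd {p : ℕ} {u v : Ch α} (hu : u ∈ Sup {a : List α | a.length = p}) :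
    bd (TJoin_cat u v) = TJoin_cat (bd u) v + (-1 : ℤ) ^ p • TJoin_cat u (bd v) := by
  have h1 := TJoin_bil (S := {a : List α | a.length = p}) (T := Set.univ)
    (LinearMap.compr₂ TJoin_cat bd)
    (TJoin_cat.comp bd + (-1 : ℤ) ^ p • TJoin_cat.compl₂ bd) (fun a ha b _ => by
      have ha' : a.length = p := ha
      simp only [LinearMap.compr₂_apply, LinearMap.add_apply, LinearMap.smul_apply,
        LinearMap.comp_apply, LinearMap.compl₂_apply, TJoin_cat_single, bd_single, one_smul]
      rw [TJoin_bdL, ha'])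
    hu (v := v) (by rw [Finsupp.mem_supported]; exact Set.subset_univ _)
  simp only [LinearMap.compr₂_apply, LinearMap.add_apply, LinearMap.smul_apply,
        LinearMap.comp_apply, LinearMap.compl₂_apply] at h1
  exact h1

section
variable [PartialOrder α] {P Q : Set α}

open Classical in
theorem TJoin_split (h : ∀ x ∈ P, ∀ y ∈ Q, x < y) {l : List α} (hl : l ∈ Po (P ∪ Q)) :
    l = l.filter (fun x => decide (x ∈ P)) ++ l.filter (fun x => !decide (x ∈ P)) := by
  induction l with
  | nil => simp
  | cons x l ih =>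
    have hl' : l ∈ Po (P ∪ Q) := Po_closed _ _ hl l (List.sublist_cons_self x l)
    have ih' := ih hl'
    by_cases hx : x ∈ P
    · rw [List.filter_cons, List.filter_cons]
      simp only [hx, decide_true, if_true, Bool.not_true, Bool.false_eq_true, if_false,
        List.cons_append]
      rw [← ih']
    · have hxQ : x ∈ Q := (hl.2 x (List.mem_cons_self)).resolve_left hx
      have hall : ∀ y ∈ l, y ∉ P := by
        intro y hy hyP
        have h1 : x ≤ y := (List.pairwise_cons.1 hl.1).1 y hy
        exact absurd (h y hyP x hxQ) (not_lt_of_ge h1)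
      have e1 : (x :: l).filter (fun x => decide (x ∈ P)) = [] := by
        rw [List.filter_eq_nil_iff]
        intro y hy
        rcases List.mem_cons.1 hy with rfl | hy
        · simpa using hx
        · simpa using hall y hy
      have e2 : (x :: l).filter (fun x => !decide (x ∈ P)) = x :: l := by
        rw [List.filter_eq_self]
        intro y hy
        rcases List.mem_cons.1 hy with rfl | hy
        · simpa using hx
        · simpa using hall y hy
      rw [e1, e2, List.nil_append]

open Classical in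
theorem TJoin_fst (h : ∀ x ∈ P, ∀ y ∈ Q, x < y) {a b : List α} (ha : a ∈ Po P) (hb : b ∈ Po Q) :
    (a ++ b).filter (fun x => decide (x ∈ P)) = a := by
  rw [List.filter_append]
  have e1 : a.filter (fun x => decide (x ∈ P)) = a := by
    rw [List.filter_eq_self]
    intro y hy
    simpa using ha.2 y hy
  have e2 : b.filter (fun x => decide (x ∈ P)) = [] := by
    rw [List.filter_eq_nil_iff]
    intro y hy
    have : y ∉ P := fun hP => lt_irrefl y (h y hP y (hb.2 y hy))
    simpa using this
  rw [e1, e2, List.append_nil]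

open Classical in
theorem TJoin_snd (h : ∀ x ∈ P, ∀ y ∈ Q, x < y) {a b : List α} (ha : a ∈ Po P) (hb : b ∈ Po Q) :
    (a ++ b).filter (fun x => !decide (x ∈ P)) = b := by
  rw [List.filter_append]
  have e1 : a.filter (fun x => !decide (x ∈ P)) = [] := by
    rw [List.filter_eq_nil_iff]
    intro y hy
    simpa using ha.2 y hy
  have e2 : b.filter (fun x => !decide (x ∈ P)) = b := by
    rw [List.filter_eq_self]
    intro y hy
    have : y ∉ P := fun hP => lt_irrefl y (h y hP y (hb.2 y hy))
    simpa using this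
  rw [e1, e2, List.nil_append]

theorem TJoin_append_mem (h : ∀ x ∈ P, ∀ y ∈ Q, x < y) {a b : List α} (ha : a ∈ Po P)
    (hb : b ∈ Po Q) : a ++ b ∈ Po (P ∪ Q) := by
  refine ⟨?_, ?_⟩
  · rw [List.pairwise_append]
    exact ⟨ha.1, hb.1, fun x hx y hy => (h x (ha.2 x hx) y (hb.2 y hy)).le⟩
  · intro x hx
    rcases List.mem_append.1 hx with hx | hx
    · exact Or.inl (ha.2 x hx)
    · exact Or.inr (hb.2 x hx)

open Classical in
theorem TJoin_mem_split (h : ∀ x ∈ P, ∀ y ∈ Q, x < y) {l : List α} (hl : l ∈ Po (P ∪ Q)) :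
    ∃ a ∈ Po P, ∃ b ∈ Po Q, l = a ++ b := by
  refine ⟨l.filter (fun x => decide (x ∈ P)), ⟨hl.1.sublist List.filter_sublist, ?_⟩,
    l.filter (fun x => !decide (x ∈ P)), ⟨hl.1.sublist List.filter_sublist, ?_⟩,
    TJoin_split h hl⟩
  · intro x hx
    simpa using (List.mem_filter.1 hx).2
  · intro x hx
    have h1 := List.mem_filter.1 hx
    have h2 : x ∉ P := by simpa using h1.2
    exact (hl.2 x h1.1).resolve_left h2

omit [PartialOrder α] in
theorem TJoin_bdL_mem {S : Set (List α)} (hS : Closed S) {l : List α} (hl : l ∈ S) :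
    bdL l ∈ Sup S := by
  have h1 := bd_mem_Sup hS (single_mem_Sup hl 1)
  rwa [bd_single, one_smul] at h1

theorem Ac_join (h : ∀ x ∈ P, ∀ y ∈ Q, x < y) {a b : ℕ}
    (hP : Ac (Po P) a) (hQ : Ac (Po Q) b) : Ac (Po (P ∪ Q)) (a + b) := by
  classical
  obtain ⟨s1, hs1⟩ := exists_pc (Po_closed P) hP
  obtain ⟨s2, hs2⟩ := exists_pc (Po_closed Q) hQ
  intro m hm z hz hbz
  -- the two operators
  obtain ⟨H1, hH1⟩ : ∃ H1 : Ch α →ₗ[ℤ] Ch α, ∀ l : List α, H1 (single l 1) =
      if (l.filter (fun x => decide (x ∈ P))).length < a then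
        TJoin_cat (s1 (single (l.filter (fun x => decide (x ∈ P))) 1))
          (single (l.filter (fun x => !decide (x ∈ P))) 1) else 0 := by
    refine ⟨Finsupp.linearCombination ℤ (fun l : List α =>
      if (l.filter (fun x => decide (x ∈ P))).length < a then
        TJoin_cat (s1 (single (l.filter (fun x => decide (x ∈ P))) 1))
          (single (l.filter (fun x => !decide (x ∈ P))) 1) else 0), fun l => ?_⟩
    rw [Finsupp.linearCombination_single, one_smul]
  obtain ⟨H2, hH2⟩ : ∃ H2 : Ch α →ₗ[ℤ] Ch α, ∀ l : List α, H2 (single l 1) =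
      (-1 : ℤ) ^ (l.filter (fun x => decide (x ∈ P))).length •
        TJoin_cat (single (l.filter (fun x => decide (x ∈ P))) 1)
          (s2 (single (l.filter (fun x => !decide (x ∈ P))) 1)) := by
    refine ⟨Finsupp.linearCombination ℤ (fun l : List α =>
      (-1 : ℤ) ^ (l.filter (fun x => decide (x ∈ P))).length •
        TJoin_cat (single (l.filter (fun x => decide (x ∈ P))) 1)
          (s2 (single (l.filter (fun x => !decide (x ∈ P))) 1))), fun l => ?_⟩
    rw [Finsupp.linearCombination_single, one_smul]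
  -- on concatenations
  have c1 : ∀ {u v : Ch α}, u ∈ Sup {l : List α | l ∈ Po P ∧ l.length < a} → v ∈ Sup (Po Q) →
      H1 (TJoin_cat u v) = TJoin_cat (s1 u) v := by
    intro u v hu hv
    refine TJoin_bil (LinearMap.compr₂ TJoin_cat H1) (TJoin_cat.comp s1) ?_ hu hv
    rintro l ⟨hl, hlen⟩ k hk
    rw [LinearMap.compr₂_apply, TJoin_cat_single, hH1, TJoin_fst h hl hk, TJoin_snd h hl hk,
      if_pos hlen, LinearMap.comp_apply]
  have c1' : ∀ {u v : Ch α}, u ∈ Sup {l : List α | l ∈ Po P ∧ a ≤ l.length} → v ∈ Sup (Po Q) →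
      H1 (TJoin_cat u v) = 0 := by
    intro u v hu hv
    refine TJoin_bil (LinearMap.compr₂ TJoin_cat H1) 0 ?_ hu hv
    rintro l ⟨hl, hlen⟩ k hk
    rw [LinearMap.compr₂_apply, TJoin_cat_single, hH1, TJoin_fst h hl hk, TJoin_snd h hl hk,
      if_neg (not_lt.2 hlen)]
    rfl
  have c2 : ∀ {p : ℕ} {u v : Ch α}, u ∈ Sup (Ln (Po P) p) → v ∈ Sup (Po Q) →
      H2 (TJoin_cat u v) = (-1 : ℤ) ^ p • TJoin_cat u (s2 v) := by
    intro p u v hu hv
    refine TJoin_bil (LinearMap.compr₂ TJoin_cat H2) ((-1 : ℤ) ^ p • TJoin_cat.compl₂ s2) ?_ hu hv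
    rintro l ⟨hl, hlen⟩ k hk
    rw [LinearMap.compr₂_apply, TJoin_cat_single, hH2, TJoin_fst h hl hk, TJoin_snd h hl hk, hlen,
      LinearMap.smul_apply, LinearMap.smul_apply, LinearMap.compl₂_apply]
  -- the boundary of a list of P
  have hbda : ∀ {l : List α}, l ∈ Po P → ∀ p, l.length = p + 1 → bdL l ∈ Sup (Ln (Po P) p) := by
    intro l hl p hp
    rw [Finsupp.mem_supported]
    intro l' hl'
    obtain ⟨h1, h2⟩ := bdL_support l l' hl'
    exact ⟨Po_closed P l hl l' h1, by omega⟩
  have hbdb : ∀ {l : List α}, l ∈ Po Q → ∀ p, l.length = p + 1 → bdL l ∈ Sup (Ln (Po Q) p) := by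
    intro l hl p hp
    rw [Finsupp.mem_supported]
    intro l' hl'
    obtain ⟨h1, h2⟩ := bdL_support l l' hl'
    exact ⟨Po_closed Q l hl l' h1, by omega⟩
  -- the support of the remainder
  have hY : z - bd (H1 z) ∈ Sup {l : List α | ∃ k ∈ Po P, ∃ r ∈ Po Q, l = k ++ r ∧
      a ≤ k.length ∧ k.length + r.length = m} := by
    have h1 : ((LinearMap.id : Ch α →ₗ[ℤ] Ch α) - bd ∘ₗ H1 - H1 ∘ₗ bd) z ∈ Sup {l : List α | ∃ k ∈ Po P, ∃ r ∈ Po Q,
        l = k ++ r ∧ a ≤ k.length ∧ k.length + r.length = m} := by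
      refine map_Sup _ _ ?_ hz
      rintro l ⟨hl, hlm⟩
      obtain ⟨k, hk, r, hr, rfl⟩ := TJoin_mem_split h hl
      have hlen : k.length + r.length = m := by
        rw [← hlm, List.length_append]
      have hk1 : (single k 1 : Ch α) ∈ Sup {l : List α | l.length = k.length} :=
        single_mem_Sup (S := {l : List α | l.length = k.length}) rfl 1
      simp only [LinearMap.sub_apply, LinearMap.id_apply, LinearMap.comp_apply, bd_single, one_smul]
      rw [TJoin_bdL, map_add, map_smul, hH1, TJoin_fst h hk hr, TJoin_snd h hk hr]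
      have hr1 : (single r 1 : Ch α) ∈ Sup (Po Q) := single_mem_Sup hr 1
      by_cases hka : k.length < a
      · rw [if_pos hka]
        obtain ⟨hm1, he1⟩ := hs1 k hk hka
        have hm1' : s1 (single k 1) ∈ Sup {l : List α | l.length = k.length + 1} :=
          Sup_mono (fun l hl => hl.2) hm1
        rw [TJoin_bd hm1', bd_single, one_smul]
        have e1 : H1 (TJoin_cat (bdL k) (single r 1)) = TJoin_cat (s1 (bdL k)) (single r 1) := by
          refine c1 ?_ hr1
          rw [Finsupp.mem_supported]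
          intro l' hl'
          obtain ⟨h1, h2⟩ := bdL_support k l' hl'
          exact ⟨Po_closed P k hk l' h1, by omega⟩
        have e2 : H1 (TJoin_cat (single k 1) (bdL r)) = TJoin_cat (s1 (single k 1)) (bdL r) :=
          c1 (single_mem_Sup (S := {l : List α | l ∈ Po P ∧ l.length < a}) ⟨hk, hka⟩ 1)
            (TJoin_bdL_mem (Po_closed Q) hr)
        rw [e1, e2]
        have e3 : (single (k ++ r) 1 : Ch α)
            = TJoin_cat (bd (s1 (single k 1))) (single r 1) + TJoin_cat (s1 (bdL k)) (single r 1) := by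
          rw [← LinearMap.add_apply, ← map_add, he1, TJoin_cat_single]
        rw [e3, pow_succ]
        have e4 : TJoin_cat (bd (s1 (single k 1))) (single r 1)
              + TJoin_cat (s1 (bdL k)) (single r 1)
              - (TJoin_cat (bd (s1 (single k 1))) (single r 1)
                + ((-1 : ℤ) ^ k.length * -1) • TJoin_cat (s1 (single k 1)) (bdL r))
              - (TJoin_cat (s1 (bdL k)) (single r 1)
                + (-1 : ℤ) ^ k.length • TJoin_cat (s1 (single k 1)) (bdL r)) = 0 := by
          module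
        rw [e4]
        exact Submodule.zero_mem _
      · rw [if_neg hka, map_zero, sub_zero]
        have hka' : a ≤ k.length := not_lt.1 hka
        have e2 : H1 (TJoin_cat (single k 1) (bdL r)) = 0 :=
          c1' (single_mem_Sup (S := {l : List α | l ∈ Po P ∧ a ≤ l.length}) ⟨hk, hka'⟩ 1)
            (TJoin_bdL_mem (Po_closed Q) hr)
        rw [e2, smul_zero, add_zero]
        refine Submodule.sub_mem _ (single_mem_Sup (S := {l : List α | ∃ k ∈ Po P, ∃ r ∈ Po Q,
          l = k ++ r ∧ a ≤ k.length ∧ k.length + r.length = m})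
          ⟨k, hk, r, hr, rfl, hka', hlen⟩ 1) ?_
        rcases Nat.eq_zero_or_pos k.length with h0 | hpos
        · rw [List.length_eq_zero_iff] at h0
          subst h0
          rw [bdL_nil, map_zero, LinearMap.zero_apply, map_zero]
          exact Submodule.zero_mem _
        · obtain ⟨p, hp⟩ : ∃ p, k.length = p + 1 := ⟨k.length - 1, by omega⟩
          have hb1 := hbda hk p hp
          by_cases hpa : p < a
          · have e1 : H1 (TJoin_cat (bdL k) (single r 1)) = TJoin_cat (s1 (bdL k)) (single r 1) := by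
              refine c1 (Sup_mono ?_ hb1) hr1
              rintro l' ⟨h1, h2⟩
              exact ⟨h1, by omega⟩
            rw [e1]
            refine TJoin_cat_mem (S := Ln (Po P) (p + 1)) (T := {r}) ?_ (hs1.mem hpa hb1)
              (single_mem_Sup (Set.mem_singleton r) 1)
            rintro l' ⟨h1, h2⟩ r' hr'
            rw [Set.mem_singleton_iff] at hr'
            subst hr'
            exact ⟨l', h1, r', hr, rfl, by omega, by omega⟩
          · have e1 : H1 (TJoin_cat (bdL k) (single r 1)) = 0 := by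
              refine c1' (Sup_mono ?_ hb1) hr1
              rintro l' ⟨h1, h2⟩
              exact ⟨h1, by omega⟩
            rw [e1]
            exact Submodule.zero_mem _
    simpa [hbz] using h1
  obtain ⟨y, hy⟩ : ∃ y : Ch α, y = z - bd (H1 z) := ⟨_, rfl⟩
  rw [← hy] at hY
  have hby : bd y = 0 := by
    rw [hy, map_sub, hbz, bd_bd, sub_zero]
  have hG : bd (H2 y) + H2 (bd y) = y := by
    have h1 := supp_eq (bd ∘ₗ H2 + H2 ∘ₗ bd) (LinearMap.id : Ch α →ₗ[ℤ] Ch α)
      (T := {l : List α | ∃ k ∈ Po P, ∃ r ∈ Po Q, l = k ++ r ∧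
      a ≤ k.length ∧ k.length + r.length = m}) ?_ hY
    · simpa using h1
    · rintro l ⟨k, hk, r, hr, rfl, hka, hlen⟩
      have hrb : r.length < b := by omega
      have hk1 : (single k 1 : Ch α) ∈ Sup {l : List α | l.length = k.length} :=
        single_mem_Sup (S := {l : List α | l.length = k.length}) rfl 1
      have hr1 : (single r 1 : Ch α) ∈ Sup (Po Q) := single_mem_Sup hr 1
      obtain ⟨hm2, he2⟩ := hs2 r hr hrb
      simp only [LinearMap.add_apply, LinearMap.id_apply, LinearMap.comp_apply, bd_single, one_smul]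
      rw [hH2, TJoin_fst h hk hr, TJoin_snd h hk hr, map_smul, TJoin_bd hk1, TJoin_bdL, map_add,
        map_smul, bd_single, one_smul]
      have e2 : H2 (TJoin_cat (single k 1) (bdL r))
          = (-1 : ℤ) ^ k.length • TJoin_cat (single k 1) (s2 (bdL r)) :=
        c2 (single_mem_Sup (S := Ln (Po P) k.length) ⟨hk, rfl⟩ 1) (TJoin_bdL_mem (Po_closed Q) hr)
      have e1 : H2 (TJoin_cat (bdL k) (single r 1))
          = -((-1 : ℤ) ^ k.length • TJoin_cat (bdL k) (s2 (single r 1))) := by
        rcases Nat.eq_zero_or_pos k.length with h0 | hpos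
        · rw [List.length_eq_zero_iff] at h0
          subst h0
          simp [bdL_nil]
        · obtain ⟨p, hp⟩ : ∃ p, k.length = p + 1 := ⟨k.length - 1, by omega⟩
          rw [c2 (hbda hk p hp) hr1, hp, pow_succ]
          module
      rw [e1, e2]
      have e3 : (single (k ++ r) 1 : Ch α)
          = TJoin_cat (single k 1) (bd (s2 (single r 1))) + TJoin_cat (single k 1) (s2 (bdL r)) := by
        rw [← map_add, he2, TJoin_cat_single]
      have e5 : (-1 : ℤ) ^ k.length * (-1 : ℤ) ^ k.length = 1 := by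
        rw [← pow_add, ← two_mul]
        exact Even.neg_one_pow ⟨k.length, by ring⟩
      rw [e3, smul_add, smul_smul, smul_smul, e5]
      module
  rw [hby, map_zero, add_zero] at hG
  refine ⟨H1 z + H2 y, Submodule.add_mem _ ?_ ?_, ?_⟩
  · refine map_Sup H1 _ ?_ hz
    rintro l ⟨hl, hlm⟩
    obtain ⟨k, hk, r, hr, rfl⟩ := TJoin_mem_split h hl
    rw [hH1, TJoin_fst h hk hr, TJoin_snd h hk hr]
    split_ifs with hka
    · refine TJoin_cat_mem (S := Ln (Po P) (k.length + 1)) (T := {r}) ?_ (hs1 k hk hka).1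
        (single_mem_Sup (Set.mem_singleton r) 1)
      rintro l' ⟨h1, h2⟩ r' hr'
      rw [Set.mem_singleton_iff] at hr'
      subst hr'
      refine ⟨TJoin_append_mem h h1 hr, ?_⟩
      rw [List.length_append] at hlm ⊢
      omega
    · exact Submodule.zero_mem _
  · refine map_Sup H2 _ ?_ hY
    rintro l ⟨k, hk, r, hr, rfl, hka, hlen⟩
    have hrb : r.length < b := by omega
    rw [hH2, TJoin_fst h hk hr, TJoin_snd h hk hr]
    refine Submodule.smul_mem _ _ ?_
    refine TJoin_cat_mem (S := {k}) (T := Ln (Po Q) (r.length + 1)) ?_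
      (single_mem_Sup (Set.mem_singleton k) 1) (hs2 r hr hrb).1
    rintro k' hk' l' ⟨h1, h2⟩
    rw [Set.mem_singleton_iff] at hk'
    subst hk'
    refine ⟨TJoin_append_mem h hk h1, ?_⟩
    rw [List.length_append]
    omega
  · rw [map_add, hG, hy]
    abel

end

/-- the join with an acyclic set is acyclic -/
theorem AcI_join_left [PartialOrder α] {P Q : Set α} (h : ∀ x ∈ P, ∀ y ∈ Q, x < y)
    (hP : AcI (Po P)) : AcI (Po (P ∪ Q)) := by
  intro n
  exact Ac_join h (hP n) (Ac_zero _)

theorem AcI_join_right [PartialOrder α] {P Q : Set α} (h : ∀ x ∈ P, ∀ y ∈ Q, x < y)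
    (hQ : AcI (Po Q)) : AcI (Po (P ∪ Q)) := by
  intro n
  have := Ac_join h (Ac_zero _) (hQ n)
  rwa [Nat.zero_add] at this

end TorA
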