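import Pool.Agent.Lib.MP_05cdf2_gt.A.CKK
import Pool.Agent.Lib.MP_05cdf2_gt.A.TJoin

/-! MP_05cdf2_gt, stream A (abstract cyclic step), job CUpA: the ordinal sum of the strictly inner parts of the steps of a frame.

`ord_sum`: induction on `n` with `Ac_join` (`P` = union of the first `n` sets, `Q = A n`; every element of `P` is `< x (k+1) ≤ x n <` every element of `Q`).
`Qs_ac`: step `k` of a frame `F` of `Lam M`, `M ∈ HN N`: `x = F.x k < y = F.x (k+1) ≤ t x` (`CSeq.le_t`), `w = N` on both. No `z` with `x < z < y` has `fr z ⊆ fr x ∪ fr y`: otherwise `fr z ⊆ M`, `z ≤ y ≤ t x ≤ t z`, `z ∈ Lam M`, contradiction to `F.cov k`.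
If not `Nt x y`: `(fr x \ fr y).card ≥ 2` (it is not 0: otherwise `fr x ⊆ fr y`, same size, `fr x = fr y`, `inj`); field `In1` gives `Ac (Po (Qs F N k)) (nn x y).toNat`. If `Nt x y`: field `In2`.
`upA`: `QQ F N` = union of the `Qs F N k`, `k < F.n`; `ord_sum` with `a k = (nn (x k) (x (k+1)) - [Nt]).toNat`; `∑ a k ≥ ∑ nn (x k) (x (k+1)) - nu F ≥ nn (x 0) (x n) - nu F ≥ G - nu F` (`x n = t (x 0)`, `nn_sub`, `nn_G`; `nu F` is the number of neutral
steps in the range, `Finset.card_filter`); `Ac.mono`. -/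

set_option autoImplicit false

namespace TorA
open Finsupp Tor

theorem ord_sum {X : Type} [PartialOrder X] {n : ℕ} {A : ℕ → Set X} {x : ℕ → X}
    (hA : ∀ k < n, ∀ z ∈ A k, x k < z ∧ z < x (k + 1)) (hx : ∀ k < n, x k ≤ x (k + 1)) {a : ℕ → ℕ}
    (h : ∀ k < n, Ac (Po (A k)) (a k)) :
    Ac (Po {z | ∃ k, k < n ∧ z ∈ A k}) (∑ k ∈ Finset.range n, a k) := by
  induction n with
  | zero =>
    rw [Finset.range_zero, Finset.sum_empty]
    exact Ac_zero _
  | succ n ih =>
    have ih' := ih (fun k hk => hA k (Nat.lt_succ_of_lt hk)) (fun k hk => hx k (Nat.lt_succ_of_lt hk))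
      (fun k hk => h k (Nat.lt_succ_of_lt hk))
    have hmono : ∀ m k : ℕ, k ≤ m → m ≤ n → x k ≤ x m := by
      intro m
      induction m with
      | zero =>
        intro k hk _
        have hk0 : k = 0 := Nat.le_zero.mp hk
        rw [hk0]
      | succ m ihm =>
        intro k hk hm
        rcases Nat.lt_or_ge k (m + 1) with h1 | h1
        · exact (ihm k (by omega) (by omega)).trans (hx m (by omega))
        · have hk2 : k = m + 1 := by omega
          rw [hk2]
    have hset : {z | ∃ k, k < n + 1 ∧ z ∈ A k} = {z | ∃ k, k < n ∧ z ∈ A k} ∪ A n := by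
      ext z
      simp only [Set.mem_setOf_eq, Set.mem_union]
      constructor
      · rintro ⟨k, hk, hz⟩
        rcases Nat.lt_or_ge k n with h1 | h1
        · exact Or.inl ⟨k, h1, hz⟩
        · have hk2 : k = n := by omega
          rw [hk2] at hz
          exact Or.inr hz
      · rintro (⟨k, hk, hz⟩ | hz)
        · exact ⟨k, by omega, hz⟩
        · exact ⟨n, by omega, hz⟩
    rw [Finset.sum_range_succ, hset]
    refine Ac_join ?_ ih' (h n (Nat.lt_succ_self n))
    rintro u ⟨k, hk, hu⟩ v hv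
    have h1 := (hA k (by omega) u hu).2
    have h2 := (hA n (by omega) v hv).1
    exact h1.trans_le ((hmono n (k + 1) (by omega) le_rfl).trans h2.le)

namespace HLat
variable {X C : Type} [Lattice X] [DecidableEq C] (H : HLat X C)

theorem Qs_ac {N : ℕ} {M : Set C} (hM : M ∈ H.HN N) (F : Frame H (H.Lam M)) (k : ℤ) :
    (H.Nt (F.x k) (F.x (k + 1)) →
      (∀ z, F.x k ≤ z → z ≤ F.x (k + 1) → N ≤ H.w z) ∧
      Ac (Po (H.Qs F N k)) (H.nn (F.x k) (F.x (k + 1)) - 1).toNat) ∧
    (¬ H.Nt (F.x k) (F.x (k + 1)) →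
      Ac (Po (H.Qs F N k)) (H.nn (F.x k) (F.x (k + 1))).toNat) := by
  obtain ⟨hxM, hyM, hlt, hcov⟩ := F.cov k
  have hle : F.x (k + 1) ≤ H.t (F.x k) := F.toCSeq.le_t k
  have hwx : (H.fr (F.x k)).card = N := hM.2 _ hxM
  have hwy : (H.fr (F.x (k + 1))).card = N := hM.2 _ hyM
  have hno : ∀ z, F.x k < z → z < F.x (k + 1) →
      ¬ H.fr z ⊆ H.fr (F.x k) ∪ H.fr (F.x (k + 1)) := by
    intro z h1 h2 hsub
    have hz : z ∈ H.Lam M := by
      refine ⟨h2.le.trans (hle.trans (H.t.monotone h1.le)), ?_⟩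
      intro c hc
      rcases Finset.mem_union.mp (hsub hc) with h3 | h3
      · exact hxM.2 c h3
      · exact hyM.2 c h3
    rcases hcov z hz h1.le h2.le with h3 | h3
    · rw [h3] at h1
      exact lt_irrefl _ h1
    · rw [h3] at h2
      exact lt_irrefl _ h2
  constructor
  · intro hNt
    obtain ⟨i1, i2⟩ := H.In2 _ _ hlt hle (hwx.trans hwy.symm) hno hNt
    constructor
    · intro z h1 h2
      have h3 := i1 z h1 h2
      rw [hwx] at h3
      exact h3
    · have hset : H.Qs F N k = {z | F.x k < z ∧ z < F.x (k + 1) ∧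
          (H.fr z).card = (H.fr (F.x k)).card} := by
        ext z
        constructor
        · rintro ⟨h1, h2, h3 | h3⟩
          · exact ⟨h1, h2, h3.2.trans hwx.symm⟩
          · exact absurd hNt h3.1
        · rintro ⟨h1, h2, h3⟩
          exact ⟨h1, h2, Or.inl ⟨hNt, h3.trans hwx⟩⟩
      rw [hset]
      exact i2
  · intro hNt
    have hc2 : 2 ≤ (H.fr (F.x k) \ H.fr (F.x (k + 1))).card := by
      have h1 : (H.fr (F.x k) \ H.fr (F.x (k + 1))).card ≠ 1 := hNt
      have h0 : (H.fr (F.x k) \ H.fr (F.x (k + 1))).card ≠ 0 := by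
        intro h0
        rw [Finset.card_eq_zero, Finset.sdiff_eq_empty_iff_subset] at h0
        have h2 : H.fr (F.x k) = H.fr (F.x (k + 1)) :=
          Finset.eq_of_subset_of_card_le h0 (by rw [hwx, hwy])
        exact absurd (H.inj _ _ hlt.le h2) hlt.ne
      omega
    have i1 := H.In1 _ _ hlt hle (hwx.trans hwy.symm) hno hc2
    have hset : H.Qs F N k = {z | F.x k < z ∧ z < F.x (k + 1) ∧
        (H.fr z).card < (H.fr (F.x k)).card} := by
      ext z
      constructor
      · rintro ⟨h1, h2, h3 | h3⟩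
        · exact absurd h3.1 hNt
        · refine ⟨h1, h2, ?_⟩
          rw [hwx]
          exact h3.2
      · rintro ⟨h1, h2, h3⟩
        rw [hwx] at h3
        exact ⟨h1, h2, Or.inr ⟨hNt, h3⟩⟩
    rw [hset]
    exact i1

theorem upA {N : ℕ} {M : Set C} (hM : M ∈ H.HN N) (F : Frame H (H.Lam M)) :
    Ac (Po (H.QQ F N)) (H.G - H.nu F) := by
  classical
  obtain ⟨a, ha⟩ : ∃ a : ℕ → ℕ, ∀ k : ℕ, a k =
      if H.Nt (F.x (k : ℤ)) (F.x ((k : ℤ) + 1)) then
        (H.nn (F.x (k : ℤ)) (F.x ((k : ℤ) + 1)) - 1).toNat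
      else (H.nn (F.x (k : ℤ)) (F.x ((k : ℤ) + 1))).toNat := ⟨_, fun _ => rfl⟩
  have h1 : Ac (Po {z | ∃ k, k < F.n ∧ z ∈ (fun k : ℕ => H.Qs F N (k : ℤ)) k})
      (∑ k ∈ Finset.range F.n, a k) := by
    refine ord_sum (x := fun k : ℕ => F.x (k : ℤ)) ?_ ?_ ?_
    · intro k _ z hz
      refine ⟨hz.1, ?_⟩
      show z < F.x ((k + 1 : ℕ) : ℤ)
      rw [Nat.cast_succ]
      exact hz.2.1
    · intro k _
      show F.x (k : ℤ) ≤ F.x ((k + 1 : ℕ) : ℤ)
      rw [Nat.cast_succ]
      exact F.le _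
    · intro k _
      obtain ⟨q1, q2⟩ := H.Qs_ac hM F (k : ℤ)
      show Ac (Po (H.Qs F N (k : ℤ))) (a k)
      rw [ha]
      split_ifs with hN
      · exact (q1 hN).2
      · exact q2 hN
  have h2 : H.QQ F N = {z | ∃ k, k < F.n ∧ z ∈ (fun k : ℕ => H.Qs F N (k : ℤ)) k} := rfl
  rw [h2]
  refine h1.mono ?_
  have e1 : (H.G : ℤ) ≤ ∑ k ∈ Finset.range F.n, H.nn (F.x (k : ℤ)) (F.x ((k : ℤ) + 1)) := by
    have e2 : F.x (F.n : ℤ) = H.t (F.x 0) := by
      have e4 := F.per 0
      rwa [zero_add] at e4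
    have hmono : ∀ m n : ℕ, m ≤ n → F.x (m : ℤ) ≤ F.x (n : ℤ) := by
      intro m n hmn
      induction n, hmn using Nat.le_induction with
      | base => exact le_rfl
      | succ n _ ih =>
        refine ih.trans ?_
        rw [Nat.cast_succ]
        exact F.le _
    have e5 : ∀ m : ℕ, m + 1 ≤ F.n → H.nn (F.x 0) (F.x ((m + 1 : ℕ) : ℤ)) ≤
        ∑ k ∈ Finset.range (m + 1), H.nn (F.x (k : ℤ)) (F.x ((k : ℤ) + 1)) := by
      intro m
      induction m with
      | zero =>
        intro _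
        rw [Finset.sum_range_one, Nat.cast_zero, Nat.zero_add, Nat.cast_one, zero_add]
      | succ m ih =>
        intro hm
        rw [Finset.sum_range_succ]
        have h3 := ih (by omega)
        have h4 : F.x (0 : ℤ) ≤ F.x ((m + 1 : ℕ) : ℤ) := by
          have := hmono 0 (m + 1) (by omega)
          rwa [Nat.cast_zero] at this
        have h5 := hmono (m + 1) (m + 1 + 1) (by omega)
        have h6 : F.x ((m + 1 + 1 : ℕ) : ℤ) ≤ H.t (F.x 0) := by
          rw [← e2]
          exact hmono _ _ hm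
        have h7 := H.nn_sub _ _ _ h4 h5 h6
        have h8 : ((m + 1 + 1 : ℕ) : ℤ) = ((m + 1 : ℕ) : ℤ) + 1 := by push_cast; ring
        rw [h8] at h7 ⊢
        linarith
    obtain ⟨m, hm⟩ : ∃ m, F.n = m + 1 := ⟨F.n - 1, by have := F.pos; omega⟩
    have h3 := e5 m (by omega)
    rw [← hm, e2] at h3
    exact (H.nn_G _ (by
      have h4 := hmono 0 F.n (by omega)
      rw [e2, Nat.cast_zero] at h4
      exact h4)).trans h3
  have e6 : ((H.nu F : ℕ) : ℤ) = ∑ k ∈ Finset.range F.n,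
      (if H.Nt (F.x (k : ℤ)) (F.x ((k : ℤ) + 1)) then (1 : ℤ) else 0) := by
    unfold nu
    rw [Finset.card_filter, Nat.cast_sum]
    refine Finset.sum_congr rfl (fun k _ => ?_)
    split_ifs <;> simp
  have e7 : (H.G : ℤ) - (H.nu F : ℕ) ≤ ∑ k ∈ Finset.range F.n, (a k : ℤ) := by
    refine (sub_le_sub_right e1 _).trans ?_
    rw [e6, ← Finset.sum_sub_distrib]
    refine Finset.sum_le_sum (fun k _ => ?_)
    rw [ha]
    split_ifs with hN
    · exact Int.self_le_toNat _
    · rw [sub_zero]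
      exact Int.self_le_toNat _
  have e8 : ((∑ k ∈ Finset.range F.n, a k : ℕ) : ℤ) = ∑ k ∈ Finset.range F.n, (a k : ℤ) := by
    rw [Nat.cast_sum]
  rw [← e8] at e7
  omega

end HLat
end TorA
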