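import Pool.Agent.Lib.MP_05cdf2_gt.A.CUpA
import Pool.Agent.Lib.MP_05cdf2_gt.A.CRank

/-! MP_05cdf2_gt, stream A (abstract cyclic step), job CUpB: for a nonempty increasing list `a` in `QQ F N` there is a least `M'' ∈ Up N M` with `a ⊆ Lam M''`.

Setting: `M ∈ HN N`, `F` a frame of `Lam M`. `M'' = M ∪ orb a`.
(1) `M'' ∈ KK`. Let `A` be the finset of the `F.x k`, `0 ≤ k < n`, and of the elements of `a`. Any two elements of `A` are comparable (an element of `a` is strictly between `F.x k` and `F.x (k+1)` for some `0 ≤ k < n`; `CSeq.mono`; `a` is increasing). `exists_sorted`: a list `l`, weakly increasing,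
with the elements of `A`. All elements of `A` are `≥ F.x 0` and `≤ F.x n = t (F.x 0)`, so `u ≤ t (F.x 0) ≤ t v` for all `u, v ∈ A`: `l ∈ Cy` (pairwise `R`, all in `Gd`), and `orb l = M ∪ orb a` (`KK_frame` and `per_T`: every curve of `M` is a translate of a curve of
some `F.x k`, `0 ≤ k < n`; conversely `F.x k ∈ Lam M`, `orb_subset`, invariance).
(2) `M ⊆ M''`, `M'' ≠ M`: `z ∈ a` is strictly inside a step, so `z ∉ Lam M` (`F.cov`), but `z ∈ Lam M''` (`z ≤ t z` as `z ∈ Gd`, `mem_orb`). So `a ⊆ Lam M''`.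
(3) If some `z ∈ a` has `w z < N`: `M'' ∈ Clt N`. Otherwise all `z ∈ a` have `w z = N` and lie in neutral steps (definition of `Qs`). Then:
 (3a) claim: if the step `k` (any `k : ℤ`) is not neutral, `z ∈ Lam M''`, `F.x k ≤ z ≤ F.x (k+1)` then `z ∈ {F.x k, F.x (k+1)}`. Let `c ∈ fr z`. If `c ∈ M` fine. If `c ∈ orb a`: `c ∈ fr (T j u)`, `u ∈ a`, `F.x m < u < F.x (m+1)`, `m` neutral, so `F.x (m + j n) < T j u < F.x (m + j n + 1)` (`per_T`)
 and `m + j n ≠ k` (neutrality is periodic: `diff_T`), so `T j u ≤ F.x k ≤ z` or `z ≤ F.x (k+1) ≤ T j u`; `conv` gives `c ∈ fr (F.x k)` or `c ∈ fr (F.x (k+1))`, so `c ∈ M`. So `z ∈ Lam M`, `F.cov k`.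
 (3b) `M'' ∈ HN N`: `exists_cseq` for `l` in `Lam M''` (`subL_Lam`): `S : CSeq H (Lam M'')`, all `S.x i` are translates of elements of `A`, so `w = N`; every element of `A` is some `S.x i`. `w_eq_of_cseq`: `hS`: a curve of `M'' = orb l` is in `fr (T j u)`, `u ∈ l`, `T j u = S.x (i + j n')`.
 `hge`: `z ∈ Lam M''`, `S.x i ≤ z ≤ S.x (i+1)`. Let `k` be maximal with `F.x k ≤ S.x i` (`CSeq.high/low` for `F`). `F.x (k+1) = T j (F.x r)`, `0 ≤ r < n`, is some `S.x i'` (translate of an element of `l`), and `¬ F.x (k+1) ≤ S.x i`, so `i' > i`, `S.x (i+1) ≤ F.x (k+1)`. So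
 `F.x k ≤ z ≤ F.x (k+1)`. If `k` is neutral: `N ≤ w z` (`Qs_ac`). If not: `z ∈ {F.x k, F.x (k+1)}` by (3a), `w z = N`.
 (3c) `Co M'' ⊆ M`: `c ∈ Co M''`: `Cov (Lam M'') x y`, not `Nt x y`; `F` is a `CSeq` in `Lam M''`; `CSeq.cov_at`: a step `k`, `F.x k ≤ p < q ≤ F.x (k+1)`, `p, q ∈ Lam M''` with the same differences as `x, y`. If `k` is neutral then `Nt p q` (`nt_between` in `M'' ∈ HN N`), contradiction. If not: by (3a) `p = F.x k`,
 `q = F.x (k+1)`, so `c ∈ fr (F.x k) ∪ fr (F.x (k+1)) ⊆ M`.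
(4) Least: if `M' ∈ Up N M`, `a ⊆ Lam M'`: `M ⊆ M'`, `orb a ⊆ M'` (`orb_subset`). -/

set_option autoImplicit false

namespace TorA
open Finsupp Tor
namespace HLat
variable {X C : Type} [Lattice X] [DecidableEq C] (H : HLat X C)

theorem CUpB_Nt_T (j : ℤ) (x y : X) : H.Nt (H.T j x) (H.T j y) ↔ H.Nt x y := by
  show (H.fr (H.T j x) \ H.fr (H.T j y)).card = 1 ↔ (H.fr x \ H.fr y).card = 1
  rw [H.diff_T]

theorem CUpB_pair {α : Type} [PartialOrder α] {l : List α} (h : l.Pairwise (· ≤ ·)) {u v : α}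
    (hu : u ∈ l) (hv : v ∈ l) : u ≤ v ∨ v ≤ u := by
  have hs : l.Pairwise (fun a b => a ≤ b ∨ b ≤ a) := h.imp (fun h => Or.inl h)
  have hsym : Std.Symm (fun a b : α => a ≤ b ∨ b ≤ a) := ⟨fun a b h => h.symm⟩
  exact List.Pairwise.forall_of_forall (R := fun a b : α => a ≤ b ∨ b ≤ a)
    (fun y _ => Or.inl le_rfl) hs hu hv

/-- every index is a translate of an index of the first period -/
theorem CUpB_red {L : Set X} (S : CSeq H L) (i : ℤ) :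
    ∃ (r : ℕ) (q : ℤ), r < S.n ∧ S.x i = H.T q (S.x (r : ℤ)) := by
  have hn : (0 : ℤ) < (S.n : ℤ) := by exact_mod_cast S.pos
  have h1 : 0 ≤ i % (S.n : ℤ) := Int.emod_nonneg _ hn.ne'
  have h2 : i % (S.n : ℤ) < (S.n : ℤ) := Int.emod_lt_of_pos _ hn
  refine ⟨(i % (S.n : ℤ)).toNat, i / (S.n : ℤ), by omega, ?_⟩
  rw [Int.toNat_of_nonneg h1, ← S.per_T]
  congr 1
  have h3 := Int.emod_add_mul_ediv i (S.n : ℤ)
  rw [mul_comm] at h3
  exact h3.symm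

theorem upB_KK {N : ℕ} {M : Set C} (hM : M ∈ H.HN N) (F : Frame H (H.Lam M)) {a : List X}
    (ha : a ∈ Po (H.QQ F N)) (hne : a ≠ []) :
    ∃ l ∈ H.Cy, l ≠ [] ∧ H.orb l = M ∪ H.orb a ∧ (∀ k : ℕ, k < F.n → F.x k ∈ l) ∧ (∀ z ∈ a, z ∈ l) ∧
      ∀ z ∈ l, z ∈ a ∨ ∃ k : ℕ, k < F.n ∧ z = F.x k := by
  classical
  have hinv : H.Inv M := (H.KK_coh hM.1).1
  let A : Finset X := (Finset.range F.n).image (fun k : ℕ => F.x (k : ℤ)) ∪ a.toFinset
  have hA : ∀ u, u ∈ A ↔ (∃ k : ℕ, k < F.n ∧ u = F.x k) ∨ u ∈ a := by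
    intro u
    rw [Finset.mem_union, Finset.mem_image, List.mem_toFinset]
    constructor
    · rintro (⟨k, hk, rfl⟩ | h)
      · exact Or.inl ⟨k, Finset.mem_range.1 hk, rfl⟩
      · exact Or.inr h
    · rintro (⟨k, hk, rfl⟩ | h)
      · exact Or.inl ⟨k, Finset.mem_range.2 hk, rfl⟩
      · exact Or.inr h
  have hcm : ∀ (k : ℕ), ∀ z ∈ a, F.x k ≤ z ∨ z ≤ F.x k := by
    intro k z hz
    obtain ⟨m, -, h1, h2, -⟩ := ha.2 z hz
    rcases le_or_gt k m with h | h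
    · exact Or.inl ((F.mono (by exact_mod_cast h)).trans h1.le)
    · exact Or.inr (h2.le.trans (F.mono (by exact_mod_cast h)))
  have hcmp : ∀ u ∈ A, ∀ v ∈ A, u ≤ v ∨ v ≤ u := by
    intro u hu v hv
    rcases (hA u).1 hu with ⟨k, -, rfl⟩ | hu
    · rcases (hA v).1 hv with ⟨k', -, rfl⟩ | hv
      · rcases le_total k k' with h | h
        · exact Or.inl (F.mono (by exact_mod_cast h))
        · exact Or.inr (F.mono (by exact_mod_cast h))
      · exact hcm k v hv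
    · rcases (hA v).1 hv with ⟨k', -, rfl⟩ | hv
      · exact (hcm k' u hu).symm
      · exact CUpB_pair ha.1 hu hv
  have hn0 : F.x (F.n : ℤ) = H.t (F.x 0) := by
    have h := F.per 0
    rw [zero_add] at h
    exact h
  have hlo : ∀ u ∈ A, F.x 0 ≤ u ∧ u ≤ H.t (F.x 0) := by
    intro u hu
    rcases (hA u).1 hu with ⟨k, hk, rfl⟩ | hu
    · refine ⟨F.mono (Int.natCast_nonneg k), ?_⟩
      rw [← hn0]
      exact F.mono (by exact_mod_cast hk.le)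
    · obtain ⟨m, hm, h1, h2, -⟩ := ha.2 u hu
      refine ⟨(F.mono (Int.natCast_nonneg m)).trans h1.le, ?_⟩
      rw [← hn0]
      exact h2.le.trans (F.mono (by exact_mod_cast hm))
  have hut : ∀ u ∈ A, ∀ v ∈ A, u ≤ H.t v := fun u hu v hv =>
    (hlo u hu).2.trans (H.t.monotone (hlo v hv).1)
  obtain ⟨l, hl1, hl2⟩ := exists_sorted A hcmp
  have hal : ∀ z ∈ a, z ∈ l := fun z hz => (hl2 z).2 ((hA z).2 (Or.inr hz))
  have hFl : ∀ k : ℕ, k < F.n → F.x k ∈ l := fun k hk =>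
    (hl2 _).2 ((hA _).2 (Or.inl ⟨k, hk, rfl⟩))
  refine ⟨l, ⟨?_, ?_⟩, ?_, ?_, hFl, hal, ?_⟩
  · exact hl1.imp_of_mem fun {x y} hx hy hxy =>
      (⟨hxy, hut y ((hl2 y).1 hy) x ((hl2 x).1 hx)⟩ : H.R x y)
  · intro x hx
    exact hut x ((hl2 x).1 hx) x ((hl2 x).1 hx)
  · intro h
    have h1 := hFl 0 F.pos
    rw [h] at h1
    exact absurd h1 List.not_mem_nil
  · ext c
    constructor
    · rintro ⟨z, hz, k, hk⟩
      rcases (hA z).1 ((hl2 z).1 hz) with ⟨m, -, rfl⟩ | hz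
      · exact Or.inl ((hinv c k).1 ((F.mem m).2 _ hk))
      · exact Or.inr ⟨z, hz, k, hk⟩
    · rintro (hc | ⟨z, hz, k, hk⟩)
      · obtain ⟨i, hi⟩ := H.KK_frame hM.1 F hc
        obtain ⟨r, q, hr, hq⟩ := H.CUpB_red F.toCSeq i
        rw [hq, H.fr_T'] at hi
        exact ⟨F.x r, hFl r hr, -q, hi⟩
      · exact ⟨z, hal z hz, k, hk⟩
  · intro z hz
    rcases (hA z).1 ((hl2 z).1 hz) with h | h
    · exact Or.inr h
    · exact Or.inl h

theorem CUpB_lt {L : Set X} (F : Frame H L) (i : ℤ) : F.x i < F.x (i + 1) := (F.cov i).2.2.1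

theorem CUpB_step {N : ℕ} {M : Set C} (hM : M ∈ H.HN N) (F : Frame H (H.Lam M)) {a : List X}
    (ha : ∀ u ∈ a, ∃ m : ℕ, m < F.n ∧ F.x m < u ∧ u < F.x ((m : ℤ) + 1) ∧
      H.Nt (F.x m) (F.x ((m : ℤ) + 1))) {k : ℤ} (hk : ¬ H.Nt (F.x k) (F.x (k + 1))) {z : X}
    (hz : z ∈ H.Lam (M ∪ H.orb a)) (h1 : F.x k ≤ z) (h2 : z ≤ F.x (k + 1)) :
    z = F.x k ∨ z = F.x (k + 1) := by
  have hzM : z ∈ H.Lam M := by
    refine ⟨hz.1, fun c hc => ?_⟩
    rcases hz.2 c hc with h | ⟨u, hu, j, hj⟩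
    · exact h
    obtain ⟨m, hm, h3, h4, h5⟩ := ha u hu
    have hcu : c ∈ H.fr (H.T (-j) u) := by
      rw [H.fr_T', neg_neg]
      exact hj
    have e1 : F.x ((m : ℤ) + (-j) * F.n) = H.T (-j) (F.x m) := F.per_T m (-j)
    have e2 : F.x ((m : ℤ) + (-j) * F.n + 1) = H.T (-j) (F.x ((m : ℤ) + 1)) := by
      rw [← F.per_T]
      congr 1
      ring
    have h6 : F.x ((m : ℤ) + (-j) * F.n) < H.T (-j) u := by
      rw [e1, H.T_lt_iff]
      exact h3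
    have h7 : H.T (-j) u < F.x ((m : ℤ) + (-j) * F.n + 1) := by
      rw [e2, H.T_lt_iff]
      exact h4
    have h8 : (m : ℤ) + (-j) * F.n ≠ k := by
      intro h
      apply hk
      rw [← h, e1, e2]
      exact (H.CUpB_Nt_T _ _ _).2 h5
    rcases lt_or_gt_of_ne h8 with h | h
    · have h9 : H.T (-j) u ≤ F.x k := h7.le.trans (F.mono (by omega))
      exact (F.mem k).2 c (H.conv _ _ _ c h9 h1 hcu hc)
    · have h9 : F.x (k + 1) ≤ H.T (-j) u := (F.mono (by omega)).trans h6.le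
      exact (F.mem (k + 1)).2 c (H.conv _ _ _ c h2 h9 hc hcu)
  exact (F.cov k).2.2.2 z hzM h1 h2

theorem CUpB_HN {N : ℕ} {M : Set C} (hM : M ∈ H.HN N) (F : Frame H (H.Lam M)) {a l : List X}
    (ha : ∀ u ∈ a, ∃ m : ℕ, m < F.n ∧ F.x m < u ∧ u < F.x ((m : ℤ) + 1) ∧
      H.Nt (F.x m) (F.x ((m : ℤ) + 1))) (hw : ∀ u ∈ a, H.w u = N) (hl : l ∈ H.Cy) (hne : l ≠ [])
    (ho : H.orb l = M ∪ H.orb a) (hFl : ∀ k : ℕ, k < F.n → F.x k ∈ l)
    (hll : ∀ z ∈ l, z ∈ a ∨ ∃ k : ℕ, k < F.n ∧ z = F.x k) :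
    M ∪ H.orb a ∈ H.HN N := by
  have hK : M ∪ H.orb a ∈ H.KK := ⟨l, hl, hne, ho.symm⟩
  have hcoh := H.KK_coh hK
  have hL := H.subL_Lam hcoh
  have hmem : ∀ x ∈ l, x ∈ H.Lam (M ∪ H.orb a) := by
    intro x hx
    rw [← ho]
    exact H.mem_Lam_orb hl hx
  obtain ⟨S, hS1, hS2⟩ := exists_cseq hL hl hne hmem
  have hwl : ∀ x ∈ l, H.w x = N := by
    intro x hx
    rcases hll x hx with h | ⟨k, -, rfl⟩
    · exact hw x h
    · exact hM.2 _ (F.mem k)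
  refine ⟨hK, H.w_eq_of_cseq hcoh S ?_ ?_ ?_⟩
  · intro i
    obtain ⟨x, hx, k, hk⟩ := hS2 i
    rw [hk, H.w_T]
    exact hwl x hx
  · intro c hc
    rw [← ho] at hc
    obtain ⟨z, hz, k, hk⟩ := hc
    obtain ⟨i, rfl⟩ := hS1 z hz
    refine ⟨i + (-k) * S.n, ?_⟩
    rw [S.per_T, H.fr_T', neg_neg]
    exact hk
  · intro i z hz h1 h2
    have hLM := H.subL_Lam (H.KK_coh hM.1)
    obtain ⟨m1, hm1⟩ := F.low hLM (S.x i)
    obtain ⟨m2, hm2⟩ := F.high hLM (S.x i)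
    have hb : ∀ k : ℤ, F.x k ≤ S.x i → k ≤ m2 := by
      intro k hk
      by_contra hlt
      have h3 : F.x (m2 + 1) ≤ S.x i := (F.mono (by omega)).trans hk
      exact absurd ((H.CUpB_lt F m2).trans_le h3) (not_lt_of_ge (hm2 m2 le_rfl))
    obtain ⟨k, hk1, hk2⟩ := Int.exists_greatest_of_bdd (P := fun k : ℤ => F.x k ≤ S.x i)
      ⟨m2, hb⟩ ⟨m1, hm1 m1 le_rfl⟩
    have hk3 : ¬ F.x (k + 1) ≤ S.x i := by
      intro h
      have := hk2 (k + 1) h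
      omega
    obtain ⟨r, q, hr, hq⟩ := H.CUpB_red F.toCSeq (k + 1)
    obtain ⟨i0, hi0⟩ := hS1 _ (hFl r hr)
    have h4 : F.x (k + 1) = S.x (i0 + q * S.n) := by
      rw [S.per_T, hi0]
      exact hq
    have h5 : i + 1 ≤ i0 + q * S.n := by
      by_contra h
      apply hk3
      rw [h4]
      exact S.mono (by omega)
    have h6 : z ≤ F.x (k + 1) := by
      rw [h4]
      exact h2.trans (S.mono h5)
    have h7 : F.x k ≤ z := le_trans hk1 h1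
    by_cases hnt : H.Nt (F.x k) (F.x (k + 1))
    · exact ((H.Qs_ac hM F k).1 hnt).1 z h7 h6
    · rcases H.CUpB_step hM F ha hnt hz h7 h6 with h | h
      · rw [h, hM.2 _ (F.mem k)]
      · rw [h, hM.2 _ (F.mem (k + 1))]

theorem CUpB_Co {N : ℕ} {M : Set C} (hM : M ∈ H.HN N) (F : Frame H (H.Lam M)) {a : List X}
    (ha : ∀ u ∈ a, ∃ m : ℕ, m < F.n ∧ F.x m < u ∧ u < F.x ((m : ℤ) + 1) ∧
      H.Nt (F.x m) (F.x ((m : ℤ) + 1))) (hM2 : M ∪ H.orb a ∈ H.HN N) :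
    H.Co (M ∪ H.orb a) ⊆ M := by
  rintro c ⟨x, y, hxy, hnt, hc⟩
  have hcoh := H.KK_coh hM2.1
  have hL := H.subL_Lam hcoh
  have hsub : H.Lam M ⊆ H.Lam (M ∪ H.orb a) := H.Lam_mono Set.subset_union_left
  let S : CSeq H (H.Lam (M ∪ H.orb a)) := ⟨F.x, F.n, F.pos, fun i => hsub (F.mem i), F.le, F.per⟩
  obtain ⟨k, h1, h2, h3, -⟩ := S.cov_at hL hxy
  have hp1 : F.x k ≤ S.pt x k := S.le_pt x k
  have hp2 : S.pt x k ≤ F.x (k + 1) := S.pt_le x k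
  have hq1 : F.x k ≤ S.pt y k := S.le_pt y k
  have hq2 : S.pt y k ≤ F.x (k + 1) := S.pt_le y k
  have hpm : S.pt x k ∈ H.Lam (M ∪ H.orb a) := S.pt_mem hL hxy.1 k
  have hqm : S.pt y k ∈ H.Lam (M ∪ H.orb a) := S.pt_mem hL hxy.2.1 k
  by_cases hk : H.Nt (F.x k) (F.x (k + 1))
  · have h4 := H.nt_between hM2 (hsub (F.mem k)) hpm hqm (hsub (F.mem (k + 1))) hp1 h1 hq2 hk
    exfalso
    apply hnt
    show (H.fr x \ H.fr y).card = 1
    rw [← h2]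
    exact h4
  · have h5 : S.pt x k = F.x k := by
      rcases H.CUpB_step hM F ha hk hpm hp1 hp2 with h | h
      · exact h
      · rw [h] at h1
        exact absurd h1 (not_lt_of_ge hq2)
    have h6 : S.pt y k = F.x (k + 1) := by
      rcases H.CUpB_step hM F ha hk hqm hq1 hq2 with h | h
      · rw [h] at h1
        exact absurd h1 (not_lt_of_ge hp1)
      · exact h
    rcases hc with ⟨hc1, hc2⟩ | ⟨hc1, hc2⟩
    · have h7 : c ∈ H.fr x \ H.fr y := Finset.mem_sdiff.2 ⟨hc1, hc2⟩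
      rw [← h2, h5] at h7
      exact (F.mem k).2 c (Finset.mem_sdiff.1 h7).1
    · have h7 : c ∈ H.fr y \ H.fr x := Finset.mem_sdiff.2 ⟨hc2, hc1⟩
      rw [← h3, h6] at h7
      exact (F.mem (k + 1)).2 c (Finset.mem_sdiff.1 h7).1

theorem upB {N : ℕ} {M : Set C} (hM : M ∈ H.HN N) (F : Frame H (H.Lam M)) {a : List X}
    (ha : a ∈ Po (H.QQ F N)) (hne : a ≠ []) :
    ∃ M'' ∈ H.Up N M, (∀ z ∈ a, z ∈ H.Lam M'') ∧
      ∀ M' ∈ H.Up N M, (∀ z ∈ a, z ∈ H.Lam M') → M'' ⊆ M' := by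
  obtain ⟨l, hl, hlne, ho, hFl, hal, hll⟩ := H.upB_KK hM F ha hne
  have hK : M ∪ H.orb a ∈ H.KK := ⟨l, hl, hlne, ho.symm⟩
  have haL : ∀ z ∈ a, z ∈ H.Lam (M ∪ H.orb a) := by
    intro z hz
    rw [← ho]
    exact H.mem_Lam_orb hl (hal z hz)
  have hneM : M ∪ H.orb a ≠ M := by
    intro h
    obtain ⟨z, hz⟩ := List.exists_mem_of_ne_nil a hne
    have h1 := haL z hz
    rw [h] at h1
    obtain ⟨m, -, h2, h3, -⟩ := ha.2 z hz
    rcases (F.cov m).2.2.2 z h1 h2.le h3.le with h4 | h4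
    · rw [h4] at h2
      exact lt_irrefl _ h2
    · rw [h4] at h3
      exact lt_irrefl _ h3
  refine ⟨M ∪ H.orb a, ⟨hK, Set.subset_union_left, hneM, ?_⟩, haL, ?_⟩
  · by_cases hlt : ∃ z ∈ a, H.w z < N
    · obtain ⟨z, hz, hzN⟩ := hlt
      exact Or.inl ⟨hK, z, haL z hz, hzN⟩
    · right
      have h1 : ∀ u ∈ a, (∃ m : ℕ, m < F.n ∧ F.x m < u ∧ u < F.x ((m : ℤ) + 1) ∧
          H.Nt (F.x m) (F.x ((m : ℤ) + 1))) ∧ H.w u = N := by
        intro u hu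
        obtain ⟨m, hm, h2, h3, h4 | h4⟩ := ha.2 u hu
        · exact ⟨⟨m, hm, h2, h3, h4.1⟩, h4.2⟩
        · exact absurd ⟨u, hu, h4.2⟩ hlt
      have h2 := H.CUpB_HN hM F (fun u hu => (h1 u hu).1) (fun u hu => (h1 u hu).2) hl hlne ho hFl hll
      exact ⟨h2, H.CUpB_Co hM F (fun u hu => (h1 u hu).1) h2⟩
  · intro M' hM' h
    refine Set.union_subset hM'.2.1 (H.orb_subset (H.KK_coh hM'.1).1 h)

end HLat
end TorA
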