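import Pool.Agent.Lib.MP_05cdf2_gt.A.CDefB
import Pool.Agent.Lib.MP_05cdf2_gt.A.TCon

/-! MP_05cdf2_gt, stream A (abstract cyclic step), job CZero: cyclic lists of level 0 in a shift invariant sublattice are acyclic.

`Y` closed under `⊔, ⊓, T k`, `b ∈ Y` with `b ≤ t b`; replacing `b` by `T (-J b) b` we may assume `J b = 0` (`J_T`, `T_good`). `P = {x ∈ Y | x ≤ t x, J x = 0}`, `R x y : x ≤ y ≤ t x`.
`z` a cycle on lists of `Fl R P` of length `m`; `F` the finite set of its entries (`exists_finset_entries`). `N : ℕ` with `x ≤ T N b` and `T (-N) b ≤ x` for all `x ∈ F` (`arch_ge`, `arch_le`).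
`f j x = x ⊓ T j b` (`0 ≤ j`), `g j x = (x ⊔ T (-j) b) ⊓ b` (`0 ≤ j`). All map `P` to `P`: `J (f j x) = min 0 j = 0`, `J (g j x) = min (max 0 (-j)) 0 = 0`; `f j x ≤ t (f j x)` since `t (f j x) = t x ⊓ T (j+1) b` (`T_add_one`, `map_inf`), etc.
`f j` and `f (j+1)` are homologous on cycles by `Fl_homotopy` (`f := f j`, `g := f (j+1)`): for `R x y` (or `x = y`): `f j x ≤ f j y ≤ f (j+1) y`, and `f (j+1) y = y ⊓ T (j+1) b ≤ t x ⊓ T (j+1) b = t (f j x)`. `g (j+1)` and `g j` the same (`g (j+1) x ≤ g j y ≤ t (g (j+1) x) = (t x ⊔ T (-j) b) ⊓ t b`).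
`f N z = z` (entries in `F`, `map_congr`), `f 0 x = x ⊓ b`, `g N x = x ⊓ b` on `F`, `g 0 x = (x ⊔ b) ⊓ b = b`. So `z` is homologous to `mapDomain (List.map fun _ => b) z`, which bounds by `const_bound` (lists with all entries `b` are in `Fl R P`: `b ≤ b ≤ t b`). Add up the finitely many chains (induction on `j`). -/

set_option autoImplicit false

namespace TorA
open Finsupp Tor
namespace HLat
variable {X C : Type} [Lattice X] [DecidableEq C] (H : HLat X C)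

theorem CZero_inf {x y c d : X} (h : H.R x y) (h' : H.R c d) : H.R (x ⊓ c) (y ⊓ d) := by
  refine ⟨inf_le_inf h.1 h'.1, ?_⟩
  rw [map_inf]
  exact inf_le_inf h.2 h'.2

theorem CZero_sup {x y c d : X} (h : H.R x y) (h' : H.R c d) : H.R (x ⊔ c) (y ⊔ d) := by
  refine ⟨sup_le_sup h.1 h'.1, ?_⟩
  rw [map_sup]
  exact sup_le_sup h.2 h'.2

theorem CZero_bound (F : Finset X) {b : X} (hb : b ≤ H.t b) :
    ∃ N : ℕ, ∀ x ∈ F, x ≤ H.T (N : ℤ) b ∧ H.T (-(N : ℤ)) b ≤ x := by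
  have h1 : ∀ x, ∃ n : ℤ, ∀ k, n ≤ k → x ≤ H.T k b := fun x => H.arch_ge x hb
  have h2 : ∀ x, ∃ n : ℤ, ∀ k, k ≤ n → H.T k b ≤ x := fun x => H.arch_le x hb
  choose n1 hn1 using h1
  choose n2 hn2 using h2
  refine ⟨F.sup fun x => (n1 x).natAbs + (n2 x).natAbs, fun x hx => ?_⟩
  have h3 : (n1 x).natAbs + (n2 x).natAbs ≤ F.sup fun x => (n1 x).natAbs + (n2 x).natAbs :=
    Finset.le_sup (f := fun x => (n1 x).natAbs + (n2 x).natAbs) hx
  exact ⟨hn1 x _ (by omega), hn2 x _ (by omega)⟩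

theorem CZero_aux {Y : Set X} (hs : ∀ x ∈ Y, ∀ y ∈ Y, x ⊔ y ∈ Y)
    (hi : ∀ x ∈ Y, ∀ y ∈ Y, x ⊓ y ∈ Y) (hT : ∀ x ∈ Y, ∀ k : ℤ, H.T k x ∈ Y) {b : X}
    (hbY : b ∈ Y) (hb : b ≤ H.t b) (hJ : H.J b = 0) :
    AcI (Fl H.R {x | x ∈ Y ∧ x ≤ H.t x ∧ H.J x = 0}) := by
  intro n m _ z hz hbd
  set P : Set X := {x | x ∈ Y ∧ x ≤ H.t x ∧ H.J x = 0} with hP
  have hbP : b ∈ P := ⟨hbY, hb, hJ⟩
  obtain ⟨F, hF⟩ := exists_finset_entries z
  obtain ⟨N, hN⟩ := H.CZero_bound F hb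
  have hzF : z ∈ Sup {l : List X | ∀ x ∈ l, x ∈ F} := by
    rw [Finsupp.mem_supported]
    intro l hl
    exact fun x hx => hF l hl x hx
  -- relations between the translates of `b`
  have hR0 : ∀ k : ℤ, H.R (H.T k b) (H.T k b) := fun k => ⟨le_refl _, H.T_good hb k⟩
  have hR1 : ∀ k : ℤ, H.R (H.T k b) (H.T (k + 1) b) := fun k =>
    ⟨H.T_mono_left hb (by omega), by rw [T_add_one]⟩
  have hRb : H.R b b := ⟨le_refl _, hb⟩
  have hgood : ∀ x ∈ P, H.R x x := fun x hx => ⟨le_refl _, hx.2.1⟩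
  have hfP : ∀ j : ℤ, 0 ≤ j → ∀ x ∈ P, x ⊓ H.T j b ∈ P := by
    intro j hj x hx
    refine ⟨hi x hx.1 _ (hT b hbY j), ?_, ?_⟩
    · exact (H.CZero_inf (hgood x hx) (hR0 j)).2
    · rw [J_inf, J_T, hx.2.2, hJ]
      omega
  have hgP : ∀ j : ℤ, 0 ≤ j → ∀ x ∈ P, (x ⊔ H.T (-j) b) ⊓ b ∈ P := by
    intro j hj x hx
    refine ⟨hi _ (hs x hx.1 _ (hT b hbY _)) _ hbY, ?_, ?_⟩
    · exact (H.CZero_inf (H.CZero_sup (hgood x hx) (hR0 (-j))) hRb).2
    · rw [J_inf, J_sup, J_T, hx.2.2, hJ]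
      omega
  have hf : ∀ j : ℕ, ∃ w ∈ Sup (Ln (Fl H.R P) (m + 1)), bd w =
      mapDomain (List.map fun x => x ⊓ H.T (j : ℤ) b) z -
        mapDomain (List.map fun x => x ⊓ H.T 0 b) z := by
    intro j
    induction j with
    | zero => exact ⟨0, Submodule.zero_mem _, by rw [map_zero, Nat.cast_zero, sub_self]⟩
    | succ j ih =>
      obtain ⟨w, hw, hbw⟩ := ih
      obtain ⟨w', hw', hbw'⟩ := Fl_homotopy (R := H.R) (R' := H.R) (P := P) (Q := P)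
        (fun x => x ⊓ H.T (j : ℤ) b) (fun x => x ⊓ H.T ((j : ℤ) + 1) b)
        (hfP j (by omega)) (hfP _ (by omega))
        (fun x _ y _ h => H.CZero_inf h (hR0 _))
        (fun x _ y _ h => H.CZero_inf h (hR1 _))
        (fun x _ y _ h => H.CZero_inf h (hR0 _))
        (fun x hx => H.CZero_inf (hgood x hx) (hR1 _)) hz hbd
      refine ⟨w' + w, Submodule.add_mem _ hw' hw, ?_⟩
      rw [map_add, hbw, hbw', Nat.cast_succ]
      abel
  have hg : ∀ j : ℕ, ∃ w ∈ Sup (Ln (Fl H.R P) (m + 1)), bd w =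
      mapDomain (List.map fun x => (x ⊔ H.T (-0) b) ⊓ b) z -
        mapDomain (List.map fun x => (x ⊔ H.T (-(j : ℤ)) b) ⊓ b) z := by
    intro j
    induction j with
    | zero => exact ⟨0, Submodule.zero_mem _, by rw [map_zero, Nat.cast_zero, sub_self]⟩
    | succ j ih =>
      obtain ⟨w, hw, hbw⟩ := ih
      have hR2 : H.R (H.T (-((j : ℤ) + 1)) b) (H.T (-(j : ℤ)) b) := by
        have := hR1 (-((j : ℤ) + 1))
        rwa [show -((j : ℤ) + 1) + 1 = -(j : ℤ) by ring] at this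
      obtain ⟨w', hw', hbw'⟩ := Fl_homotopy (R := H.R) (R' := H.R) (P := P) (Q := P)
        (fun x => (x ⊔ H.T (-((j : ℤ) + 1)) b) ⊓ b) (fun x => (x ⊔ H.T (-(j : ℤ)) b) ⊓ b)
        (hgP _ (by omega)) (hgP _ (by omega))
        (fun x _ y _ h => H.CZero_inf (H.CZero_sup h (hR0 _)) hRb)
        (fun x _ y _ h => H.CZero_inf (H.CZero_sup h hR2) hRb)
        (fun x _ y _ h => H.CZero_inf (H.CZero_sup h (hR0 _)) hRb)
        (fun x hx => H.CZero_inf (H.CZero_sup (hgood x hx) hR2) hRb) hz hbd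
      refine ⟨w' + w, Submodule.add_mem _ hw' hw, ?_⟩
      rw [map_add, hbw, hbw', Nat.cast_succ]
      abel
  obtain ⟨w1, hw1, b1⟩ := hf N
  obtain ⟨w2, hw2, b2⟩ := hg N
  obtain ⟨w3, hw3, b3⟩ := const_bound b hz hbd
  have e1 : mapDomain (List.map fun x => x ⊓ H.T (N : ℤ) b) z = z := by
    have h := map_congr (f := fun x => x ⊓ H.T (N : ℤ) b) (g := fun x => x)
      (S := {l : List X | ∀ x ∈ l, x ∈ F})
      (fun l hl x hx => inf_eq_left.mpr (hN x (hl x hx)).1) hzF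
    rw [h, TCon_id]
  have e2 : mapDomain (List.map fun x => x ⊓ H.T 0 b) z =
      mapDomain (List.map fun x => (x ⊔ H.T (-(N : ℤ)) b) ⊓ b) z :=
    map_congr (S := {l : List X | ∀ x ∈ l, x ∈ F})
      (fun l hl x hx => by
        rw [T_zero, sup_eq_left.mpr (hN x (hl x hx)).2]) hzF
  have e3 : mapDomain (List.map fun x => (x ⊔ H.T (-0) b) ⊓ b) z =
      mapDomain (List.map fun _ => b) z :=
    map_congr (S := {l : List X | ∀ x ∈ l, x ∈ F})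
      (fun l hl x hx => by
        rw [neg_zero, T_zero]
        exact inf_eq_right.mpr le_sup_right) hzF
  have hw3' : w3 ∈ Sup (Ln (Fl H.R P) (m + 1)) := by
    refine Sup_mono (Ln_mono ?_ _) hw3
    intro l hl
    refine ⟨?_, fun x hx => by rw [hl x hx]; exact hbP⟩
    refine List.pairwise_of_forall_mem_list ?_
    intro x hx y hy
    rw [hl x hx, hl y hy]
    exact hRb
  refine ⟨w1 - w2 + w3, Submodule.add_mem _ (Submodule.sub_mem _ hw1 hw2) hw3', ?_⟩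
  rw [map_add, map_sub, b1, b2, b3, e1, e2, e3]
  abel

theorem zero_acI {Y : Set X} (hs : ∀ x ∈ Y, ∀ y ∈ Y, x ⊔ y ∈ Y) (hi : ∀ x ∈ Y, ∀ y ∈ Y, x ⊓ y ∈ Y)
    (hT : ∀ x ∈ Y, ∀ k : ℤ, H.T k x ∈ Y) (hb : ∃ b ∈ Y, b ≤ H.t b) :
    AcI (Fl H.R {x | x ∈ Y ∧ x ≤ H.t x ∧ H.J x = 0}) := by
  obtain ⟨b, hbY, hb⟩ := hb
  refine H.CZero_aux hs hi hT (b := H.T (-H.J b) b) (hT b hbY _) (H.T_good hb _) ?_
  rw [J_T, add_neg_cancel]

end HLat
end TorA
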