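import Pool.Agent.Lib.MP_05cdf2_gt.A.RTA

/-! MP_05cdf2_gt, stream A, T-argument, file RPL: the product lemma `pl` for two posets with bottoms and degree functions.

`prod_join`: `(P + o1) × (Q + o2)` minus the bottom is `Ac (a + b)`. `prod_A`: the same with the condition `m ≤ D1 + D2`, `D2 ≥ 0` on `R`,
`m ≤ 0`. `pl`: arbitrary `D2`. -/

set_option autoImplicit false

namespace TorA
open Finsupp Tor

section
variable {α β : Type} [PartialOrder α] [PartialOrder β]

/-- the pairs which are not the bottom -/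
def PrS (P : Set α) (Q : Set β) (o1 : α) (o2 : β) : Set (α × β) :=
  {z | (z.1 = o1 ∨ z.1 ∈ P) ∧ (z.2 = o2 ∨ z.2 ∈ Q) ∧ z ≠ (o1, o2)}

theorem prod_join (P : Set α) (Q : Set β) (o1 : α) (o2 : β) (h1 : ∀ x ∈ P, o1 < x)
    (h2 : ∀ y ∈ Q, o2 < y) (rk2 : β → ℕ) (hr2 : ∀ y ∈ Q, ∀ y' ∈ Q, y < y' → rk2 y' < rk2 y)
    {a b : ℕ} (hP : Ac (Po P) a) (hQ : Ac (Po Q) b) : Ac (Po (PrS P Q o1 o2)) (a + b) := by
  classical
  have h1' : ∀ x, (x = o1 ∨ x ∈ P) → o1 ≤ x := by
    rintro x (h | h)
    · rw [h]
    · exact (h1 x h).le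
  have h2' : ∀ y, (y = o2 ∨ y ∈ Q) → o2 ≤ y := by
    rintro y (h | h)
    · rw [h]
    · exact (h2 y h).le
  -- the two parts of the ordinal sum
  set WP : Set (WithTop α × β) := (fun x : α => ((x : WithTop α), o2)) '' P with hWP
  set WQ : Set (WithTop α × β) := (fun y : β => ((⊤ : WithTop α), y)) '' Q with hWQ
  have hAP : Ac (Po WP) a := by
    refine (Ac_image (P := P) (fun x : α => ((x : WithTop α), o2)) ?_).2 hP
    intro x _ y _
    constructor
    · intro h
      exact WithTop.coe_le_coe.1 h.1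
    · intro h
      exact ⟨WithTop.coe_le_coe.2 h, le_refl _⟩
  have hAQ : Ac (Po WQ) b := by
    refine (Ac_image (P := Q) (fun y : β => ((⊤ : WithTop α), y)) ?_).2 hQ
    intro x _ y _
    constructor
    · intro h
      exact h.2
    · intro h
      exact ⟨le_refl _, h⟩
  have hW : Ac (Po (WP ∪ WQ)) (a + b) := by
    refine Ac_join ?_ hAP hAQ
    rintro z ⟨x, hx, rfl⟩ z' ⟨y, hy, rfl⟩
    refine lt_of_le_of_ne ⟨le_top, (h2 y hy).le⟩ ?_
    intro h
    have h3 : o2 = y := congrArg Prod.snd h
    exact (h2 y hy).ne h3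
  -- the big poset
  set M : Set (WithTop α × β) := {z | (z.1 = ⊤ ∨ z.1 = (o1 : WithTop α) ∨ ∃ x ∈ P, z.1 = (x : WithTop α)) ∧
    (z.2 = o2 ∨ z.2 ∈ Q) ∧ z ≠ ((o1 : WithTop α), o2) ∧ z ≠ (⊤, o2)} with hM
  have hWM : WP ∪ WQ ⊆ M := by
    rintro z (⟨x, hx, rfl⟩ | ⟨y, hy, rfl⟩)
    · refine ⟨Or.inr (Or.inr ⟨x, hx, rfl⟩), Or.inl rfl, ?_, ?_⟩
      · intro h
        have h3 : (x : WithTop α) = (o1 : WithTop α) := congrArg Prod.fst h
        exact (h1 x hx).ne (WithTop.coe_injective h3).symm
      · intro h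
        have h3 : (x : WithTop α) = ⊤ := congrArg Prod.fst h
        exact absurd h3 (WithTop.coe_ne_top)
    · refine ⟨Or.inl rfl, Or.inr hy, ?_, ?_⟩
      · intro h
        have h3 : (⊤ : WithTop α) = (o1 : WithTop α) := congrArg Prod.fst h
        exact absurd h3.symm (WithTop.coe_ne_top)
      · intro h
        have h3 : y = o2 := congrArg Prod.snd h
        exact (h2 y hy).ne h3.symm
  have hMn : Ac (Po M) (a + b) := by
    refine Ac_deform' hWM (fun z => if z.2 = o2 then z else (⊤, z.2)) ?_ ?_ ?_ hW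
    · rintro ⟨x, y⟩ ⟨hz1, hz2, hz3, hz4⟩
      dsimp only at hz1 hz2 ⊢
      by_cases hy : y = o2
      · rw [if_pos hy]
        subst hy
        rcases hz1 with h | h | ⟨x', hx', h⟩
        · exact absurd (by rw [h]) hz4
        · exact absurd (by rw [h]) hz3
        · exact Or.inl ⟨x', hx', by rw [h]⟩
      · rw [if_neg hy]
        rcases hz2 with h | h
        · exact absurd h hy
        · exact Or.inr ⟨y, h, rfl⟩
    · rintro ⟨x, y⟩ hz ⟨x', y'⟩ hz' hle
      have hle1 : x ≤ x' := hle.1
      have hle2 : y ≤ y' := hle.2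
      dsimp only
      by_cases hy : y = o2
      · rw [if_pos hy]
        by_cases hy' : y' = o2
        · rw [if_pos hy']
          exact hle
        · rw [if_neg hy']
          exact ⟨le_top, hle2⟩
      · rw [if_neg hy]
        have hy' : y' ≠ o2 := by
          intro h
          rcases hz.2.1 with h3 | h3
          · exact hy h3
          · have h4 := h2 y h3
            rw [h] at hle2
            exact absurd (lt_of_lt_of_le h4 hle2) (lt_irrefl _)
        rw [if_neg hy']
        exact ⟨le_refl _, hle2⟩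
    · rintro ⟨x, y⟩ hz
      dsimp only
      split_ifs with h
      · exact le_refl _
      · exact ⟨le_top, le_refl _⟩
  -- removing the elements with first entry `⊤`
  set J : Set (WithTop α × β) := {z | z ∈ M ∧ z.1 ≠ ⊤} with hJ
  have hJn : Ac (Po J) (a + b) := by
    intro m hm z hz hb
    refine rank_bd (P' := J) (P := M) (ι := ℕ) (fun x hx => hx.1) (fun z => rk2 z.2) ?_ ?_ hm hz hb
      (hMn m hm z (TRank_SupLn_mono (fun x hx => hx.1) _ hz) hb)
    · rintro ⟨x, y⟩ hx hx' ⟨x', y'⟩ hy hy' hle hne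
      have e1 : x = ⊤ := by
        by_contra h
        exact hx' ⟨hx, h⟩
      have e2 : x' = ⊤ := by
        by_contra h
        exact hy' ⟨hy, h⟩
      subst e1
      subst e2
      have hyQ : y ∈ Q := by
        rcases hx.2.1 with h | h
        · exact absurd (by rw [show y = o2 from h]) hx.2.2.2
        · exact h
      have hyQ' : y' ∈ Q := by
        rcases hy.2.1 with h | h
        · exact absurd (by rw [show y' = o2 from h]) hy.2.2.2
        · exact h
      have hlt : y < y' := lt_of_le_of_ne hle.2 fun h => hne (by rw [h])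
      exact (hr2 y hyQ y' hyQ' hlt).ne'
    · rintro ⟨x, y⟩ hx hx'
      have e1 : x = ⊤ := by
        by_contra h
        exact hx' ⟨hx, h⟩
      subst e1
      have hyQ : y ∈ Q := by
        rcases hx.2.1 with h | h
        · exact absurd (by rw [show y = o2 from h]) hx.2.2.2
        · exact h
      refine Ac.mono (Ac_LkR (a := a + b) (b := 0) ?_ (Ac_zero _)) (by omega)
      have hlow : ∀ z : WithTop α × β, (z ∈ LkR M J (fun z => rk2 z.2) (⊤, y) ∧ z ≤ (⊤, y)) ↔
          (z ∈ J ∧ z.2 ≤ y) := by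
        rintro ⟨x', y'⟩
        constructor
        · rintro ⟨⟨h3, h4, h5, h6⟩, h7⟩
          refine ⟨?_, h7.2⟩
          rcases h6 with h6 | h6
          · exact h6
          · refine ⟨h3, ?_⟩
            intro h
            have h' : x' = ⊤ := h
            subst h'
            have hyQ' : y' ∈ Q := by
              rcases h3.2.1 with h | h
              · exact absurd (by rw [show y' = o2 from h]) h3.2.2.2
              · exact h
            have hlt : y' < y := lt_of_le_of_ne h7.2 fun h => h4 (by rw [show y' = y from h])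
            exact absurd h6 (not_lt.2 (hr2 y' hyQ' y hyQ hlt).le)
        · rintro ⟨h3, h4⟩
          have h5 : ((x', y') : WithTop α × β) ≤ (⊤, y) := ⟨le_top, h4⟩
          refine ⟨⟨h3.1, ?_, Or.inl h5, Or.inl h3⟩, h5⟩
          intro h
          exact h3.2 (congrArg Prod.fst h)
      have hset : {z : WithTop α × β | z ∈ LkR M J (fun z => rk2 z.2) (⊤, y) ∧ z ≤ (⊤, y)} =
          {z | z ∈ J ∧ z.2 ≤ y} := by
        ext z
        exact hlow z
      rw [hset]
      have hmem : ∀ x' : WithTop α, (x' = (o1 : WithTop α) ∨ ∃ x ∈ P, x' = (x : WithTop α)) →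
          ((x', y) : WithTop α × β) ∈ {z : WithTop α × β | z ∈ J ∧ z.2 ≤ y} := by
        intro x' hx'
        refine ⟨⟨⟨Or.inr hx', Or.inr hyQ, ?_, ?_⟩, ?_⟩, le_refl _⟩
        · intro h
          have h3 : y = o2 := congrArg Prod.snd h
          exact (h2 y hyQ).ne h3.symm
        · intro h
          have h3 : y = o2 := congrArg Prod.snd h
          exact (h2 y hyQ).ne h3.symm
        · rcases hx' with h | ⟨x, _, h⟩
          · intro h3
            have h4 : x' = ⊤ := h3
            rw [h] at h4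
            exact WithTop.coe_ne_top h4
          · intro h3
            have h4 : x' = ⊤ := h3
            rw [h] at h4
            exact WithTop.coe_ne_top h4
      have hfst : ∀ z ∈ {z : WithTop α × β | z ∈ J ∧ z.2 ≤ y},
          (z.1 = (o1 : WithTop α) ∨ ∃ x ∈ P, z.1 = (x : WithTop α)) := by
        rintro z ⟨⟨⟨h3, -, -, -⟩, h4⟩, -⟩
        rcases h3 with h3 | h3
        · exact absurd h3 h4
        · exact h3
      refine AcI_of_up_down (fun z => (z.1, y)) ((o1 : WithTop α), y) (hmem _ (Or.inl rfl))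
        (fun z hz => hmem z.1 (hfst z hz)) (fun z _ z' _ hle => Prod.mk_le_mk.2 ⟨hle.1, le_refl _⟩)
        (fun z hz => Prod.mk_le_mk.2 ⟨le_refl _, hz.2⟩) ?_ (a + b)
      intro z hz
      refine ⟨?_, le_refl _⟩
      rcases hfst z hz with h | ⟨x, hx, h⟩
      · exact h.symm.le
      · show (o1 : WithTop α) ≤ z.1
        rw [h]
        exact WithTop.coe_le_coe.2 (h1 x hx).le
  -- back to `α × β`
  have hset : J = (fun z : α × β => ((z.1 : WithTop α), z.2)) '' (PrS P Q o1 o2) := by
    ext ⟨x, y⟩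
    constructor
    · rintro ⟨⟨h3, h4, h5, h6⟩, h7⟩
      rcases h3 with h3 | h3 | ⟨x', hx', h3⟩
      · exact absurd h3 h7
      · refine ⟨(o1, y), ⟨Or.inl rfl, h4, ?_⟩, ?_⟩
        · intro h
          have h8 : y = o2 := congrArg Prod.snd h
          exact h5 (by rw [h8, show x = (o1 : WithTop α) from h3])
        · show (((o1 : WithTop α), y) : WithTop α × β) = (x, y)
          rw [show x = (o1 : WithTop α) from h3]
      · refine ⟨(x', y), ⟨Or.inr hx', h4, ?_⟩, ?_⟩
        · intro h
          have h8 : x' = o1 := congrArg Prod.fst h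
          exact (h1 x' hx').ne h8.symm
        · show (((x' : WithTop α), y) : WithTop α × β) = (x, y)
          rw [show x = (x' : WithTop α) from h3]
    · rintro ⟨⟨x', y'⟩, ⟨h3, h4, h5⟩, h6⟩
      have e1 : (x' : WithTop α) = x := congrArg Prod.fst h6
      have e2 : y' = y := congrArg Prod.snd h6
      subst e1
      subst e2
      refine ⟨⟨?_, h4, ?_, ?_⟩, WithTop.coe_ne_top⟩
      · rcases h3 with h3 | h3
        · exact Or.inr (Or.inl (by rw [show x' = o1 from h3]))
        · exact Or.inr (Or.inr ⟨x', h3, rfl⟩)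
      · intro h
        have e3 : (x' : WithTop α) = (o1 : WithTop α) := congrArg Prod.fst h
        have e4 : y' = o2 := congrArg Prod.snd h
        exact h5 (by rw [WithTop.coe_injective e3, e4])
      · intro h
        exact absurd (congrArg Prod.fst h) WithTop.coe_ne_top
  rw [hset] at hJn
  refine (Ac_image (P := PrS P Q o1 o2) (fun z : α × β => ((z.1 : WithTop α), z.2)) ?_).1 hJn
  intro z _ z' _
  constructor
  · intro h
    exact ⟨WithTop.coe_le_coe.1 h.1, h.2⟩
  · intro h
    exact ⟨WithTop.coe_le_coe.2 h.1, h.2⟩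

/-- the pairs of degree `≥ m` which are not the bottom -/
def PrD (P : Set α) (Q : Set β) (o1 : α) (o2 : β) (D1 : α → ℤ) (D2 : β → ℤ) (m : ℤ) : Set (α × β) :=
  {z | (z.1 = o1 ∨ z.1 ∈ P) ∧ (z.2 = o2 ∨ z.2 ∈ Q) ∧ z ≠ (o1, o2) ∧ m ≤ D1 z.1 + D2 z.2}

theorem prod_A (P : Set α) (R : Set β) (o1 : α) (o2 : β) (h1 : ∀ x ∈ P, o1 < x)
    (h2 : ∀ y ∈ R, o2 < y) (D1 : α → ℤ) (D2 : β → ℤ) (hD1 : D1 o1 = 0) (hD2 : D2 o2 = 0)
    (hR : ∀ y ∈ R, 0 ≤ D2 y) (rk1 : α → ℕ) (rk2 : β → ℕ)
    (hr1 : ∀ x x', (x = o1 ∨ x ∈ P) → x' ∈ P → x < x' → rk1 x' < rk1 x)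
    (hr2 : ∀ y y', (y = o2 ∨ y ∈ R) → y' ∈ R → y < y' → rk2 y' < rk2 y)
    (m : ℤ) (hm : m ≤ 0) {a b : ℕ} (hA : Ac (Po {x | x ∈ P ∧ m ≤ D1 x}) a) (hB : Ac (Po R) b) :
    Ac (Po (PrD P R o1 o2 D1 D2 m)) (a + b) := by
  classical
  set J : Set (α × β) := PrS {x | x ∈ P ∧ m ≤ D1 x} R o1 o2 with hJ
  have hJn : Ac (Po J) (a + b) := by
    refine prod_join _ _ o1 o2 (fun x hx => h1 x hx.1) h2 rk2 ?_ hA hB
    intro y hy y' hy' h
    exact hr2 y y' (Or.inr hy) hy' h
  have h1' : ∀ x, (x = o1 ∨ x ∈ P) → o1 ≤ x := by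
    rintro x (h | h)
    · rw [h]
    · exact (h1 x h).le
  have h2' : ∀ y, (y = o2 ∨ y ∈ R) → o2 ≤ y := by
    rintro y (h | h)
    · rw [h]
    · exact (h2 y h).le
  have hJK : J ⊆ PrD P R o1 o2 D1 D2 m := by
    rintro ⟨x, y⟩ ⟨h3, h4, h5⟩
    refine ⟨?_, h4, h5, ?_⟩
    · rcases h3 with h3 | h3
      · exact Or.inl h3
      · exact Or.inr h3.1
    · have h6 : 0 ≤ D2 y := by
        rcases h4 with h4 | h4
        · rw [show y = o2 from h4, hD2]
        · exact hR y h4
      have h7 : m ≤ D1 x := by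
        rcases h3 with h3 | h3
        · rw [show x = o1 from h3, hD1]
          exact hm
        · exact h3.2
      show m ≤ D1 x + D2 y
      omega
  -- strict monotonicity of the rank
  have hrk : ∀ z ∈ PrD P R o1 o2 D1 D2 m, ∀ z' ∈ PrD P R o1 o2 D1 D2 m, z ≤ z' → z ≠ z' →
      rk1 z'.1 + rk2 z'.2 < rk1 z.1 + rk2 z.2 := by
    rintro ⟨x, y⟩ hz ⟨x', y'⟩ hz' hle hne
    have hx : x = x' ∨ rk1 x' < rk1 x := by
      rcases eq_or_lt_of_le (show x ≤ x' from hle.1) with h | h
      · exact Or.inl h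
      · refine Or.inr (hr1 x x' hz.1 ?_ h)
        rcases hz'.1 with h3 | h3
        · exact absurd (h1' x hz.1) (lt_of_lt_of_le h (show x' = o1 from h3).le).not_ge
        · exact h3
    have hy : y = y' ∨ rk2 y' < rk2 y := by
      rcases eq_or_lt_of_le (show y ≤ y' from hle.2) with h | h
      · exact Or.inl h
      · refine Or.inr (hr2 y y' hz.2.1 ?_ h)
        rcases hz'.2.1 with h3 | h3
        · exact absurd (h2' y hz.2.1) (lt_of_lt_of_le h (show y' = o2 from h3).le).not_ge
        · exact h3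
    show rk1 x' + rk2 y' < rk1 x + rk2 y
    rcases hx with hx | hx
    · rcases hy with hy | hy
      · exact absurd (by rw [hx, hy]) hne
      · rw [hx]
        omega
    · rcases hy with hy | hy
      · rw [hy]
        omega
      · omega
  rcases Nat.eq_zero_or_pos (a + b) with hn | hn
  · rw [hn]
    exact Ac_zero _
  obtain ⟨k, hk⟩ : ∃ k, a + b = k + 1 := ⟨a + b - 1, by omega⟩
  rw [hk] at hJn ⊢
  refine rank_ac (P' := J) (ι := ℕ) hJK (fun z => rk1 z.1 + rk2 z.2) ?_ ?_ hJn
  · intro z hz _ z' hz' _ hle hne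
    exact (hrk z hz z' hz' hle hne).ne'
  · rintro ⟨x, y⟩ hz hz'
    -- `x ∈ P`, `D1 x < m`, `y ∈ R`
    have hx : x ∈ P ∧ D1 x < m := by
      by_contra hcon
      refine hz' ⟨?_, hz.2.1, hz.2.2.1⟩
      rcases hz.1 with h | h
      · exact Or.inl h
      · refine Or.inr ⟨h, ?_⟩
        by_contra h3
        exact hcon ⟨h, not_le.1 h3⟩
    have hy : y ∈ R := by
      rcases hz.2.1 with h | h
      · exfalso
        have h3 : m ≤ D1 x + D2 y := hz.2.2.2
        rw [show y = o2 from h, hD2] at h3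
        omega
      · exact h
    refine Ac.mono (Ac_LkR (a := k) (b := 0) ?_ (Ac_zero _)) (by omega)
    have hset : {z : α × β | z ∈ LkR (PrD P R o1 o2 D1 D2 m) J (fun z => rk1 z.1 + rk2 z.2) (x, y) ∧
        z ≤ (x, y)} = {z | z ∈ J ∧ z ≤ (x, y)} := by
      ext z
      constructor
      · rintro ⟨⟨h3, h4, h5, h6⟩, h7⟩
        refine ⟨?_, h7⟩
        rcases h6 with h6 | h6
        · exact h6
        · exact absurd h6 (not_lt.2 (hrk z h3 (x, y) hz h7 h4).le)
      · rintro ⟨h3, h4⟩
        refine ⟨⟨hJK h3, ?_, Or.inl h4, Or.inl h3⟩, h4⟩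
        intro h
        exact hz' (h ▸ h3)
    rw [hset]
    have hmem : ∀ x', (x' = o1 ∨ x' ∈ {x | x ∈ P ∧ m ≤ D1 x}) → x' ≤ x →
        ((x', y) : α × β) ∈ {z : α × β | z ∈ J ∧ z ≤ (x, y)} := by
      intro x' h3 h4
      refine ⟨⟨h3, Or.inr hy, ?_⟩, h4, le_refl _⟩
      intro h
      have h5 : y = o2 := congrArg Prod.snd h
      exact (h2 y hy).ne h5.symm
    refine AcI_of_up_down (fun z => (z.1, y)) (o1, y) (hmem o1 (Or.inl rfl) (h1 x hx.1).le)
      (fun z hz => hmem z.1 hz.1.1 hz.2.1) (fun z _ z' _ hle => Prod.mk_le_mk.2 ⟨hle.1, le_refl _⟩)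
      (fun z hz => Prod.mk_le_mk.2 ⟨le_refl _, hz.2.2⟩) ?_ k
    intro z hz
    refine ⟨?_, le_refl _⟩
    rcases hz.1.1 with h | h
    · exact h.symm.le
    · exact (h1 z.1 h.1).le

/-- **the product lemma** -/
theorem pl (P : Set α) (Q : Set β) (o1 : α) (o2 : β) (h1 : ∀ x ∈ P, o1 < x)
    (h2 : ∀ y ∈ Q, o2 < y) (D1 : α → ℤ) (D2 : β → ℤ) (hD1 : D1 o1 = 0) (hD2 : D2 o2 = 0)
    (rk1 : α → ℕ) (rk2 : β → ℕ)
    (hr1 : ∀ x x', (x = o1 ∨ x ∈ P) → x' ∈ P → x < x' → rk1 x' < rk1 x)
    (hr2 : ∀ y y', (y = o2 ∨ y ∈ Q) → y' ∈ Q → y < y' → rk2 y' < rk2 y)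
    (c1 : ℤ) (hc : ∀ x ∈ P, D1 x ≤ c1) {a b : ℕ}
    (hA : ∀ m ≤ 0, Ac (Po {x | x ∈ P ∧ m ≤ D1 x}) a)
    (hB : Ac (Po {y | y ∈ Q ∧ 0 ≤ D2 y}) b)
    (hC : ∀ y ∈ Q, D2 y < 0 → ∃ u v, Ac (Po {y' | y' ∈ Q ∧ y' < y ∧ D2 y < D2 y'}) u ∧
      Ac (Po {y' | y' ∈ Q ∧ y < y' ∧ D2 y ≤ D2 y'}) v ∧ b ≤ u + v)
    (m : ℤ) (hm : m ≤ 0) : Ac (Po (PrD P Q o1 o2 D1 D2 m)) (a + b) := by
  classical
  have h1' : ∀ x, (x = o1 ∨ x ∈ P) → o1 ≤ x := by
    rintro x (h | h)
    · rw [h]
    · exact (h1 x h).le
  have h2' : ∀ y, (y = o2 ∨ y ∈ Q) → o2 ≤ y := by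
    rintro y (h | h)
    · rw [h]
    · exact (h2 y h).le
  -- the filtration
  set K : ℕ → Set (α × β) := fun d =>
    {z | z ∈ PrD P Q o1 o2 D1 D2 m ∧ (z.2 = o2 ∨ -(d : ℤ) ≤ D2 z.2)} with hK
  -- strict monotonicity of the rank
  have hrk : ∀ z ∈ PrD P Q o1 o2 D1 D2 m, ∀ z' ∈ PrD P Q o1 o2 D1 D2 m, z ≤ z' → z ≠ z' →
      rk1 z'.1 + rk2 z'.2 < rk1 z.1 + rk2 z.2 := by
    rintro ⟨x, y⟩ hz ⟨x', y'⟩ hz' hle hne
    have hx : x = x' ∨ rk1 x' < rk1 x := by
      rcases eq_or_lt_of_le (show x ≤ x' from hle.1) with h | h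
      · exact Or.inl h
      · refine Or.inr (hr1 x x' hz.1 ?_ h)
        rcases hz'.1 with h3 | h3
        · exact absurd (h1' x hz.1) (lt_of_lt_of_le h (show x' = o1 from h3).le).not_ge
        · exact h3
    have hy : y = y' ∨ rk2 y' < rk2 y := by
      rcases eq_or_lt_of_le (show y ≤ y' from hle.2) with h | h
      · exact Or.inl h
      · refine Or.inr (hr2 y y' hz.2.1 ?_ h)
        rcases hz'.2.1 with h3 | h3
        · exact absurd (h2' y hz.2.1) (lt_of_lt_of_le h (show y' = o2 from h3).le).not_ge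
        · exact h3
    show rk1 x' + rk2 y' < rk1 x + rk2 y
    rcases hx with hx | hx
    · rcases hy with hy | hy
      · exact absurd (by rw [hx, hy]) hne
      · rw [hx]
        omega
    · rcases hy with hy | hy
      · rw [hy]
        omega
      · omega
  have hK0 : Ac (Po (K 0)) (a + b) := by
    have h3 := prod_A P {y | y ∈ Q ∧ 0 ≤ D2 y} o1 o2 h1 (fun y hy => h2 y hy.1) D1 D2 hD1 hD2
      (fun y hy => hy.2) rk1 rk2 hr1 (fun y y' hy hy' h => hr2 y y' (by
        rcases hy with hy | hy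
        · exact Or.inl hy
        · exact Or.inr hy.1) hy'.1 h) m hm (hA m hm) hB
    refine (Eq.subst (motive := fun S => Ac (Po S) (a + b)) ?_ h3)
    ext ⟨x, y⟩
    constructor
    · rintro ⟨h4, h5, h6, h7⟩
      refine ⟨⟨h4, ?_, h6, h7⟩, ?_⟩
      · rcases h5 with h5 | h5
        · exact Or.inl h5
        · exact Or.inr h5.1
      · rcases h5 with h5 | h5
        · exact Or.inl h5
        · refine Or.inr ?_
          have h8 : 0 ≤ D2 y := h5.2
          simpa using h8
    · rintro ⟨⟨h4, h5, h6, h7⟩, h8⟩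
      refine ⟨h4, ?_, h6, h7⟩
      rcases h5 with h5 | h5
      · exact Or.inl h5
      · rcases h8 with h8 | h8
        · exact Or.inl h8
        · refine Or.inr ⟨h5, ?_⟩
          simpa using h8
  have hstep : ∀ d : ℕ, Ac (Po (K d)) (a + b) → Ac (Po (K (d + 1))) (a + b) := by
    intro d hd
    rcases Nat.eq_zero_or_pos (a + b) with hn | hn
    · rw [hn]
      exact Ac_zero _
    obtain ⟨k, hk⟩ : ∃ k, a + b = k + 1 := ⟨a + b - 1, by omega⟩
    rw [hk] at hd ⊢
    have hsub : K d ⊆ K (d + 1) := by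
      rintro z ⟨h3, h4⟩
      refine ⟨h3, ?_⟩
      rcases h4 with h4 | h4
      · exact Or.inl h4
      · refine Or.inr (le_trans ?_ h4)
        push_cast
        omega
    refine rank_ac (P' := K d) (ι := ℕ) hsub (fun z => rk1 z.1 + rk2 z.2) ?_ ?_ hd
    · intro z hz _ z' hz' _ hle hne
      exact (hrk z hz.1 z' hz'.1 hle hne).ne'
    · rintro ⟨x, y⟩ hz hz'
      -- `y ∈ Q` of degree `-(d + 1)`
      have hyd : y ≠ o2 ∧ D2 y = -((d : ℤ) + 1) := by
        have h3 := hz.2
        have h4 : ¬ (y = o2 ∨ -(d : ℤ) ≤ D2 y) := fun h => hz' ⟨hz.1, h⟩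
        have h5 : y ≠ o2 := fun h => h4 (Or.inl h)
        have h6 : D2 y < -(d : ℤ) := not_le.1 fun h => h4 (Or.inr h)
        refine ⟨h5, ?_⟩
        rcases h3 with h3 | h3
        · exact absurd h3 h5
        · push_cast at h3
          have h7 : -((d : ℤ) + 1) ≤ D2 y := h3
          omega
      have hy : y ∈ Q := by
        rcases hz.1.2.1 with h | h
        · exact absurd h hyd.1
        · exact h
      have hdeg : m ≤ D1 x + D2 y := hz.1.2.2.2
      -- the lower part of the link
      have hlow : {z : α × β | z ∈ LkR (K (d + 1)) (K d) (fun z => rk1 z.1 + rk2 z.2) (x, y) ∧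
          z ≤ (x, y)} = {z | z ∈ K d ∧ z ≤ (x, y)} := by
        ext z
        constructor
        · rintro ⟨⟨h3, h4, h5, h6⟩, h7⟩
          refine ⟨?_, h7⟩
          rcases h6 with h6 | h6
          · exact h6
          · exact absurd h6 (not_lt.2 (hrk z h3.1 (x, y) hz.1 h7 h4).le)
        · rintro ⟨h3, h4⟩
          refine ⟨⟨hsub h3, ?_, Or.inl h4, Or.inl h3⟩, h4⟩
          intro h
          exact hz' (h ▸ h3)
      by_cases hx : x = o1
      · subst hx
        obtain ⟨u, v, hu, hv, huv⟩ := hC y hy (by rw [hyd.2]; omega)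
        have hdy : m ≤ D2 y := by rw [hD1] at hdeg; omega
        refine Ac.mono (Ac_LkR (a := u) (b := a + v) ?_ ?_) (by omega)
        · rw [hlow]
          have h3 := (Ac_image (P := {y' | y' ∈ Q ∧ y' < y ∧ D2 y < D2 y'})
            (fun y' : β => (x, y')) (n := u) (by
              intro y1 _ y2 _
              constructor
              · intro h
                exact h.2
              · intro h
                exact ⟨le_refl _, h⟩)).2 hu
          refine (Eq.subst (motive := fun S => Ac (Po S) u) ?_ h3)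
          ext ⟨x', y'⟩
          constructor
          · rintro ⟨y1, ⟨hy1, hy2, hy3⟩, h⟩
            have e1 : x = x' := congrArg Prod.fst h
            have e2 : y1 = y' := congrArg Prod.snd h
            subst e1
            subst e2
            refine ⟨⟨⟨Or.inl rfl, Or.inr hy1, ?_, ?_⟩, Or.inr ?_⟩, le_refl _, hy2.le⟩
            · intro h
              have h4 : y1 = o2 := congrArg Prod.snd h
              exact (h2 y1 hy1).ne h4.symm
            · show m ≤ D1 x + D2 y1
              rw [hD1]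
              omega
            · show -(d : ℤ) ≤ D2 y1
              rw [hyd.2] at hy3
              omega
          · rintro ⟨⟨⟨h4, h5, h6, h7⟩, h8⟩, h9⟩
            have e1 : x' = x := by
              rcases h4 with h4 | h4
              · exact h4
              · exact absurd (lt_of_lt_of_le (h1 x' h4) h9.1) (lt_irrefl _)
            subst e1
            have hy1 : y' ∈ Q := by
              rcases h5 with h5 | h5
              · exact absurd (by rw [show y' = o2 from h5]) h6
              · exact h5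
            have hy2 : -(d : ℤ) ≤ D2 y' := by
              rcases h8 with h8 | h8
              · exact absurd (show y' = o2 from h8) (h2 y' hy1).ne'
              · exact h8
            refine ⟨y', ⟨hy1, lt_of_le_of_ne h9.2 ?_, ?_⟩, rfl⟩
            · intro h
              have h10 : y' = y := h
              rw [h10, hyd.2] at hy2
              omega
            · rw [hyd.2]
              omega
        · -- the upper part
          have h3 := prod_A P {y' | y' ∈ Q ∧ y < y' ∧ D2 y ≤ D2 y'} x y h1 (fun y' hy' => hy'.2.1)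
            D1 (fun y' => D2 y' - D2 y) hD1 (sub_self _) (fun y' hy' => by
              have := hy'.2.2
              show 0 ≤ D2 y' - D2 y
              omega) rk1 rk2 hr1 (fun y1 y2 hy1 hy2 h => hr2 y1 y2 (by
                rcases hy1 with hy1 | hy1
                · rw [hy1]
                  exact Or.inr hy
                · exact Or.inr hy1.1) hy2.1 h) (m - D2 y) (by omega) (hA _ (by omega)) hv
          refine (Eq.subst (motive := fun S => Ac (Po S) (a + v)) ?_ h3)
          ext ⟨x', y'⟩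
          constructor
          · rintro ⟨h4, h5, h6, h7⟩
            have h7' : m - D2 y ≤ D1 x' + (D2 y' - D2 y) := h7
            have hy5 : y ≤ y' ∧ y' ∈ Q ∧ D2 y ≤ D2 y' := by
              rcases h5 with h5 | h5
              · rw [show y' = y from h5]
                exact ⟨le_refl _, hy, le_refl _⟩
              · exact ⟨h5.2.1.le, h5.1, h5.2.2⟩
            have hle : ((x, y) : α × β) ≤ (x', y') := ⟨h1' x' h4, hy5.1⟩
            have hmem : ((x', y') : α × β) ∈ K (d + 1) := by
              refine ⟨⟨h4, Or.inr hy5.2.1, ?_, ?_⟩, Or.inr ?_⟩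
              · intro h
                have h8 : y' = o2 := congrArg Prod.snd h
                exact (h2 y' hy5.2.1).ne h8.symm
              · show m ≤ D1 x' + D2 y'
                omega
              · show -((d + 1 : ℕ) : ℤ) ≤ D2 y'
                have := hy5.2.2
                rw [hyd.2] at this
                push_cast
                omega
            refine ⟨⟨hmem, h6, Or.inr hle, Or.inr ?_⟩, hle⟩
            exact hrk (x, y) hz.1 (x', y') hmem.1 hle (Ne.symm h6)
          · rintro ⟨⟨h4, h5, -, -⟩, h6⟩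
            have hle2 : y ≤ y' := h6.2
            have hy' : y' ∈ Q := by
              rcases h4.1.2.1 with h | h
              · exfalso
                have h7 : y' = o2 := h
                rw [h7] at hle2
                exact absurd (lt_of_lt_of_le (h2 y hy) hle2) (lt_irrefl _)
              · exact h
            have hd' : D2 y ≤ D2 y' := by
              rcases h4.2 with h | h
              · exact absurd (show y' = o2 from h) (h2 y' hy').ne'
              · have h7 : -((d + 1 : ℕ) : ℤ) ≤ D2 y' := h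
                push_cast at h7
                rw [hyd.2]
                omega
            refine ⟨h4.1.1, ?_, h5, ?_⟩
            · rcases eq_or_lt_of_le hle2 with h | h
              · exact Or.inl h.symm
              · exact Or.inr ⟨hy', h, hd'⟩
            · have h7 : m ≤ D1 x' + D2 y' := h4.1.2.2.2
              show m - D2 y ≤ D1 x' + (D2 y' - D2 y)
              omega
      · -- `x ∈ P`: the lower part is contractible
        have hxP : x ∈ P := by
          rcases hz.1.1 with h | h
          · exact absurd h hx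
          · exact h
        refine Ac.mono (Ac_LkR (a := k) (b := 0) ?_ (Ac_zero _)) (by omega)
        rw [hlow]
        have hmem : ∀ y', (y' = o2 ∨ (y' ∈ Q ∧ -(d : ℤ) ≤ D2 y')) → y' ≤ y →
            ((x, y') : α × β) ∈ {z : α × β | z ∈ K d ∧ z ≤ (x, y)} := by
          intro y' h3 h4
          refine ⟨⟨⟨Or.inr hxP, ?_, ?_, ?_⟩, ?_⟩, le_refl _, h4⟩
          · rcases h3 with h3 | h3
            · exact Or.inl h3
            · exact Or.inr h3.1
          · intro h
            exact hx (congrArg Prod.fst h)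
          · show m ≤ D1 x + D2 y'
            rcases h3 with h3 | h3
            · rw [h3, hD2]
              rw [hyd.2] at hdeg
              omega
            · have := h3.2
              rw [hyd.2] at hdeg
              omega
          · rcases h3 with h3 | h3
            · exact Or.inl h3
            · exact Or.inr h3.2
        have hsnd : ∀ z ∈ {z : α × β | z ∈ K d ∧ z ≤ (x, y)},
            (z.2 = o2 ∨ (z.2 ∈ Q ∧ -(d : ℤ) ≤ D2 z.2)) := by
          rintro z ⟨⟨h3, h4⟩, -⟩
          rcases h4 with h4 | h4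
          · exact Or.inl h4
          · rcases h3.2.1 with h5 | h5
            · exact Or.inl h5
            · exact Or.inr ⟨h5, h4⟩
        refine AcI_of_up_down (fun z => (x, z.2)) (x, o2) (hmem o2 (Or.inl rfl) (h2 y hy).le)
          (fun z hz => hmem z.2 (hsnd z hz) hz.2.2) (fun z _ z' _ hle => Prod.mk_le_mk.2 ⟨le_refl _, hle.2⟩)
          (fun z hz => Prod.mk_le_mk.2 ⟨hz.2.1, le_refl _⟩) ?_ k
        intro z hz
        exact ⟨le_refl _, h2' z.2 hz.1.1.2.1⟩
  have hall : ∀ d : ℕ, Ac (Po (K d)) (a + b) := by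
    intro d
    induction d with
    | zero => exact hK0
    | succ d ih => exact hstep d ih
  -- all elements have bounded degree
  have hfin : PrD P Q o1 o2 D1 D2 m = K (c1.toNat + (-m).toNat) := by
    ext ⟨x, y⟩
    constructor
    · intro hz
      refine ⟨hz, Or.inr ?_⟩
      have h3 : m ≤ D1 x + D2 y := hz.2.2.2
      have h4 : D1 x ≤ max c1 0 := by
        rcases hz.1 with h | h
        · rw [show x = o1 from h, hD1]
          exact le_max_right _ _
        · exact (hc x h).trans (le_max_left _ _)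
      show -((c1.toNat + (-m).toNat : ℕ) : ℤ) ≤ D2 y
      push_cast
      omega
    · rintro ⟨h, -⟩
      exact h
  rw [hfin]
  exact hall _

end

end TorA
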