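import Pool.Agent.Lib.MP_05cdf2_gt.A.TRank
import Pool.Agent.Lib.MP_05cdf2_gt.A.TRet
import Pool.Agent.Lib.MP_05cdf2_gt.A.TJoin
import Pool.Agent.Lib.MP_05cdf2_gt.A.TCon

/-! MP_05cdf2_gt, stream A, T-argument, file RTA: the T-argument lemma `ta`.

`Y` a set in a poset `α`, `τ` a poset (arc systems), `hu : τ → α` monotone (hull). Order on `τ + α`: `lo t ≤ hi E` iff `hu t ≤ E`.
Add the `hi E`, `E ∈ Y`, to `τ` (larger `E` first), then remove the `lo t` (they are added to `hi Y` by increasing size). -/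

set_option autoImplicit false

namespace TorA
open Finsupp Tor

/-- the link at its turn is the join of the lower and the upper part -/
theorem Ac_LkR {α ι : Type} [PartialOrder α] [LinearOrder ι] {P P' : Set α} {rk : α → ι} {M : α}
    {a b : ℕ} (hl : Ac (Po {x | x ∈ LkR P P' rk M ∧ x ≤ M}) a)
    (hu : Ac (Po {x | x ∈ LkR P P' rk M ∧ M ≤ x}) b) : Ac (Po (LkR P P' rk M)) (a + b) := by
  have h1 : LkR P P' rk M = {x | x ∈ LkR P P' rk M ∧ x ≤ M} ∪ {x | x ∈ LkR P P' rk M ∧ M ≤ x} := by
    ext x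
    constructor
    · intro hx
      rcases hx.2.2.1 with h | h
      · exact Or.inl ⟨hx, h⟩
      · exact Or.inr ⟨hx, h⟩
    · rintro (hx | hx)
      · exact hx.1
      · exact hx.1
  rw [h1]
  refine Ac_join ?_ hl hu
  intro x hx y hy
  exact (lt_of_le_of_ne hx.2 hx.1.2.1).trans (lt_of_le_of_ne hy.2 (Ne.symm hy.1.2.1))

/-- the mapping cylinder of `hu` -/
inductive Cyl (τ α : Type) : Type
  | lo : τ → Cyl τ α
  | hi : α → Cyl τ α

/-- the relation of the mapping cylinder -/
def Cyl.rel {τ α : Type} [LE τ] [LE α] (hu : τ → α) : Cyl τ α → Cyl τ α → Prop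
  | .lo t, .lo t' => t ≤ t'
  | .lo t, .hi E => hu t ≤ E
  | .hi _, .lo _ => False
  | .hi E, .hi E' => E ≤ E'

/-- the order of the mapping cylinder -/
@[reducible] def Cyl.order {τ α : Type} [PartialOrder τ] [PartialOrder α] (hu : τ → α)
    (mono : Monotone hu) : PartialOrder (Cyl τ α) where
  le := Cyl.rel hu
  le_refl := by
    rintro (t | E)
    · exact le_refl t
    · exact le_refl E
  le_trans := by
    rintro (t | E) (t' | E') (t'' | E'') h1 h2
    · exact le_trans (α := τ) h1 h2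
    · exact (mono h1).trans h2
    · exact h2.elim
    · exact le_trans (α := α) h1 h2
    · exact h1.elim
    · exact h1.elim
    · exact h2.elim
    · exact le_trans (α := α) h1 h2
  le_antisymm := by
    rintro (t | E) (t' | E') h1 h2
    · exact congrArg Cyl.lo (le_antisymm (α := τ) h1 h2)
    · exact h2.elim
    · exact h1.elim
    · exact congrArg Cyl.hi (le_antisymm (α := α) h1 h2)

/-- **the T-argument lemma** -/
theorem ta {α τ : Type} [PartialOrder α] [PartialOrder τ] (Y : Set α) (hu : τ → α)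
    (mono : Monotone hu) (sz : τ → ℕ) (hsz : ∀ t t', t < t' → sz t < sz t') (rk : α → ℕ)
    (hrk : ∀ x ∈ Y, ∀ y ∈ Y, x < y → rk y < rk x) {n : ℕ} (h3 : Ac (Po (Set.univ : Set τ)) n)
    (h1 : ∀ E ∈ Y, ∃ a b, Ac (Po {t | hu t ≤ E}) a ∧ Ac (Po {E' | E' ∈ Y ∧ E < E'}) b ∧
      n ≤ a + b + 1)
    (h2 : ∀ t, ∃ a b, Ac (Po {t' | t' < t}) a ∧ Ac (Po {E | E ∈ Y ∧ hu t ≤ E}) b ∧ n ≤ a + b) :
    Ac (Po Y) n := by
  classical
  letI : PartialOrder (Cyl τ α) := Cyl.order hu mono
  have ll : ∀ t t' : τ, (Cyl.lo t : Cyl τ α) ≤ Cyl.lo t' ↔ t ≤ t' := fun t t' => Iff.rfl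
  have lh : ∀ (t : τ) (E : α), (Cyl.lo t : Cyl τ α) ≤ Cyl.hi E ↔ hu t ≤ E := fun t E => Iff.rfl
  have hl : ∀ (t : τ) (E : α), ¬ (Cyl.hi E : Cyl τ α) ≤ Cyl.lo t := fun t E h => h
  have hh : ∀ E E' : α, (Cyl.hi E : Cyl τ α) ≤ Cyl.hi E' ↔ E ≤ E' := fun E E' => Iff.rfl
  have imlo : ∀ (S : Set τ) (k : ℕ), Ac (Po S) k → Ac (Po (Cyl.lo '' S : Set (Cyl τ α))) k := by
    intro S k h
    exact (Ac_image (P := S) (Cyl.lo : τ → Cyl τ α) (fun x _ y _ => ll x y)).2 h
  have imhi : ∀ (S : Set α) (k : ℕ), Ac (Po S) k ↔ Ac (Po (Cyl.hi '' S : Set (Cyl τ α))) k := by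
    intro S k
    exact (Ac_image (P := S) (Cyl.hi : α → Cyl τ α) (fun x _ y _ => hh x y)).symm
  set A : Set (Cyl τ α) := Cyl.lo '' Set.univ with hA
  set B : Set (Cyl τ α) := Cyl.hi '' Y with hB
  set P : Set (Cyl τ α) := A ∪ B with hP
  -- adding the `hi E`
  have hPn : Ac (Po P) n := by
    rcases Nat.eq_zero_or_pos n with hn | hn
    · rw [hn]
      exact Ac_zero _
    obtain ⟨k, rfl⟩ : ∃ k, n = k + 1 := ⟨n - 1, by omega⟩
    refine rank_ac (P' := A) (P := P) (ι := ℕ) Set.subset_union_left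
      (fun x => match x with | .lo _ => 0 | .hi E => rk E) ?_ ?_ (imlo _ _ h3)
    · rintro (t | E) hx hx' (t' | E') hy hy' hxy hne
      · exact absurd ⟨t, Set.mem_univ _, rfl⟩ hx'
      · exact absurd ⟨t, Set.mem_univ _, rfl⟩ hx'
      · exact absurd ⟨t', Set.mem_univ _, rfl⟩ hy'
      · have hE : E ∈ Y := by
          rcases hx with hx | ⟨z, hz, h⟩
          · exact absurd hx hx'
          · cases h; exact hz
        have hE' : E' ∈ Y := by
          rcases hy with hy | ⟨z, hz, h⟩
          · exact absurd hy hy'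
          · cases h; exact hz
        have := hrk E hE E' hE' (lt_of_le_of_ne hxy fun h => hne (by rw [h]))
        exact Ne.symm this.ne
    · rintro (t | E) hM hM'
      · exact absurd ⟨t, Set.mem_univ _, rfl⟩ hM'
      have hE : E ∈ Y := by
        rcases hM with hx | ⟨z, hz, h⟩
        · exact absurd hx hM'
        · cases h; exact hz
      obtain ⟨a, b, ha, hb, hab⟩ := h1 E hE
      refine Ac.mono (Ac_LkR (a := a) (b := b) ?_ ?_) (by omega)
      · refine (Eq.subst (motive := fun S => Ac (Po S) a) ?_ (imlo _ _ ha))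
        ext x
        constructor
        · rintro ⟨t, ht, rfl⟩
          exact ⟨⟨Or.inl ⟨t, Set.mem_univ _, rfl⟩, (by intro h; cases h), Or.inl ht,
            Or.inl ⟨t, Set.mem_univ _, rfl⟩⟩, ht⟩
        · rintro ⟨⟨hx1, hx2, hx3, hx4⟩, hx5⟩
          rcases x with t | E'
          · exact ⟨t, hx5, rfl⟩
          · exfalso
            have hE' : E' ∈ Y := by
              rcases hx1 with ⟨z, hz, h⟩ | ⟨z, hz, h⟩
              · cases h
              · cases h; exact hz
            rcases hx4 with ⟨z, hz, h⟩ | hx4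
            · cases h
            · have h5 : E' < E := lt_of_le_of_ne hx5 fun h => hx2 (by rw [h])
              have h6 := hrk E' hE' E hE h5
              exact absurd hx4 (not_lt.2 h6.le)
      · refine (Eq.subst (motive := fun S => Ac (Po S) b) ?_ ((imhi _ _).1 hb))
        ext x
        constructor
        · rintro ⟨E', hE', rfl⟩
          refine ⟨⟨Or.inr ⟨E', hE'.1, rfl⟩, ?_, Or.inr hE'.2.le, Or.inr (hrk E hE E' hE'.1 hE'.2)⟩,
            hE'.2.le⟩
          intro h
          cases h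
          exact lt_irrefl _ hE'.2
        · rintro ⟨⟨hx1, hx2, hx3, hx4⟩, hx5⟩
          rcases x with t | E'
          · exact absurd hx5 (hl t E)
          · have hE' : E' ∈ Y := by
              rcases hx1 with ⟨z, hz, h⟩ | ⟨z, hz, h⟩
              · cases h
              · cases h; exact hz
            exact ⟨E', ⟨hE', lt_of_le_of_ne hx5 fun h => hx2 (by rw [h])⟩, rfl⟩
  -- removing the `lo t`
  rw [imhi]
  intro m hm z hz hb
  refine rank_bd (P' := B) (P := P) (ι := ℕ) Set.subset_union_right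
    (fun x => match x with | .lo t => sz t | .hi _ => 0) ?_ ?_ hm hz hb ?_
  · rintro (t | E) hx hx' (t' | E') hy hy' hxy hne
    · exact (hsz t t' (lt_of_le_of_ne hxy fun h => hne (by rw [h]))).ne
    · exfalso
      rcases hy with ⟨z, hz, h⟩ | hy
      · cases h
      · exact hy' hy
    · exact absurd hxy (hl t' E)
    · exfalso
      rcases hy with ⟨z, hz, h⟩ | hy
      · cases h
      · exact hy' hy
  · rintro (t | E) hM hM'
    · obtain ⟨a, b, ha, hb, hab⟩ := h2 t
      refine Ac.mono (Ac_LkR (a := a) (b := b) ?_ ?_) hab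
      · refine (Eq.subst (motive := fun S => Ac (Po S) a) ?_ (imlo _ _ ha))
        ext x
        constructor
        · rintro ⟨t', ht, rfl⟩
          refine ⟨⟨Or.inl ⟨t', Set.mem_univ _, rfl⟩, ?_, Or.inl ht.le, Or.inr (hsz t' t ht)⟩, ht.le⟩
          intro h
          cases h
          exact lt_irrefl _ ht
        · rintro ⟨⟨hx1, hx2, hx3, hx4⟩, hx5⟩
          rcases x with t' | E'
          · exact ⟨t', lt_of_le_of_ne hx5 fun h => hx2 (by rw [h]), rfl⟩
          · exact absurd hx5 (hl t E')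
      · refine (Eq.subst (motive := fun S => Ac (Po S) b) ?_ ((imhi _ _).1 hb))
        ext x
        constructor
        · rintro ⟨E', hE', rfl⟩
          exact ⟨⟨Or.inr ⟨E', hE'.1, rfl⟩, (by intro h; cases h), Or.inr hE'.2,
            Or.inl ⟨E', hE'.1, rfl⟩⟩, hE'.2⟩
        · rintro ⟨⟨hx1, hx2, hx3, hx4⟩, hx5⟩
          rcases x with t' | E'
          · exfalso
            rcases hx4 with ⟨z, hz, h⟩ | hx4
            · cases h
            · have h5 : t < t' := lt_of_le_of_ne hx5 fun h => hx2 (by rw [h])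
              exact absurd hx4 (not_lt.2 (hsz t t' h5).le)
          · have hE' : E' ∈ Y := by
              rcases hx1 with ⟨z, hz, h⟩ | ⟨z, hz, h⟩
              · cases h
              · cases h; exact hz
            exact ⟨E', ⟨hE', hx5⟩, rfl⟩
    · exfalso
      rcases hM with ⟨z, hz, h⟩ | hM
      · cases h
      · exact hM' hM
  · exact hPn m hm z (TRank_SupLn_mono Set.subset_union_right _ hz) hb

end TorA
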