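import Pool.Agent.Lib.MP_05cdf2_gt.A.TPC

/-! MP_05cdf2_gt, stream A, toolkit, job TBi: chains of pairs of lists, `e1`, `e2` the boundaries in the two variables.
`e1 e1 = 0`, `e2 e2 = 0`, `e1 e2 = e2 e1` (check on generators; `e1 = linearCombination` of `(a, b) ↦ (bdL a, b)`).
`inB b : a ↦ (a, b)`, `inA a : b ↦ (a, b)`. -/

set_option autoImplicit false

namespace TorA
open Finsupp Tor

variable {α β : Type}

/-- chains of pairs of lists -/
abbrev C2 (α β : Type) : Type := (List α × List β) →₀ ℤ

/-- `b ↦ (a, b)` -/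
noncomputable def inA (β : Type) (a : List α) : Ch β →ₗ[ℤ] C2 α β := Finsupp.lmapDomain ℤ ℤ (fun b => (a, b))

/-- `a ↦ (a, b)` -/
noncomputable def inB (α : Type) (b : List β) : Ch α →ₗ[ℤ] C2 α β := Finsupp.lmapDomain ℤ ℤ (fun a => (a, b))

/-- boundary in the first variable -/
noncomputable def e1 : C2 α β →ₗ[ℤ] C2 α β := Finsupp.linearCombination ℤ (fun x => inB α x.2 (bdL x.1))

/-- boundary in the second variable -/
noncomputable def e2 : C2 α β →ₗ[ℤ] C2 α β := Finsupp.linearCombination ℤ (fun x => inA β x.1 (bdL x.2))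

theorem inA_single (a : List α) (b : List β) (n : ℤ) : inA β a (single b n) = single (a, b) n := by
  simp [inA]

theorem inB_single (a : List α) (b : List β) (n : ℤ) : inB α b (single a n) = single (a, b) n := by
  simp [inB]

theorem e1_single (a : List α) (b : List β) : e1 (single (a, b) 1) = inB α b (bdL a) := by
  simp [e1]

theorem e2_single (a : List α) (b : List β) : e2 (single (a, b) 1) = inA β a (bdL b) := by
  simp [e2]

theorem T_TBi_bilin (c : Ch β) (d : Ch α) :
    Finsupp.linearCombination ℤ (fun b : List β => inB α b d) c =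
      Finsupp.linearCombination ℤ (fun a : List α => inA β a c) d := by
  have h1 : ∀ (b : List β) (d : Ch α), inB α b d =
      Finsupp.linearCombination ℤ (fun a : List α => inA β a (single b 1)) d := by
    intro b d
    have : inB α b = Finsupp.linearCombination ℤ (fun a : List α => inA β a (single b 1)) := by
      apply lin_ext
      intro a
      simp [inA_single, inB_single]
    exact LinearMap.congr_fun this d
  let R : Ch β →ₗ[ℤ] C2 α β :=
    { toFun := fun c => Finsupp.linearCombination ℤ (fun a : List α => inA β a c) d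
      map_add' := fun x y => by
        rw [Finsupp.linearCombination_apply, Finsupp.linearCombination_apply,
          Finsupp.linearCombination_apply, ← Finsupp.sum_add]
        refine Finsupp.sum_congr fun a _ => ?_
        rw [map_add, smul_add]
      map_smul' := fun n x => by
        rw [Finsupp.linearCombination_apply, Finsupp.linearCombination_apply, RingHom.id_apply,
          Finsupp.smul_sum]
        refine Finsupp.sum_congr fun a _ => ?_
        rw [map_smul, smul_comm] }
  have h2 : Finsupp.linearCombination ℤ (fun b : List β => inB α b d) = R := by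
    apply lin_ext
    intro b
    rw [Finsupp.linearCombination_single, one_smul]
    exact h1 b d
  exact LinearMap.congr_fun h2 c

theorem T_TBi_e1_inA (a : List α) (c : Ch β) :
    e1 (inA β a c) = Finsupp.linearCombination ℤ (fun b : List β => inB α b (bdL a)) c := by
  have : e1 ∘ₗ inA β a = Finsupp.linearCombination ℤ (fun b : List β => inB α b (bdL a)) := by
    apply lin_ext
    intro b
    rw [LinearMap.comp_apply, inA_single, e1_single, Finsupp.linearCombination_single, one_smul]
  exact LinearMap.congr_fun this c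

theorem T_TBi_e2_inB (b : List β) (d : Ch α) :
    e2 (inB α b d) = Finsupp.linearCombination ℤ (fun a : List α => inA β a (bdL b)) d := by
  have : e2 ∘ₗ inB α b = Finsupp.linearCombination ℤ (fun a : List α => inA β a (bdL b)) := by
    apply lin_ext
    intro a
    rw [LinearMap.comp_apply, inB_single, e2_single, Finsupp.linearCombination_single, one_smul]
  exact LinearMap.congr_fun this d

theorem e1_inB (b : List β) (c : Ch α) : e1 (inB α b c) = inB α b (bd c) := by
  have : e1 ∘ₗ inB α b = inB α b ∘ₗ bd := by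
    apply lin_ext
    intro a
    rw [LinearMap.comp_apply, LinearMap.comp_apply, inB_single, e1_single, bd_single, one_smul]
  exact LinearMap.congr_fun this c

theorem e2_inA (a : List α) (c : Ch β) : e2 (inA β a c) = inA β a (bd c) := by
  have : e2 ∘ₗ inA β a = inA β a ∘ₗ bd := by
    apply lin_ext
    intro b
    rw [LinearMap.comp_apply, LinearMap.comp_apply, inA_single, e2_single, bd_single, one_smul]
  exact LinearMap.congr_fun this c

theorem e1_e1 (c : C2 α β) : e1 (e1 c) = 0 := by
  have : e1 ∘ₗ e1 = (0 : C2 α β →ₗ[ℤ] C2 α β) := by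
    apply lin_ext
    rintro ⟨a, b⟩
    rw [LinearMap.comp_apply, e1_single, e1_inB, bd_bdL, map_zero, LinearMap.zero_apply]
  exact LinearMap.congr_fun this c

theorem e2_e2 (c : C2 α β) : e2 (e2 c) = 0 := by
  have : e2 ∘ₗ e2 = (0 : C2 α β →ₗ[ℤ] C2 α β) := by
    apply lin_ext
    rintro ⟨a, b⟩
    rw [LinearMap.comp_apply, e2_single, e2_inA, bd_bdL, map_zero, LinearMap.zero_apply]
  exact LinearMap.congr_fun this c

theorem e1_e2 (c : C2 α β) : e1 (e2 c) = e2 (e1 c) := by
  have : e1 ∘ₗ e2 = (e2 ∘ₗ e1 : C2 α β →ₗ[ℤ] C2 α β) := by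
    apply lin_ext
    rintro ⟨a, b⟩
    rw [LinearMap.comp_apply, LinearMap.comp_apply, e1_single, e2_single, T_TBi_e1_inA,
      T_TBi_e2_inB, T_TBi_bilin]
  exact LinearMap.congr_fun this c

/-- pairs of lists in `T` of lengths `p`, `q` -/
def Ln2 (T : List α → List β → Prop) (p q : ℕ) : Set (List α × List β) :=
  {x | T x.1 x.2 ∧ x.1.length = p ∧ x.2.length = q}

theorem e1_mem {T : List α → List β → Prop} (hT : ∀ a b a', T a b → a'.Sublist a → T a' b) {p q : ℕ}
    {c : C2 α β} (hc : c ∈ Finsupp.supported ℤ ℤ (Ln2 T (p + 1) q)) :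
    e1 c ∈ Finsupp.supported ℤ ℤ (Ln2 T p q) := by
  classical
  refine supp_map e1 _ ?_ hc
  rintro ⟨a, b⟩ ⟨h1, h2, h3⟩
  rw [e1_single, Finsupp.mem_supported]
  intro x hx
  have hx2 := Finsupp.mapDomain_support hx
  rw [Finset.mem_image] at hx2
  obtain ⟨a', ha', rfl⟩ := hx2
  obtain ⟨s1, s2⟩ := bdL_support a a' ha'
  refine ⟨hT _ _ _ h1 s1, ?_, h3⟩
  simp only at h2 ⊢
  omega

theorem e2_mem {T : List α → List β → Prop} (hT : ∀ a b b', T a b → b'.Sublist b → T a b') {p q : ℕ}
    {c : C2 α β} (hc : c ∈ Finsupp.supported ℤ ℤ (Ln2 T p (q + 1))) :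
    e2 c ∈ Finsupp.supported ℤ ℤ (Ln2 T p q) := by
  classical
  refine supp_map e2 _ ?_ hc
  rintro ⟨a, b⟩ ⟨h1, h2, h3⟩
  rw [e2_single, Finsupp.mem_supported]
  intro x hx
  have hx2 := Finsupp.mapDomain_support hx
  rw [Finset.mem_image] at hx2
  obtain ⟨b', hb', rfl⟩ := hx2
  obtain ⟨s1, s2⟩ := bdL_support b b' hb'
  refine ⟨hT _ _ _ h1 s1, h2, ?_⟩
  simp only at h3 ⊢
  omega

theorem e1_zero {T : List α → List β → Prop} {q : ℕ}
    {c : C2 α β} (hc : c ∈ Finsupp.supported ℤ ℤ (Ln2 T 0 q)) : e1 c = 0 := by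
  have h1 : e1 c ∈ (⊥ : Submodule ℤ (C2 α β)) := by
    refine supp_map e1 _ ?_ hc
    rintro ⟨a, b⟩ ⟨-, h2, -⟩
    simp only [List.length_eq_zero_iff] at h2
    subst h2
    rw [e1_single, bdL_nil, map_zero]
    exact Submodule.zero_mem _
  simpa using h1

theorem e2_zero {T : List α → List β → Prop} {p : ℕ}
    {c : C2 α β} (hc : c ∈ Finsupp.supported ℤ ℤ (Ln2 T p 0)) : e2 c = 0 := by
  have h1 : e2 c ∈ (⊥ : Submodule ℤ (C2 α β)) := by
    refine supp_map e2 _ ?_ hc
    rintro ⟨a, b⟩ ⟨-, -, h2⟩
    simp only [List.length_eq_zero_iff] at h2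
    subst h2
    rw [e2_single, bdL_nil, map_zero]
    exact Submodule.zero_mem _
  simpa using h1

end TorA
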