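import Pool.Agent.Lib.MP_05cdf2_gt.A.TDef

/-! MP_05cdf2_gt, stream A, toolkit, job TPC: truncated contractions.
`exists_pc`: if `Ac S n` (`S` closed under sublists) there is a linear map `s` with `bd (s l) + s (bd l) = l` and
`s l ∈ Sup (Ln S (length + 1))` for all `l ∈ S` of length `< n`. Proof by induction on `n`: given `s` for `n`, for
`l ∈ S` of length exactly `n` the chain `l - s (bd l)` is a cycle supported in `Ln S n`:
`bd (l - s (bd l)) = bd l - (bd l - s (bd (bd l))) = 0` (for `n > 0`, applying the identity of `s` to `bd l`, which is supported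
on lists of length `n - 1 < n`: use `supp_eq`; for `n = 0` trivial), so it is `bd w_l` with `w_l ∈ Sup (Ln S (n+1))`;
the new map is `linearCombination` of `l ↦ if l.length = n then w_l else s l` (classical choice of `w_l`, `0` if not in `S`). -/

set_option autoImplicit false

namespace TorA
open Finsupp Tor

variable {α β : Type}

/-- `s` is a truncated contraction of `S` up to length `n` -/
def IsPC (S : Set (List α)) (n : ℕ) (s : Ch α →ₗ[ℤ] Ch α) : Prop :=
  ∀ l ∈ S, l.length < n → s (single l 1) ∈ Sup (Ln S (l.length + 1)) ∧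
    bd (s (single l 1)) + s (bdL l) = single l 1

private theorem TPC_mem {S : Set (List α)} {n : ℕ} {s : Ch α →ₗ[ℤ] Ch α} (h : IsPC S n s) {m : ℕ}
    (hm : m < n) {z : Ch α} (hz : z ∈ Sup (Ln S m)) : s z ∈ Sup (Ln S (m + 1)) := by
  refine supp_map s _ ?_ hz
  rintro l ⟨hl, hlen⟩
  have h1 := (h l hl (by omega)).1
  rw [hlen] at h1
  exact h1

private theorem TPC_eq {S : Set (List α)} {n : ℕ} {s : Ch α →ₗ[ℤ] Ch α} (h : IsPC S n s) {m : ℕ}
    (hm : m < n) {z : Ch α} (hz : z ∈ Sup (Ln S m)) : bd (s z) + s (bd z) = z := by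
  have h1 := supp_eq ((bd ∘ₗ s) + (s ∘ₗ bd)) LinearMap.id (T := Ln S m) (c := z) (by
    rintro l ⟨hl, hlen⟩
    have h1 := (h l hl (by omega)).2
    simpa using h1) hz
  simpa using h1

private theorem TPC_bdL {S : Set (List α)} (hS : Closed S) {l : List α} (hl : l ∈ S) {k : ℕ}
    (hk : l.length = k + 1) : bdL l ∈ Sup (Ln S k) := by
  rw [Finsupp.mem_supported]
  intro l' hl'
  obtain ⟨h1, h2⟩ := bdL_support l l' hl'
  exact ⟨hS l hl l' h1, by omega⟩

theorem exists_pc {S : Set (List α)} (hS : Closed S) {n : ℕ} (h : Ac S n) :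
    ∃ s : Ch α →ₗ[ℤ] Ch α, IsPC S n s := by
  classical
  induction n with
  | zero => exact ⟨0, fun l _ hl => absurd hl (Nat.not_lt_zero _)⟩
  | succ n ih =>
    obtain ⟨s, hs⟩ := ih (h.mono (Nat.le_succ n))
    have key : ∀ l : List α, l ∈ S ∧ l.length = n →
        ∃ w : Ch α, w ∈ Sup (Ln S (n + 1)) ∧ bd w = single l 1 - s (bdL l) := by
      rintro l ⟨hl, hln⟩
      have h1 : single l 1 - s (bdL l) ∈ Sup (Ln S n) ∧ bd (single l 1 - s (bdL l)) = 0 := by
        cases n with
        | zero =>
          rw [List.length_eq_zero_iff] at hln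
          subst hln
          rw [bdL_nil, map_zero, sub_zero]
          have hm : ([] : List α) ∈ Ln S 0 := ⟨hl, rfl⟩
          refine ⟨single_mem_Sup hm 1, ?_⟩
          rw [bd_single, bdL_nil, smul_zero]
        | succ k =>
          have hb := TPC_bdL hS hl hln
          have hm : l ∈ Ln S (k + 1) := ⟨hl, hln⟩
          refine ⟨Submodule.sub_mem _ (single_mem_Sup hm 1) (TPC_mem hs (Nat.lt_succ_self k) hb), ?_⟩
          have h2 := TPC_eq hs (Nat.lt_succ_self k) hb
          rw [bd_bdL, map_zero, add_zero] at h2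
          rw [map_sub, bd_single, one_smul, h2, sub_self]
      obtain ⟨w, hw, hw'⟩ := h n (Nat.lt_succ_self n) _ h1.1 h1.2
      exact ⟨w, hw, hw'⟩
    choose! w hw hw' using key
    let f : List α → Ch α := fun l => if l ∈ S ∧ l.length = n then w l else s (single l 1)
    refine ⟨Finsupp.linearCombination ℤ f, ?_⟩
    have hf : ∀ l : List α, Finsupp.linearCombination ℤ f (single l 1) = f l := by
      intro l
      rw [Finsupp.linearCombination_single, one_smul]
    have hlow : ∀ l : List α, l.length < n → f l = s (single l 1) := by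
      intro l hl
      simp only [f]
      rw [if_neg]
      rintro ⟨-, h2⟩
      omega
    have hbd : ∀ l : List α, l.length ≤ n → Finsupp.linearCombination ℤ f (bdL l) = s (bdL l) := by
      intro l hl
      refine supp_eq (Finsupp.linearCombination ℤ f) s (T := {l' : List α | l'.length < n}) ?_ ?_
      · intro x hx
        rw [hf, hlow x hx]
      · rw [Finsupp.mem_supported]
        intro l' hl'
        obtain ⟨-, h2⟩ := bdL_support l l' hl'
        show l'.length < n
        omega
    intro l hl hlen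
    rw [hf, hbd l (by omega)]
    rcases Nat.lt_or_ge l.length n with h1 | h1
    · rw [hlow l h1]
      exact hs l hl h1
    · have h2 : l.length = n := by omega
      have h3 : f l = w l := by
        simp only [f]
        rw [if_pos ⟨hl, h2⟩]
      rw [h3]
      refine ⟨?_, ?_⟩
      · rw [h2]; exact hw l ⟨hl, h2⟩
      · rw [hw' l ⟨hl, h2⟩, sub_add_cancel]

theorem IsPC.mem {S : Set (List α)} {n : ℕ} {s : Ch α →ₗ[ℤ] Ch α} (h : IsPC S n s) {m : ℕ}
    (hm : m < n) {z : Ch α} (hz : z ∈ Sup (Ln S m)) : s z ∈ Sup (Ln S (m + 1)) := by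
  exact TPC_mem h hm hz

theorem IsPC.eq {S : Set (List α)} {n : ℕ} {s : Ch α →ₗ[ℤ] Ch α} (h : IsPC S n s) {m : ℕ}
    (hm : m < n) {z : Ch α} (hz : z ∈ Sup (Ln S m)) : bd (s z) + s (bd z) = z := by
  exact TPC_eq h hm hz

end TorA
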