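import Pool.Agent.Lib.MP_05cdf2_gt.A.TDef

/-! MP_05cdf2_gt, stream A, toolkit, job TPrism: the prism operator.
`H (x :: l) = (f x :: g x :: g l) - f x :: H l`, `H [] = 0`. Then `bd (H l) + H (bd l) = g l - f l` (induction on `l`;
compare `Cols_pr`, `Cols_prism` in the file D/Cols.lean, which is the case `f = g •`, `g = id`: same proof).
`H (x :: l)` is a combination of the lists `l₁.map f ++ f y :: g y :: l₂.map g` with `x :: l = l₁ ++ y :: l₂`.
Chains with `bd z = 0`: `bd (H z) = g z - f z`. -/

set_option autoImplicit false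

namespace TorA
open Finsupp Tor

variable {α β : Type}

/-- the prism operator on lists -/
noncomputable def prL (f g : α → β) : List α → Ch β
  | [] => 0
  | x :: l => single (f x :: g x :: l.map g) 1 - cone (f x) (prL f g l)

/-- the prism operator on chains -/
noncomputable def prC (f g : α → β) : Ch α →ₗ[ℤ] Ch β := Finsupp.linearCombination ℤ (prL f g)

@[simp] theorem TPrism_prC_single (f g : α → β) (l : List α) (n : ℤ) :
    prC f g (single l n) = n • prL f g l := by
  simp [prC]

theorem TPrism_prC_cone (f g : α → β) (x : α) (c : Ch α) :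
    prC f g (cone x c)
      = cone (f x) (cone (g x) (mapDomain (List.map g) c)) - cone (f x) (prC f g c) := by
  have h : prC f g ∘ₗ cone x
      = cone (f x) ∘ₗ cone (g x) ∘ₗ (Finsupp.lmapDomain ℤ ℤ (List.map g)) - cone (f x) ∘ₗ prC f g := by
    apply Ch.ext_lin
    intro l
    simp [prL]
  exact LinearMap.congr_fun h c

theorem TPrism_bdL_map (g : α → β) (l : List α) : bdL (l.map g) = mapDomain (List.map g) (bdL l) := by
  have h := bd_map g (single l 1)
  rw [mapDomain_single, bd_single, bd_single, one_smul, one_smul] at h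
  exact h

theorem TPrism_list (f g : α → β) (l : List α) :
    bd (prL f g l) + prC f g (bdL l) = single (l.map g) 1 - single (l.map f) 1 := by
  induction l with
  | nil => simp [prL, bdL_nil]
  | cons x l ih =>
    have e1 : bd (prL f g (x :: l)) = single (g x :: l.map g) 1 - (single (f x :: l.map g) 1
        - cone (f x) (cone (g x) (bdL (l.map g)))) - (prL f g l - cone (f x) (bd (prL f g l))) := by
      rw [prL, map_sub, bd_cone, bd_single, one_smul, bdL_cons, bdL_cons, map_sub, cone_single]
    have e2 : prC f g (bdL (x :: l)) = prL f g l - (cone (f x) (cone (g x) (bdL (l.map g)))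
        - cone (f x) (prC f g (bdL l))) := by
      rw [bdL_cons, map_sub, TPrism_prC_single, one_smul, TPrism_prC_cone, TPrism_bdL_map]
    have e3 : cone (f x) (bd (prL f g l)) + cone (f x) (prC f g (bdL l))
        = single (f x :: l.map g) 1 - single (f x :: l.map f) 1 := by
      rw [← map_add, ih, map_sub, cone_single, cone_single]
    rw [e1, e2, List.map_cons, List.map_cons, sub_eq_iff_eq_add.mp e3.symm]
    abel

theorem prC_homotopy (f g : α → β) (c : Ch α) :
    bd (prC f g c) + prC f g (bd c) = mapDomain (List.map g) c - mapDomain (List.map f) c := by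
  have h : bd ∘ₗ prC f g + prC f g ∘ₗ bd
      = (Finsupp.lmapDomain ℤ ℤ (List.map g)) - (Finsupp.lmapDomain ℤ ℤ (List.map f)) := by
    apply Ch.ext_lin
    intro l
    have h1 := TPrism_list f g l
    simpa using h1
  exact LinearMap.congr_fun h c

theorem prL_mem (f g : α → β) {S' : Set (List β)} (l : List α)
    (h : ∀ l₁ x l₂, l₁ ++ x :: l₂ = l → l₁.map f ++ f x :: g x :: l₂.map g ∈ S') :
    prL f g l ∈ Sup (Ln S' (l.length + 1)) := by
  induction l generalizing S' with
  | nil => exact Submodule.zero_mem _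
  | cons x l ih =>
    rw [prL]
    refine Submodule.sub_mem _ ?_ ?_
    · have hm : (f x :: g x :: l.map g) ∈ Ln S' ((x :: l).length + 1) :=
        ⟨h [] x l rfl, by simp⟩
      exact single_mem_Sup hm 1
    · have h1 : prL f g l ∈ Sup (Ln {l' | f x :: l' ∈ S'} (l.length + 1)) := by
        refine ih ?_
        intro l₁ y l₂ he
        exact h (x :: l₁) y l₂ (by rw [List.cons_append, he])
      refine cone_mem_Sup (f x) ?_ h1
      rintro l' ⟨h2, h3⟩
      refine ⟨h2, ?_⟩
      rw [List.length_cons, List.length_cons, h3]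

/-- two maps such that all mixed lists belong to `S'` are homologous on cycles -/
theorem prism (f g : α → β) {S : Set (List α)} {S' : Set (List β)}
    (hS : ∀ l₁ x l₂, l₁ ++ x :: l₂ ∈ S → l₁.map f ++ f x :: g x :: l₂.map g ∈ S')
    {m : ℕ} {z : Ch α} (hz : z ∈ Sup (Ln S m)) (hb : bd z = 0) :
    ∃ w ∈ Sup (Ln S' (m + 1)), bd w = mapDomain (List.map g) z - mapDomain (List.map f) z := by
  refine ⟨prC f g z, ?_, ?_⟩
  · refine map_Sup (prC f g) _ ?_ hz
    rintro l ⟨hl, hlen⟩
    rw [TPrism_prC_single, one_smul, ← hlen]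
    refine prL_mem f g l ?_
    intro l₁ x l₂ he
    exact hS l₁ x l₂ (he ▸ hl)
  · have h := prC_homotopy f g z
    rw [hb, map_zero, add_zero] at h
    exact h

/-- a cycle mapped by a constant map bounds -/
theorem const_bound (c : β) {S : Set (List α)} {m : ℕ} {z : Ch α} (hz : z ∈ Sup (Ln S m))
    (hb : bd z = 0) :
    ∃ w ∈ Sup (Ln {l : List β | ∀ x ∈ l, x = c} (m + 1)),
      bd w = mapDomain (List.map (fun _ => c)) z := by
  refine ⟨cone c (mapDomain (List.map (fun _ => c)) z), ?_, ?_⟩
  · have h1 : (cone c ∘ₗ (Finsupp.lmapDomain ℤ ℤ (List.map (fun _ : α => c)))) z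
        ∈ Sup (Ln {l : List β | ∀ x ∈ l, x = c} (m + 1)) := by
      refine map_Sup _ _ ?_ hz
      rintro l ⟨-, hlen⟩
      rw [LinearMap.comp_apply, Finsupp.lmapDomain_apply, mapDomain_single, cone_single]
      have hm : (c :: l.map (fun _ => c)) ∈ Ln {l : List β | ∀ x ∈ l, x = c} (m + 1) := by
        refine ⟨?_, ?_⟩
        · intro x hx
          rw [List.mem_cons, List.mem_map] at hx
          rcases hx with hx | ⟨_, _, hx⟩
          · exact hx
          · exact hx.symm
        · rw [List.length_cons, List.length_map, hlen]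
      exact single_mem_Sup hm 1
    exact h1
  · rw [bd_cone, bd_map, hb, mapDomain_zero, map_zero, sub_zero]

/-- functions which agree on the entries of the lists of `S` -/
theorem map_congr {f g : α → β} {S : Set (List α)} (h : ∀ l ∈ S, ∀ x ∈ l, f x = g x) {z : Ch α}
    (hz : z ∈ Sup S) : mapDomain (List.map f) z = mapDomain (List.map g) z := by
  have h1 := supp_eq (Finsupp.lmapDomain ℤ ℤ (List.map f)) (Finsupp.lmapDomain ℤ ℤ (List.map g))
    (T := S) (fun l hl => by
      rw [Finsupp.lmapDomain_apply, Finsupp.lmapDomain_apply, mapDomain_single, mapDomain_single,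
        List.map_congr_left (h l hl)]) hz
  exact h1

/-- images of chains -/
theorem map_mem_Ln {f : α → β} {S : Set (List α)} {S' : Set (List β)}
    (h : ∀ l ∈ S, l.map f ∈ S') {m : ℕ} {z : Ch α} (hz : z ∈ Sup (Ln S m)) :
    mapDomain (List.map f) z ∈ Sup (Ln S' m) := by
  have h1 : (Finsupp.lmapDomain ℤ ℤ (List.map f)) z ∈ Sup (Ln S' m) := by
    refine map_Sup _ _ ?_ hz
    rintro l ⟨hl, hlen⟩
    rw [Finsupp.lmapDomain_apply, mapDomain_single]
    have hm : l.map f ∈ Ln S' m := ⟨h l hl, by rw [List.length_map, hlen]⟩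
    exact single_mem_Sup hm 1
  exact h1

/-- homotopy for lists pairwise related by `R` resp. `R'` -/
theorem Fl_homotopy {R : α → α → Prop} {R' : β → β → Prop} {P : Set α} {Q : Set β} (f g : α → β)
    (hf : ∀ x ∈ P, f x ∈ Q) (hg : ∀ x ∈ P, g x ∈ Q)
    (hff : ∀ x ∈ P, ∀ y ∈ P, R x y → R' (f x) (f y))
    (hfg : ∀ x ∈ P, ∀ y ∈ P, R x y → R' (f x) (g y))
    (hgg : ∀ x ∈ P, ∀ y ∈ P, R x y → R' (g x) (g y))
    (h : ∀ x ∈ P, R' (f x) (g x))
    {m : ℕ} {z : Ch α} (hz : z ∈ Sup (Ln (Fl R P) m)) (hb : bd z = 0) :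
    ∃ w ∈ Sup (Ln (Fl R' Q) (m + 1)), bd w = mapDomain (List.map g) z - mapDomain (List.map f) z := by
  refine prism f g (S := Fl R P) (S' := Fl R' Q) ?_ hz hb
  rintro l₁ x l₂ ⟨h1, h2⟩
  rw [List.pairwise_append, List.pairwise_cons] at h1
  obtain ⟨a1, ⟨a2, a3⟩, a4⟩ := h1
  have m1 : ∀ y ∈ l₁, y ∈ P := fun y hy => h2 y (List.mem_append_left _ hy)
  have mx : x ∈ P := h2 x (by simp)
  have m2 : ∀ y ∈ l₂, y ∈ P := fun y hy => h2 y (List.mem_append_right _ (List.mem_cons_of_mem _ hy))
  refine ⟨?_, ?_⟩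
  · rw [List.pairwise_append, List.pairwise_cons, List.pairwise_cons, List.pairwise_map,
      List.pairwise_map]
    refine ⟨a1.imp_of_mem fun ha hb hab => hff _ (m1 _ ha) _ (m1 _ hb) hab, ⟨?_, ?_, ?_⟩, ?_⟩
    · intro y hy
      rw [List.mem_cons, List.mem_map] at hy
      rcases hy with hy | ⟨u, hu, hy⟩
      · rw [hy]
        exact h x mx
      · rw [← hy]
        exact hfg x mx u (m2 u hu) (a2 u hu)
    · intro y hy
      rw [List.mem_map] at hy
      obtain ⟨u, hu, hy⟩ := hy
      rw [← hy]
      exact hgg x mx u (m2 u hu) (a2 u hu)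
    · exact a3.imp_of_mem fun ha hb hab => hgg _ (m2 _ ha) _ (m2 _ hb) hab
    · intro y hy v hv
      rw [List.mem_map] at hy
      obtain ⟨u, hu, hy⟩ := hy
      rw [← hy]
      rw [List.mem_cons, List.mem_cons, List.mem_map] at hv
      rcases hv with hv | hv | ⟨t, ht, hv⟩
      · rw [hv]
        exact hff u (m1 u hu) x mx (a4 u hu x List.mem_cons_self)
      · rw [hv]
        exact hfg u (m1 u hu) x mx (a4 u hu x List.mem_cons_self)
      · rw [← hv]
        exact hfg u (m1 u hu) t (m2 t ht) (a4 u hu t (List.mem_cons_of_mem _ ht))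
  · intro y hy
    rw [List.mem_append, List.mem_map, List.mem_cons, List.mem_cons, List.mem_map] at hy
    rcases hy with ⟨u, hu, hy⟩ | hy | hy | ⟨u, hu, hy⟩
    · rw [← hy]
      exact hf u (m1 u hu)
    · rw [hy]
      exact hf x mx
    · rw [hy]
      exact hg x mx
    · rw [← hy]
      exact hg u (m2 u hu)

end TorA
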